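import Pool.Agent.RO5.Branch

/-!
RO5-BranchO. `q = φ'` satisfies `3 q'² = -a q^6 + (d - 4c) q`.

Plan. `branch` gives `φ`; `f 0 0 = 0` by `odd`. With `v = (q, 1)`, `q = φ'`, at the point `(φ s, s)`:
`f = 0`, `f_v = q D10 + D01 = 0`, so
`12 Σ_{i+j=4} h_ij q^i = f f_vvvv - 4 f_v f_vvv + 3 f_vv² = 3 f_vv² = 3 (D10 q')²` (a polynomial identity in
the `D i j f`, from `hir40 .. hir04`; `linear_combination`), and by `Eqs` and `hir00, hir20, hir11, hir02`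
with `f = 0`, `D01 = -q D10`: `12 Σ h_ij q^i = D10² (-a q^6 - 4 c q + d q)`. Divide by `D10² ≠ 0`.
-/

set_option autoImplicit false

namespace Pool.Agent.RO5

open Complex ComplexConjugate Finset Pool.Agent.ROH

theorem branch_ode {f : ℂ → ℂ → ℂ} {a b c d : ℂ} (H : Eqs f a b c d) (hA : D 1 0 f 0 0 ≠ 0)
    (h01 : D 0 1 f 0 0 = 0) : ∃ φ : ℂ → ℂ, AnalyticAt ℂ φ 0 ∧ φ 0 = 0 ∧ deriv φ 0 = 0 ∧
      (∀ᶠ s in nhds (0 : ℂ), f (φ s) s = 0) ∧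
      (∀ᶠ p in nhds ((0, 0) : ℂ × ℂ), f p.1 p.2 = 0 → p.1 = φ p.2) ∧
      ∀ᶠ s in nhds (0 : ℂ), 3 * deriv (deriv φ) s ^ 2 =
        -a * deriv φ s ^ 6 + (d - 4 * c) * deriv φ s := by
  have h0 : f 0 0 = 0 := by
    have h := H.odd 0 0
    rw [neg_zero] at h
    have h2 : (2 : ℂ) * f 0 0 = 0 := by linear_combination h
    exact (mul_eq_zero.1 h2).resolve_left two_ne_zero
  obtain ⟨φ, h1, h2, h3, h4, h5, h6⟩ := branch H.ent h0 hA h01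
  refine ⟨φ, h1, h2, h3, h4, h5, ?_⟩
  filter_upwards [h4, h6] with s hs hm
  obtain ⟨hA', hq, hqq⟩ := hm
  have hB : D 0 1 f (φ s) s = -(D 1 0 f (φ s) s * deriv φ s) := by linear_combination hq
  have hz : D 0 2 f (φ s) s = -(D 2 0 f (φ s) s * deriv φ s ^ 2 +
      2 * (D 1 1 f (φ s) s * deriv φ s) + D 1 0 f (φ s) s * deriv (deriv φ) s) := by
    linear_combination hqq
  have E1 := H.e40 (φ s) s
  have E2 := H.e31 (φ s) s
  have E3 := H.e22 (φ s) s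
  have E4 := H.e13 (φ s) s
  have E5 := H.e04 (φ s) s
  rw [hir40 H.ent, hir02 H.ent, hs, hB, hz] at E1
  rw [hir31 H.ent, hir00 H.ent, hs, hB] at E2
  rw [hir22 H.ent, hs, hB, hz] at E3
  rw [hir13 H.ent, hir20 H.ent, hs, hB, hz] at E4
  rw [hir04 H.ent, hir11 H.ent, hs, hB, hz] at E5
  have key : D 1 0 f (φ s) s ^ 2 * (3 * deriv (deriv φ) s ^ 2) =
      D 1 0 f (φ s) s ^ 2 * (-a * deriv φ s ^ 6 + (d - 4 * c) * deriv φ s) := by
    linear_combination 12 * (deriv φ s ^ 4 * E1 + deriv φ s ^ 3 * E2 + deriv φ s ^ 2 * E3 +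
      deriv φ s * E4 + E5)
  exact mul_left_cancel₀ (pow_ne_zero 2 hA') key

end Pool.Agent.RO5
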