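import Pool.Agent.RO5.Ent

/-!
RO5-HirF. The Hirota derivatives as polynomials in the partial derivatives.

Plan. `hir g i j u1 u2 = J (fun p1 p2 => g (u1+p1) (u2+p2) * g (u1-p1) (u2-p2)) i j`; use `J_eq`,
`D_mul` with the two factors `g (p1 + u1) (p2 + u2)` (`D_shift`, `add_comm`) and
`g (-1 * p1 + u1) (-1 * p2 + u2)` (`D_shift`, `D_scale` with `a = b = -1`), and
`choose a * a! (i-a)! = i!`. The special cases: `simp [Finset.sum_range_succ, Nat.factorial]` + `ring`.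
-/

set_option autoImplicit false

namespace Pool.Agent.RO5

open Complex ComplexConjugate Finset Pool.Agent.ROH

private theorem hf_ent {g : ℂ → ℂ → ℂ} (hg : Ent2 g) (a b u1 u2 : ℂ) :
    Ent2 (fun x y => g (a * x + u1) (b * y + u2)) := by
  have h : Differentiable ℂ (fun z : ℂ × ℂ => ((a * z.1 + u1, b * z.2 + u2) : ℂ × ℂ)) := by
    fun_prop
  exact Differentiable.comp (g := fun z : ℂ × ℂ => g z.1 z.2) hg h

private theorem hf_D {g : ℂ → ℂ → ℂ} (hg : Ent2 g) (i j : ℕ) (s u1 u2 : ℂ) :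
    D i j (fun x y => g (s * x + u1) (s * y + u2)) 0 0 = s ^ i * s ^ j * D i j g u1 u2 := by
  have h1 : Ent2 (fun x y => g (x + u1) (y + u2)) := by
    have h := hf_ent hg 1 1 u1 u2
    simpa only [one_mul] using h
  have h2 := D_scale h1 s s i j 0 0
  rw [D_shift g u1 u2 i j (s * 0) (s * 0), mul_zero, zero_add, zero_add] at h2
  exact h2

private theorem hf_choose {i a : ℕ} (h : a ∈ range (i + 1)) :
    (i.choose a : ℂ) = (i.factorial : ℂ) / ((a.factorial : ℂ) * ((i - a).factorial : ℂ)) := by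
  rw [mem_range] at h
  exact Nat.cast_choose ℂ (by omega)

theorem hir_sum {g : ℂ → ℂ → ℂ} (hg : Ent2 g) (i j : ℕ) (u1 u2 : ℂ) :
    hir g i j u1 u2 = ∑ a ∈ range (i + 1), ∑ b ∈ range (j + 1),
      (-1 : ℂ) ^ ((i - a) + (j - b)) * (D a b g u1 u2 * D (i - a) (j - b) g u1 u2) /
        ((a.factorial : ℂ) * (b.factorial : ℂ) * ((i - a).factorial : ℂ) * ((j - b).factorial : ℂ)) := by
  have h1 : (fun p1 p2 => g (u1 + p1) (u2 + p2) * g (u1 - p1) (u2 - p2)) =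
      fun p1 p2 => (fun x y => g (1 * x + u1) (1 * y + u2)) p1 p2 *
        (fun x y => g (-1 * x + u1) (-1 * y + u2)) p1 p2 := by
    funext p1 p2
    have e1 : u1 + p1 = 1 * p1 + u1 := by ring
    have e2 : u2 + p2 = 1 * p2 + u2 := by ring
    have e3 : u1 - p1 = -1 * p1 + u1 := by ring
    have e4 : u2 - p2 = -1 * p2 + u2 := by ring
    rw [e1, e2, e3, e4]
  unfold hir
  rw [h1, J_eq, D_mul (hf_ent hg 1 1 u1 u2) (hf_ent hg (-1) (-1) u1 u2), Finset.sum_div]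
  refine Finset.sum_congr rfl fun a ha => ?_
  rw [Finset.sum_div]
  refine Finset.sum_congr rfl fun b hb => ?_
  rw [hf_D hg, hf_D hg, hf_choose ha, hf_choose hb, one_pow, one_pow, one_mul, one_mul, pow_add]
  have f1 : (i.factorial : ℂ) ≠ 0 := Nat.cast_ne_zero.2 (Nat.factorial_ne_zero _)
  have f2 : (j.factorial : ℂ) ≠ 0 := Nat.cast_ne_zero.2 (Nat.factorial_ne_zero _)
  have f3 : (a.factorial : ℂ) ≠ 0 := Nat.cast_ne_zero.2 (Nat.factorial_ne_zero _)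
  have f4 : (b.factorial : ℂ) ≠ 0 := Nat.cast_ne_zero.2 (Nat.factorial_ne_zero _)
  have f5 : ((i - a).factorial : ℂ) ≠ 0 := Nat.cast_ne_zero.2 (Nat.factorial_ne_zero _)
  have f6 : ((j - b).factorial : ℂ) ≠ 0 := Nat.cast_ne_zero.2 (Nat.factorial_ne_zero _)
  field_simp

theorem ent_hir {g : ℂ → ℂ → ℂ} (hg : Ent2 g) (i j : ℕ) : Ent2 (hir g i j) := by
  have h : hir g i j = fun u1 u2 => ∑ a ∈ range (i + 1), ∑ b ∈ range (j + 1),
      (-1 : ℂ) ^ ((i - a) + (j - b)) * (D a b g u1 u2 * D (i - a) (j - b) g u1 u2) /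
        ((a.factorial : ℂ) * (b.factorial : ℂ) * ((i - a).factorial : ℂ) *
          ((j - b).factorial : ℂ)) := by
    funext u1 u2
    exact hir_sum hg i j u1 u2
  rw [h]
  unfold Ent2
  refine Differentiable.fun_sum fun a _ => Differentiable.fun_sum fun b _ => ?_
  have h1 : Differentiable ℂ (fun z : ℂ × ℂ => D a b g z.1 z.2) := ent_D hg a b
  have h2 : Differentiable ℂ (fun z : ℂ × ℂ => D (i - a) (j - b) g z.1 z.2) :=
    ent_D hg (i - a) (j - b)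
  simp only [div_eq_mul_inv]
  exact ((h1.fun_mul h2).const_mul _).mul_const _

theorem hir00 {g : ℂ → ℂ → ℂ} (hg : Ent2 g) (u1 u2 : ℂ) : hir g 0 0 u1 u2 = g u1 u2 ^ 2 := by
  rw [hir_sum hg]
  simp [Nat.factorial, D_zero]
  ring

theorem hir20 {g : ℂ → ℂ → ℂ} (hg : Ent2 g) (u1 u2 : ℂ) : hir g 2 0 u1 u2 =
    g u1 u2 * D 2 0 g u1 u2 - D 1 0 g u1 u2 ^ 2 := by
  rw [hir_sum hg]
  simp [Finset.sum_range_succ, Nat.factorial, D_zero]
  ring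

theorem hir11 {g : ℂ → ℂ → ℂ} (hg : Ent2 g) (u1 u2 : ℂ) : hir g 1 1 u1 u2 =
    2 * (g u1 u2 * D 1 1 g u1 u2 - D 1 0 g u1 u2 * D 0 1 g u1 u2) := by
  rw [hir_sum hg]
  simp [Finset.sum_range_succ, Nat.factorial, D_zero]
  ring

theorem hir02 {g : ℂ → ℂ → ℂ} (hg : Ent2 g) (u1 u2 : ℂ) : hir g 0 2 u1 u2 =
    g u1 u2 * D 0 2 g u1 u2 - D 0 1 g u1 u2 ^ 2 := by
  rw [hir_sum hg]
  simp [Finset.sum_range_succ, Nat.factorial, D_zero]
  ring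

theorem hir40 {g : ℂ → ℂ → ℂ} (hg : Ent2 g) (u1 u2 : ℂ) : hir g 4 0 u1 u2 =
    (g u1 u2 * D 4 0 g u1 u2 - 4 * (D 1 0 g u1 u2 * D 3 0 g u1 u2) + 3 * D 2 0 g u1 u2 ^ 2) / 12 := by
  rw [hir_sum hg]
  simp [Finset.sum_range_succ, Nat.factorial, D_zero]
  ring

theorem hir31 {g : ℂ → ℂ → ℂ} (hg : Ent2 g) (u1 u2 : ℂ) : hir g 3 1 u1 u2 =
    (g u1 u2 * D 3 1 g u1 u2 - 3 * (D 1 0 g u1 u2 * D 2 1 g u1 u2) -
      D 0 1 g u1 u2 * D 3 0 g u1 u2 + 3 * (D 2 0 g u1 u2 * D 1 1 g u1 u2)) / 3 := by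
  rw [hir_sum hg]
  simp [Finset.sum_range_succ, Nat.factorial, D_zero]
  ring

theorem hir22 {g : ℂ → ℂ → ℂ} (hg : Ent2 g) (u1 u2 : ℂ) : hir g 2 2 u1 u2 =
    (g u1 u2 * D 2 2 g u1 u2 - 2 * (D 1 0 g u1 u2 * D 1 2 g u1 u2) -
      2 * (D 0 1 g u1 u2 * D 2 1 g u1 u2) + 2 * D 1 1 g u1 u2 ^ 2 +
      D 2 0 g u1 u2 * D 0 2 g u1 u2) / 2 := by
  rw [hir_sum hg]
  simp [Finset.sum_range_succ, Nat.factorial, D_zero]
  ring

theorem hir13 {g : ℂ → ℂ → ℂ} (hg : Ent2 g) (u1 u2 : ℂ) : hir g 1 3 u1 u2 =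
    (g u1 u2 * D 1 3 g u1 u2 - 3 * (D 0 1 g u1 u2 * D 1 2 g u1 u2) -
      D 1 0 g u1 u2 * D 0 3 g u1 u2 + 3 * (D 0 2 g u1 u2 * D 1 1 g u1 u2)) / 3 := by
  rw [hir_sum hg]
  simp [Finset.sum_range_succ, Nat.factorial, D_zero]
  ring

theorem hir04 {g : ℂ → ℂ → ℂ} (hg : Ent2 g) (u1 u2 : ℂ) : hir g 0 4 u1 u2 =
    (g u1 u2 * D 0 4 g u1 u2 - 4 * (D 0 1 g u1 u2 * D 0 3 g u1 u2) + 3 * D 0 2 g u1 u2 ^ 2) / 12 := by
  rw [hir_sum hg]
  simp [Finset.sum_range_succ, Nat.factorial, D_zero]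
  ring

end Pool.Agent.RO5
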