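import Pool.Agent.RO5.Defs2

/-!
RO5-Num. Numerical facts about `ε`, `ζ`, `k_j`, `c_j`, the trace form, the action of `ζ` on
`o + o ζ` and the invariance of the semicharacter.
-/

set_option autoImplicit false

namespace Pool.Agent.RO5

open Complex ComplexConjugate Finset Pool.Agent.ROH

theorem eps_sq : eps ^ 2 = eps + 1 := by
  unfold eps
  have h : Real.sqrt 5 ^ 2 = 5 := Real.sq_sqrt (by norm_num)
  linear_combination (1 / 4) * h

theorem epc_sq : epc ^ 2 = epc + 1 := by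
  unfold epc
  have h : Real.sqrt 5 ^ 2 = 5 := Real.sq_sqrt (by norm_num)
  linear_combination (1 / 4) * h

theorem eps_mul : eps * epc = -1 := by
  unfold eps epc
  have h : Real.sqrt 5 ^ 2 = 5 := Real.sq_sqrt (by norm_num)
  linear_combination (-1 / 4) * h

theorem eps_add : eps + epc = 1 := by
  unfold eps epc
  ring

private lemma s5_gt : 2 < Real.sqrt 5 := by
  rw [Real.lt_sqrt (by norm_num)]
  norm_num

private lemma s5_lt : Real.sqrt 5 < 3 := by
  rw [Real.sqrt_lt' (by norm_num)]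
  norm_num

theorem eps_gt : 1 < eps := by
  unfold eps
  have := s5_gt
  linarith

theorem epc_neg : epc < 0 := by
  unfold epc
  have := s5_gt
  linarith

theorem epc_gt : -1 < epc := by
  unfold epc
  have := s5_lt
  linarith

theorem sqrt5 : Real.sqrt 5 = 2 * eps - 1 := by
  unfold eps
  ring

private lemma z1_exp : z1 = cexp (((2 * Real.pi / 5 : ℝ) : ℂ) * I) := by
  unfold z1
  congr 1
  push_cast
  ring

private lemma z1_re : z1.re = (eps - 1) / 2 := by
  rw [z1_exp, Complex.exp_ofReal_mul_I_re]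
  have h : (2 * Real.pi / 5 : ℝ) = 2 * (Real.pi / 5) := by ring
  rw [h, Real.cos_two_mul, Real.cos_pi_div_five]
  unfold eps
  have h5 : Real.sqrt 5 ^ 2 = 5 := Real.sq_sqrt (by norm_num)
  linear_combination (1 / 8) * h5

private lemma z1_re_pos : 0 < z1.re := by
  rw [z1_re]
  have := eps_gt
  linarith

theorem z1_pow : z1 ^ 5 = 1 := by
  unfold z1
  rw [← Complex.exp_nat_mul]
  have h : ((5 : ℕ) : ℂ) * (2 * Real.pi * I / 5) = 2 * Real.pi * I := by
    push_cast
    ring
  rw [h, Complex.exp_two_pi_mul_I]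

theorem z1_prim : IsPrimitiveRoot z1 5 := by
  have h := Complex.isPrimitiveRoot_exp 5 (by norm_num)
  unfold z1
  have e : ((5 : ℕ) : ℂ) = 5 := by norm_num
  rw [e] at h
  exact h

theorem z1_ne : z1 ≠ 0 := by
  unfold z1
  exact Complex.exp_ne_zero _

theorem z2_ne : z2 ≠ 0 := by
  unfold z2
  exact pow_ne_zero 2 z1_ne

theorem norm_z1 : ‖z1‖ = 1 := by
  rw [z1_exp]
  exact Complex.norm_exp_ofReal_mul_I _

theorem norm_z2 : ‖z2‖ = 1 := by
  unfold z2
  rw [norm_pow, norm_z1, one_pow]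

private lemma z1_mul_conj : z1 * conj z1 = 1 := by
  rw [Complex.mul_conj, Complex.normSq_eq_norm_sq, norm_z1]
  norm_num

private lemma z2_mul_conj : z2 * conj z2 = 1 := by
  rw [Complex.mul_conj, Complex.normSq_eq_norm_sq, norm_z2]
  norm_num

private lemma eps_sqC : (eps : ℂ) ^ 2 = eps + 1 := by
  have h := eps_sq
  exact_mod_cast congrArg (fun t : ℝ => (t : ℂ)) h

private lemma eps_addC : (eps : ℂ) + epc = 1 := by
  have h := eps_add
  exact_mod_cast congrArg (fun t : ℝ => (t : ℂ)) h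

private lemma epc_sqC : (epc : ℂ) ^ 2 = epc + 1 := by
  have h := epc_sq
  exact_mod_cast congrArg (fun t : ℝ => (t : ℂ)) h

theorem z1_conj : z1 + conj z1 = eps - 1 := by
  rw [Complex.add_conj, z1_re]
  push_cast
  ring

theorem z2_conj : z2 + conj z2 = epc - 1 := by
  have h1 := z1_conj
  have h2 := z1_mul_conj
  have h3 := eps_sqC
  have h4 := eps_addC
  unfold z2
  rw [map_pow]
  linear_combination (z1 + conj z1 + (eps - 1)) * h1 - 2 * h2 + h3 - h4

theorem z1_sq : z1 ^ 2 = (eps - 1) * z1 - 1 := by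
  have h1 := z1_conj
  have h2 := z1_mul_conj
  linear_combination z1 * h1 - h2

theorem z2_sq : z2 ^ 2 = (epc - 1) * z2 - 1 := by
  have h1 := z2_conj
  have h2 := z2_mul_conj
  linear_combination z2 * h1 - h2

theorem z1_im : 0 < z1.im := by
  rw [z1_exp, Complex.exp_ofReal_mul_I_im]
  have h := Real.pi_pos
  exact Real.sin_pos_of_pos_of_lt_pi (by positivity) (by linarith)

private lemma z2_im_eq : z2.im = (eps - 1) * z1.im := by
  unfold z2
  rw [pow_two, Complex.mul_im, z1_re]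
  ring

theorem z2_im : 0 < z2.im := by
  rw [z2_im_eq]
  have h1 := eps_gt
  exact mul_pos (by linarith) z1_im

theorem k1_pos : 0 < k1 := by
  unfold k1
  have h1 := eps_gt
  have h2 := s5_gt
  exact div_pos (by linarith) (by linarith)

theorem k2_pos : 0 < k2 := by
  unfold k2
  have h1 := epc_neg
  have h2 := s5_gt
  exact div_pos (by linarith) (by linarith)

theorem c1_pos : 0 < c1 := by
  unfold c1
  exact div_pos k1_pos z1_im

theorem c2_pos : 0 < c2 := by
  unfold c2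
  exact div_pos k2_pos z2_im

theorem c1_im : c1 * z1.im = k1 := by
  unfold c1
  exact div_mul_cancel₀ _ z1_im.ne'

theorem c2_im : c2 * z2.im = k2 := by
  unfold c2
  exact div_mul_cancel₀ _ z2_im.ne'

theorem c1_eq : c1 = eps * c2 := by
  have h1 := z1_im.ne'
  have h2 : eps - 1 ≠ 0 := by
    have := eps_gt
    linarith
  have h3 : Real.sqrt 5 ≠ 0 := by
    have := s5_gt
    linarith
  have h4 := eps_mul
  have h5 := eps_add
  unfold c1 c2 k1 k2
  rw [z2_im_eq]
  have h6 : epc = 1 - eps := by linarith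
  rw [h6]
  field_simp
  ring

theorem o1_add (a b : ℤ × ℤ) : o1 (a + b) = o1 a + o1 b := by
  simp only [o1, Prod.fst_add, Prod.snd_add]
  push_cast
  ring

theorem o2_add (a b : ℤ × ℤ) : o2 (a + b) = o2 a + o2 b := by
  simp only [o2, Prod.fst_add, Prod.snd_add]
  push_cast
  ring

theorem o1_neg (a : ℤ × ℤ) : o1 (-a) = -o1 a := by
  simp only [o1, Prod.fst_neg, Prod.snd_neg]
  push_cast
  ring

theorem o2_neg (a : ℤ × ℤ) : o2 (-a) = -o2 a := by
  simp only [o2, Prod.fst_neg, Prod.snd_neg]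
  push_cast
  ring

theorem o1_mo (a b : ℤ × ℤ) : o1 (mo a b) = o1 a * o1 b := by
  have h := eps_sq
  simp only [o1, mo]
  push_cast
  linear_combination (-(a.2 : ℝ) * b.2) * h

theorem o2_mo (a b : ℤ × ℤ) : o2 (mo a b) = o2 a * o2 b := by
  have h := epc_sq
  simp only [o2, mo]
  push_cast
  linear_combination (-(a.2 : ℝ) * b.2) * h

theorem o1_et (b : ℤ × ℤ) : o1 (et b) = (eps - 1) * o1 b := by
  have h := eps_sq
  simp only [o1, et]
  push_cast
  linear_combination (-(b.2 : ℝ)) * h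

theorem o2_et (b : ℤ × ℤ) : o2 (et b) = (epc - 1) * o2 b := by
  have h := epc_sq
  simp only [o2, et]
  push_cast
  linear_combination (-(b.2 : ℝ)) * h

private lemma k1_mul : k1 * Real.sqrt 5 = eps := by
  unfold k1
  exact div_mul_cancel₀ _ (by
    have := s5_gt
    linarith)

private lemma kadd : k1 + k2 = 1 := by
  have h3 : Real.sqrt 5 ≠ 0 := by
    have := s5_gt
    linarith
  unfold k1 k2 eps epc
  field_simp
  ring

private lemma keps : k1 * eps + k2 * epc = 1 := by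
  have h3 : Real.sqrt 5 ≠ 0 := by
    have := s5_gt
    linarith
  have h1 := eps_sq
  have h2 := epc_sq
  have h4 : Real.sqrt 5 = eps - epc := by
    unfold eps epc
    ring
  have e : k1 * eps + k2 * epc = (eps ^ 2 - epc ^ 2) / Real.sqrt 5 := by
    unfold k1 k2
    ring
  rw [e, h1, h2, div_eq_one_iff_eq h3, h4]
  ring

theorem tr_eq (a b : ℤ × ℤ) : k1 * (o1 a * o1 b) + k2 * (o2 a * o2 b) = tr a b := by
  have h1 := kadd
  have h2 := keps
  have h3 := eps_sq
  have h4 := epc_sq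
  simp only [o1, o2, tr]
  push_cast
  linear_combination ((a.1 : ℝ) * b.1 + a.2 * b.2) * h1 +
    ((a.1 : ℝ) * b.2 + a.2 * b.1 + a.2 * b.2) * h2 + (k1 * a.2 * b.2) * h3 + (k2 * a.2 * b.2) * h4

theorem tr_one (a : ℤ × ℤ) : k1 * o1 a + k2 * o2 a = a.1 + a.2 := by
  have h1 := kadd
  have h2 := keps
  simp only [o1, o2]
  linear_combination (a.1 : ℝ) * h1 + (a.2 : ℝ) * h2

theorem tr_eps (a : ℤ × ℤ) : k1 * (o1 a * eps) + k2 * (o2 a * epc) = a.1 + 2 * a.2 := by
  have h1 := kadd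
  have h2 := keps
  have h3 := eps_sq
  have h4 := epc_sq
  simp only [o1, o2]
  linear_combination (a.2 : ℝ) * h1 + ((a.1 : ℝ) + a.2) * h2 + (k1 * a.2) * h3 + (k2 * a.2) * h4

theorem l1_add (a b a' b' : ℤ × ℤ) : l1 (a + a') (b + b') = l1 a b + l1 a' b' := by
  simp only [l1, o1_add]
  push_cast
  ring

theorem l2_add (a b a' b' : ℤ × ℤ) : l2 (a + a') (b + b') = l2 a b + l2 a' b' := by
  simp only [l2, o2_add]
  push_cast
  ring

theorem l1_zeta (a b : ℤ × ℤ) : z1 * l1 a b = l1 (-b) (a + et b) := by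
  have h := z1_sq
  simp only [l1, o1_add, o1_neg, o1_et]
  push_cast
  linear_combination (o1 b : ℂ) * h

theorem l2_zeta (a b : ℤ × ℤ) : z2 * l2 a b = l2 (-b) (a + et b) := by
  have h := z2_sq
  simp only [l2, o2_add, o2_neg, o2_et]
  push_cast
  linear_combination (o2 b : ℂ) * h

private lemma neg_one_zpow_sq (n : ℤ) : ((-1 : ℂ) ^ n) ^ 2 = 1 := by
  rcases Int.even_or_odd n with h | h
  · rw [h.neg_one_zpow, one_pow]
  · rw [h.neg_one_zpow]
    norm_num

private lemma zpow_congr {m n : ℤ} (h : Even (m - n)) : (-1 : ℂ) ^ m = (-1 : ℂ) ^ n := by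
  have e : m = (m - n) + n := by ring
  rw [e, zpow_add₀ (by norm_num), h.neg_one_zpow, one_mul]

private lemma ee_eq (a b : ℤ × ℤ) :
    ee a b = (-1 : ℂ) ^ (a.1 + a.2 + (b.1 + b.2) + tr a b) := by
  have h : (-1 : ℂ) ≠ 0 := by norm_num
  unfold ee chi
  rw [zpow_add₀ h (a.1 + a.2 + (b.1 + b.2)) (tr a b), zpow_add₀ h (a.1 + a.2) (b.1 + b.2)]

theorem ee_sq (a b : ℤ × ℤ) : ee a b ^ 2 = 1 := by
  rw [ee_eq]
  exact neg_one_zpow_sq _

theorem ee_zeta (a b : ℤ × ℤ) : ee (-b) (a + et b) = ee a b := by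
  rw [ee_eq, ee_eq]
  apply zpow_congr
  have h : Even (b.2 * (b.2 + 1)) := Int.even_mul_succ_self b.2
  obtain ⟨k, hk⟩ := h
  refine ⟨-k - (b.1 + b.2 + tr a b) + b.2 - b.1 * b.2, ?_⟩
  simp only [tr, et, Prod.fst_neg, Prod.snd_neg, Prod.fst_add, Prod.snd_add]
  linear_combination (-1 : ℤ) * hk

private lemma zc (z u w : ℂ) (h : z * conj z = 1) : (z * u) * conj (z * w) = u * conj w := by
  rw [map_mul]
  linear_combination (u * conj w) * h

/-- the factor is invariant under `ζ` -/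
theorem mf_zeta (a b : ℤ × ℤ) (u1 u2 : ℂ) :
    mf (-b) (a + et b) (z1 * u1) (z2 * u2) = mf a b u1 u2 := by
  unfold mf
  rw [ee_zeta, ← l1_zeta, ← l2_zeta, zc z1 u1 (l1 a b) z1_mul_conj, zc z2 u2 (l2 a b) z2_mul_conj,
    zc z1 (l1 a b) (l1 a b) z1_mul_conj, zc z2 (l2 a b) (l2 a b) z2_mul_conj]

theorem mf_ne (a b : ℤ × ℤ) (u1 u2 : ℂ) : mf a b u1 u2 ≠ 0 := by
  unfold mf
  refine mul_ne_zero ?_ (Complex.exp_ne_zero _)
  intro h
  have := ee_sq a b
  rw [h] at this
  norm_num at this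

end Pool.Agent.RO5
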