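import Pool.Agent.RO5.OneV
import Pool.Agent.RO5.HirF
import Pool.Agent.RO5.Num

/-!
RO5-Grad. The gradient at `0`; the constants `c`, `d`.

Plan. `f` odd: `f 0 0 = 0`, `D i j f 0 0 = 0` for `i + j` even (`D_scale` with `a = b = -1`).
`hspan` at `u = 0`, with `p` such that `f p1 p2 ≠ 0`: `-f(p)² = κ1 (-D10²) + κ2 (-2 D10 D01) + κ3 (-D01²)` at
`0` (`hir00 .. hir02`), so `D10(0) ≠ 0` or `D01(0) ≠ 0`. `hz`: `z1 D10(0) = ρ D10(0)`, `z2 D01(0) = ρ D01(0)`
(`D_scale`), `z1 ≠ z2`. If `D10(0) = 0` then `D01(0) ≠ 0`; `e40` at `0`: LHS `= 0` (`hir40`), RHS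
`= -a/12 D01²`, so `a = 0`, and `e40` on `u2 = 0` contradicts `ode_order` for `h z = f z 0`
(`D i 0 f z 0 = iteratedDeriv i h z` by definition).
`bc`: `e13` at `0`: `-D10 D03 / 3 = c/3 (-D10²)`; `e04` on `u1 = 0`: `ode_lead` for `p w = f 0 w`,
`q w = D 1 0 f 0 w` (`D 1 1 f 0 w = deriv q w` by `D_right`); `J f 0 3 = D03/6`, `J f 1 0 = D10`.
-/

set_option autoImplicit false

namespace Pool.Agent.RO5

open Complex ComplexConjugate Finset Pool.Agent.ROH

private theorem gr_par {f : ℂ → ℂ → ℂ} (hf : Ent2 f) (ho : ∀ u1 u2, f (-u1) (-u2) = -f u1 u2) (i j : ℕ)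
    (hij : Even (i + j)) : D i j f 0 0 = 0 := by
  have h1 := D_scale hf (-1) (-1) i j 0 0
  have h2 : (fun x y => f (-1 * x) (-1 * y)) = fun x y => (-1 : ℂ) * f x y := by
    funext x y
    have := ho x y
    simpa using this
  rw [h2, D_const_mul hf, mul_zero, ← pow_add, hij.neg_one_pow] at h1
  linear_combination (-1 / 2) * h1

private theorem gr_D0 (f : ℂ → ℂ → ℂ) (i : ℕ) (z : ℂ) : D i 0 f z 0 = iteratedDeriv i (fun x => f x 0) z := by
  simp [D, iteratedDeriv_zero]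

private theorem gr_0D (f : ℂ → ℂ → ℂ) (j : ℕ) (w : ℂ) : D 0 j f 0 w = iteratedDeriv j (fun y => f 0 y) w := by
  simp [D, iteratedDeriv_zero]

theorem grad {f : ℂ → ℂ → ℂ} {a b c d ρ : ℂ} (H : Eqs f a b c d)
    (hz : ∀ u1 u2, f (z1 * u1) (z2 * u2) = ρ * f u1 u2)
    (hspan : ∀ p1 p2, ∃ κ0 κ1 κ2 κ3 : ℂ, ∀ u1 u2,
      f (u1 + p1) (u2 + p2) * f (u1 - p1) (u2 - p2) = κ0 * hir f 0 0 u1 u2 +
        κ1 * hir f 2 0 u1 u2 + κ2 * hir f 1 1 u1 u2 + κ3 * hir f 0 2 u1 u2) :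
    ρ = z1 ∧ D 1 0 f 0 0 ≠ 0 ∧ D 0 1 f 0 0 = 0 := by
  have hf := H.ent
  have f0 : f 0 0 = 0 := by rw [← D_zero f 0 0]; exact gr_par hf H.odd 0 0 (by decide)
  have d20 : D 2 0 f 0 0 = 0 := gr_par hf H.odd 2 0 (by decide)
  have hne : D 1 0 f 0 0 ≠ 0 ∨ D 0 1 f 0 0 ≠ 0 := by
    by_contra hcon
    push Not at hcon
    obtain ⟨e1, e2⟩ := hcon
    obtain ⟨z, hz0⟩ := H.line1 0
    obtain ⟨κ0, κ1, κ2, κ3, hk⟩ := hspan 0 z
    have h := hk 0 0
    rw [hir00 hf, hir20 hf, hir11 hf, hir02 hf, f0, e1, e2] at h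
    have ho := H.odd 0 z
    simp only [zero_add, zero_sub, neg_zero] at h ho
    rw [ho] at h
    apply hz0
    have : f 0 z ^ 2 = 0 := by linear_combination -h
    exact pow_eq_zero_iff (two_ne_zero) |>.mp this
  have hs : ∀ i j, ρ * D i j f 0 0 = z1 ^ i * z2 ^ j * D i j f 0 0 := by
    intro i j
    have h1 := D_scale hf z1 z2 i j 0 0
    have h2 : (fun x y => f (z1 * x) (z2 * y)) = fun x y => ρ * f x y := by
      funext x y
      exact hz x y
    rw [h2, D_const_mul hf, mul_zero, mul_zero] at h1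
    exact h1
  have s10 := hs 1 0
  have s01 := hs 0 1
  simp only [pow_one, pow_zero, mul_one, one_mul] at s10 s01
  have hz12 : z2 - z1 ≠ 0 := by
    have e : z2 - z1 = z1 * (z1 - 1) := by unfold z2; ring
    rw [e]
    exact mul_ne_zero z1_ne (sub_ne_zero.mpr (z1_prim.ne_one (by norm_num)))
  by_cases h10 : D 1 0 f 0 0 = 0
  · exfalso
    have h01 : D 0 1 f 0 0 ≠ 0 := by
      rcases hne with h | h
      · exact absurd h10 h
      · exact h
    have ha : a = 0 := by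
      have h := H.e40 0 0
      rw [hir40 hf, hir02 hf, f0, h10, d20] at h
      have h2 : a * D 0 1 f 0 0 ^ 2 = 0 := by linear_combination 12 * h
      rcases mul_eq_zero.mp h2 with h3 | h3
      · exact h3
      · exact absurd ((pow_eq_zero_iff two_ne_zero).mp h3) h01
    have hdiff : Differentiable ℂ (fun x => f x 0) := by
      have h1 : Differentiable ℂ (fun x : ℂ => (x, (0 : ℂ))) := by fun_prop
      exact hf.comp h1
    refine ode_order hdiff f0 ?_ (H.line2 0) ?_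
    · have h := gr_D0 f 1 0
      rw [iteratedDeriv_one] at h
      rw [← h, h10]
    · intro z
      have h := H.e40 z 0
      rw [hir40 hf, ha, gr_D0, gr_D0, gr_D0, gr_D0, iteratedDeriv_one] at h
      linear_combination 12 * h
  · have hρ : ρ = z1 := mul_right_cancel₀ h10 s10
    refine ⟨hρ, h10, ?_⟩
    rw [hρ] at s01
    have : (z2 - z1) * D 0 1 f 0 0 = 0 := by linear_combination -s01
    rcases mul_eq_zero.mp this with h | h
    · exact absurd h hz12
    · exact h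

theorem bc {f : ℂ → ℂ → ℂ} {a b c d : ℂ} (H : Eqs f a b c d) (hA : D 1 0 f 0 0 ≠ 0)
    (h01 : D 0 1 f 0 0 = 0) : J f 0 3 ≠ 0 ∧ c * J f 1 0 = 6 * J f 0 3 ∧ d = -2 * c := by
  have hf := H.ent
  have f0 : f 0 0 = 0 := by rw [← D_zero f 0 0]; exact gr_par hf H.odd 0 0 (by decide)
  have d02 : D 0 2 f 0 0 = 0 := gr_par hf H.odd 0 2 (by decide)
  have h13 := H.e13 0 0
  rw [hir13 hf, hir20 hf, f0, h01, d02] at h13
  have hc : D 0 3 f 0 0 = c * D 1 0 f 0 0 := by
    apply mul_left_cancel₀ hA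
    linear_combination -3 * h13
  have j03 : J f 0 3 = D 0 3 f 0 0 / 6 := by
    rw [J_eq]
    norm_num [Nat.factorial]
  have j10 : J f 1 0 = D 1 0 f 0 0 := by
    rw [J_eq]
    norm_num [Nat.factorial]
  have hp : Differentiable ℂ (fun y => f 0 y) := by
    have h1 : Differentiable ℂ (fun y : ℂ => ((0 : ℂ), y)) := by fun_prop
    exact hf.comp h1
  have hq : Differentiable ℂ (fun y => D 1 0 f 0 y) := by
    have h1 : Differentiable ℂ (fun y : ℂ => ((0 : ℂ), y)) := by fun_prop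
    exact (ent_D hf 1 0).comp h1
  have hmain := ode_lead (d := d) hp hq f0
    (by
      have h := gr_0D f 1 0
      rw [iteratedDeriv_one] at h
      rw [← h, h01]) (H.line1 0) hA
    (by
      intro w
      have h := H.e04 0 w
      have e11 : D 1 1 f 0 w = deriv (fun y => D 1 0 f 0 y) w := D_right hf 1 0 0 w
      rw [hir04 hf, hir11 hf, e11, gr_0D, gr_0D, gr_0D, gr_0D, iteratedDeriv_one] at h
      linear_combination 12 * h)
  obtain ⟨m1, m2⟩ := hmain
  rw [← gr_0D] at m1 m2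
  refine ⟨?_, ?_, ?_⟩
  · rw [j03]
    exact div_ne_zero m1 (by norm_num)
  · rw [j03, j10, hc]
    ring
  · apply mul_right_cancel₀ hA
    rw [hc] at m2
    linear_combination m2

end Pool.Agent.RO5
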