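import Mathlib

/-!
RO5-OneV. Two lemmas on leading coefficients of entire functions of one variable.

`h` entire, not identically zero: `m` = order of vanishing at `0`,
`h z = z^m k z` with `k` analytic at 0, `k 0 ≠ 0`; `z^j h^(j) = z^m K_j`,
`K_j 0 = m(m-1)..(m-j+1) k 0`; this is uniform in `m`.
(1) `z^4 (h h'''' - 4 h' h''' + 3 h''²) = z^(2m) (K_0 K_4 - 4 K_1 K_3 + 3 K_2²)`, at `z = 0` the bracket is
`k(0)² m(m-1)[(m-2)(m-3) - 4 m (m-2) + 3 m (m-1)] = 6 m (m-1) k(0)²`.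
(2) `z^4 LHS = z^(2m) (6 m (m-1) k(0)² + ..)`, `z^4 RHS = z^(m+3) (- d m k(0) q(0) + ...)`: `m = 2` (powers
4 < 5) and `m > 3` (powers `m+3 < 2m`: gives `d = 0`, then the LHS is 0: contradiction) are impossible,
`m = 3`: `36 k(0)² = -3 d k(0) q(0)`, `p'''(0) = 6 k(0)`.
-/

set_option autoImplicit false

namespace Pool.Agent.RO5

open Filter Topology

private theorem cancel0 {F G : ℂ → ℂ} (hF : ContinuousAt F 0) (hG : ContinuousAt G 0) (a : ℕ)
    (h : ∀ᶠ z in 𝓝 (0 : ℂ), z ^ a * F z = z ^ a * G z) : F 0 = G 0 := by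
  have h1 : ∀ᶠ z in 𝓝[≠] (0 : ℂ), F z = G z := by
    filter_upwards [h.filter_mono nhdsWithin_le_nhds, self_mem_nhdsWithin] with z hz hz0
    exact mul_left_cancel₀ (pow_ne_zero a hz0) hz
  exact tendsto_nhds_unique_of_eventuallyEq (hF.tendsto.mono_left nhdsWithin_le_nhds)
    (hG.tendsto.mono_left nhdsWithin_le_nhds) h1

private theorem iter_an {h : ℂ → ℂ} (hh : AnalyticAt ℂ h 0) (j : ℕ) :
    AnalyticAt ℂ (iteratedDeriv j h) 0 := by
  induction j with
  | zero => rw [iteratedDeriv_zero]; exact hh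
  | succ j ih => rw [iteratedDeriv_succ]; exact ih.deriv

private theorem stepK {h k : ℂ → ℂ} {m : ℕ} (hh : AnalyticAt ℂ h 0) (hk : AnalyticAt ℂ k 0)
    (he : ∀ᶠ z in 𝓝 (0 : ℂ), h z = z ^ m * k z) (j : ℕ) :
    ∃ K : ℂ → ℂ, AnalyticAt ℂ K 0 ∧ K 0 = (∏ i ∈ Finset.range j, ((m : ℂ) - i)) * k 0 ∧
      ∀ᶠ z in 𝓝 (0 : ℂ), z ^ j * iteratedDeriv j h z = z ^ m * K z := by
  induction j with
  | zero =>
    refine ⟨k, hk, by simp, ?_⟩
    filter_upwards [he] with z hz
    rw [iteratedDeriv_zero, pow_zero, one_mul, hz]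
  | succ j ih =>
    obtain ⟨K, hK, hK0, hKe⟩ := ih
    refine ⟨fun z => ((m : ℂ) - j) * K z + z * deriv K z, ?_, ?_, ?_⟩
    · exact (analyticAt_const.mul hK).add (analyticAt_id.mul hK.deriv)
    · show ((m : ℂ) - j) * K 0 + 0 * deriv K 0 = _
      rw [hK0, Finset.prod_range_succ]
      ring
    · have hd : (deriv fun z => z ^ j * iteratedDeriv j h z) =ᶠ[𝓝 (0 : ℂ)]
          deriv fun z => z ^ m * K z :=
        Filter.EventuallyEq.deriv (show (fun z => z ^ j * iteratedDeriv j h z) =ᶠ[𝓝 (0 : ℂ)]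
          fun z => z ^ m * K z from hKe)
      filter_upwards [hKe, hd, hK.eventually_analyticAt, (iter_an hh j).eventually_analyticAt] with
        z h1 h2 h3 h4
      have e1 : deriv (fun z => z ^ j * iteratedDeriv j h z) z =
          (j : ℂ) * z ^ (j - 1) * iteratedDeriv j h z + z ^ j * iteratedDeriv (j + 1) h z := by
        have := ((hasDerivAt_pow j z).mul h4.differentiableAt.hasDerivAt)
        rw [iteratedDeriv_succ]
        exact this.deriv
      have e2 : deriv (fun z => z ^ m * K z) z =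
          (m : ℂ) * z ^ (m - 1) * K z + z ^ m * deriv K z := by
        exact ((hasDerivAt_pow m z).mul h3.differentiableAt.hasDerivAt).deriv
      rw [e1, e2] at h2
      have p : ∀ n : ℕ, z * ((n : ℂ) * z ^ (n - 1)) = n * z ^ n := by
        intro n
        cases n with
        | zero => simp
        | succ n => rw [Nat.add_sub_cancel, pow_succ]; ring
      have pj := p j
      have pm := p m
      linear_combination z * h2 - iteratedDeriv j h z * pj + K z * pm - (j : ℂ) * h1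

private theorem ord_data {h : ℂ → ℂ} (hh : AnalyticAt ℂ h 0)
    (hne : ¬ ∀ᶠ z in 𝓝 (0 : ℂ), h z = 0) :
    ∃ (m : ℕ) (k : ℂ → ℂ), AnalyticAt ℂ k 0 ∧ k 0 ≠ 0 ∧ ∀ᶠ z in 𝓝 (0 : ℂ), h z = z ^ m * k z := by
  obtain ⟨m, k, hk, hk0, hke⟩ := hh.exists_eventuallyEq_pow_smul_nonzero_iff.2 hne
  refine ⟨m, k, hk, hk0, ?_⟩
  filter_upwards [hke] with z hz
  rw [hz, sub_zero, smul_eq_mul]

private theorem not_ev {h : ℂ → ℂ} (hd : Differentiable ℂ h) (hne : ∃ z, h z ≠ 0) :
    ¬ ∀ᶠ z in 𝓝 (0 : ℂ), h z = 0 := by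
  intro h0
  obtain ⟨z, hz⟩ := hne
  apply hz
  have h1 : AnalyticOnNhd ℂ h Set.univ := fun z _ => hd.analyticAt z
  have h2 : AnalyticOnNhd ℂ (fun _ : ℂ => (0 : ℂ)) Set.univ := fun z _ => analyticAt_const
  have h3 := h1.eq_of_eventuallyEq h2 (z₀ := 0) h0
  rw [h3]

private theorem two_le {h k : ℂ → ℂ} {m : ℕ} (hh : AnalyticAt ℂ h 0) (hk : AnalyticAt ℂ k 0)
    (hk0 : k 0 ≠ 0) (he : ∀ᶠ z in 𝓝 (0 : ℂ), h z = z ^ m * k z) (h0 : h 0 = 0)
    (h1 : deriv h 0 = 0) : 2 ≤ m := by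
  by_contra hlt
  have hm : m = 0 ∨ m = 1 := by omega
  rcases hm with rfl | rfl
  · have := he.self_of_nhds
    rw [h0, pow_zero, one_mul] at this
    exact hk0 this.symm
  · obtain ⟨K, hK, hK0, hKe⟩ := stepK hh hk he 1
    have h2 := cancel0 (F := iteratedDeriv 1 h) (G := K) (iter_an hh 1).continuousAt
      hK.continuousAt 1 hKe
    rw [iteratedDeriv_one, h1, hK0] at h2
    simp at h2
    exact hk0 h2.symm

private theorem bracket {h k : ℂ → ℂ} {m : ℕ} (hh : AnalyticAt ℂ h 0) (hk : AnalyticAt ℂ k 0)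
    (he : ∀ᶠ z in 𝓝 (0 : ℂ), h z = z ^ m * k z) :
    ∃ B : ℂ → ℂ, AnalyticAt ℂ B 0 ∧ B 0 = 6 * m * (m - 1) * k 0 ^ 2 ∧
      ∀ᶠ z in 𝓝 (0 : ℂ), z ^ 4 * (h z * iteratedDeriv 4 h z -
        4 * (deriv h z * iteratedDeriv 3 h z) + 3 * iteratedDeriv 2 h z ^ 2) =
        z ^ (2 * m) * B z := by
  obtain ⟨K1, hK1, hK10, e1⟩ := stepK hh hk he 1
  obtain ⟨K2, hK2, hK20, e2⟩ := stepK hh hk he 2
  obtain ⟨K3, hK3, hK30, e3⟩ := stepK hh hk he 3
  obtain ⟨K4, hK4, hK40, e4⟩ := stepK hh hk he 4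
  refine ⟨fun z => k z * K4 z - 4 * (K1 z * K3 z) + 3 * K2 z ^ 2, ?_, ?_, ?_⟩
  · exact ((hk.mul hK4).sub (analyticAt_const.mul (hK1.mul hK3))).add
      (analyticAt_const.mul (hK2.pow 2))
  · show k 0 * K4 0 - 4 * (K1 0 * K3 0) + 3 * K2 0 ^ 2 = _
    rw [hK10, hK20, hK30, hK40]
    simp only [Finset.prod_range_succ, Finset.prod_range_zero]
    push_cast
    ring
  · filter_upwards [he, e1, e2, e3, e4] with z e0 e1 e2 e3 e4
    rw [iteratedDeriv_one] at e1
    have hp : z ^ (2 * m) = z ^ m * z ^ m := by rw [two_mul, pow_add]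
    rw [hp]
    linear_combination (z ^ 4 * iteratedDeriv 4 h z) * e0 + (z ^ m * k z) * e4 -
      4 * ((z ^ 3 * iteratedDeriv 3 h z) * e1 + (z ^ m * K1 z) * e3) +
      3 * (z ^ 2 * iteratedDeriv 2 h z + z ^ m * K2 z) * e2

private theorem bracket_ne {m : ℕ} (hm : 2 ≤ m) {c : ℂ} (hc : c ≠ 0) :
    (6 : ℂ) * m * (m - 1) * c ^ 2 ≠ 0 := by
  have h1 : (m : ℂ) ≠ 0 := by
    rw [Nat.cast_ne_zero]
    omega
  have h2 : (m : ℂ) - 1 ≠ 0 := by
    rw [sub_ne_zero]
    intro h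
    have : m = 1 := by exact_mod_cast h
    omega
  exact mul_ne_zero (mul_ne_zero (mul_ne_zero (by norm_num) h1) h2) (pow_ne_zero 2 hc)

theorem ode_order {h : ℂ → ℂ} (hd : Differentiable ℂ h) (h0 : h 0 = 0) (h1 : deriv h 0 = 0)
    (hne : ∃ z, h z ≠ 0) (heq : ∀ z, h z * iteratedDeriv 4 h z -
      4 * (deriv h z * iteratedDeriv 3 h z) + 3 * iteratedDeriv 2 h z ^ 2 = 0) : False := by
  have hh : AnalyticAt ℂ h 0 := hd.analyticAt 0
  obtain ⟨m, k, hk, hk0, hke⟩ := ord_data hh (not_ev hd hne)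
  have hm := two_le hh hk hk0 hke h0 h1
  obtain ⟨B, hB, hB0, hBe⟩ := bracket hh hk hke
  have h2 : B 0 = (fun _ : ℂ => (0 : ℂ)) 0 := by
    refine cancel0 hB.continuousAt continuousAt_const (2 * m) ?_
    filter_upwards [hBe] with z hz
    rw [← hz, heq z, mul_zero, mul_zero]
  rw [hB0] at h2
  exact bracket_ne hm hk0 h2

theorem ode_lead {p q : ℂ → ℂ} {d : ℂ} (hp : Differentiable ℂ p) (hq : Differentiable ℂ q)
    (p0 : p 0 = 0) (p1 : deriv p 0 = 0) (hne : ∃ z, p z ≠ 0) (hq0 : q 0 ≠ 0)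
    (heq : ∀ z, p z * iteratedDeriv 4 p z - 4 * (deriv p z * iteratedDeriv 3 p z) +
      3 * iteratedDeriv 2 p z ^ 2 = d * (p z * deriv q z - q z * deriv p z)) :
    iteratedDeriv 3 p 0 ≠ 0 ∧ d * q 0 = -2 * iteratedDeriv 3 p 0 := by
  have hh : AnalyticAt ℂ p 0 := hp.analyticAt 0
  have hqa : AnalyticAt ℂ q 0 := hq.analyticAt 0
  obtain ⟨m, k, hk, hk0, hke⟩ := ord_data hh (not_ev hp hne)
  have hm := two_le hh hk hk0 hke p0 p1
  obtain ⟨B, hB, hB0, hBe⟩ := bracket hh hk hke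
  obtain ⟨K1, hK1, hK10, e1⟩ := stepK hh hk hke 1
  obtain ⟨R, hRdef⟩ : ∃ R : ℂ → ℂ, R = fun z => d * (k z * (z * deriv q z) - q z * K1 z) :=
    ⟨_, rfl⟩
  have hR : AnalyticAt ℂ R 0 := by
    rw [hRdef]
    exact analyticAt_const.mul ((hk.mul (analyticAt_id.mul hqa.deriv)).sub (hqa.mul hK1))
  have hR0 : R 0 = -(d * q 0 * (m * k 0)) := by
    rw [hRdef]
    show d * (k 0 * (0 * deriv q 0) - q 0 * K1 0) = _
    rw [hK10]
    simp only [Finset.prod_range_succ, Finset.prod_range_zero]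
    push_cast
    ring
  have key : ∀ᶠ z in 𝓝 (0 : ℂ), z ^ (2 * m) * B z = z ^ (m + 3) * R z := by
    filter_upwards [hBe, hke, e1] with z hb h0 h1
    rw [← hb, heq z, hRdef]
    rw [iteratedDeriv_one] at h1
    rw [pow_add]
    linear_combination (z ^ 4 * d * deriv q z) * h0 - (z ^ 3 * d * q z) * h1
  have hBne : B 0 ≠ 0 := by
    rw [hB0]
    exact bracket_ne hm hk0
  rcases (by omega : m = 2 ∨ m = 3 ∨ 4 ≤ m) with rfl | rfl | hm4
  · exfalso
    have h2 : B 0 = (fun z : ℂ => z * R z) 0 := by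
      refine cancel0 (G := fun z : ℂ => z * R z) hB.continuousAt
        (continuousAt_id.mul hR.continuousAt) 4 ?_
      filter_upwards [key] with z hz
      linear_combination hz
    apply hBne
    rw [h2]
    show (0 : ℂ) * R 0 = 0
    rw [zero_mul]
  · have h2 : B 0 = R 0 := by
      refine cancel0 hB.continuousAt hR.continuousAt 6 ?_
      filter_upwards [key] with z hz
      linear_combination hz
    obtain ⟨K3, hK3, hK30, e3⟩ := stepK hh hk hke 3
    have h3 := cancel0 (F := iteratedDeriv 3 p) (G := K3) (iter_an hh 3).continuousAt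
      hK3.continuousAt 3 e3
    rw [hK30] at h3
    simp only [Finset.prod_range_succ, Finset.prod_range_zero] at h3
    have h4 : iteratedDeriv 3 p 0 = 6 * k 0 := by
      rw [h3]
      push_cast
      ring
    refine ⟨?_, ?_⟩
    · rw [h4]
      exact mul_ne_zero (by norm_num) hk0
    · rw [hB0, hR0] at h2
      push_cast at h2
      rw [h4]
      have h5 : (3 * k 0) * (d * q 0) = (3 * k 0) * (-2 * (6 * k 0)) := by
        linear_combination h2
      exact mul_left_cancel₀ (mul_ne_zero (by norm_num) hk0) h5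
  · exfalso
    obtain ⟨n, rfl⟩ := Nat.exists_eq_add_of_le hm4
    have h2 : R 0 = (fun z : ℂ => z ^ (n + 1) * B z) 0 := by
      refine cancel0 (G := fun z : ℂ => z ^ (n + 1) * B z) hR.continuousAt
        ((continuousAt_id.pow _).mul hB.continuousAt) (4 + n + 3) ?_
      filter_upwards [key] with z hz
      rw [← hz]
      ring
    have h3 : R 0 = 0 := by
      rw [h2]
      show (0 : ℂ) ^ (n + 1) * B 0 = 0
      rw [zero_pow (Nat.succ_ne_zero n), zero_mul]
    rw [hR0] at h3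
    have hmne : (((4 + n : ℕ) : ℂ)) ≠ 0 := by
      rw [Nat.cast_ne_zero]
      omega
    have hd : d = 0 := by
      by_contra hd
      exact (neg_ne_zero.2 (mul_ne_zero (mul_ne_zero hd hq0) (mul_ne_zero hmne hk0))) h3
    refine ode_order hp p0 p1 hne ?_
    intro z
    rw [heq z, hd, zero_mul]

private theorem const_of_deriv {f : ℂ → ℂ} (hf : AnalyticAt ℂ f 0)
    (hd : ∀ᶠ s in 𝓝 (0 : ℂ), deriv f s = 0) : ∀ᶠ s in 𝓝 (0 : ℂ), f s = f 0 := by
  obtain ⟨ε, hε, hball⟩ := Metric.eventually_nhds_iff_ball.1 (hf.eventually_analyticAt.and hd)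
  filter_upwards [Metric.ball_mem_nhds (0 : ℂ) hε] with s hs
  exact Metric.isOpen_ball.is_const_of_deriv_eq_zero
    (convex_ball (0 : ℂ) ε).isPreconnected
    (fun x hx => (hball x hx).1.differentiableAt.differentiableWithinAt)
    (fun x hx => (hball x hx).2) hs (Metric.mem_ball_self hε)

/-- `3 q'² = K q`, `q(0) = 0`, `q` not identically zero near `0`: `q = K s² / 12` -/
theorem ode_quad {q : ℂ → ℂ} {K : ℂ} (hq : AnalyticAt ℂ q 0) (q0 : q 0 = 0)
    (hne : ¬ ∀ᶠ s in nhds (0 : ℂ), q s = 0) (hK : K ≠ 0)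
    (heq : ∀ᶠ s in nhds (0 : ℂ), 3 * deriv q s ^ 2 = K * q s) :
    ∀ᶠ s in nhds (0 : ℂ), q s = K / 12 * s ^ 2 := by
  have h0 : deriv q 0 = 0 := by
    have := heq.self_of_nhds
    rw [q0, mul_zero] at this
    have h1 : deriv q 0 ^ 2 = 0 := by linear_combination this / 3
    exact pow_eq_zero_iff (two_ne_zero) |>.1 h1
  -- the derivative is not zero near 0
  have hdne : ∀ᶠ s in 𝓝[≠] (0 : ℂ), deriv q s ≠ 0 := by
    rcases hq.deriv.eventually_eq_zero_or_eventually_ne_zero with h | h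
    · exfalso
      apply hne
      filter_upwards [const_of_deriv hq h] with s hs
      rw [hs, q0]
    · exact h
  -- differentiate
  have hdd : ∀ᶠ s in 𝓝 (0 : ℂ), 6 * deriv q s * deriv (deriv q) s = K * deriv q s := by
    have hd : (deriv fun s => 3 * deriv q s ^ 2) =ᶠ[𝓝 (0 : ℂ)] deriv fun s => K * q s :=
      Filter.EventuallyEq.deriv (show (fun s => 3 * deriv q s ^ 2) =ᶠ[𝓝 (0 : ℂ)]
        fun s => K * q s from heq)
    filter_upwards [hd, hq.eventually_analyticAt, hq.deriv.eventually_analyticAt] with s h1 h2 h3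
    have e1 : deriv (fun s => 3 * deriv q s ^ 2) s = 6 * deriv q s * deriv (deriv q) s := by
      have := ((h3.differentiableAt.hasDerivAt.pow 2).const_mul (3 : ℂ)).deriv
      have h4 : deriv (fun s => 3 * deriv q s ^ 2) s =
          3 * (((2 : ℕ) : ℂ) * deriv q s ^ (2 - 1) * deriv (deriv q) s) := this
      rw [h4]
      push_cast
      ring
    have e2 : deriv (fun s => K * q s) s = K * deriv q s :=
      (h2.differentiableAt.hasDerivAt.const_mul K).deriv
    rw [← e1, h1, e2]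
  have hdd2 : ∀ᶠ s in 𝓝[≠] (0 : ℂ), deriv (deriv q) s = K / 6 := by
    filter_upwards [hdd.filter_mono nhdsWithin_le_nhds, hdne] with s h1 h2
    have h3 : (6 * deriv q s) * deriv (deriv q) s = (6 * deriv q s) * (K / 6) := by
      linear_combination h1
    exact mul_left_cancel₀ (mul_ne_zero (by norm_num) h2) h3
  have hdd3 : ∀ᶠ s in 𝓝 (0 : ℂ), deriv (deriv q) s = K / 6 :=
    (AnalyticAt.frequently_eq_iff_eventually_eq hq.deriv.deriv analyticAt_const).1 hdd2.frequently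
  -- first integration
  have hq1 : ∀ᶠ s in 𝓝 (0 : ℂ), deriv q s = K / 6 * s := by
    have hg : AnalyticAt ℂ (fun s => deriv q s - K / 6 * s) 0 :=
      hq.deriv.sub (analyticAt_const.mul analyticAt_id)
    have hgd : ∀ᶠ s in 𝓝 (0 : ℂ), deriv (fun s => deriv q s - K / 6 * s) s = 0 := by
      filter_upwards [hdd3, hq.deriv.eventually_analyticAt] with s h1 h2
      have := (h2.differentiableAt.hasDerivAt.sub ((hasDerivAt_id s).const_mul (K / 6))).deriv
      have h4 : deriv (fun s => deriv q s - K / 6 * s) s = deriv (deriv q) s - K / 6 * 1 := this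
      rw [h4, h1]
      ring
    filter_upwards [const_of_deriv hg hgd] with s hs
    rw [h0] at hs
    linear_combination hs
  have hg : AnalyticAt ℂ (fun s => q s - K / 12 * s ^ 2) 0 :=
    hq.sub (analyticAt_const.mul (analyticAt_id.pow 2))
  have hgd : ∀ᶠ s in 𝓝 (0 : ℂ), deriv (fun s => q s - K / 12 * s ^ 2) s = 0 := by
    filter_upwards [hq1, hq.eventually_analyticAt] with s h1 h2
    have := (h2.differentiableAt.hasDerivAt.sub ((hasDerivAt_pow 2 s).const_mul (K / 12))).deriv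
    have h4 : deriv (fun s => q s - K / 12 * s ^ 2) s =
        deriv q s - K / 12 * (((2 : ℕ) : ℂ) * s ^ (2 - 1)) := this
    rw [h4, h1]
    push_cast
    ring
  filter_upwards [const_of_deriv hg hgd] with s hs
  rw [q0] at hs
  linear_combination hs

end Pool.Agent.RO5
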