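import Pool.Agent.RO5.Lim
import Pool.Agent.RO5.BranchO
import Pool.Agent.RO5.Grad
import Pool.Agent.RO5.OneV

/-!
RO5-ANe. The constant `a` is not zero.

Plan. Suppose `a = 0`. `bc`: `c ≠ 0` (`J f 0 3 ≠ 0`), `d = -2c`, so `K := d - 4c = -6c ≠ 0`. `branch_ode`:
`q = φ'` satisfies `3 q'² = K q` near `0`, `q 0 = 0`. `q` is not identically zero near `0`, otherwise `φ = 0`
near `0`, `f 0 s = 0` near `0`, hence for all `s` (identity theorem), contradiction to `line1 0`.
`ode_quad`: `q s = K/12 s²`, so `φ s = K/36 s³` near `0` and `f (K/36 s³) s = 0` near `0`, hence for all `s`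
(identity theorem for the entire function `s ↦ f (K/36 s³) s`): contradiction to `lim_curve`.
-/

set_option autoImplicit false

namespace Pool.Agent.RO5

open Complex ComplexConjugate Finset Pool.Agent.ROH

private theorem ane_const {g : ℂ → ℂ} (hg : ∀ᶠ s in nhds (0 : ℂ), DifferentiableAt ℂ g s)
    (hd : ∀ᶠ s in nhds (0 : ℂ), deriv g s = 0) : ∀ᶠ s in nhds (0 : ℂ), g s = g 0 := by
  obtain ⟨ε, hε, hb⟩ := Metric.eventually_nhds_iff_ball.1 (hg.and hd)
  filter_upwards [Metric.ball_mem_nhds (0 : ℂ) hε] with s hs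
  have h := Convex.norm_image_sub_le_of_norm_deriv_le (𝕜 := ℂ) (f := g) (C := 0)
    (s := Metric.ball (0 : ℂ) ε) (x := 0) (y := s) (fun x hx => (hb x hx).1)
    (fun x hx => by rw [(hb x hx).2, norm_zero]) (convex_ball 0 ε) (Metric.mem_ball_self hε) hs
  rw [zero_mul] at h
  exact sub_eq_zero.1 (norm_le_zero_iff.1 h)

private theorem ane_entire {F : ℂ → ℂ} (hF : Differentiable ℂ F)
    (h : ∀ᶠ s in nhds (0 : ℂ), F s = 0) (s : ℂ) : F s = 0 := by
  have hA : AnalyticOnNhd ℂ F Set.univ := fun z _ => hF.analyticAt z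
  exact hA.eqOn_zero_of_preconnected_of_eventuallyEq_zero isPreconnected_univ (Set.mem_univ 0) h
    (Set.mem_univ s)

private theorem ane_curve {f : ℂ → ℂ → ℂ} (hf : Ent2 f) (κ : ℂ)
    (h : ∀ᶠ s in nhds (0 : ℂ), f (κ * s ^ 3) s = 0) (s : ℂ) : f (κ * s ^ 3) s = 0 := by
  have hF : Differentiable ℂ (fun s : ℂ => f (κ * s ^ 3) s) := by
    have h1 : Differentiable ℂ (fun s : ℂ => ((κ * s ^ 3, s) : ℂ × ℂ)) :=
      ((differentiable_id.pow 3).const_mul κ).prodMk differentiable_id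
    exact Differentiable.comp (g := fun z : ℂ × ℂ => f z.1 z.2) hf h1
  exact ane_entire hF h s

theorem a_ne {f : ℂ → ℂ → ℂ} {a b c d : ℂ} (hf : QP5 1 f) (H : Eqs f a b c d)
    (hA : D 1 0 f 0 0 ≠ 0) (h01 : D 0 1 f 0 0 = 0) : a ≠ 0 := by
  rintro rfl
  obtain ⟨hJ, hc, hd⟩ := bc H hA h01
  have hc0 : c ≠ 0 := by
    rintro rfl
    rw [zero_mul] at hc
    exact hJ ((mul_eq_zero.1 hc.symm).resolve_left (by norm_num))
  have hK : d - 4 * c ≠ 0 := by
    have h1 : d - 4 * c = -6 * c := by rw [hd]; ring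
    rw [h1]
    exact mul_ne_zero (by norm_num) hc0
  obtain ⟨φ, hφa, hφ0, hφ1, hz, -, hode⟩ := branch_ode H hA h01
  have hdiff : ∀ᶠ s in nhds (0 : ℂ), DifferentiableAt ℂ φ s :=
    hφa.eventually_analyticAt.mono fun s hs => hs.differentiableAt
  have hne : ¬ ∀ᶠ s in nhds (0 : ℂ), deriv φ s = 0 := by
    intro h
    have h1 := ane_const hdiff h
    have h2 : ∀ᶠ s in nhds (0 : ℂ), f (0 * s ^ 3) s = 0 := by
      filter_upwards [h1, hz] with s hs1 hs2
      rw [hs1, hφ0] at hs2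
      rw [zero_mul]
      exact hs2
    obtain ⟨z, hz'⟩ := H.line1 0
    apply hz'
    have h3 := ane_curve H.ent 0 h2 z
    rwa [zero_mul] at h3
  have hode' : ∀ᶠ s in nhds (0 : ℂ), 3 * deriv (deriv φ) s ^ 2 = (d - 4 * c) * deriv φ s := by
    filter_upwards [hode] with s hs
    rw [hs]
    ring
  have hquad := ode_quad hφa.deriv hφ1 hne hK hode'
  have hψ : ∀ᶠ s in nhds (0 : ℂ), φ s - (d - 4 * c) / 36 * s ^ 3 =
      (fun s => φ s - (d - 4 * c) / 36 * s ^ 3) 0 := by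
    refine ane_const (g := fun s => φ s - (d - 4 * c) / 36 * s ^ 3) ?_ ?_
    · filter_upwards [hdiff] with s hs
      exact hs.sub (((differentiableAt_id).pow 3).const_mul _)
    · filter_upwards [hdiff, hquad] with s hs1 hs2
      have h1 : HasDerivAt (fun s => φ s - (d - 4 * c) / 36 * s ^ 3)
          (deriv φ s - (d - 4 * c) / 36 * (((3 : ℕ) : ℂ) * s ^ (3 - 1))) s :=
        hs1.hasDerivAt.sub ((hasDerivAt_pow 3 s).const_mul _)
      rw [h1.deriv, hs2]
      norm_num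
      ring
  have hcurve : ∀ᶠ s in nhds (0 : ℂ), f ((d - 4 * c) / 36 * s ^ 3) s = 0 := by
    filter_upwards [hψ, hz] with s hs1 hs2
    have h1 : φ s = (d - 4 * c) / 36 * s ^ 3 := by
      have h2 : φ s - (d - 4 * c) / 36 * s ^ 3 = 0 := by
        rw [hs1]
        simp [hφ0]
      exact sub_eq_zero.1 h2
    rwa [h1] at hs2
  exact lim_curve hf H.line2 (div_ne_zero hK (by norm_num)) (ane_curve H.ent _ hcurve)

end Pool.Agent.RO5
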