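import Pool.Agent.RO5.HirF

/-!
RO5-Branch. The zero set of `f` near `0` is the graph of `φ`.

Plan. Implicit function theorem: `F(t, s) = f t s`, `∂_t F(0,0) ≠ 0`, gives `φ` with `φ 0 = 0`,
`f (φ s) s = 0` near `0` (`ImplicitFunctionData`, `HasStrictFDerivAt.implicitFunction`, the local
inverse of `(t,s) ↦ (f t s, s)`: `HasStrictFDerivAt.toOpenPartialHomeomorph`,
`ContDiffAt.to_localInverse` gives `ContDiffAt ℂ ⊤`/`1`, complex differentiable near `0` hence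
analytic: `DifferentiableOn.analyticAt`). (Also the uniqueness: zeros near `(0,0)` are on the graph.)
Differentiate `f (φ s) s = 0` once: `D10 φ' + D01 = 0`; twice:
`D20 φ'² + 2 D11 φ' + D02 + D10 φ'' = 0` (chain rule for `s ↦ D i j f (φ s) s`,
`D_left`, `D_right`).
-/

set_option autoImplicit false

namespace Pool.Agent.RO5

open Complex ComplexConjugate Finset Pool.Agent.ROH

open Filter Topology in
private theorem fder {f : ℂ → ℂ → ℂ} (hf : Ent2 f) (p : ℂ × ℂ) :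
    HasFDerivAt (fun z : ℂ × ℂ => f z.1 z.2)
      (D 1 0 f p.1 p.2 • ContinuousLinearMap.fst ℂ ℂ ℂ + D 0 1 f p.1 p.2 • ContinuousLinearMap.snd ℂ ℂ ℂ)
      p := by
  have h := (hf p).hasFDerivAt
  set L := fderiv ℂ (fun z : ℂ × ℂ => f z.1 z.2) p with hL
  have h1 : L (1, 0) = D 1 0 f p.1 p.2 := by
    have hc : HasDerivAt (fun x : ℂ => ((x, p.2) : ℂ × ℂ)) (1, 0) p.1 :=
      (hasDerivAt_id p.1).prodMk (hasDerivAt_const p.1 p.2)
    have h2 : HasDerivAt (fun x : ℂ => f x p.2) (L (1, 0)) p.1 :=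
      HasFDerivAt.comp_hasDerivAt (x := p.1) (f := fun x : ℂ => ((x, p.2) : ℂ × ℂ)) h hc
    rw [← h2.deriv, D_left hf 0 0]
    rfl
  have h2 : L (0, 1) = D 0 1 f p.1 p.2 := by
    have hc : HasDerivAt (fun x : ℂ => ((p.1, x) : ℂ × ℂ)) (0, 1) p.2 :=
      (hasDerivAt_const p.2 p.1).prodMk (hasDerivAt_id p.2)
    have h2 : HasDerivAt (fun x : ℂ => f p.1 x) (L (0, 1)) p.2 :=
      HasFDerivAt.comp_hasDerivAt (x := p.2) (f := fun x : ℂ => ((p.1, x) : ℂ × ℂ)) h hc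
    rw [← h2.deriv, D_right hf 0 0]
    rfl
  have h3 : L = D 1 0 f p.1 p.2 • ContinuousLinearMap.fst ℂ ℂ ℂ +
      D 0 1 f p.1 p.2 • ContinuousLinearMap.snd ℂ ℂ ℂ := by
    ext
    · simp [h1]
    · simp [h2]
  rw [← h3]
  exact h

private theorem chain {h : ℂ → ℂ → ℂ} (hh : Ent2 h) {φ : ℂ → ℂ} {s : ℂ} (hφ : DifferentiableAt ℂ φ s) :
    HasDerivAt (fun s => h (φ s) s) (D 1 0 h (φ s) s * deriv φ s + D 0 1 h (φ s) s) s := by
  have h1 := fder hh (φ s, s)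
  have hc : HasDerivAt (fun x : ℂ => ((φ x, x) : ℂ × ℂ)) (deriv φ s, 1) s :=
    hφ.hasDerivAt.prodMk (hasDerivAt_id s)
  have h2 := HasFDerivAt.comp_hasDerivAt (x := s) (f := fun x : ℂ => ((φ x, x) : ℂ × ℂ)) h1 hc
  have h3 : (D 1 0 h (φ s, s).1 (φ s, s).2 • ContinuousLinearMap.fst ℂ ℂ ℂ +
      D 0 1 h (φ s, s).1 (φ s, s).2 • ContinuousLinearMap.snd ℂ ℂ ℂ) (deriv φ s, 1) =
      D 1 0 h (φ s) s * deriv φ s + D 0 1 h (φ s) s := by simp
  rw [h3] at h2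
  exact h2

open Filter Topology in
private theorem branch0 {f : ℂ → ℂ → ℂ} (hf : Ent2 f) (h0 : f 0 0 = 0) (hA : D 1 0 f 0 0 ≠ 0) :
    ∃ φ : ℂ → ℂ, AnalyticAt ℂ φ 0 ∧ φ 0 = 0 ∧
      (∀ᶠ s in nhds (0 : ℂ), f (φ s) s = 0) ∧
      (∀ᶠ p in nhds ((0, 0) : ℂ × ℂ), f p.1 p.2 = 0 → p.1 = φ p.2) := by
  set F : ℂ × ℂ → ℂ := fun z => f z.2 z.1 with hF
  have hFd : ∀ p : ℂ × ℂ, HasFDerivAt F
      (D 1 0 f p.2 p.1 • ContinuousLinearMap.snd ℂ ℂ ℂ + D 0 1 f p.2 p.1 • ContinuousLinearMap.fst ℂ ℂ ℂ)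
      p := by
    intro p
    have h1 := fder hf (p.2, p.1)
    have h2 : HasFDerivAt (fun z : ℂ × ℂ => ((z.2, z.1) : ℂ × ℂ)) ((ContinuousLinearMap.snd ℂ ℂ ℂ).prod
      (ContinuousLinearMap.fst ℂ ℂ ℂ)) p :=
      ((ContinuousLinearMap.snd ℂ ℂ ℂ).prod (ContinuousLinearMap.fst ℂ ℂ ℂ)).hasFDerivAt
    have h3 : HasFDerivAt F ((D 1 0 f p.2 p.1 • ContinuousLinearMap.fst ℂ ℂ ℂ +
        D 0 1 f p.2 p.1 • ContinuousLinearMap.snd ℂ ℂ ℂ) ∘L
      (ContinuousLinearMap.snd ℂ ℂ ℂ).prod (ContinuousLinearMap.fst ℂ ℂ ℂ)) p :=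
      HasFDerivAt.comp (g := fun z : ℂ × ℂ => f z.1 z.2)
      (f := fun z : ℂ × ℂ => ((z.2, z.1) : ℂ × ℂ)) p h1 h2
    refine h3.congr_fderiv ?_
    ext <;> simp
  have hcD : ∀ i j, Continuous fun p : ℂ × ℂ => D i j f p.2 p.1 := by
    intro i j
    exact (ent_D hf i j).continuous.comp (continuous_snd.prodMk continuous_fst)
  have hC1 : ContDiff ℂ 1 F := by
    rw [contDiff_one_iff_fderiv]
    refine ⟨fun p => (hFd p).differentiableAt, ?_⟩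
    have : fderiv ℂ F = fun p : ℂ × ℂ => D 1 0 f p.2 p.1 • ContinuousLinearMap.snd ℂ ℂ ℂ +
        D 0 1 f p.2 p.1 • ContinuousLinearMap.fst ℂ ℂ ℂ := by
      funext p
      exact (hFd p).fderiv
    rw [this]
    exact ((hcD 1 0).smul continuous_const).add ((hcD 0 1).smul continuous_const)
  have cdf : ContDiffAt ℂ 1 F (0, 0) := hC1.contDiffAt
  have hF0 : F (0, 0) = 0 := h0
  have if2 : (fderiv ℂ F (0, 0) ∘L .inr ℂ ℂ ℂ).IsInvertible := by
    refine ⟨ContinuousLinearEquiv.unitsEquivAut ℂ (Units.mk0 _ hA), ?_⟩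
    rw [(hFd (0, 0)).fderiv]
    ext
    simp
  have hne : (1 : WithTop ℕ∞) ≠ 0 := one_ne_zero
  refine ⟨cdf.implicitFunction hne if2, ?_, cdf.implicitFunction_apply_self hne if2, ?_, ?_⟩
  · have hφC := cdf.contDiffAt_implicitFunction hne if2
    rw [analyticAt_iff_eventually_differentiableAt]
    filter_upwards [hφC.eventually (by simp)] with s hs
    exact hs.differentiableAt one_ne_zero
  · filter_upwards [cdf.eventually_apply_implicitFunction hne if2] with s hs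
    rw [hF0] at hs
    exact hs
  · have h1 := cdf.eventually_apply_eq_iff_implicitFunction hne if2
    have h2 : Tendsto (fun p : ℂ × ℂ => ((p.2, p.1) : ℂ × ℂ)) (𝓝 (0, 0)) (𝓝 (0, 0)) := by
      have : Continuous (fun p : ℂ × ℂ => ((p.2, p.1) : ℂ × ℂ)) :=
        continuous_snd.prodMk continuous_fst
      exact this.tendsto (0, 0)
    filter_upwards [h2.eventually h1] with p hp hp0
    rw [hF0] at hp
    exact (hp.1 hp0).symm

open Filter Topology in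
theorem branch {f : ℂ → ℂ → ℂ} (hf : Ent2 f) (h0 : f 0 0 = 0) (hA : D 1 0 f 0 0 ≠ 0)
    (h01 : D 0 1 f 0 0 = 0) : ∃ φ : ℂ → ℂ, AnalyticAt ℂ φ 0 ∧ φ 0 = 0 ∧ deriv φ 0 = 0 ∧
      (∀ᶠ s in nhds (0 : ℂ), f (φ s) s = 0) ∧
      (∀ᶠ p in nhds ((0, 0) : ℂ × ℂ), f p.1 p.2 = 0 → p.1 = φ p.2) ∧
      ∀ᶠ s in nhds (0 : ℂ), D 1 0 f (φ s) s ≠ 0 ∧
        D 1 0 f (φ s) s * deriv φ s + D 0 1 f (φ s) s = 0 ∧
        D 2 0 f (φ s) s * deriv φ s ^ 2 + 2 * (D 1 1 f (φ s) s * deriv φ s) + D 0 2 f (φ s) s +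
          D 1 0 f (φ s) s * deriv (deriv φ) s = 0 := by
  obtain ⟨φ, hφan, hφ0, hz, huniq⟩ := branch0 hf h0 hA
  have hφd : ∀ᶠ s in 𝓝 (0 : ℂ), DifferentiableAt ℂ φ s :=
    analyticAt_iff_eventually_differentiableAt.1 hφan
  have hD1 : ∀ᶠ s in 𝓝 (0 : ℂ), D 1 0 f (φ s) s * deriv φ s + D 0 1 f (φ s) s = 0 := by
    filter_upwards [hz.eventually_nhds, hφd] with s hs hd
    have h1 := (chain hf hd).deriv
    have h2 : deriv (fun s => f (φ s) s) s = deriv (fun _ => (0 : ℂ)) s :=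
      Filter.EventuallyEq.deriv_eq hs
    rw [← h1, h2, deriv_const]
  have hA' : ∀ᶠ s in 𝓝 (0 : ℂ), D 1 0 f (φ s) s ≠ 0 := by
    have hc : ContinuousAt (fun s : ℂ => D 1 0 f (φ s) s) 0 := by
      have h1 : ContinuousAt (fun s : ℂ => ((φ s, s) : ℂ × ℂ)) 0 :=
        hφan.continuousAt.prodMk continuousAt_id
      have h2 : Continuous (fun p : ℂ × ℂ => D 1 0 f p.1 p.2) := (ent_D hf 1 0).continuous
      exact ContinuousAt.comp (g := fun p : ℂ × ℂ => D 1 0 f p.1 p.2)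
        (f := fun s : ℂ => ((φ s, s) : ℂ × ℂ)) h2.continuousAt h1
    apply hc.eventually_ne
    rw [hφ0]
    exact hA
  have hd2 : ∀ᶠ s in 𝓝 (0 : ℂ), DifferentiableAt ℂ (deriv φ) s :=
    analyticAt_iff_eventually_differentiableAt.1 hφan.deriv
  have hd0 : deriv φ 0 = 0 := by
    have h1 := hD1.self_of_nhds
    rw [hφ0, h01, add_zero] at h1
    exact (mul_eq_zero.1 h1).resolve_left hA
  refine ⟨φ, hφan, hφ0, hd0, hz, huniq, ?_⟩
  filter_upwards [hA', hD1, hD1.eventually_nhds, hφd, hd2] with s h1 h2 h3 h4 h5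
  refine ⟨h1, h2, ?_⟩
  have c1 := chain (ent_D hf 1 0) h4
  have c2 := chain (ent_D hf 0 1) h4
  have c3 := ((c1.mul h5.hasDerivAt).add c2).deriv
  have c4 : deriv (fun s => D 1 0 f (φ s) s * deriv φ s + D 0 1 f (φ s) s) s =
      deriv (fun _ => (0 : ℂ)) s := Filter.EventuallyEq.deriv_eq h3
  rw [deriv_const] at c4
  have c5 : deriv ((fun s => D 1 0 f (φ s) s) * deriv φ + fun s => D 0 1 f (φ s) s) s = 0 := c4
  rw [c3] at c5
  simp only [D_comp hf] at c5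
  norm_num at c5
  linear_combination c5

end Pool.Agent.RO5
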