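import Pool.Agent.RO5.TSum

/-!
RO5-TPer. Quasi-periodicity of the theta function.

Plan. (1) `tex b (u + o a) = tex b u + 2πi [k1 (1/2+o1 b) o1 a + k2 (1/2+o2 b) o2 a]`, the bracket is
`(a.1+a.2)/2 + tr b a` (`tr_one`, `tr_eq`), so the term is multiplied by `(-1)^(a.1+a.2) = chi a`.
(2) `tex c (u1 + o1 b z1) (u2 + o2 b z2) = tex (c+b) u1 u2 - πi Σ k_j (o_j b)² z_j - 2πi Σ k_j o_j b u_j`
(complete the square), `chi c = chi (c+b) * chi b`; reindex the sum by `c ↦ c + b`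
(`Equiv.addRight`, `Equiv.tsum_eq`).
(3) `T_odd`: reindex by `b ↦ (-1,0) - b`: `1/2 + o_j ((-1,0)-b) = -(1/2 + o_j b)`,
`chi ((-1,0)-b) = - chi b`.
(4) `qp_T`: exponent identity: with `λ_j = a_j + b_j z_j` (`a_j = o_j a`, ...) and `c_j im z_j = k_j`,
`π/2 Σ c_j ((u_j+λ_j)² - u_j²) - πi Σ k_j b_j² z_j - 2πi Σ k_j b_j u_j
 = π Σ c_j u_j conj λ_j + π/2 Σ c_j λ_j conj λ_j + πi Σ k_j a_j b_j`
because `λ_j - conj λ_j = 2 i b_j im z_j`; and `exp(πi Σ k_j a_j b_j) = exp(πi tr a b) = (-1)^(tr a b)`.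
Use (2) then (1) : `th (u + a + b ζ) = chi a * th (u + b ζ)`.
-/

set_option autoImplicit false

namespace Pool.Agent.RO5

open Complex ComplexConjugate Finset Pool.Agent.ROH

private theorem exp_zpow (n : ℤ) : cexp ((n : ℂ) * (Real.pi * I)) = (-1 : ℂ) ^ n := by
  rw [Complex.exp_int_mul, exp_pi_mul_I]

private theorem neg_one_zpow_sq (n : ℤ) : ((-1 : ℂ) ^ n) * (-1 : ℂ) ^ n = 1 := by
  rw [← mul_zpow]; norm_num

private theorem chi_add (a b : ℤ × ℤ) : chi (a + b) = chi a * chi b := by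
  unfold chi
  rw [← zpow_add₀ (by norm_num : (-1 : ℂ) ≠ 0)]
  congr 1
  show a.1 + b.1 + (a.2 + b.2) = _
  ring

private theorem chi_sq (a : ℤ × ℤ) : chi a * chi a = 1 := neg_one_zpow_sq _

private theorem tr_one' (a : ℤ × ℤ) :
    (k1 : ℂ) * o1 a + k2 * o2 a = a.1 + a.2 := by
  have h := congrArg (fun x : ℝ => (x : ℂ)) (tr_one a)
  push_cast at h
  exact h

private theorem tr_eq' (a b : ℤ × ℤ) :
    (k1 : ℂ) * (o1 a * o1 b) + k2 * (o2 a * o2 b) = tr a b := by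
  have h := congrArg (fun x : ℝ => (x : ℂ)) (tr_eq a b)
  push_cast at h
  exact h

theorem th_add_o (a : ℤ × ℤ) (u1 u2 : ℂ) : th (u1 + o1 a) (u2 + o2 a) = chi a * th u1 u2 := by
  unfold th
  rw [← tsum_mul_left]
  refine tsum_congr fun b => ?_
  have h1 : tex b (u1 + o1 a) (u2 + o2 a) =
      tex b u1 u2 + (((a.1 + a.2 : ℤ) : ℂ) * (Real.pi * I) + ((tr b a : ℤ) : ℂ) * (2 * Real.pi * I)) := by
    unfold tex
    have e1 := tr_one' a
    have e2 := tr_eq' b a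
    push_cast
    linear_combination (Real.pi * I : ℂ) * e1 + (2 * Real.pi * I : ℂ) * e2
  rw [h1, Complex.exp_add, Complex.exp_add, exp_zpow, Complex.exp_int_mul_two_pi_mul_I]
  unfold chi
  ring

theorem th_add_z (b : ℤ × ℤ) (u1 u2 : ℂ) : th (u1 + o1 b * z1) (u2 + o2 b * z2) =
    chi b * cexp (-(Real.pi * I * (k1 * o1 b ^ 2 * z1 + k2 * o2 b ^ 2 * z2)) -
      2 * Real.pi * I * (k1 * o1 b * u1 + k2 * o2 b * u2)) * th u1 u2 := by
  unfold th
  rw [← (Equiv.addRight b).tsum_eq (fun c : ℤ × ℤ => chi c * cexp (tex c u1 u2)), ← tsum_mul_left]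
  refine tsum_congr fun c => ?_
  show _ = _ * (chi (c + b) * cexp (tex (c + b) u1 u2))
  have h1 : tex c (u1 + o1 b * z1) (u2 + o2 b * z2) =
      (-(Real.pi * I * (k1 * o1 b ^ 2 * z1 + k2 * o2 b ^ 2 * z2)) -
      2 * Real.pi * I * (k1 * o1 b * u1 + k2 * o2 b * u2)) + tex (c + b) u1 u2 := by
    unfold tex
    rw [o1_add, o2_add]
    push_cast
    ring
  rw [h1, Complex.exp_add, chi_add]
  linear_combination (-(chi c * cexp (-(Real.pi * I * (k1 * o1 b ^ 2 * z1 + k2 * o2 b ^ 2 * z2)) -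
      2 * Real.pi * I * (k1 * o1 b * u1 + k2 * o2 b * u2)) * cexp (tex (c + b) u1 u2))) * chi_sq b

private theorem th_odd (u1 u2 : ℂ) : th (-u1) (-u2) = -th u1 u2 := by
  unfold th
  rw [← (Equiv.subLeft ((-1, 0) : ℤ × ℤ)).tsum_eq
    (fun c : ℤ × ℤ => chi c * cexp (tex c (-u1) (-u2))), ← tsum_neg]
  refine tsum_congr fun b => ?_
  show chi ((-1, 0) - b) * cexp (tex ((-1, 0) - b) (-u1) (-u2)) = _
  have e1 : o1 ((-1, 0) - b) = -1 - o1 b := by
    unfold o1; push_cast [Prod.fst_sub, Prod.snd_sub]; ring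
  have e2 : o2 ((-1, 0) - b) = -1 - o2 b := by
    unfold o2; push_cast [Prod.fst_sub, Prod.snd_sub]; ring
  have h1 : tex ((-1, 0) - b) (-u1) (-u2) = tex b u1 u2 := by
    unfold tex
    rw [e1, e2]
    push_cast
    ring
  have h2 : chi ((-1, 0) - b) = -chi b := by
    unfold chi
    have e3 : ((-1, 0) - b : ℤ × ℤ).1 + ((-1, 0) - b : ℤ × ℤ).2 = -1 + -(b.1 + b.2) := by
      show (-1 - b.1) + (0 - b.2) = _
      ring
    rw [e3, zpow_add₀ (by norm_num : (-1 : ℂ) ≠ 0), zpow_neg]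
    have h3 := neg_one_zpow_sq (b.1 + b.2)
    have h4 : ((-1 : ℂ) ^ (b.1 + b.2))⁻¹ = (-1 : ℂ) ^ (b.1 + b.2) := inv_eq_of_mul_eq_one_left h3
    rw [zpow_neg, h4]
    norm_num
  rw [h1, h2]
  ring

theorem T_odd (u1 u2 : ℂ) : T (-u1) (-u2) = -T u1 u2 := by
  unfold T
  rw [th_odd]
  have e : (Real.pi / 2 * (c1 * (-u1) ^ 2 + c2 * (-u2) ^ 2) : ℂ) =
      Real.pi / 2 * (c1 * u1 ^ 2 + c2 * u2 ^ 2) := by ring
  rw [e]
  ring

theorem qp_T : QP5 1 T := by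
  refine ⟨ent_T, fun a b u1 u2 => ?_⟩
  have hz1 : (c1 : ℂ) * (z1 - conj z1) = 2 * I * k1 := by
    rw [Complex.sub_conj]
    have h := congrArg (fun x : ℝ => (x : ℂ)) c1_im
    push_cast at h ⊢
    linear_combination (2 * I : ℂ) * h
  have hz2 : (c2 : ℂ) * (z2 - conj z2) = 2 * I * k2 := by
    rw [Complex.sub_conj]
    have h := congrArg (fun x : ℝ => (x : ℂ)) c2_im
    push_cast at h ⊢
    linear_combination (2 * I : ℂ) * h
  have hl1 : conj (l1 a b) = o1 a + o1 b * conj z1 := by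
    unfold l1; rw [map_add, map_mul, conj_ofReal, conj_ofReal]
  have hl2 : conj (l2 a b) = o2 a + o2 b * conj z2 := by
    unfold l2; rw [map_add, map_mul, conj_ofReal, conj_ofReal]
  have hth : th (u1 + l1 a b) (u2 + l2 a b) = chi a * (chi b *
      cexp (-(Real.pi * I * (k1 * o1 b ^ 2 * z1 + k2 * o2 b ^ 2 * z2)) -
      2 * Real.pi * I * (k1 * o1 b * u1 + k2 * o2 b * u2)) * th u1 u2) := by
    rw [← th_add_z, ← th_add_o]
    unfold l1 l2
    congr 1 <;> ring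
  unfold T
  rw [hth, pow_one]
  unfold mf ee
  rw [← exp_zpow, hl1, hl2]
  have ht := tr_eq' a b
  have key : (Real.pi / 2 * (c1 * (u1 + l1 a b) ^ 2 + c2 * (u2 + l2 a b) ^ 2) : ℂ) +
      (-(Real.pi * I * (k1 * o1 b ^ 2 * z1 + k2 * o2 b ^ 2 * z2)) -
      2 * Real.pi * I * (k1 * o1 b * u1 + k2 * o2 b * u2)) =
      ((tr a b : ℤ) : ℂ) * (Real.pi * I) +
      (Real.pi * (c1 * (u1 * (o1 a + o1 b * conj z1)) + c2 * (u2 * (o2 a + o2 b * conj z2))) +
      Real.pi / 2 * (c1 * (l1 a b * (o1 a + o1 b * conj z1)) +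
        c2 * (l2 a b * (o2 a + o2 b * conj z2)))) +
      Real.pi / 2 * (c1 * u1 ^ 2 + c2 * u2 ^ 2) := by
    unfold l1 l2
    linear_combination (Real.pi * I : ℂ) * ht +
      (Real.pi * o1 b * (u1 + 1 / 2 * (o1 a + o1 b * z1)) : ℂ) * hz1 +
      (Real.pi * o2 b * (u2 + 1 / 2 * (o2 a + o2 b * z2)) : ℂ) * hz2
  have key2 := congrArg cexp key
  rw [Complex.exp_add, Complex.exp_add, Complex.exp_add (((tr a b : ℤ) : ℂ) * (Real.pi * I))] at key2
  linear_combination (chi a * chi b * th u1 u2) * key2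

end Pool.Agent.RO5
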