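import Pool.Agent.RO5.CDefs
import Pool.Agent.RO5.TPer

/-!
RO5-CQT. Quasi-periodicity of the core functions.

The quasi-periodicity of `T` (`qp_T`), the relations between `ε`, `ζ`, `ζ²` and `s² = 1/ε`.
-/

set_option autoImplicit false

namespace Pool.Agent.RO5

open Complex ComplexConjugate Finset Pool.Agent.ROH

theorem sg_pos : 0 < sg := by
  exact Real.sqrt_pos.2 (div_pos c2_pos c1_pos)

theorem sg_sq : sg ^ 2 = eps⁻¹ := by
  have h1 : sg ^ 2 = c2 / c1 := Real.sq_sqrt (div_pos c2_pos c1_pos).le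
  rw [h1, c1_eq]
  have h2 := c2_pos.ne'
  have h3 : eps ≠ 0 := (lt_trans one_pos eps_gt).ne'
  field_simp

theorem sg_sq' : c1 * sg ^ 2 = c2 := by
  have h1 : sg ^ 2 = c2 / c1 := Real.sq_sqrt (div_pos c2_pos c1_pos).le
  rw [h1]
  exact mul_div_cancel₀ _ c1_pos.ne'

theorem eps_inv : eps⁻¹ = eps - 1 := by
  have h1 := eps_sq
  exact inv_eq_of_mul_eq_one_right (by linear_combination h1)

private lemma cqt_ne : eps ≠ 0 := (lt_trans one_pos eps_gt).ne'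

private lemma cqt_sgC : (sg : ℂ) ≠ 0 := by
  have h := sg_pos.ne'
  exact_mod_cast h

private lemma cqt_sq' : (c1 : ℂ) * (sg : ℂ) ^ 2 = c2 := by
  exact_mod_cast sg_sq'

private lemma cqt_c1 : (c1 : ℂ) = eps * c2 := by
  exact_mod_cast c1_eq

private lemma cqt_epsC : (eps : ℂ) ^ 2 = eps + 1 := by
  exact_mod_cast eps_sq

private lemma cqt_neC : (eps : ℂ) ≠ 0 := by
  exact_mod_cast cqt_ne

private lemma cqt_epc : (epc : ℂ) = 1 - eps := by
  have h := eps_add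
  have h1 : epc = 1 - eps := by linarith
  exact_mod_cast h1

private lemma cqt_invC : (eps : ℂ)⁻¹ = eps - 1 := by
  exact_mod_cast eps_inv

private lemma cqt_ee (a b : ℤ × ℤ) : ‖ee a b‖ = 1 :=
  Complex.norm_eq_one_of_pow_eq_one (ee_sq a b) two_ne_zero

theorem alc_pos : 0 < alc := by
  have h1 := c1_pos
  have h2 := Real.pi_pos
  unfold alc
  positivity

theorem bec_pos : 0 < bec := by
  have h1 := c2_pos
  have h2 := Real.pi_pos
  unfold bec
  positivity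

private lemma cqt_o1c (a : ℤ × ℤ) : o1 (a.1 + a.2, -a.2) = o2 a := by
  have h := eps_add
  have h1 : epc = 1 - eps := by linarith
  unfold o1 o2
  rw [h1]
  push_cast
  ring

private lemma cqt_o2c (a : ℤ × ℤ) : o2 (a.1 + a.2, -a.2) = o1 a := by
  have h := eps_add
  have h1 : epc = 1 - eps := by linarith
  unfold o1 o2
  rw [h1]
  push_cast
  ring

private lemma cqt_z2 : z2 = (eps - 1) * z1 - 1 := z1_sq

private lemma cqt_cz2 : conj z2 = -(eps - 1) * (1 + z1) := by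
  have h1 := z2_conj
  have h2 := cqt_z2
  have h3 := cqt_epc
  linear_combination h1 - h2 + h3

theorem conj_l2 (a b : ℤ × ℤ) : ∃ a1 b1 : ℤ × ℤ, l1 a1 b1 = conj (l2 a b) ∧ l2 a1 b1 = l1 a b := by
  refine ⟨(a.1 + a.2, -a.2) - et (b.1 + b.2, -b.2), -(et (b.1 + b.2, -b.2)), ?_, ?_⟩
  · have e1 : o1 ((a.1 + a.2, -a.2) - et (b.1 + b.2, -b.2)) = o2 a - (eps - 1) * o2 b := by
      rw [sub_eq_add_neg, o1_add, o1_neg, o1_et, cqt_o1c, cqt_o1c]
      ring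
    have e2 : o1 (-(et (b.1 + b.2, -b.2))) = -((eps - 1) * o2 b) := by
      rw [o1_neg, o1_et, cqt_o1c]
    unfold l1 l2
    rw [e1, e2, map_add, map_mul, conj_ofReal, conj_ofReal, cqt_cz2]
    push_cast
    ring
  · have e1 : o2 ((a.1 + a.2, -a.2) - et (b.1 + b.2, -b.2)) = o1 a - (epc - 1) * o1 b := by
      rw [sub_eq_add_neg, o2_add, o2_neg, o2_et, cqt_o2c, cqt_o2c]
      ring
    have e2 : o2 (-(et (b.1 + b.2, -b.2))) = -((epc - 1) * o1 b) := by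
      rw [o2_neg, o2_et, cqt_o2c]
    unfold l1 l2
    rw [e1, e2, cqt_z2]
    push_cast
    rw [cqt_epc]
    linear_combination ((o1 b : ℂ) * z1) * cqt_epsC

theorem unit_l (a b : ℤ × ℤ) : (eps : ℂ)⁻¹ * l1 a b = l1 (et a) (et b) ∧
    -(eps * l2 a b) = l2 (et a) (et b) := by
  constructor
  · unfold l1
    rw [o1_et, o1_et, cqt_invC]
    push_cast
    ring
  · unfold l2
    rw [o2_et, o2_et]
    push_cast
    rw [cqt_epc]
    ring

private lemma cqt_T (a b : ℤ × ℤ) (u1 u2 : ℂ) :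
    T (u1 + l1 a b) (u2 + l2 a b) = mf a b u1 u2 * T u1 u2 := by
  have h := qp_T.2 a b u1 u2
  rwa [pow_one] at h

theorem qt1 (k : ℂ) (a b : ℤ × ℤ) :
    ∃ e : ℂ, ‖e‖ = Real.exp (alc * (‖l1 a b‖ ^ 2 + ‖(sg : ℂ) * l2 a b‖ ^ 2)) ∧ ∀ x y : ℂ,
      T1c k (x + l1 a b, y + sg * l2 a b) =
        e * cexp (2 * alc * (conj (l1 a b) * x + conj ((sg : ℂ) * l2 a b) * y)) * T1c k (x, y) := by
  refine ⟨ee a b * cexp (((Real.pi / 2 * (c1 * ‖l1 a b‖ ^ 2 + c2 * ‖l2 a b‖ ^ 2) : ℝ) : ℂ)), ?_,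
    fun x y => ?_⟩
  · rw [norm_mul, cqt_ee, one_mul, Complex.norm_exp_ofReal, norm_mul, Complex.norm_real,
      Real.norm_of_nonneg sg_pos.le]
    congr 1
    unfold alc
    have h := sg_sq'
    linear_combination (-(Real.pi / 2 * ‖l2 a b‖ ^ 2)) * h
  · have h1 : (y + (sg : ℂ) * l2 a b) / sg = y / sg + l2 a b := by
      rw [add_div, mul_div_cancel_left₀ _ cqt_sgC]
    show k * T (x + l1 a b) ((y + (sg : ℂ) * l2 a b) / sg) = _ * (k * T x (y / sg))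
    rw [h1, cqt_T]
    have h2 : mf a b x (y / sg) =
        ee a b * (cexp (((Real.pi / 2 * (c1 * ‖l1 a b‖ ^ 2 + c2 * ‖l2 a b‖ ^ 2) : ℝ) : ℂ)) *
          cexp (2 * alc * (conj (l1 a b) * x + conj ((sg : ℂ) * l2 a b) * y))) := by
      unfold mf
      rw [← Complex.exp_add]
      congr 2
      rw [Complex.mul_conj', Complex.mul_conj', map_mul, conj_ofReal]
      unfold alc
      push_cast
      have h3 : (c2 : ℂ) * (y / sg * conj (l2 a b)) = c1 * (sg * conj (l2 a b) * y) := by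
        rw [← cqt_sq']
        have h4 := cqt_sgC
        field_simp
      linear_combination (Real.pi : ℂ) * h3
    rw [h2]
    ring

theorem qt2 (k : ℂ) (a b : ℤ × ℤ) :
    ∃ e : ℂ, ‖e‖ = Real.exp (bec * (‖l1 a b‖ ^ 2 + ‖(sg : ℂ) * l2 a b‖ ^ 2)) ∧ ∀ x w : ℂ,
      T2c k (x + l1 a b, w + conj ((sg : ℂ) * l2 a b)) =
        e * cexp (2 * bec * (conj (l1 a b) * x + (sg : ℂ) * l2 a b * w)) * T2c k (x, w) := by
  obtain ⟨a1, b1, hl1, hl2⟩ := conj_l2 a b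
  obtain ⟨hu1, hu2⟩ := unit_l a1 b1
  refine ⟨ee a1 b1 * (ee (et a1) (et b1) *
    cexp (((bec * (‖l1 a b‖ ^ 2 + sg ^ 2 * ‖l2 a b‖ ^ 2) : ℝ) : ℂ))), ?_, fun x w => ?_⟩
  · rw [norm_mul, norm_mul, cqt_ee, cqt_ee, one_mul, one_mul, Complex.norm_exp_ofReal, norm_mul,
      Complex.norm_real, Real.norm_of_nonneg sg_pos.le, mul_pow]
  · have h1 : (w + conj ((sg : ℂ) * l2 a b)) / sg = w / sg + l1 a1 b1 := by
      rw [map_mul, conj_ofReal, add_div, mul_div_cancel_left₀ _ cqt_sgC, hl1]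
    have h2 : (eps : ℂ)⁻¹ * (w / sg + l1 a1 b1) = (eps : ℂ)⁻¹ * (w / sg) + l1 (et a1) (et b1) := by
      rw [mul_add, hu1]
    have h3 : -((eps : ℂ) * (x + l1 a b)) = -(eps * x) + l2 (et a1) (et b1) := by
      rw [← hl2, mul_add, neg_add, hu2]
    show k ^ 2 * (T ((w + conj ((sg : ℂ) * l2 a b)) / sg) (x + l1 a b) *
      T ((eps : ℂ)⁻¹ * ((w + conj ((sg : ℂ) * l2 a b)) / sg)) (-((eps : ℂ) * (x + l1 a b)))) =
      _ * (k ^ 2 * (T (w / sg) x * T ((eps : ℂ)⁻¹ * (w / sg)) (-(eps * x))))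
    rw [h1, h2, h3]
    have h4 : T (w / sg + l1 a1 b1) (x + l1 a b) = mf a1 b1 (w / sg) x * T (w / sg) x := by
      rw [← hl2]
      exact cqt_T a1 b1 _ _
    rw [h4, cqt_T]
    have h5 : mf a1 b1 (w / sg) x * mf (et a1) (et b1) ((eps : ℂ)⁻¹ * (w / sg)) (-(eps * x)) =
        ee a1 b1 * (ee (et a1) (et b1) *
        (cexp (((bec * (‖l1 a b‖ ^ 2 + sg ^ 2 * ‖l2 a b‖ ^ 2) : ℝ) : ℂ)) *
          cexp (2 * bec * (conj (l1 a b) * x + (sg : ℂ) * l2 a b * w)))) := by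
      unfold mf
      rw [← hu1, ← hu2, hl1, hl2, map_neg, map_mul, map_mul, map_inv₀, conj_ofReal,
        Complex.conj_conj]
      have e1 : conj (l2 a b) * l2 a b = (‖l2 a b‖ : ℂ) ^ 2 := by
        rw [mul_comm]
        exact Complex.mul_conj' _
      have e2 : l1 a b * conj (l1 a b) = (‖l1 a b‖ : ℂ) ^ 2 := Complex.mul_conj' _
      have e3 : (c1 : ℂ) * (1 + (eps : ℂ)⁻¹ ^ 2) = c2 * (1 + (eps : ℂ) ^ 2) * (sg : ℂ) ^ 2 := by
        have h6 : (sg : ℂ) ^ 2 = (eps : ℂ)⁻¹ := by exact_mod_cast sg_sq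
        rw [h6, cqt_c1]
        have h7 := cqt_neC
        field_simp
        ring
      have e4 : (w / sg) * (sg : ℂ) ^ 2 = sg * w := by
        have h8 := cqt_sgC
        field_simp
      rw [mul_mul_mul_comm, ← Complex.exp_add, ← Complex.exp_add, mul_assoc]
      congr 3
      unfold bec
      push_cast
      linear_combination (Real.pi : ℂ) * (w / sg) * (l2 a b) * e3 +
        (Real.pi : ℂ) * c2 * (1 + (eps : ℂ) ^ 2) * l2 a b * e4 +
        (Real.pi / 2 : ℂ) * (c1 * (1 + (eps : ℂ)⁻¹ ^ 2)) * e1 +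
        (Real.pi / 2 : ℂ) * (c2 * (1 + (eps : ℂ) ^ 2)) * e2 +
        (Real.pi / 2 : ℂ) * (‖l2 a b‖ : ℂ) ^ 2 * e3
    linear_combination (k ^ 2 * (T (w / sg) x * T ((eps : ℂ)⁻¹ * (w / sg)) (-(eps * x)))) * h5

end Pool.Agent.RO5
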