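import Pool.Agent.RO5.Num

/-!
RO5-Near. The lattice is cocompact and discrete.
-/

set_option autoImplicit false

namespace Pool.Agent.RO5

open Complex ComplexConjugate Finset Pool.Agent.ROH

private theorem near_real (A1 A2 : ℝ) : ∃ a : ℤ × ℤ, |A1 - o1 a| ≤ eps ∧ |A2 - o2 a| ≤ eps := by
  have h1 := eps_gt
  have h2 := epc_neg
  have h3 := epc_gt
  have h4 : eps - epc ≠ 0 := by linarith
  obtain ⟨q, hq⟩ : ∃ q : ℝ, q * (eps - epc) = A1 - A2 := ⟨(A1 - A2) / (eps - epc), div_mul_cancel₀ _ h4⟩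
  set p : ℝ := A1 - q * eps with hp
  refine ⟨(round p, round q), ?_, ?_⟩
  · have e : A1 - o1 (round p, round q) = (p - round p) + (q - round q) * eps := by
      rw [o1, hp]
      ring
    rw [e]
    have g1 := abs_sub_round p
    have g2 := abs_sub_round q
    calc |(p - round p) + (q - round q) * eps| ≤ |p - round p| + |(q - round q) * eps| := abs_add_le _ _
      _ ≤ 1 / 2 + 1 / 2 * eps := by
        rw [abs_mul, abs_of_pos (by linarith : (0 : ℝ) < eps)]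
        gcongr
      _ ≤ eps := by linarith
  · have e : A2 - o2 (round p, round q) = (p - round p) + (q - round q) * epc := by
      rw [o2, hp]
      linear_combination hq
    rw [e]
    have g1 := abs_sub_round p
    have g2 := abs_sub_round q
    calc |(p - round p) + (q - round q) * epc| ≤ |p - round p| + |(q - round q) * epc| := abs_add_le _ _
      _ ≤ 1 / 2 + 1 / 2 * 1 := by
        rw [abs_mul]
        have g3 : |epc| ≤ 1 := abs_le.2 ⟨by linarith, by linarith⟩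
        gcongr
      _ ≤ eps := by linarith

private theorem near_dec (z x : ℂ) (hz : 0 < z.im) : ∃ A B : ℝ, x = A + B * z := by
  refine ⟨x.re - x.im / z.im * z.re, x.im / z.im, ?_⟩
  apply Complex.ext
  · simp
  · simp [hz.ne']

private theorem near_bd (z : ℂ) (hz : ‖z‖ = 1) (A B a b : ℝ) (ha : |A - a| ≤ eps) (hb : |B - b| ≤ eps) :
    ‖(A + B * z : ℂ) - (a + b * z)‖ ≤ 2 * eps := by
  have e : (A + B * z : ℂ) - (a + b * z) = ((A - a : ℝ) : ℂ) + ((B - b : ℝ) : ℂ) * z := by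
    push_cast
    ring
  rw [e]
  refine (norm_add_le _ _).trans ?_
  rw [norm_mul, hz, Complex.norm_real, Complex.norm_real, Real.norm_eq_abs, Real.norm_eq_abs]
  linarith

private theorem near_inv (z : ℂ) (hz : 0 < z.im) (hn : ‖z‖ = 1) (a b R : ℝ) (h : ‖(a + b * z : ℂ)‖ ≤ R) :
    |a| ≤ (1 + 1 / z.im) * R ∧ |b| ≤ (1 + 1 / z.im) * R := by
  have h0 : 0 ≤ R := (norm_nonneg _).trans h
  have h1 : |(a + b * z : ℂ).im| ≤ R := (Complex.abs_im_le_norm _).trans h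
  have h2 : (a + b * z : ℂ).im = b * z.im := by simp
  rw [h2, abs_mul, abs_of_pos hz] at h1
  have h3 : |b| ≤ R / z.im := (le_div_iff₀ hz).2 h1
  have h4 : |b| ≤ 1 / z.im * R := by
    rw [one_div_mul_eq_div]
    exact h3
  have h5 : |a| ≤ ‖(a + b * z : ℂ)‖ + ‖(b : ℂ) * z‖ := by
    have : (a : ℂ) = (a + b * z : ℂ) - b * z := by ring
    calc |a| = ‖(a : ℂ)‖ := by rw [Complex.norm_real, Real.norm_eq_abs]
      _ = ‖(a + b * z : ℂ) - b * z‖ := by rw [← this]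
      _ ≤ _ := norm_sub_le _ _
  rw [norm_mul, hn, mul_one, Complex.norm_real, Real.norm_eq_abs] at h5
  constructor
  · rw [add_mul, one_mul]
    linarith
  · rw [add_mul, one_mul]
    linarith

private theorem near_coord (a : ℤ × ℤ) (S : ℝ) (h1 : |o1 a| ≤ S) (h2 : |o2 a| ≤ S) :
    |(a.1 : ℝ)| ≤ (1 + 2 * eps) * S ∧ |(a.2 : ℝ)| ≤ (1 + 2 * eps) * S := by
  have g1 := eps_gt
  have g2 := epc_neg
  have hS : 0 ≤ S := (abs_nonneg _).trans h1
  have e : (a.2 : ℝ) * (eps - epc) = o1 a - o2 a := by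
    rw [o1, o2]
    ring
  have e2 : |(a.2 : ℝ)| * (eps - epc) ≤ 2 * S := by
    have : |(a.2 : ℝ) * (eps - epc)| ≤ 2 * S := by
      rw [e]
      have := abs_sub (o1 a) (o2 a)
      linarith
    rwa [abs_mul, abs_of_pos (by linarith : (0 : ℝ) < eps - epc)] at this
  have e3 : |(a.2 : ℝ)| ≤ 2 * S := by
    have : |(a.2 : ℝ)| * 1 ≤ |(a.2 : ℝ)| * (eps - epc) := by
      gcongr
      linarith
    linarith
  have e4 : (a.1 : ℝ) = o1 a - a.2 * eps := by
    rw [o1]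
    ring
  have e5 : |(a.1 : ℝ)| ≤ S + 2 * S * eps := by
    rw [e4]
    calc |o1 a - a.2 * eps| ≤ |o1 a| + |(a.2 : ℝ) * eps| := abs_sub _ _
      _ ≤ S + 2 * S * eps := by
        rw [abs_mul, abs_of_pos (by linarith : (0 : ℝ) < eps)]
        gcongr
  constructor
  · linarith
  · nlinarith

private theorem near_irr {e : ℝ} (he : Irrational e) (p q : ℤ) (h : (p : ℝ) + q * e = 0) :
    p = 0 ∧ q = 0 := by
  by_cases hq : q = 0
  · subst hq
    simp only [Int.cast_zero, zero_mul, add_zero, Int.cast_eq_zero] at h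
    exact ⟨h, rfl⟩
  · exfalso
    apply he
    refine ⟨(-p / q : ℚ), ?_⟩
    have hq' : (q : ℝ) ≠ 0 := Int.cast_ne_zero.2 hq
    push_cast
    rw [div_eq_iff hq']
    linarith

private theorem near_zero (z : ℂ) (hz : 0 < z.im) (a b : ℝ) (h : (a + b * z : ℂ) = 0) : a = 0 ∧ b = 0 := by
  have h1 := congrArg Complex.im h
  have h2 := congrArg Complex.re h
  simp only [Complex.add_im, Complex.ofReal_im, Complex.mul_im, Complex.ofReal_re, zero_mul, add_zero,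
    zero_add, Complex.zero_im, mul_eq_zero, hz.ne', or_false] at h1
  subst h1
  simp only [Complex.ofReal_zero, zero_mul, add_zero, Complex.ofReal_re, Complex.zero_re] at h2
  exact ⟨h2, rfl⟩

theorem near_lat : ∃ R : ℝ, 0 < R ∧ ∀ x y : ℂ, ∃ a b : ℤ × ℤ,
    ‖x - l1 a b‖ ≤ R ∧ ‖y - l2 a b‖ ≤ R := by
  refine ⟨2 * eps, by linarith [eps_gt], fun x y => ?_⟩
  obtain ⟨A1, B1, rfl⟩ := near_dec z1 x z1_im
  obtain ⟨A2, B2, rfl⟩ := near_dec z2 y z2_im
  obtain ⟨a, ha1, ha2⟩ := near_real A1 A2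
  obtain ⟨b, hb1, hb2⟩ := near_real B1 B2
  exact ⟨a, b, near_bd z1 norm_z1 A1 B1 _ _ ha1 hb1, near_bd z2 norm_z2 A2 B2 _ _ ha2 hb2⟩

theorem disc_lat : ∃ C : ℝ, 0 < C ∧ ∀ (a b : ℤ × ℤ) (R : ℝ), ‖l1 a b‖ ≤ R → ‖l2 a b‖ ≤ R →
    |(a.1 : ℝ)| ≤ C * R ∧ |(a.2 : ℝ)| ≤ C * R ∧ |(b.1 : ℝ)| ≤ C * R ∧ |(b.2 : ℝ)| ≤ C * R := by
  have g1 := eps_gt
  have hz1 := z1_im
  have hz2 := z2_im
  have p1 : 0 < 1 / z1.im := by positivity
  have p2 : 0 < 1 / z2.im := by positivity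
  refine ⟨(1 + 2 * eps) * (1 + 1 / z1.im + 1 / z2.im), by positivity, fun a b R h1 h2 => ?_⟩
  have h0 : 0 ≤ R := (norm_nonneg _).trans h1
  obtain ⟨c1, c2⟩ := near_inv z1 hz1 norm_z1 (o1 a) (o1 b) R h1
  obtain ⟨c3, c4⟩ := near_inv z2 hz2 norm_z2 (o2 a) (o2 b) R h2
  have m1 : (1 + 1 / z1.im) * R ≤ (1 + 1 / z1.im + 1 / z2.im) * R :=
    mul_le_mul_of_nonneg_right (by linarith) h0
  have m2 : (1 + 1 / z2.im) * R ≤ (1 + 1 / z1.im + 1 / z2.im) * R :=
    mul_le_mul_of_nonneg_right (by linarith) h0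
  obtain ⟨d1, d2⟩ := near_coord a _ (c1.trans m1) (c3.trans m2)
  obtain ⟨d3, d4⟩ := near_coord b _ (c2.trans m1) (c4.trans m2)
  rw [mul_assoc]
  exact ⟨d1, d2, d3, d4⟩

theorem l1_ne (a b : ℤ × ℤ) (h : l1 a b = 0) : a = 0 ∧ b = 0 := by
  obtain ⟨h1, h2⟩ := near_zero z1 z1_im _ _ h
  obtain ⟨h3, h4⟩ := near_irr Real.goldenRatio_irrational a.1 a.2 h1
  obtain ⟨h5, h6⟩ := near_irr Real.goldenRatio_irrational b.1 b.2 h2
  exact ⟨Prod.ext h3 h4, Prod.ext h5 h6⟩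

theorem l2_ne (a b : ℤ × ℤ) (h : l2 a b = 0) : a = 0 ∧ b = 0 := by
  obtain ⟨h1, h2⟩ := near_zero z2 z2_im _ _ h
  obtain ⟨h3, h4⟩ := near_irr Real.goldenConj_irrational a.1 a.2 h1
  obtain ⟨h5, h6⟩ := near_irr Real.goldenConj_irrational b.1 b.2 h2
  exact ⟨Prod.ext h3 h4, Prod.ext h5 h6⟩

end Pool.Agent.RO5
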