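import Pool.Agent.RO5.CDefs
import Pool.Agent.RO5.Near
import Pool.Agent.RO5.CQT

/-!
RO5-CCov. Covering property of the lattice.

Plan. `unit_pow`: for `m : ℤ` and `(a, b)` there is `(a1, b1)` with `l1 a1 b1 = ε^m l1 a b`, `l2 a1 b1 = ε'^m l2 a b`
(`mo (0,1)` multiplies by `ε`; `et` by `ε⁻¹ = ε - 1` and `ε'⁻¹ = ε' - 1`; induction on `m`, `Int.induction_on`).
`|ε'| = ε⁻¹`. Let `R0` be the constant of `near_lat`. Given `R r ≥ C0 := R0² s ε`: choose `m : ℤ` with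
`R/(R0 ε) < ε^m ≤ R/R0` (`exists_mem_Ico_zpow` / `exists_mem_Ioc_zpow`). Apply `near_lat` to
`(ε^(-m) x, ε'^(-m) y/s)` and multiply by the unit: `‖x - l1‖ ≤ ε^m R0 ≤ R`,
`‖y - s l2‖ ≤ s |ε'|^m R0 = s ε^(-m) R0 < s R0² ε/R ≤ r`.
-/

set_option autoImplicit false

namespace Pool.Agent.RO5

open Complex ComplexConjugate Finset Pool.Agent.ROH

private theorem cc_eps_pos : 0 < eps := by linarith [eps_gt]

private theorem cc_mo1 (a b : ℤ × ℤ) : l1 (mo (0, 1) a) (mo (0, 1) b) = (eps : ℂ) * l1 a b := by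
  have h : (eps : ℂ) ^ 2 = eps + 1 := by
    have := eps_sq
    exact_mod_cast this
  simp only [l1, o1, mo]
  push_cast
  linear_combination (-(a.2 : ℂ) - b.2 * z1) * h

private theorem cc_mo2 (a b : ℤ × ℤ) : l2 (mo (0, 1) a) (mo (0, 1) b) = (epc : ℂ) * l2 a b := by
  have h : (epc : ℂ) ^ 2 = epc + 1 := by
    have := epc_sq
    exact_mod_cast this
  simp only [l2, o2, mo]
  push_cast
  linear_combination (-(a.2 : ℂ) - b.2 * z2) * h

private theorem cc_et1 (a b : ℤ × ℤ) : (eps : ℂ) * l1 (et a) (et b) = l1 a b := by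
  have h : (eps : ℂ) ^ 2 = eps + 1 := by
    have := eps_sq
    exact_mod_cast this
  simp only [l1, o1, et]
  push_cast
  linear_combination ((a.1 : ℂ) + b.1 * z1) * h

private theorem cc_et2 (a b : ℤ × ℤ) : (epc : ℂ) * l2 (et a) (et b) = l2 a b := by
  have h : (epc : ℂ) ^ 2 = epc + 1 := by
    have := epc_sq
    exact_mod_cast this
  simp only [l2, o2, et]
  push_cast
  linear_combination ((a.1 : ℂ) + b.1 * z2) * h

theorem unit_pow (m : ℤ) (a b : ℤ × ℤ) : ∃ a1 b1 : ℤ × ℤ,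
    l1 a1 b1 = (eps : ℂ) ^ m * l1 a b ∧ l2 a1 b1 = (epc : ℂ) ^ m * l2 a b := by
  have he : (eps : ℂ) ≠ 0 := by
    have := cc_eps_pos.ne'
    exact_mod_cast this
  have hc : (epc : ℂ) ≠ 0 := by
    have := epc_neg.ne
    exact_mod_cast this
  induction m using Int.induction_on with
  | zero => exact ⟨a, b, by simp, by simp⟩
  | succ n ih =>
    obtain ⟨a1, b1, h1, h2⟩ := ih
    refine ⟨mo (0, 1) a1, mo (0, 1) b1, ?_, ?_⟩
    · rw [zpow_add_one₀ he, cc_mo1, h1]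
      ring
    · rw [zpow_add_one₀ hc, cc_mo2, h2]
      ring
  | pred n ih =>
    obtain ⟨a1, b1, h1, h2⟩ := ih
    refine ⟨et a1, et b1, ?_, ?_⟩
    · rw [zpow_sub_one₀ he]
      apply mul_left_cancel₀ he
      rw [cc_et1, h1]
      field_simp
    · rw [zpow_sub_one₀ hc]
      apply mul_left_cancel₀ hc
      rw [cc_et2, h2]
      field_simp

private theorem cc_abs : |epc| = eps⁻¹ := by
  have h1 := eps_mul
  have h2 := cc_eps_pos
  rw [abs_of_neg epc_neg]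
  apply eq_inv_of_mul_eq_one_left
  linarith

theorem cov5 : ∃ C0 : ℝ, 0 < C0 ∧ ∀ R r : ℝ, 0 < R → 0 < r → C0 ≤ R * r → ∀ x y : ℂ,
    ∃ a b : ℤ × ℤ, ‖x - l1 a b‖ ≤ R ∧ ‖y - sg * l2 a b‖ ≤ r := by
  obtain ⟨R0, hR0, hnear⟩ := near_lat
  have hs := sg_pos
  have hep := cc_eps_pos
  have hep1 : 1 < eps := by linarith [eps_gt]
  have he : (eps : ℂ) ≠ 0 := by exact_mod_cast hep.ne'
  have hc : (epc : ℂ) ≠ 0 := by exact_mod_cast epc_neg.ne
  have hsC : (sg : ℂ) ≠ 0 := by exact_mod_cast hs.ne'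
  refine ⟨R0 ^ 2 * sg * eps, by positivity, fun R r hR hr hRr x y => ?_⟩
  obtain ⟨m, hm1, hm2⟩ := exists_mem_Ico_zpow (div_pos hR hR0) hep1
  obtain ⟨a, b, h1, h2⟩ := hnear ((eps : ℂ) ^ (-m) * x) ((epc : ℂ) ^ (-m) * (y / sg))
  obtain ⟨a1, b1, h3, h4⟩ := unit_pow m a b
  refine ⟨a1, b1, ?_, ?_⟩
  · have e : x - l1 a1 b1 = (eps : ℂ) ^ m * ((eps : ℂ) ^ (-m) * x - l1 a b) := by
      rw [h3, mul_sub, ← mul_assoc, ← zpow_add₀ he]
      simp
    rw [e, norm_mul, norm_zpow, Complex.norm_real, Real.norm_eq_abs, abs_of_pos hep]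
    calc eps ^ m * ‖(eps : ℂ) ^ (-m) * x - l1 a b‖ ≤ R / R0 * R0 := by gcongr
      _ = R := div_mul_cancel₀ _ hR0.ne'
  · have e : y - sg * l2 a1 b1 =
        sg * ((epc : ℂ) ^ m * ((epc : ℂ) ^ (-m) * (y / sg) - l2 a b)) := by
      rw [h4, mul_sub, ← mul_assoc ((epc : ℂ) ^ m) ((epc : ℂ) ^ (-m)), ← zpow_add₀ hc]
      simp only [add_neg_cancel, zpow_zero, one_mul, mul_sub]
      rw [mul_div_cancel₀ _ hsC]
    rw [e, norm_mul, norm_mul, norm_zpow, Complex.norm_real, Complex.norm_real, Real.norm_eq_abs,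
      Real.norm_eq_abs, abs_of_pos hs, cc_abs]
    have h5 : (eps⁻¹) ^ m ≤ eps * (R0 / R) := by
      have h6 : 0 < eps ^ (m + 1) := zpow_pos hep _
      have h7 : (eps ^ (m + 1))⁻¹ ≤ (R / R0)⁻¹ := inv_anti₀ (div_pos hR hR0) hm2.le
      rw [inv_div] at h7
      calc (eps⁻¹) ^ m = eps * (eps ^ (m + 1))⁻¹ := by
            rw [zpow_add_one₀ hep.ne', inv_zpow]
            field_simp
        _ ≤ eps * (R0 / R) := by gcongr
    calc sg * ((eps⁻¹) ^ m * ‖(epc : ℂ) ^ (-m) * (y / sg) - l2 a b‖) ≤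
          sg * (eps * (R0 / R) * R0) := by gcongr
      _ = R0 ^ 2 * sg * eps / R := by ring
      _ ≤ r := by
        rw [div_le_iff₀ hR]
        linarith

end Pool.Agent.RO5
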