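import Pool.Agent.RO5.Defs2
import Pool.Agent.ROH.Defs

/-!
Project ROH5: the core data (two functions `T1 (x, y)`, `T2 (x, w)` and the lattice) from the theta function `T`.
-/

set_option autoImplicit false

namespace Pool.Agent.RO5

open Complex ComplexConjugate Finset Pool.Agent.ROH

noncomputable section

/-- the scaling factor `s`, `s² = c2/c1 = 1/ε` -/
def sg : ℝ := Real.sqrt (c2 / c1)

/-- weight of `T1` -/
def alc : ℝ := Real.pi * c1 / 2

/-- weight of `T2` -/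
def bec : ℝ := Real.pi * c2 * (1 + eps ^ 2) / 2

/-- `f(v1 x, v2 y/s)` for `f U = k T(U1/v1, U2/v2)` -/
def T1c (k : ℂ) (z : ℂ × ℂ) : ℂ := k * T z.1 (z.2 / sg)

/-- `f(v1 w/s, v2 x) f(ε⁻¹ v1 w/s, -ε v2 x)` -/
def T2c (k : ℂ) (z : ℂ × ℂ) : ℂ :=
  k ^ 2 * (T (z.2 / sg) z.1 * T ((eps : ℂ)⁻¹ * (z.2 / sg)) (-(eps * z.1)))

end

end Pool.Agent.RO5
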