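import Pool.Agent.RO5.Defs2
import Pool.Agent.ROH.JetMul

/-!
RO5-Ent. Calculus of entire functions of two variables (`Ent2`, `D i j`, `J`); general, nothing about
theta functions. (ROH/LineC, ROH/JetMul, ROH/AuxF contain similar lemmas, e.g.
`ent2_iteratedDeriv`, which may be used: `import Pool.Agent.ROH.LineC`.)

Plan. `D i j g u1 u2 = iteratedDeriv i (fun x => iteratedDeriv j (fun y => g x y) u2) u1`.
`Ent2 (∂_y g)`, `Ent2 (∂_x g)`: `∂_y g (x,y) = fderiv g (x,y) (0,1)` and the Fréchet derivative of a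
differentiable function over `ℂ` is differentiable (`Differentiable.contDiff`, `ContDiff.differentiable_fderiv`..),
then iterate (`iteratedDeriv_succ`). Commutation of partial derivatives: symmetry of the second
derivative (`ContDiffAt.isSymmSndFDerivAt` / `second_derivative_symmetric`), or by the Taylor formula.
`ent_zero_of_D`: if all `D i j g a1 a2 = 0` then `g = 0`: for fixed `j`, `x ↦ D 0 j g x a2` is entire
with all derivatives zero at `a1`, hence zero; then for each `x`, `y ↦ g x y` is entire with all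
derivatives zero at `a2`, hence zero (`AnalyticOnNhd.eqOn_zero...`,
`Differentiable` + `iteratedDeriv` zero: `Complex.taylorSeries_eq_of_entire` etc.).
-/

set_option autoImplicit false

namespace Pool.Agent.RO5

open Complex ComplexConjugate Finset Pool.Agent.ROH

private theorem entSwap {g : ℂ → ℂ → ℂ} (hg : Ent2 g) : Ent2 (fun x y => g y x) := by
  have h2 : Differentiable ℂ (fun z : ℂ × ℂ => ((z.2, z.1) : ℂ × ℂ)) := by fun_prop
  exact Differentiable.comp (g := fun z : ℂ × ℂ => g z.1 z.2) hg h2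

private theorem entPy {g : ℂ → ℂ → ℂ} (hg : Ent2 g) (j : ℕ) :
    Ent2 (fun x y => iteratedDeriv j (g x) y) := by
  have h1 : Differentiable ℂ (fun z : (ℂ × ℂ × ℂ) × ℂ => g z.1.1 (z.1.2.1 + z.2)) := by
    have h2 : Differentiable ℂ
        (fun z : (ℂ × ℂ × ℂ) × ℂ => ((z.1.1, z.1.2.1 + z.2) : ℂ × ℂ)) := by fun_prop
    exact Differentiable.comp (g := fun z : ℂ × ℂ => g z.1 z.2) hg h2
  have h3 := differentiable_iteratedDeriv (g := fun (z : ℂ × ℂ × ℂ) t => g z.1 (z.2.1 + t)) h1 j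
  have h4 : Differentiable ℂ (fun z : ℂ × ℂ => ((z.1, z.2, 0) : ℂ × ℂ × ℂ)) := by fun_prop
  have h5 := h3.comp h4
  have h6 : (fun z : ℂ × ℂ => iteratedDeriv j (g z.1) z.2) =
      (fun z : ℂ × ℂ × ℂ => iteratedDeriv j (fun t => g z.1 (z.2.1 + t)) 0) ∘
        (fun z : ℂ × ℂ => ((z.1, z.2, 0) : ℂ × ℂ × ℂ)) := by
    funext z
    simp only [Function.comp_apply]
    rw [iteratedDeriv_comp_const_add]
    simp
  unfold Ent2
  rw [h6]
  exact h5

private theorem entPx {g : ℂ → ℂ → ℂ} (hg : Ent2 g) (i : ℕ) :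
    Ent2 (fun x y => iteratedDeriv i (fun s => g s y) x) :=
  entSwap (entPy (entSwap hg) i)

/-- derivative in the first variable -/
private noncomputable def px (g : ℂ → ℂ → ℂ) : ℂ → ℂ → ℂ := fun x y => deriv (fun s => g s y) x

/-- derivative in the second variable -/
private noncomputable def py (g : ℂ → ℂ → ℂ) : ℂ → ℂ → ℂ := fun x y => deriv (g x) y

private theorem ent_px {g : ℂ → ℂ → ℂ} (hg : Ent2 g) : Ent2 (px g) := by
  have h := entPx hg 1
  simp only [iteratedDeriv_one] at h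
  exact h

private theorem ent_py {g : ℂ → ℂ → ℂ} (hg : Ent2 g) : Ent2 (py g) := by
  have h := entPy hg 1
  simp only [iteratedDeriv_one] at h
  exact h

private theorem ent_left {g : ℂ → ℂ → ℂ} (hg : Ent2 g) (y : ℂ) : Differentiable ℂ (fun x => g x y) :=
  ent2_right (entSwap hg) y

private theorem fder_px {g : ℂ → ℂ → ℂ} (hg : Ent2 g) (z : ℂ × ℂ) :
    fderiv ℂ (fun z : ℂ × ℂ => g z.1 z.2) z (1, 0) = px g z.1 z.2 := by
  have h1 : HasDerivAt (fun s : ℂ => ((s, z.2) : ℂ × ℂ)) (1, 0) z.1 :=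
    (hasDerivAt_id z.1).prodMk (hasDerivAt_const z.1 z.2)
  have h2 : HasFDerivAt (fun z : ℂ × ℂ => g z.1 z.2)
      (fderiv ℂ (fun z : ℂ × ℂ => g z.1 z.2) z) ((fun s : ℂ => ((s, z.2) : ℂ × ℂ)) z.1) :=
    (hg z).hasFDerivAt
  have h3 := h2.comp_hasDerivAt z.1 h1
  exact h3.deriv.symm

private theorem fder_py {g : ℂ → ℂ → ℂ} (hg : Ent2 g) (z : ℂ × ℂ) :
    fderiv ℂ (fun z : ℂ × ℂ => g z.1 z.2) z (0, 1) = py g z.1 z.2 := by
  have h1 : HasDerivAt (fun s : ℂ => ((z.1, s) : ℂ × ℂ)) (0, 1) z.2 :=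
    (hasDerivAt_const z.2 z.1).prodMk (hasDerivAt_id z.2)
  have h2 : HasFDerivAt (fun z : ℂ × ℂ => g z.1 z.2)
      (fderiv ℂ (fun z : ℂ × ℂ => g z.1 z.2) z) ((fun s : ℂ => ((z.1, s) : ℂ × ℂ)) z.2) :=
    (hg z).hasFDerivAt
  have h3 := h2.comp_hasDerivAt z.2 h1
  exact h3.deriv.symm

private theorem pxy_comm {g : ℂ → ℂ → ℂ} (hg : Ent2 g) : px (py g) = py (px g) := by
  have hx := ent_px hg
  have hy := ent_py hg
  set F' : ℂ × ℂ → (ℂ × ℂ →L[ℂ] ℂ) := fun z =>
    px g z.1 z.2 • ContinuousLinearMap.fst ℂ ℂ ℂ + py g z.1 z.2 • ContinuousLinearMap.snd ℂ ℂ ℂ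
    with hF'
  have hf : ∀ z, HasFDerivAt (fun z : ℂ × ℂ => g z.1 z.2) (F' z) z := by
    intro z
    have h1 : fderiv ℂ (fun z : ℂ × ℂ => g z.1 z.2) z = F' z := by
      apply ContinuousLinearMap.ext
      intro v
      have hv : v = v.1 • ((1, 0) : ℂ × ℂ) + v.2 • ((0, 1) : ℂ × ℂ) := by
        ext <;> simp
      conv_lhs => rw [hv, map_add, map_smul, map_smul, fder_px hg, fder_py hg]
      simp [hF', mul_comm]
    rw [← h1]
    exact (hg z).hasFDerivAt
  funext x y
  set z : ℂ × ℂ := (x, y) with hz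
  have h2 : HasFDerivAt F'
      ((fderiv ℂ (fun z : ℂ × ℂ => px g z.1 z.2) z).smulRight (ContinuousLinearMap.fst ℂ ℂ ℂ) +
        (fderiv ℂ (fun z : ℂ × ℂ => py g z.1 z.2) z).smulRight (ContinuousLinearMap.snd ℂ ℂ ℂ)) z := by
    have a1 : HasFDerivAt (fun z : ℂ × ℂ => px g z.1 z.2 • ContinuousLinearMap.fst ℂ ℂ ℂ)
        ((fderiv ℂ (fun z : ℂ × ℂ => px g z.1 z.2) z).smulRight (ContinuousLinearMap.fst ℂ ℂ ℂ)) z :=
      (hx z).hasFDerivAt.smul_const (ContinuousLinearMap.fst ℂ ℂ ℂ)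
    have a2 : HasFDerivAt (fun z : ℂ × ℂ => py g z.1 z.2 • ContinuousLinearMap.snd ℂ ℂ ℂ)
        ((fderiv ℂ (fun z : ℂ × ℂ => py g z.1 z.2) z).smulRight (ContinuousLinearMap.snd ℂ ℂ ℂ)) z :=
      (hy z).hasFDerivAt.smul_const (ContinuousLinearMap.snd ℂ ℂ ℂ)
    exact a1.add a2
  have h3 := second_derivative_symmetric hf h2 (1, 0) (0, 1)
  have e1 := fder_px hy z
  have e2 := fder_py hx z
  simp only [_root_.add_apply, ContinuousLinearMap.smulRight_apply,
    _root_.smul_apply, ContinuousLinearMap.coe_fst', ContinuousLinearMap.coe_snd',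
    smul_eq_mul, mul_zero, mul_one, zero_add, add_zero] at h3
  rw [e1, e2] at h3
  exact h3

private theorem ent_px_iter {g : ℂ → ℂ → ℂ} (hg : Ent2 g) (i : ℕ) : Ent2 (px^[i] g) := by
  induction i with
  | zero => exact hg
  | succ i ih =>
    rw [Function.iterate_succ_apply']
    exact ent_px ih

private theorem ent_py_iter {g : ℂ → ℂ → ℂ} (hg : Ent2 g) (i : ℕ) : Ent2 (py^[i] g) := by
  induction i with
  | zero => exact hg
  | succ i ih =>
    rw [Function.iterate_succ_apply']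
    exact ent_py ih

private theorem py_iter (g : ℂ → ℂ → ℂ) (j : ℕ) (x y : ℂ) :
    iteratedDeriv j (g x) y = py^[j] g x y := by
  induction j generalizing y with
  | zero => simp
  | succ j ih =>
    rw [iteratedDeriv_succ, Function.iterate_succ_apply']
    have : iteratedDeriv j (g x) = py^[j] g x := funext fun y => ih y
    rw [this]
    rfl

private theorem px_iter (g : ℂ → ℂ → ℂ) (i : ℕ) (x y : ℂ) :
    iteratedDeriv i (fun s => g s y) x = px^[i] g x y := by
  induction i generalizing x with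
  | zero => simp
  | succ j ih =>
    rw [iteratedDeriv_succ, Function.iterate_succ_apply']
    have : iteratedDeriv j (fun s => g s y) = fun s => px^[j] g s y := funext fun x => ih x
    rw [this]
    rfl

private theorem D_eq (i j : ℕ) (g : ℂ → ℂ → ℂ) : D i j g = px^[i] (py^[j] g) := by
  funext u1 u2
  unfold D
  have : (fun x => iteratedDeriv j (fun y => g x y) u2) = fun x => py^[j] g x u2 :=
    funext fun x => py_iter g j x u2
  rw [this, px_iter]

private theorem py_px_iter {g : ℂ → ℂ → ℂ} (hg : Ent2 g) (i : ℕ) :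
    py (px^[i] g) = px^[i] (py g) := by
  induction i with
  | zero => rfl
  | succ i ih =>
    rw [Function.iterate_succ_apply', Function.iterate_succ_apply', ← ih,
      pxy_comm (ent_px_iter hg i)]

private theorem pyi_pxi {g : ℂ → ℂ → ℂ} (hg : Ent2 g) (i j : ℕ) :
    py^[j] (px^[i] g) = px^[i] (py^[j] g) := by
  induction j with
  | zero => rfl
  | succ j ih =>
    rw [Function.iterate_succ_apply', Function.iterate_succ_apply', ih,
      py_px_iter (ent_py_iter hg j)]

theorem ent_D {g : ℂ → ℂ → ℂ} (hg : Ent2 g) (i j : ℕ) : Ent2 (D i j g) := by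
  rw [D_eq]
  exact ent_px_iter (ent_py_iter hg j) i

theorem D_zero (g : ℂ → ℂ → ℂ) (u1 u2 : ℂ) : D 0 0 g u1 u2 = g u1 u2 := by
  simp [D]

theorem D_left {g : ℂ → ℂ → ℂ} (hg : Ent2 g) (i j : ℕ) (u1 u2 : ℂ) :
    D (i + 1) j g u1 u2 = deriv (fun x => D i j g x u2) u1 := by
  have _ := hg
  rw [D_eq, D_eq, Function.iterate_succ_apply']
  rfl

theorem D_right {g : ℂ → ℂ → ℂ} (hg : Ent2 g) (i j : ℕ) (u1 u2 : ℂ) :
    D i (j + 1) g u1 u2 = deriv (fun y => D i j g u1 y) u2 := by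
  rw [D_eq, D_eq, Function.iterate_succ_apply', ← py_px_iter (ent_py_iter hg j)]
  rfl

theorem D_comp {g : ℂ → ℂ → ℂ} (hg : Ent2 g) (a b i j : ℕ) (u1 u2 : ℂ) :
    D a b (D i j g) u1 u2 = D (a + i) (b + j) g u1 u2 := by
  rw [D_eq, D_eq, D_eq, pyi_pxi (ent_py_iter hg j), ← Function.iterate_add_apply,
    ← Function.iterate_add_apply]

theorem J_eq (g : ℂ → ℂ → ℂ) (i j : ℕ) :
    J g i j = D i j g 0 0 / ((i.factorial : ℂ) * (j.factorial : ℂ)) := rfl

theorem D_shift (g : ℂ → ℂ → ℂ) (a b : ℂ) (i j : ℕ) (u1 u2 : ℂ) :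
    D i j (fun x y => g (x + a) (y + b)) u1 u2 = D i j g (u1 + a) (u2 + b) := by
  unfold D
  have h : (fun x => iteratedDeriv j (fun y => g (x + a) (y + b)) u2) =
      fun x => iteratedDeriv j (fun y => g (x + a) y) (u2 + b) := by
    funext x
    rw [iteratedDeriv_comp_add_const j (fun y => g (x + a) y) b]
  rw [h, iteratedDeriv_comp_add_const i (fun x => iteratedDeriv j (fun y => g x y) (u2 + b)) a]

theorem D_scale {g : ℂ → ℂ → ℂ} (hg : Ent2 g) (a b : ℂ) (i j : ℕ) (u1 u2 : ℂ) :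
    D i j (fun x y => g (a * x) (b * y)) u1 u2 = a ^ i * b ^ j * D i j g (a * u1) (b * u2) := by
  unfold D
  have h : (fun x => iteratedDeriv j (fun y => g (a * x) (b * y)) u2) =
      fun x => b ^ j * (fun x => iteratedDeriv j (fun y => g x y) (b * u2)) (a * x) := by
    funext x
    rw [iteratedDeriv_comp_const_mul (f := fun y => g (a * x) y) (ent2_right hg _).contDiff]
  rw [h, iteratedDeriv_const_mul_field]
  have h2 : Differentiable ℂ (fun x => iteratedDeriv j (fun y => g x y) (b * u2)) :=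
    ent_left (entPy hg j) (b * u2)
  rw [iteratedDeriv_comp_const_mul (f := fun x => iteratedDeriv j (fun y => g x y) (b * u2))
    h2.contDiff]
  ring

theorem D_const_mul {g : ℂ → ℂ → ℂ} (hg : Ent2 g) (k : ℂ) (i j : ℕ) (u1 u2 : ℂ) :
    D i j (fun x y => k * g x y) u1 u2 = k * D i j g u1 u2 := by
  have _ := hg
  unfold D
  have h : (fun x => iteratedDeriv j (fun y => k * g x y) u2) =
      fun x => k * iteratedDeriv j (fun y => g x y) u2 := by
    funext x
    rw [iteratedDeriv_const_mul_field]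
  rw [h, iteratedDeriv_const_mul_field]

theorem D_mul {f g : ℂ → ℂ → ℂ} (hf : Ent2 f) (hg : Ent2 g) (i j : ℕ) (u1 u2 : ℂ) :
    D i j (fun x y => f x y * g x y) u1 u2 =
      ∑ a ∈ range (i + 1), ∑ b ∈ range (j + 1), (i.choose a : ℂ) * (j.choose b : ℂ) *
        (D a b f u1 u2 * D (i - a) (j - b) g u1 u2) := by
  have h1 : (fun x => iteratedDeriv j (fun y => f x y * g x y) u2) =
      fun x => ∑ b ∈ range (j + 1), (j.choose b : ℂ) *
        (iteratedDeriv b (fun y => f x y) u2 * iteratedDeriv (j - b) (fun y => g x y) u2) := by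
    funext x
    rw [iteratedDeriv_fun_mul ((ent2_right hf x).contDiff (n := j)).contDiffAt
      ((ent2_right hg x).contDiff (n := j)).contDiffAt]
    refine Finset.sum_congr rfl fun b _ => ?_
    rw [mul_assoc]
  have hdf : ∀ b, Differentiable ℂ (fun x => iteratedDeriv b (fun y => f x y) u2) :=
    fun b => ent_left (entPy hf b) u2
  have hdg : ∀ b, Differentiable ℂ (fun x => iteratedDeriv b (fun y => g x y) u2) :=
    fun b => ent_left (entPy hg b) u2
  have hd : ∀ b, Differentiable ℂ (fun x => (j.choose b : ℂ) *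
      (iteratedDeriv b (fun y => f x y) u2 * iteratedDeriv (j - b) (fun y => g x y) u2)) :=
    fun b => ((hdf b).mul (hdg (j - b))).const_mul _
  unfold D
  rw [h1, iteratedDeriv_fun_sum (fun b _ => ((hd b).contDiff (n := i)).contDiffAt),
    Finset.sum_comm]
  refine Finset.sum_congr rfl fun b _ => ?_
  rw [iteratedDeriv_const_mul_field, iteratedDeriv_fun_mul ((hdf b).contDiff (n := i)).contDiffAt
    ((hdg (j - b)).contDiff (n := i)).contDiffAt, Finset.mul_sum]
  refine Finset.sum_congr rfl fun a _ => ?_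
  ring

private theorem one_zero {f : ℂ → ℂ} (hf : Differentiable ℂ f) (a : ℂ)
    (h : ∀ n, iteratedDeriv n f a = 0) (z : ℂ) : f z = 0 := by
  have h1 := Complex.hasSum_taylorSeries_of_entire hf a z
  simp only [h, smul_zero] at h1
  exact h1.unique hasSum_zero

/-- all derivatives vanish at one point -/
theorem ent_zero_of_D {g : ℂ → ℂ → ℂ} (hg : Ent2 g) (a1 a2 : ℂ) (h : ∀ i j, D i j g a1 a2 = 0)
    (u1 u2 : ℂ) : g u1 u2 = 0 := by
  refine one_zero (ent2_right hg u1) a2 (fun j => ?_) u2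
  exact one_zero (ent_left (entPy hg j) a2) a1 (fun i => h i j) u1

/-- identity theorem: a product of two entire functions -/
theorem ent_mul_eq_zero {f g : ℂ → ℂ → ℂ} (hf : Ent2 f) (hg : Ent2 g)
    (h : ∀ u1 u2, f u1 u2 * g u1 u2 = 0) (hne : ∃ u1 u2, f u1 u2 ≠ 0) (u1 u2 : ℂ) :
    g u1 u2 = 0 := by
  obtain ⟨p1, p2, hp⟩ := hne
  have hl : Differentiable ℂ (fun s : ℂ => ((p1 + s * (u1 - p1), p2 + s * (u2 - p2)) : ℂ × ℂ)) := by
    fun_prop
  have hF : Differentiable ℂ (fun s : ℂ => f (p1 + s * (u1 - p1)) (p2 + s * (u2 - p2))) :=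
    Differentiable.comp (g := fun z : ℂ × ℂ => f z.1 z.2) hf hl
  have hG : Differentiable ℂ (fun s : ℂ => g (p1 + s * (u1 - p1)) (p2 + s * (u2 - p2))) :=
    Differentiable.comp (g := fun z : ℂ × ℂ => g z.1 z.2) hg hl
  have hFa : AnalyticOnNhd ℂ (fun s : ℂ => f (p1 + s * (u1 - p1)) (p2 + s * (u2 - p2))) Set.univ :=
    fun z _ => hF.analyticAt z
  have hGa : AnalyticOnNhd ℂ (fun s : ℂ => g (p1 + s * (u1 - p1)) (p2 + s * (u2 - p2))) Set.univ :=
    fun z _ => hG.analyticAt z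
  rcases AnalyticOnNhd.eq_zero_or_eq_zero_of_mul_eq_zero hFa hGa (fun z _ => h _ _)
    isPreconnected_univ with h1 | h1
  · exfalso
    have := h1 0 (Set.mem_univ _)
    simp only [zero_mul, add_zero] at this
    exact hp this
  · have := h1 1 (Set.mem_univ _)
    simpa using this

/-- jets along the axes: if `f` is entire, then the Taylor coefficients of `f(0, ·)` are `J f 0 j` -/
theorem line_J0 {f : ℂ → ℂ → ℂ} (hf : Ent2 f) (h : ∀ j, J f 0 j = 0) (z : ℂ) : f 0 z = 0 := by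
  refine one_zero (ent2_right hf 0) 0 (fun j => ?_) z
  have h1 := h j
  rw [J_eq, div_eq_zero_iff] at h1
  rcases h1 with h1 | h1
  · simpa [D] using h1
  · exfalso
    rcases mul_eq_zero.1 h1 with h2 | h2
    · exact Nat.factorial_ne_zero _ (Nat.cast_eq_zero.1 h2)
    · exact Nat.factorial_ne_zero _ (Nat.cast_eq_zero.1 h2)

theorem line_J1 {f : ℂ → ℂ → ℂ} (hf : Ent2 f) (h : ∀ i, J f i 0 = 0) (z : ℂ) : f z 0 = 0 := by
  refine one_zero (ent_left hf 0) 0 (fun j => ?_) z
  have h1 := h j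
  rw [J_eq, div_eq_zero_iff] at h1
  rcases h1 with h1 | h1
  · simpa [D] using h1
  · exfalso
    rcases mul_eq_zero.1 h1 with h2 | h2
    · exact Nat.factorial_ne_zero _ (Nat.cast_eq_zero.1 h2)
    · exact Nat.factorial_ne_zero _ (Nat.cast_eq_zero.1 h2)

end Pool.Agent.RO5
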