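import Pool.Agent.RO5.CMk
import Pool.Agent.RO5.Ent

/-!
RO5-CFL. `F_k` and `H_j` of the core on a line.
-/

set_option autoImplicit false

namespace Pool.Agent.RO5

open Complex ComplexConjugate Finset Pool.Agent.ROH

private theorem cfl_sg : (sg : ℂ) ≠ 0 := by
  have h : 0 < sg := Real.sqrt_pos.2 (div_pos c2_pos c1_pos)
  exact_mod_cast h.ne'

private theorem cfl_eps : (eps : ℂ) ≠ 0 := by
  have h : 0 < eps := by linarith [eps_gt]
  exact_mod_cast h.ne'

private theorem cfl_ent {v1 v2 k : ℂ} {f : ℂ → ℂ → ℂ}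
    (hf : f = fun U1 U2 => k * T (U1 / v1) (U2 / v2)) :
    Differentiable ℂ (fun z : ℂ × ℂ => f z.1 z.2) := by
  subst hf
  have h : Differentiable ℂ (fun z : ℂ × ℂ => T z.1 z.2) := ent_T
  have h1 : Differentiable ℂ (fun z : ℂ × ℂ => ((z.1 / v1, z.2 / v2) : ℂ × ℂ)) := by fun_prop
  exact (h.comp h1).const_mul k

private theorem cfl_exp (r : ℂ) : Differentiable ℂ (fun t : ℂ => cexp (-(r * t))) :=
  ((differentiable_id.const_mul _).neg).cexp

theorem F_lin {v1 v2 k : ℂ} (hv1 : v1 ≠ 0) (hv2 : v2 ≠ 0) (hk : k ≠ 0) {f : ℂ → ℂ → ℂ}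
    (hf : f = fun U1 U2 => k * T (U1 / v1) (U2 / v2)) (n a b e : ℕ) (l : ℂ) :
    (sg / v2) ^ n * (mkC k hk).F n (l * (a * (1 / v1))) (l * (b * (1 / v1))) (l * (e * (1 / v1))) =
      iteratedDeriv n (fun t => f (a * l) (v2 / (sg * v1) * b * l + t) *
        cexp (-(2 * alc * sg / (v1 * v2) * e * l * t))) 0 := by
  have hs := cfl_sg
  have hd := cfl_ent hf
  set φ : ℂ → ℂ := fun t => f (a * l) (v2 / (sg * v1) * b * l + t) *
    cexp (-(2 * alc * sg / (v1 * v2) * e * l * t)) with hφ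
  have hφd : Differentiable ℂ φ := by
    have h1 : Differentiable ℂ (fun t : ℂ => ((a * l, v2 / (sg * v1) * b * l + t) : ℂ × ℂ)) := by
      fun_prop
    exact (hd.comp h1).mul (cfl_exp _)
  have h2 : (fun t : ℂ => (mkC k hk).T1 (l * (a * (1 / v1)), l * (b * (1 / v1)) + t) *
      cexp (-(2 * (mkC k hk).al * (l * (e * (1 / v1))) * t))) = fun t => φ (v2 / sg * t) := by
    funext t
    show k * T (l * (a * (1 / v1))) ((l * (b * (1 / v1)) + t) / sg) *
      cexp (-(2 * alc * (l * (e * (1 / v1))) * t)) = φ (v2 / sg * t)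
    rw [hφ]
    simp only
    rw [hf]
    simp only
    have e1 : (a * l : ℂ) / v1 = l * (a * (1 / v1)) := by
      field_simp
    have e2 : (v2 / (sg * v1) * b * l + v2 / sg * t) / v2 = (l * (b * (1 / v1)) + t) / sg := by
      field_simp
    have e3 : 2 * alc * sg / (v1 * v2) * e * l * (v2 / sg * t) =
        2 * alc * (l * (e * (1 / v1))) * t := by
      field_simp
    rw [e1, e2, e3]
  unfold Core.F
  rw [h2, iteratedDeriv_comp_const_mul (hφd.contDiff (n := n)) (v2 / sg)]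
  simp only [mul_zero]
  rw [← mul_assoc, ← mul_pow]
  have e4 : (sg : ℂ) / v2 * (v2 / sg) = 1 := by
    field_simp
  rw [e4, one_pow, one_mul]

theorem H_lin {v1 v2 k : ℂ} (hv1 : v1 ≠ 0) (hv2 : v2 ≠ 0) (hk : k ≠ 0) {f : ℂ → ℂ → ℂ}
    (hf : f = fun U1 U2 => k * T (U1 / v1) (U2 / v2)) (n a b e : ℕ) (l : ℂ) :
    (sg / v1) ^ n * (mkC k hk).H n (l * (a * (1 / v1))) (l * (b * (1 / v1))) (l * (e * (1 / v1))) =
      iteratedDeriv n (fun t => f (1 / sg * e * l + t) (v2 / v1 * a * l) *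
        f ((eps : ℂ)⁻¹ * (1 / sg * e * l + t)) (-(eps * (v2 / v1) * a * l)) *
        cexp (-(2 * bec * sg / v1 ^ 2 * b * l * t))) 0 := by
  have hs := cfl_sg
  have he := cfl_eps
  have hd := cfl_ent hf
  set φ : ℂ → ℂ := fun t => f (1 / sg * e * l + t) (v2 / v1 * a * l) *
        f ((eps : ℂ)⁻¹ * (1 / sg * e * l + t)) (-(eps * (v2 / v1) * a * l)) *
        cexp (-(2 * bec * sg / v1 ^ 2 * b * l * t)) with hφ
  have hφd : Differentiable ℂ φ := by
    have h1 : Differentiable ℂ (fun t : ℂ => ((1 / sg * e * l + t, v2 / v1 * a * l) : ℂ × ℂ)) := by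
      fun_prop
    have h1' : Differentiable ℂ (fun t : ℂ => (((eps : ℂ)⁻¹ * (1 / sg * e * l + t),
        -(eps * (v2 / v1) * a * l)) : ℂ × ℂ)) := by
      fun_prop
    exact ((hd.comp h1).mul (hd.comp h1')).mul (cfl_exp _)
  have h2 : (fun t : ℂ => (mkC k hk).T2 (l * (a * (1 / v1)), l * (e * (1 / v1)) + t) *
      cexp (-(2 * (mkC k hk).be * (l * (b * (1 / v1))) * t))) = fun t => φ (v1 / sg * t) := by
    funext t
    show k ^ 2 * (T ((l * (e * (1 / v1)) + t) / sg) (l * (a * (1 / v1))) *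
      T ((eps : ℂ)⁻¹ * ((l * (e * (1 / v1)) + t) / sg)) (-(eps * (l * (a * (1 / v1)))))) *
      cexp (-(2 * bec * (l * (b * (1 / v1))) * t)) = φ (v1 / sg * t)
    rw [hφ]
    simp only
    rw [hf]
    simp only
    have e1 : v2 / v1 * a * l / v2 = l * (a * (1 / v1)) := by
      field_simp
    have e2 : (1 / sg * e * l + v1 / sg * t) / v1 = (l * (e * (1 / v1)) + t) / sg := by
      field_simp
    have e5 : (eps : ℂ)⁻¹ * (1 / sg * e * l + v1 / sg * t) / v1 =
        (eps : ℂ)⁻¹ * ((l * (e * (1 / v1)) + t) / sg) := by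
      rw [mul_div_assoc, e2]
    have e6 : -(eps * (v2 / v1) * a * l) / v2 = -(eps * (l * (a * (1 / v1)))) := by
      field_simp
    have e3 : 2 * bec * sg / v1 ^ 2 * b * l * (v1 / sg * t) =
        2 * bec * (l * (b * (1 / v1))) * t := by
      field_simp
    rw [e1, e2, e5, e6, e3]
    ring
  unfold Core.H
  rw [h2, iteratedDeriv_comp_const_mul (hφd.contDiff (n := n)) (v1 / sg)]
  simp only [mul_zero]
  rw [← mul_assoc, ← mul_pow]
  have e4 : (sg : ℂ) / v1 * (v1 / sg) = 1 := by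
    field_simp
  rw [e4, one_pow, one_mul]

end Pool.Agent.RO5
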