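import Pool.Agent.RO5.Num

/-!
RO5-Dense. The two projections of the lattice are dense; a quasi-periodic function which is not
identically zero does not vanish on a coordinate line.

Plan. `{p + q ε}` and `{p + q ε'}` are dense in `ℝ` (`ε` irrational: `Real.goldenRatio_irrational`, or
`Irrational` of `√5` from `Nat.Prime.irrational_sqrt`; density of `ℤ + ℤ α` for irrational `α`:
`dense_addSubgroupClosure_pair_iff` or `AddCircle.dense_zmultiples_iff...`, or the criterion
`AddSubgroup.dense_of_not_isolated_zero`: `|(ε-1)^n| → 0`, all these are in `o`;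
for the conjugate: `|epc|^n → 0`, and the group is closed under multiplication). Every complex number
is `x + y z1` with real `x, y` (`z1.im ≠ 0`), so `{l1 a b} = {o1 a + o1 b z1}` is dense in `ℂ`.

`line1`: if `g c z = 0` for all `z` then, by `QP5`, `g (c + l1 a b) z = 0` for all `a b z`
(`z = (z - l2 a b) + l2 a b`), so `g(·, z)` is continuous and vanishes on a dense set for each `z`.
-/

set_option autoImplicit false

namespace Pool.Agent.RO5

open Complex ComplexConjugate Finset Pool.Agent.ROH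

private theorem dense_o1 : DenseRange o1 := by
  have h1 : Dense ((AddSubgroup.closure {eps, 1} : AddSubgroup ℝ) : Set ℝ) := by
    rw [dense_addSubgroupClosure_pair_iff, div_one]
    exact Real.goldenRatio_irrational
  refine h1.mono ?_
  intro x hx
  rw [SetLike.mem_coe, AddSubgroup.mem_closure_pair] at hx
  obtain ⟨m, n, h⟩ := hx
  refine ⟨(n, m), ?_⟩
  rw [← h, o1]
  simp only [zsmul_eq_mul]
  ring

private theorem dense_o2 : DenseRange o2 := by
  have h1 : Dense ((AddSubgroup.closure {epc, 1} : AddSubgroup ℝ) : Set ℝ) := by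
    rw [dense_addSubgroupClosure_pair_iff, div_one]
    exact Real.goldenConj_irrational
  refine h1.mono ?_
  intro x hx
  rw [SetLike.mem_coe, AddSubgroup.mem_closure_pair] at hx
  obtain ⟨m, n, h⟩ := hx
  refine ⟨(n, m), ?_⟩
  rw [← h, o2]
  simp only [zsmul_eq_mul]
  ring

private theorem dense_comb {o : ℤ × ℤ → ℝ} (ho : DenseRange o) (z : ℂ) (hz : z.im ≠ 0) :
    DenseRange fun p : (ℤ × ℤ) × (ℤ × ℤ) => (o p.1 : ℂ) + o p.2 * z := by
  have h1 : DenseRange (fun q : ℝ × ℝ => (q.1 : ℂ) + q.2 * z) := by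
    refine Function.Surjective.denseRange fun w => ?_
    refine ⟨(w.re - w.im / z.im * z.re, w.im / z.im), ?_⟩
    apply Complex.ext
    · simp
    · simp [div_mul_cancel₀ _ hz]
  have h2 : Continuous (fun q : ℝ × ℝ => (q.1 : ℂ) + q.2 * z) := by fun_prop
  exact h1.comp (ho.prodMap ho) h2

/-- `{l1 a b}` is dense in `ℂ` -/
theorem dense_l1 : Dense (Set.range fun p : (ℤ × ℤ) × (ℤ × ℤ) => l1 p.1 p.2) :=
  dense_comb dense_o1 z1 z1_im.ne'

/-- `{l2 a b}` is dense in `ℂ` -/
theorem dense_l2 : Dense (Set.range fun p : (ℤ × ℤ) × (ℤ × ℤ) => l2 p.1 p.2) :=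
  dense_comb dense_o2 z2 z2_im.ne'

theorem qp_line1 {N : ℕ} {g : ℂ → ℂ → ℂ} (hg : QP5 N g) (hne : ∃ u1 u2, g u1 u2 ≠ 0) (c : ℂ) :
    ∃ z, g c z ≠ 0 := by
  by_contra hcon
  simp only [not_exists, not_not] at hcon
  obtain ⟨u1, u2, hu⟩ := hne
  apply hu
  have hcont : Continuous fun w : ℂ => g (c + w) u2 := by
    have h1 : Continuous fun z : ℂ × ℂ => g z.1 z.2 := hg.1.continuous
    exact h1.comp (Continuous.prodMk (continuous_const.add continuous_id) continuous_const)
  have h2 : (fun w : ℂ => g (c + w) u2) = fun _ => 0 := by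
    refine Continuous.ext_on dense_l1 hcont continuous_const ?_
    rintro _ ⟨p, rfl⟩
    have h3 := hg.2 p.1 p.2 c (u2 - l2 p.1 p.2)
    rw [sub_add_cancel, hcon, mul_zero] at h3
    exact h3
  have h4 := congrFun h2 (u1 - c)
  simpa using h4

theorem qp_line2 {N : ℕ} {g : ℂ → ℂ → ℂ} (hg : QP5 N g) (hne : ∃ u1 u2, g u1 u2 ≠ 0) (c : ℂ) :
    ∃ z, g z c ≠ 0 := by
  by_contra hcon
  simp only [not_exists, not_not] at hcon
  obtain ⟨u1, u2, hu⟩ := hne
  apply hu
  have hcont : Continuous fun w : ℂ => g u1 (c + w) := by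
    have h1 : Continuous fun z : ℂ × ℂ => g z.1 z.2 := hg.1.continuous
    exact h1.comp (Continuous.prodMk continuous_const (continuous_const.add continuous_id))
  have h2 : (fun w : ℂ => g u1 (c + w)) = fun _ => 0 := by
    refine Continuous.ext_on dense_l2 hcont continuous_const ?_
    rintro _ ⟨p, rfl⟩
    have h3 := hg.2 p.1 p.2 (u1 - l1 p.1 p.2) c
    rw [sub_add_cancel, hcon, mul_zero] at h3
    exact h3
  have h4 := congrFun h2 (u2 - c)
  simpa using h4

end Pool.Agent.RO5
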