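import Pool.Agent.RO5.Coef

/-!
RO5-Uniq. The space `QP5 1` has dimension `≤ 1`, the space `QP5 2` has dimension `≤ 4`
(linear combinations with vanishing Fourier coefficients `FC p q`, `p, q < N`, are zero).
-/

set_option autoImplicit false

namespace Pool.Agent.RO5

open Complex ComplexConjugate Finset Pool.Agent.ROH

theorem qp_sum {ι : Type*} {N : ℕ} (s : Finset ι) (c : ι → ℂ) (g : ι → ℂ → ℂ → ℂ)
    (hg : ∀ i ∈ s, QP5 N (g i)) : QP5 N (fun u1 u2 => ∑ i ∈ s, c i * g i u1 u2) := by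
  refine ⟨?_, ?_⟩
  · unfold Ent2
    refine Differentiable.fun_sum fun i hi => ?_
    exact Differentiable.const_mul (hg i hi).1 (c i)
  · intro a b u1 u2
    show ∑ i ∈ s, c i * g i (u1 + l1 a b) (u2 + l2 a b) = mf a b u1 u2 ^ N * ∑ i ∈ s, c i * g i u1 u2
    rw [Finset.mul_sum]
    refine Finset.sum_congr rfl fun i hi => ?_
    rw [(hg i hi).2 a b u1 u2]
    ring

private theorem uq_tw {ι : Type*} {N : ℕ} (s : Finset ι) (c : ι → ℂ) (g : ι → ℂ → ℂ → ℂ) :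
    tw N (fun u1 u2 => ∑ i ∈ s, c i * g i u1 u2) = fun u1 u2 => ∑ i ∈ s, c i * tw N (g i) u1 u2 := by
  funext u1 u2
  unfold tw
  rw [Finset.sum_mul]
  exact Finset.sum_congr rfl fun i _ => mul_assoc _ _ _

private theorem uq_zero {ι : Type*} {N : ℕ} (hN : 0 < N) (s : Finset ι) (c : ι → ℂ)
    (g : ι → ℂ → ℂ → ℂ) (hg : ∀ i ∈ s, QP5 N (g i))
    (h : ∀ p < N, ∀ q < N, ∑ i ∈ s, c i * FC p q (tw N (g i)) = 0) (u1 u2 : ℂ) :
    ∑ i ∈ s, c i * g i u1 u2 = 0 := by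
  refine coef_zero hN (qp_sum s c g hg) ?_ u1 u2
  intro p hp q hq
  rw [uq_tw, FC_sum s c (fun i => tw N (g i)) (fun i hi => (tw_per (hg i hi)).1)]
  exact h p hp q hq

theorem uniq {T' g : ℂ → ℂ → ℂ} (hT : QP5 1 T') (hne : ∃ u1 u2, T' u1 u2 ≠ 0) (hg : QP5 1 g) :
    ∃ c : ℂ, ∀ u1 u2, g u1 u2 = c * T' u1 u2 := by
  have ht0 : FC ((0 : ℕ) : ℤ) ((0 : ℕ) : ℤ) (tw 1 T') ≠ 0 := by
    intro h0
    obtain ⟨u1, u2, hu⟩ := hne
    apply hu
    refine coef_zero Nat.one_pos hT ?_ u1 u2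
    intro p hp q hq
    obtain rfl := Nat.lt_one_iff.mp hp
    obtain rfl := Nat.lt_one_iff.mp hq
    exact h0
  refine ⟨FC ((0 : ℕ) : ℤ) ((0 : ℕ) : ℤ) (tw 1 g) / FC ((0 : ℕ) : ℤ) ((0 : ℕ) : ℤ) (tw 1 T'),
    fun u1 u2 => ?_⟩
  have h1 := uq_zero (N := 1) Nat.one_pos (Finset.univ : Finset (Fin 2))
    ![1, -(FC ((0 : ℕ) : ℤ) ((0 : ℕ) : ℤ) (tw 1 g) / FC ((0 : ℕ) : ℤ) ((0 : ℕ) : ℤ) (tw 1 T'))]
    ![g, T'] (by
      intro i _
      fin_cases i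
      · exact hg
      · exact hT) (by
      intro p hp q hq
      obtain rfl := Nat.lt_one_iff.mp hp
      obtain rfl := Nat.lt_one_iff.mp hq
      rw [Fin.sum_univ_two]
      simp only [Matrix.cons_val_zero, Matrix.cons_val_one]
      field_simp
      ring) u1 u2
  rw [Fin.sum_univ_two] at h1
  simp only [Matrix.cons_val_zero, Matrix.cons_val_one] at h1
  linear_combination h1

theorem dim4 (g : Fin 5 → ℂ → ℂ → ℂ) (hg : ∀ i, QP5 2 (g i)) :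
    ∃ c : Fin 5 → ℂ, c ≠ 0 ∧ ∀ u1 u2, ∑ i, c i * g i u1 u2 = 0 := by
  set A : Matrix (Fin 2 × Fin 2) (Fin 5) ℂ :=
    Matrix.of fun pq i => FC (((pq.1 : ℕ) : ℤ)) (((pq.2 : ℕ) : ℤ)) (tw 2 (g i)) with hA
  have h1 : LinearMap.ker A.mulVecLin ≠ ⊥ := by
    refine LinearMap.ker_ne_bot_of_finrank_lt ?_
    rw [Module.finrank_fintype_fun_eq_card, Module.finrank_fintype_fun_eq_card, Fintype.card_prod,
      Fintype.card_fin, Fintype.card_fin]
    norm_num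
  obtain ⟨c, hc, hc0⟩ := (Submodule.ne_bot_iff _).mp h1
  refine ⟨c, hc0, fun u1 u2 => ?_⟩
  refine uq_zero (by norm_num) Finset.univ c g (fun i _ => hg i) ?_ u1 u2
  intro p hp q hq
  rw [LinearMap.mem_ker, Matrix.mulVecLin_apply] at hc
  have h2 := congrFun hc (⟨p, hp⟩, ⟨q, hq⟩)
  rw [Matrix.mulVec, dotProduct] at h2
  simp only [hA, Matrix.of_apply, Pi.zero_apply] at h2
  rw [← h2]
  exact Finset.sum_congr rfl fun i _ => mul_comm _ _

end Pool.Agent.RO5
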