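import Pool.Agent.RO5.TNe
import Pool.Agent.RO5.Uniq
import Pool.Agent.RO5.Dense

/-!
RO5-TZeta. `T(ζ u) = ρ T(u)` with `ρ^5 = 1`; summary of the properties of `T`.

Plan. `g u = T(z1 u1)(z2 u2)` is in `QP5 1`: `g(u+λ) = T(ζu + ζλ)`, `ζλ(a,b) = λ(-b, a + et b)`
(`l1_zeta`, `l2_zeta`) and `mf_zeta`. By `uniq`, `g = ρ T`. Apply five times: `z1^5 = 1 = z2^5`,
`T = ρ^5 T` and `T_ne`.
-/

set_option autoImplicit false

namespace Pool.Agent.RO5

open Complex ComplexConjugate Finset Pool.Agent.ROH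

private theorem tz_ent {g : ℂ → ℂ → ℂ} (h : Ent2 g) (a b : ℂ) : Ent2 (fun u1 u2 => g (a * u1) (b * u2)) := by
  unfold Ent2 at h ⊢
  have h2 : Differentiable ℂ (fun z : ℂ × ℂ => (a * z.1, b * z.2)) :=
    ((differentiable_const a).mul differentiable_fst).prodMk
      ((differentiable_const b).mul differentiable_snd)
  exact h.comp h2

private theorem tz_qp : QP5 1 (fun u1 u2 => T (z1 * u1) (z2 * u2)) := by
  have hT := qp_T
  refine ⟨?_, ?_⟩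
  · exact tz_ent hT.1 z1 z2
  · intro a b u1 u2
    have h := hT.2 (-b) (a + et b) (z1 * u1) (z2 * u2)
    rw [mf_zeta, ← l1_zeta, ← l2_zeta, ← mul_add, ← mul_add] at h
    exact h

private theorem tz_iter {ρ : ℂ} (h : ∀ u1 u2, T (z1 * u1) (z2 * u2) = ρ * T u1 u2) (n : ℕ) (u1 u2 : ℂ) :
    T (z1 ^ n * u1) (z2 ^ n * u2) = ρ ^ n * T u1 u2 := by
  induction n with
  | zero => simp
  | succ n ih =>
    have e1 : z1 ^ (n + 1) * u1 = z1 * (z1 ^ n * u1) := by ring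
    have e2 : z2 ^ (n + 1) * u2 = z2 * (z2 ^ n * u2) := by ring
    rw [e1, e2, h, ih]
    ring

theorem T_zeta : ∃ ρ : ℂ, ρ ^ 5 = 1 ∧ ∀ u1 u2, T (z1 * u1) (z2 * u2) = ρ * T u1 u2 := by
  obtain ⟨ρ, hρ⟩ := uniq qp_T T_ne tz_qp
  refine ⟨ρ, ?_, hρ⟩
  obtain ⟨u1, u2, hne⟩ := T_ne
  have h := tz_iter hρ 5 u1 u2
  have hz2 : z2 ^ 5 = 1 := by
    have e : z2 ^ 5 = (z1 ^ 5) ^ 2 := by
      unfold z2
      ring
    rw [e, z1_pow, one_pow]
  rw [z1_pow, hz2, one_mul, one_mul] at h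
  have h2 : (ρ ^ 5 - 1) * T u1 u2 = 0 := by
    rw [sub_mul, ← h, one_mul, sub_self]
  rcases mul_eq_zero.1 h2 with h3 | h3
  · exact sub_eq_zero.1 h3
  · exact absurd h3 hne

theorem T_line1 (c : ℂ) : ∃ z, T c z ≠ 0 := qp_line1 qp_T T_ne c

theorem T_line2 (c : ℂ) : ∃ z, T z c ≠ 0 := qp_line2 qp_T T_ne c

theorem T_zero : T 0 0 = 0 := by
  have h := T_odd 0 0
  rw [neg_zero] at h
  have h2 : (2 : ℂ) * T 0 0 = 0 := by linear_combination h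
  rcases mul_eq_zero.1 h2 with h3 | h3
  · norm_num at h3
  · exact h3

end Pool.Agent.RO5
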