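import Pool.Agent.RO5.CQT
import Pool.Agent.RO5.Near
import Pool.Agent.RO5.TZeta

/-!
RO5-CLow. A point where both core functions are not small, uniformly in `d` (compare ROH8/GLow).
-/

set_option autoImplicit false

namespace Pool.Agent.RO5

open Complex ComplexConjugate Finset Pool.Agent.ROH

/-- the normalised second function -/
private noncomputable def lowN (k x w : ℂ) : ℝ :=
  ‖T2c k (x, w)‖ * Real.exp (-(bec * (‖x‖ ^ 2 + ‖w‖ ^ 2)))

private theorem low_sq (x l : ℂ) : ‖x + l‖ ^ 2 = ‖x‖ ^ 2 + ‖l‖ ^ 2 + 2 * (conj l * x).re := by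
  rw [Complex.sq_norm, Complex.sq_norm, Complex.sq_norm, Complex.normSq_add, mul_comm x]

private theorem lowN_per (k : ℂ) (a b : ℤ × ℤ) (x w : ℂ) :
    lowN k (x + l1 a b) (w + conj ((sg : ℂ) * l2 a b)) = lowN k x w := by
  obtain ⟨e, he, h⟩ := qt2 k a b
  have h1 := low_sq x (l1 a b)
  have h2 := low_sq w (conj ((sg : ℂ) * l2 a b))
  rw [Complex.conj_conj, Complex.norm_conj] at h2
  unfold lowN
  rw [h x w, norm_mul, norm_mul, he, Complex.norm_exp, h1, h2]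
  have h3 : ((2 : ℂ) * bec * (conj (l1 a b) * x + (sg : ℂ) * l2 a b * w)).re =
      2 * bec * ((conj (l1 a b) * x).re + ((sg : ℂ) * l2 a b * w).re) := by
    have h4 : ((2 : ℂ) * bec * (conj (l1 a b) * x + (sg : ℂ) * l2 a b * w)) =
        ((2 * bec : ℝ) : ℂ) * (conj (l1 a b) * x + (sg : ℂ) * l2 a b * w) := by
      push_cast
      ring
    rw [h4, Complex.re_ofReal_mul, Complex.add_re]
  rw [h3, mul_right_comm, ← Real.exp_add, ← Real.exp_add, mul_comm]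
  congr 2
  ring

private theorem lowN_per' (k : ℂ) (a b : ℤ × ℤ) (x w : ℂ) :
    lowN k (x + l2 a b) (w + sg * l1 a b) = lowN k x w := by
  obtain ⟨a1, b1, h1, h2⟩ := conj_l2 a b
  obtain ⟨a2, b2, h3, h4⟩ := conj_l2 a1 b1
  obtain ⟨a3, b3, h5, h6⟩ := conj_l2 a2 b2
  have e1 : l1 a3 b3 = l2 a b := by rw [h5, h4, h1, Complex.conj_conj]
  have e2 : l2 a3 b3 = conj (l1 a b) := by rw [h6, h3, h2]
  have h := lowN_per k a3 b3 x w
  rwa [e1, e2, map_mul, Complex.conj_conj, Complex.conj_ofReal] at h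

private noncomputable def lowP (k x : ℂ) (b : ℂ × ℂ) : ℝ :=
  ‖T1c k (x, 0)‖ * Real.exp (-(alc * ‖x‖ ^ 2)) * lowN k (x + b.1) b.2

private theorem low_Tc {X : Type*} [TopologicalSpace X] {f g : X → ℂ} (hf : Continuous f)
    (hg : Continuous g) : Continuous fun x => T (f x) (g x) := by
  have h : Continuous (fun z : ℂ × ℂ => T z.1 z.2) := qp_T.1.continuous
  exact Continuous.comp (g := fun z : ℂ × ℂ => T z.1 z.2) (f := fun x => (f x, g x)) h
    (hf.prodMk hg)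

private theorem low_Td {f g : ℂ → ℂ} (hf : Differentiable ℂ f)
    (hg : Differentiable ℂ g) : Differentiable ℂ fun x => T (f x) (g x) := by
  have h : Differentiable ℂ (fun z : ℂ × ℂ => T z.1 z.2) := qp_T.1
  exact Differentiable.comp (g := fun z : ℂ × ℂ => T z.1 z.2) (f := fun x => (f x, g x)) h
    (hf.prodMk hg)

private theorem low_cont (k x : ℂ) : Continuous (lowP k x) := by
  have h1 : Continuous (fun b : ℂ × ℂ => T2c k (x + b.1, b.2)) := by
    have c1 : Continuous (fun b : ℂ × ℂ => T (b.2 / sg) (x + b.1)) :=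
      low_Tc (by fun_prop) (by fun_prop)
    have c2 : Continuous (fun b : ℂ × ℂ => T ((eps : ℂ)⁻¹ * (b.2 / sg)) (-(eps * (x + b.1)))) :=
      low_Tc (by fun_prop) (by fun_prop)
    exact continuous_const.mul (c1.mul c2)
  unfold lowP lowN
  refine continuous_const.mul (h1.norm.mul ?_)
  fun_prop

/-- an entire function which is not identically zero has no zero in a punctured neighbourhood of `0` -/
private theorem low_ev {f : ℂ → ℂ} (hf : Differentiable ℂ f) {z : ℂ} (hz : f z ≠ 0) :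
    ∀ᶠ x in nhdsWithin (0 : ℂ) {0}ᶜ, f x ≠ 0 := by
  have ha : AnalyticOnNhd ℂ f Set.univ := fun z _ => hf.analyticAt z
  rcases (ha 0 trivial).eventually_eq_zero_or_eventually_ne_zero with h | h
  · exfalso
    have h1 : f = 0 := by
      refine AnalyticOnNhd.eq_of_eventuallyEq (z₀ := 0) ha (fun z _ => analyticAt_const) h
    exact hz (congrFun h1 z)
  · exact h

private theorem low_pos {k : ℂ} (hk : k ≠ 0) (b : ℂ × ℂ) : ∃ x : ℂ, 0 < lowP k x b := by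
  have he : (eps : ℂ) ≠ 0 := by
    have := eps_gt
    exact_mod_cast (by linarith : (0 : ℝ) < eps).ne'
  obtain ⟨u0, hu0⟩ := T_line2 0
  obtain ⟨u1, hu1⟩ := T_line1 (b.2 / sg)
  obtain ⟨u2, hu2⟩ := T_line1 ((eps : ℂ)⁻¹ * (b.2 / sg))
  have e0 : ∀ᶠ x in nhdsWithin (0 : ℂ) {0}ᶜ, T x 0 ≠ 0 :=
    low_ev (f := fun x => T x 0)
      (low_Td (by fun_prop) (by fun_prop)) (z := u0) hu0
  have e1 : ∀ᶠ x in nhdsWithin (0 : ℂ) {0}ᶜ, T (b.2 / sg) (x + b.1) ≠ 0 :=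
    low_ev (f := fun x => T (b.2 / sg) (x + b.1))
      (low_Td (by fun_prop) (by fun_prop)) (z := u1 - b.1) (by
        show T (b.2 / sg) (u1 - b.1 + b.1) ≠ 0
        rwa [sub_add_cancel])
  have e2 : ∀ᶠ x in nhdsWithin (0 : ℂ) {0}ᶜ,
      T ((eps : ℂ)⁻¹ * (b.2 / sg)) (-(eps * (x + b.1))) ≠ 0 :=
    low_ev (f := fun x => T ((eps : ℂ)⁻¹ * (b.2 / sg)) (-(eps * (x + b.1))))
      (low_Td (by fun_prop) (by fun_prop)) (z := -(u2 / eps) - b.1) (by
        show T ((eps : ℂ)⁻¹ * (b.2 / sg)) (-(eps * (-(u2 / eps) - b.1 + b.1))) ≠ 0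
        rw [sub_add_cancel, mul_neg, neg_neg, mul_div_cancel₀ _ he]
        exact hu2)
  obtain ⟨x, hx0, hx1, hx2⟩ := (e0.and (e1.and e2)).exists
  refine ⟨x, ?_⟩
  have f0 : T1c k (x, 0) ≠ 0 := by
    simp only [T1c, zero_div]
    exact mul_ne_zero hk hx0
  have f1 : T2c k (x + b.1, b.2) ≠ 0 := by
    simp only [T2c]
    exact mul_ne_zero (pow_ne_zero 2 hk) (mul_ne_zero hx1 hx2)
  unfold lowP lowN
  exact mul_pos (mul_pos (norm_pos_iff.2 f0) (Real.exp_pos _))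
    (mul_pos (norm_pos_iff.2 f1) (Real.exp_pos _))

private theorem low_cpt {k : ℂ} (hk : k ≠ 0) {s : Set (ℂ × ℂ)} (hs : IsCompact s) :
    ∃ c : ℝ, 0 < c ∧ ∀ b ∈ s, ∃ x : ℂ, c ≤ lowP k x b := by
  refine hs.induction_on (p := fun s => ∃ c : ℝ, 0 < c ∧ ∀ b ∈ s, ∃ x : ℂ, c ≤ lowP k x b)
    ?_ ?_ ?_ ?_
  · exact ⟨1, one_pos, fun b hb => absurd hb (Set.notMem_empty b)⟩
  · rintro s t hst ⟨c, hc, h⟩
    exact ⟨c, hc, fun b hb => h b (hst hb)⟩
  · rintro s t ⟨c, hc, h⟩ ⟨c', hc', h'⟩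
    refine ⟨min c c', lt_min hc hc', fun b hb => ?_⟩
    rcases hb with hb | hb
    · obtain ⟨x, hx⟩ := h b hb
      exact ⟨x, (min_le_left _ _).trans hx⟩
    · obtain ⟨x, hx⟩ := h' b hb
      exact ⟨x, (min_le_right _ _).trans hx⟩
  · intro b _
    obtain ⟨x, hx⟩ := low_pos hk b
    have h3 : {b' | lowP k x b / 2 < lowP k x b'} ∈ nhds b :=
      (isOpen_lt continuous_const (low_cont k x)).mem_nhds (half_lt_self hx)
    exact ⟨_, mem_nhdsWithin_of_mem_nhds h3, lowP k x b / 2, half_pos hx,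
      fun b' hb' => ⟨x, le_of_lt hb'⟩⟩

theorem low5 {k : ℂ} (hk : k ≠ 0) : ∃ c0 : ℝ, 0 < c0 ∧ ∀ d : ℂ, ∃ x y : ℂ,
    c0 ≤ ‖T1c k (x, y)‖ * ‖T2c k (x, conj y + d)‖ *
      Real.exp (-(alc * (‖x‖ ^ 2 + ‖y‖ ^ 2) + bec * (‖x‖ ^ 2 + ‖conj y + d‖ ^ 2))) := by
  obtain ⟨R, hR, hn⟩ := near_lat
  have hs := sg_pos
  have hs' : (sg : ℂ) ≠ 0 := by exact_mod_cast hs.ne'
  obtain ⟨c0, hc0, hc⟩ := low_cpt hk
    ((isCompact_closedBall (0 : ℂ) R).prod (isCompact_closedBall (0 : ℂ) (sg * R)))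
  refine ⟨c0, hc0, fun d => ?_⟩
  obtain ⟨a, b, h1, h2⟩ := hn (d / sg) 0
  have hm : ((-(l2 a b), d - sg * l1 a b) : ℂ × ℂ) ∈
      Metric.closedBall (0 : ℂ) R ×ˢ Metric.closedBall (0 : ℂ) (sg * R) := by
    refine ⟨?_, ?_⟩
    · rw [mem_closedBall_zero_iff]
      rwa [zero_sub] at h2
    · rw [mem_closedBall_zero_iff]
      have e1 : d - sg * l1 a b = sg * (d / sg - l1 a b) := by
        field_simp
      show ‖d - sg * l1 a b‖ ≤ _
      rw [e1, norm_mul, Complex.norm_real, Real.norm_eq_abs, abs_of_pos hs]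
      exact mul_le_mul_of_nonneg_left h1 hs.le
  obtain ⟨x, hx⟩ := hc _ hm
  refine ⟨x, 0, hx.trans_eq ?_⟩
  have e2 : lowN k (x + -(l2 a b)) (d - sg * l1 a b) = lowN k x d := by
    have h := lowN_per' k a b (x + -(l2 a b)) (d - sg * l1 a b)
    rw [neg_add_cancel_right, sub_add_cancel] at h
    exact h.symm
  simp only [lowP]
  rw [e2]
  simp only [lowN, map_zero, zero_add, norm_zero]
  rw [neg_add, Real.exp_add]
  have e3 : alc * (‖x‖ ^ 2 + 0 ^ 2) = alc * ‖x‖ ^ 2 := by ring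
  rw [e3]
  ring

end Pool.Agent.RO5
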