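import Pool.Agent.RO5.CCov
import Pool.Agent.RO5.CLow
import Pool.Agent.RO5.CQT

/-!
RO5-CMk. The core data.
-/

set_option autoImplicit false

namespace Pool.Agent.RO5

open Complex ComplexConjugate Finset Pool.Agent.ROH

noncomputable section

/-- the lattice -/
def OO : AddSubgroup (ℂ × ℂ) where
  carrier := {u | ∃ a b : ℤ × ℤ, u = (l1 a b, sg * l2 a b)}
  add_mem' := by
    rintro _ _ ⟨a, b, rfl⟩ ⟨a', b', rfl⟩
    refine ⟨a + a', b + b', ?_⟩
    rw [l1_add, l2_add]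
    ext
    · rfl
    · simp only [Prod.snd_add]; ring
  zero_mem' := ⟨0, 0, by ext <;> simp [l1, l2, o1, o2]⟩
  neg_mem' := by
    rintro _ ⟨a, b, rfl⟩
    refine ⟨-a, -b, ?_⟩
    ext
    · simp only [Prod.fst_neg, l1, o1_neg]; push_cast; ring
    · simp only [Prod.snd_neg, l2, o2_neg]; push_cast; ring

/-- the core data -/
def mkC (k : ℂ) (hk : k ≠ 0) : Core where
  al := alc
  be := bec
  hal := alc_pos
  hbe := bec_pos
  T1 := T1c k
  T2 := T2c k
  d1 := by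
    have h : Differentiable ℂ (fun z : ℂ × ℂ => T z.1 z.2) := ent_T
    have h1 : Differentiable ℂ (fun z : ℂ × ℂ => ((z.1, z.2 / sg) : ℂ × ℂ)) := by fun_prop
    unfold T1c
    exact (h.comp h1).const_mul k
  d2 := by
    have h : Differentiable ℂ (fun z : ℂ × ℂ => T z.1 z.2) := ent_T
    have h1 : Differentiable ℂ (fun z : ℂ × ℂ => ((z.2 / sg, z.1) : ℂ × ℂ)) := by fun_prop
    have h2 : Differentiable ℂ
        (fun z : ℂ × ℂ => (((eps : ℂ)⁻¹ * (z.2 / sg), -(eps * z.1)) : ℂ × ℂ)) := by fun_prop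
    unfold T2c
    exact ((h.comp h1).mul (h.comp h2)).const_mul (k ^ 2)
  O := OO
  q1 := by
    rintro _ ⟨a, b, rfl⟩
    exact qt1 k a b
  q2 := by
    rintro _ ⟨a, b, rfl⟩
    exact qt2 k a b
  cov := by
    obtain ⟨C0, h0, h⟩ := cov5
    refine ⟨C0, h0, fun R r hR hr hC x y => ?_⟩
    obtain ⟨a, b, h1, h2⟩ := h R r hR hr hC x y
    exact ⟨_, ⟨a, b, rfl⟩, h1, h2⟩
  low := low5 hk

end

end Pool.Agent.RO5
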