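import Pool.Agent.RO5.Defs
import Pool.Agent.ROH.JetMul

/-!
RO5-CalA. Partial derivatives `D i j g` of entire functions of two variables (`Ent2 g`: jointly differentiable).

Tools: `Pool.Agent.ROH.ent2_iteratedDeriv` (ROH/JetMul) and `differentiable_iteratedDeriv` (ROH/Hol); Cauchy's formula.
For `ent2_D`: `(x, u2) ↦ iteratedDeriv j (fun y => g x y) u2 = iteratedDeriv j (fun y => g x (u2 + y)) 0` is jointly entire
(apply `differentiable_iteratedDeriv` to the function `(x, u2, y) ↦ g x (u2 + y)`), then the same in `x`.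
For `D_D`: it is enough to have `∂_y ∂_x = ∂_x ∂_y` on entire functions, e.g. from
`HasFDerivAt`/`ContDiff` symmetry of second derivatives (`ContDiffAt.isSymmSndFDerivAt`, `second_derivative_symmetric`), or with the
Cauchy integral `∂_x g = (2πi)⁻¹ ∮ g(ζ, y)/(ζ-x)² dζ` and differentiation under the integral, or because both sides have the same
iterated Leibniz/Taylor coefficients. Then induction.
-/

set_option autoImplicit false

namespace Pool.Agent.RO5

open Complex Finset Pool.Agent.ROH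

theorem D_zero_zero (g : ℂ → ℂ → ℂ) : D 0 0 g = g := by
  funext u1 u2
  simp [D]

private theorem D0_apply (j : ℕ) (g : ℂ → ℂ → ℂ) (u1 u2 : ℂ) :
    D 0 j g u1 u2 = iteratedDeriv j (g u1) u2 := by
  simp [D]

private theorem Di_apply (i : ℕ) (g : ℂ → ℂ → ℂ) (u1 u2 : ℂ) :
    D i 0 g u1 u2 = iteratedDeriv i (fun x => g x u2) u1 := by
  simp [D]

private theorem D_split (i j : ℕ) (g : ℂ → ℂ → ℂ) : D i j g = D i 0 (D 0 j g) := by
  funext u1 u2
  simp [D]

private theorem ent2_D0 {g : ℂ → ℂ → ℂ} (hg : Ent2 g) (j : ℕ) : Ent2 (D 0 j g) := by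
  have h1 : Differentiable ℂ (fun z : (ℂ × ℂ × ℂ) × ℂ => g z.1.1 (z.1.2.1 + z.2)) := by
    have h2 : Differentiable ℂ (fun z : (ℂ × ℂ × ℂ) × ℂ =>
        ((z.1.1, z.1.2.1 + z.2) : ℂ × ℂ)) := by fun_prop
    exact Differentiable.comp (g := fun z : ℂ × ℂ => g z.1 z.2) hg h2
  have h3 := differentiable_iteratedDeriv
    (g := fun (z : ℂ × ℂ × ℂ) t => g z.1 (z.2.1 + t)) h1 j
  have h4 : Differentiable ℂ (fun z : ℂ × ℂ => ((z.1, z.2, 0) : ℂ × ℂ × ℂ)) := by fun_prop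
  have h5 := h3.comp h4
  have h6 : (fun z : ℂ × ℂ => D 0 j g z.1 z.2) =
      (fun z : ℂ × ℂ × ℂ => iteratedDeriv j (fun t => g z.1 (z.2.1 + t)) 0) ∘
        (fun z : ℂ × ℂ => ((z.1, z.2, 0) : ℂ × ℂ × ℂ)) := by
    funext z
    rw [D0_apply, Function.comp_apply]
    simp only
    rw [iteratedDeriv_comp_const_add j (g z.1) z.2]
    simp
  unfold Ent2
  rw [h6]
  exact h5

private theorem ent2_swap {g : ℂ → ℂ → ℂ} (hg : Ent2 g) : Ent2 (fun x y => g y x) := by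
  have h2 : Differentiable ℂ (fun z : ℂ × ℂ => ((z.2, z.1) : ℂ × ℂ)) := by fun_prop
  exact Differentiable.comp (g := fun z : ℂ × ℂ => g z.1 z.2) hg h2

private theorem Di_swap (i : ℕ) (g : ℂ → ℂ → ℂ) :
    D i 0 g = fun x y => D 0 i (fun x y => g y x) y x := by
  funext x y
  rw [Di_apply, D0_apply]

private theorem ent2_Di {g : ℂ → ℂ → ℂ} (hg : Ent2 g) (i : ℕ) : Ent2 (D i 0 g) := by
  rw [Di_swap]
  exact ent2_swap (ent2_D0 (ent2_swap hg) i)

theorem ent2_D {g : ℂ → ℂ → ℂ} (hg : Ent2 g) (i j : ℕ) : Ent2 (D i j g) := by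
  rw [D_split]
  exact ent2_Di (ent2_D0 hg j) i

private theorem D0_D0 (g : ℂ → ℂ → ℂ) (j l : ℕ) : D 0 j (D 0 l g) = D 0 (j + l) g := by
  funext x y
  rw [D0_apply, D0_apply]
  have h : D 0 l g x = iteratedDeriv l (g x) := by
    funext y
    rw [D0_apply]
  rw [h, iteratedDeriv_eq_iterate, iteratedDeriv_eq_iterate, iteratedDeriv_eq_iterate,
    Function.iterate_add_apply]

private theorem Di_Di (g : ℂ → ℂ → ℂ) (i k : ℕ) : D i 0 (D k 0 g) = D (i + k) 0 g := by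
  rw [Di_swap i, Di_swap k, Di_swap (i + k)]
  funext x y
  rw [← D0_D0]

private theorem comm11 {g : ℂ → ℂ → ℂ} (hg : Ent2 g) :
    D 0 1 (D 1 0 g) = D 1 0 (D 0 1 g) := by
  have hx : Ent2 (D 1 0 g) := ent2_Di hg 1
  have hy : Ent2 (D 0 1 g) := ent2_D0 hg 1
  set F : ℂ × ℂ → ℂ := fun z => g z.1 z.2 with hF
  -- the derivative
  let L1 : ℂ × ℂ →L[ℂ] ℂ := ContinuousLinearMap.fst ℂ ℂ ℂ
  let L2 : ℂ × ℂ →L[ℂ] ℂ := ContinuousLinearMap.snd ℂ ℂ ℂ
  let F' : ℂ × ℂ → (ℂ × ℂ →L[ℂ] ℂ) := fun z => D 1 0 g z.1 z.2 • L1 + D 0 1 g z.1 z.2 • L2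
  have hF' : ∀ z, HasFDerivAt F (F' z) z := by
    intro z
    have h0 : HasFDerivAt F (fderiv ℂ F z) z := (hg z).hasFDerivAt
    have e1 : fderiv ℂ F z (1, 0) = D 1 0 g z.1 z.2 := by
      have hl : HasDerivAt (fun s : ℂ => (s, z.2)) ((1 : ℂ), (0 : ℂ)) z.1 :=
        (hasDerivAt_id z.1).prodMk (hasDerivAt_const z.1 z.2)
      have h1 := h0.comp_hasDerivAt z.1 hl
      rw [Di_apply, iteratedDeriv_one]
      exact h1.deriv.symm
    have e2 : fderiv ℂ F z (0, 1) = D 0 1 g z.1 z.2 := by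
      have hl : HasDerivAt (fun s : ℂ => (z.1, s)) ((0 : ℂ), (1 : ℂ)) z.2 :=
        (hasDerivAt_const z.2 z.1).prodMk (hasDerivAt_id z.2)
      have h1 := h0.comp_hasDerivAt z.2 hl
      rw [D0_apply, iteratedDeriv_one]
      exact h1.deriv.symm
    have e3 : fderiv ℂ F z = F' z := by
      refine ContinuousLinearMap.ext fun v => ?_
      have hv : v = v.1 • ((1 : ℂ), (0 : ℂ)) + v.2 • ((0 : ℂ), (1 : ℂ)) := by
        ext <;> simp
      have h2 : fderiv ℂ F z v = v.1 • fderiv ℂ F z (1, 0) + v.2 • fderiv ℂ F z (0, 1) := by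
        conv_lhs => rw [hv]
        rw [map_add, map_smul, map_smul]
      rw [h2, e1, e2]
      simp only [F', L1, L2, ContinuousLinearMap.add_apply, ContinuousLinearMap.smul_apply,
        ContinuousLinearMap.coe_fst', ContinuousLinearMap.coe_snd', smul_eq_mul]
      ring
    rw [← e3]
    exact h0
  funext x y
  have hX : HasFDerivAt (fun z : ℂ × ℂ => D 1 0 g z.1 z.2)
      (fderiv ℂ (fun z : ℂ × ℂ => D 1 0 g z.1 z.2) (x, y)) (x, y) := (hx (x, y)).hasFDerivAt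
  have hY : HasFDerivAt (fun z : ℂ × ℂ => D 0 1 g z.1 z.2)
      (fderiv ℂ (fun z : ℂ × ℂ => D 0 1 g z.1 z.2) (x, y)) (x, y) := (hy (x, y)).hasFDerivAt
  have hF'' := (hX.smul_const L1).add (hY.smul_const L2)
  have hsym := second_derivative_symmetric hF' hF'' (1, 0) (0, 1)
  simp only [ContinuousLinearMap.add_apply, ContinuousLinearMap.smulRight_apply,
    ContinuousLinearMap.smul_apply, L1, L2, ContinuousLinearMap.coe_fst',
    ContinuousLinearMap.coe_snd', smul_eq_mul, mul_zero, mul_one, zero_add, add_zero] at hsym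
  -- `hsym : ∂_(1,0) (∂_y g) = ∂_(0,1) (∂_x g)`
  have a1 : D 0 1 (D 1 0 g) x y = fderiv ℂ (fun z : ℂ × ℂ => D 1 0 g z.1 z.2) (x, y) (0, 1) := by
    have hl : HasDerivAt (fun s : ℂ => (x, s)) ((0 : ℂ), (1 : ℂ)) y :=
      (hasDerivAt_const y x).prodMk (hasDerivAt_id y)
    have h1 := hX.comp_hasDerivAt y hl
    rw [D0_apply, iteratedDeriv_one]
    exact h1.deriv
  have a2 : D 1 0 (D 0 1 g) x y = fderiv ℂ (fun z : ℂ × ℂ => D 0 1 g z.1 z.2) (x, y) (1, 0) := by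
    have hl : HasDerivAt (fun s : ℂ => (s, y)) ((1 : ℂ), (0 : ℂ)) x :=
      (hasDerivAt_id x).prodMk (hasDerivAt_const x y)
    have h1 := hY.comp_hasDerivAt x hl
    rw [Di_apply, iteratedDeriv_one]
    exact h1.deriv
  rw [a1, a2]
  exact hsym.symm

private theorem comm1 {g : ℂ → ℂ → ℂ} (hg : Ent2 g) (k : ℕ) :
    D 0 1 (D k 0 g) = D k 0 (D 0 1 g) := by
  induction k with
  | zero => rw [D_zero_zero, D_zero_zero]
  | succ k ih =>
    rw [Nat.add_comm k 1, ← Di_Di, ← Di_Di, comm11 (ent2_Di hg k), ih]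

private theorem comm {g : ℂ → ℂ → ℂ} (hg : Ent2 g) (j k : ℕ) :
    D 0 j (D k 0 g) = D k 0 (D 0 j g) := by
  induction j with
  | zero => rw [D_zero_zero, D_zero_zero]
  | succ j ih =>
    rw [Nat.add_comm j 1, ← D0_D0, ← D0_D0, ih, comm1 (ent2_D0 hg j)]

/-- partial derivatives commute -/
theorem D_D {g : ℂ → ℂ → ℂ} (hg : Ent2 g) (i j k l : ℕ) : D i j (D k l g) = D (i + k) (j + l) g := by
  rw [D_split i j, D_split k l, comm (ent2_D0 hg l), Di_Di, D0_D0, ← D_split]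

end Pool.Agent.RO5
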