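import Pool.Agent.RO5.Defs

/-!
RO5-CalB. Chain rule for entire functions of two variables.

`Ent2 g` is `Differentiable ℂ (fun z : ℂ × ℂ => g z.1 z.2)`. `HasFDerivAt.comp_hasDerivAt`, and
`fderiv (1, 0) = deriv (fun x => g x v) u = D 1 0 g u v`, `fderiv (0, 1) = D 0 1 g u v` (again by composition with lines);
`iteratedDeriv_one`, `iteratedDeriv_zero`.
-/

set_option autoImplicit false

namespace Pool.Agent.RO5

open Complex Finset Pool.Agent.ROH

private theorem calB_fderiv {g : ℂ → ℂ → ℂ} (hg : Ent2 g) (u v : ℂ) (a b : ℂ) :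
    fderiv ℂ (fun z : ℂ × ℂ => g z.1 z.2) (u, v) (a, b) = D 1 0 g u v * a + D 0 1 g u v * b := by
  have hG : HasFDerivAt (fun z : ℂ × ℂ => g z.1 z.2)
      (fderiv ℂ (fun z : ℂ × ℂ => g z.1 z.2) (u, v)) (u, v) :=
    (hg (u, v)).hasFDerivAt
  have h1 : D 1 0 g u v = fderiv ℂ (fun z : ℂ × ℂ => g z.1 z.2) (u, v) (1, 0) := by
    have hl : HasDerivAt (fun x : ℂ => (x, v)) ((1 : ℂ), (0 : ℂ)) u :=
      (hasDerivAt_id u).prodMk (hasDerivAt_const u v)
    have hc := HasFDerivAt.comp_hasDerivAt (x := u) (f := fun x : ℂ => (x, v)) hG hl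
    have hd : D 1 0 g u v = deriv (fun x => g x v) u := by
      simp only [D, iteratedDeriv_one, iteratedDeriv_zero]
    rw [hd]
    exact hc.deriv
  have h2 : D 0 1 g u v = fderiv ℂ (fun z : ℂ × ℂ => g z.1 z.2) (u, v) (0, 1) := by
    have hl : HasDerivAt (fun y : ℂ => (u, y)) ((0 : ℂ), (1 : ℂ)) v :=
      (hasDerivAt_const v u).prodMk (hasDerivAt_id v)
    have hc := HasFDerivAt.comp_hasDerivAt (x := v) (f := fun y : ℂ => (u, y)) hG hl
    have hd : D 0 1 g u v = deriv (fun y => g u y) v := by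
      simp only [D, iteratedDeriv_one, iteratedDeriv_zero]
    rw [hd]
    exact hc.deriv
  have h3 : ((a, b) : ℂ × ℂ) = a • ((1 : ℂ), (0 : ℂ)) + b • ((0 : ℂ), (1 : ℂ)) := by
    ext <;> simp
  rw [h3, map_add, map_smul, map_smul, ← h1, ← h2, smul_eq_mul, smul_eq_mul]
  ring

/-- chain rule, complex parameter -/
theorem hasDerivAt_comp2 {g : ℂ → ℂ → ℂ} (hg : Ent2 g) {u v : ℂ → ℂ} {u' v' s : ℂ}
    (hu : HasDerivAt u u' s) (hv : HasDerivAt v v' s) :
    HasDerivAt (fun t => g (u t) (v t)) (D 1 0 g (u s) (v s) * u' + D 0 1 g (u s) (v s) * v') s := by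
  have hG : HasFDerivAt (fun z : ℂ × ℂ => g z.1 z.2)
      (fderiv ℂ (fun z : ℂ × ℂ => g z.1 z.2) (u s, v s)) (u s, v s) :=
    (hg (u s, v s)).hasFDerivAt
  have hc := HasFDerivAt.comp_hasDerivAt (x := s) (f := fun t => (u t, v t)) hG (hu.prodMk hv)
  rw [calB_fderiv hg] at hc
  exact hc

/-- chain rule, real parameter -/
theorem hasDerivAt_comp2_real {g : ℂ → ℂ → ℂ} (hg : Ent2 g) {u v : ℝ → ℂ} {u' v' : ℂ} {s : ℝ}
    (hu : HasDerivAt u u' s) (hv : HasDerivAt v v' s) :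
    HasDerivAt (fun t => g (u t) (v t)) (D 1 0 g (u s) (v s) * u' + D 0 1 g (u s) (v s) * v') s := by
  have hG : HasFDerivAt (fun z : ℂ × ℂ => g z.1 z.2)
      (fderiv ℂ (fun z : ℂ × ℂ => g z.1 z.2) (u s, v s)) (u s, v s) :=
    (hg (u s, v s)).hasFDerivAt
  have hc := HasFDerivAt.comp_hasDerivAt (x := s) (f := fun t => (u t, v t))
    (hG.restrictScalars ℝ) (hu.prodMk hv)
  rw [ContinuousLinearMap.coe_restrictScalars', calB_fderiv hg] at hc
  exact hc

/-- an entire function of two variables composed with entire functions -/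
theorem ent2_comp {g : ℂ → ℂ → ℂ} (hg : Ent2 g) {u v : ℂ → ℂ → ℂ} (hu : Ent2 u) (hv : Ent2 v) :
    Ent2 (fun x y => g (u x y) (v x y)) := by
  have h := Differentiable.comp (g := fun z : ℂ × ℂ => g z.1 z.2)
    (f := fun z : ℂ × ℂ => (u z.1 z.2, v z.1 z.2)) hg (Differentiable.prodMk hu hv)
  exact h

end Pool.Agent.RO5
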