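import Pool.Agent.RO5.CalA

/-!
RO5-CalC. The coefficients `J` of translates and the Leibniz formula for `hir`.
-/

set_option autoImplicit false

namespace Pool.Agent.RO5

open Complex Finset Pool.Agent.ROH

/-- normalised partial derivatives -/
noncomputable def Dn (i j : ℕ) (g : ℂ → ℂ → ℂ) (u1 u2 : ℂ) : ℂ :=
  D i j g u1 u2 / ((i.factorial : ℂ) * (j.factorial : ℂ))

theorem J_eq_Dn (g : ℂ → ℂ → ℂ) (i j : ℕ) : J g i j = Dn i j g 0 0 := rfl

private theorem calc_shift_ent {g : ℂ → ℂ → ℂ} (hg : Ent2 g) (u1 u2 : ℂ) :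
    Ent2 (fun p1 p2 => g (u1 + p1) (u2 + p2)) := by
  have h2 : Differentiable ℂ (fun z : ℂ × ℂ => ((u1 + z.1, u2 + z.2) : ℂ × ℂ)) := by fun_prop
  exact Differentiable.comp (g := fun z : ℂ × ℂ => g z.1 z.2) hg h2

private theorem calc_shift_neg_ent {g : ℂ → ℂ → ℂ} (hg : Ent2 g) (u1 u2 : ℂ) :
    Ent2 (fun p1 p2 => g (u1 - p1) (u2 - p2)) := by
  have h2 : Differentiable ℂ (fun z : ℂ × ℂ => ((u1 - z.1, u2 - z.2) : ℂ × ℂ)) := by fun_prop
  exact Differentiable.comp (g := fun z : ℂ × ℂ => g z.1 z.2) hg h2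

theorem J_shift (g : ℂ → ℂ → ℂ) (u1 u2 : ℂ) (i j : ℕ) :
    J (fun p1 p2 => g (u1 + p1) (u2 + p2)) i j = Dn i j g u1 u2 := by
  have h1 : ∀ l : ℂ, iteratedDeriv j (fun t => g (u1 + l) (u2 + t)) 0 =
      iteratedDeriv j (fun y => g (u1 + l) y) u2 := by
    intro l
    rw [iteratedDeriv_comp_const_add j (fun y => g (u1 + l) y) u2]
    simp only [add_zero]
  unfold J Dn D
  simp only [h1]
  rw [iteratedDeriv_comp_const_add i (fun x => iteratedDeriv j (fun y => g x y) u2) u1]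
  simp only [add_zero]

theorem J_shift_neg (g : ℂ → ℂ → ℂ) (u1 u2 : ℂ) (i j : ℕ) :
    J (fun p1 p2 => g (u1 - p1) (u2 - p2)) i j = (-1) ^ (i + j) * Dn i j g u1 u2 := by
  have h1 : ∀ l : ℂ, iteratedDeriv j (fun t => g (u1 - l) (u2 - t)) 0 =
      (-1) ^ j * iteratedDeriv j (fun y => g (u1 - l) y) u2 := by
    intro l
    rw [iteratedDeriv_comp_const_sub j (fun y => g (u1 - l) y) u2]
    simp only [sub_zero, smul_eq_mul]
  unfold J Dn D
  simp only [h1]
  rw [iteratedDeriv_const_mul_field,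
    iteratedDeriv_comp_const_sub i (fun x => iteratedDeriv j (fun y => g x y) u2) u1]
  simp only [sub_zero, smul_eq_mul]
  rw [pow_add]
  ring

theorem hir_eq {g : ℂ → ℂ → ℂ} (hg : Ent2 g) (i j : ℕ) (u1 u2 : ℂ) :
    hir g i j u1 u2 = ∑ a ∈ range (i + 1), ∑ b ∈ range (j + 1),
      Dn a b g u1 u2 * ((-1) ^ ((i - a) + (j - b)) * Dn (i - a) (j - b) g u1 u2) := by
  unfold hir
  rw [J_mul (calc_shift_ent hg u1 u2) (calc_shift_neg_ent hg u1 u2)]
  refine Finset.sum_congr rfl fun a _ => Finset.sum_congr rfl fun b _ => ?_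
  rw [J_shift, J_shift_neg]

/-- Taylor coefficients of the normalised derivatives -/
theorem J_Dn {g : ℂ → ℂ → ℂ} (hg : Ent2 g) (a b i j : ℕ) :
    J (Dn a b g) i j = ((i + a).choose a : ℂ) * ((j + b).choose b : ℂ) * J g (i + a) (j + b) := by
  have h1 : ∀ l : ℂ, iteratedDeriv j (Dn a b g l) 0 =
      ((a.factorial : ℂ) * (b.factorial : ℂ))⁻¹ * iteratedDeriv j (fun y => D a b g l y) 0 := by
    intro l
    have e : Dn a b g l = fun y => ((a.factorial : ℂ) * (b.factorial : ℂ))⁻¹ * D a b g l y := by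
      funext y
      rw [Dn, div_eq_inv_mul]
    rw [e, iteratedDeriv_const_mul_field]
  have h2 : D i j (D a b g) 0 0 = D (i + a) (j + b) g 0 0 := by rw [D_D hg]
  have h3 : J g (i + a) (j + b) = D (i + a) (j + b) g 0 0 /
      (((i + a).factorial : ℂ) * ((j + b).factorial : ℂ)) := rfl
  have h4 : J (Dn a b g) i j = ((a.factorial : ℂ) * (b.factorial : ℂ))⁻¹ * D i j (D a b g) 0 0 /
      ((i.factorial : ℂ) * (j.factorial : ℂ)) := by
    unfold J
    simp only [h1]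
    rw [iteratedDeriv_const_mul_field]
    rfl
  rw [h4, h2, h3, add_comm i a, add_comm j b, Nat.cast_add_choose, Nat.cast_add_choose]
  have g1 : (i.factorial : ℂ) ≠ 0 := Nat.cast_ne_zero.2 i.factorial_ne_zero
  have g2 : (j.factorial : ℂ) ≠ 0 := Nat.cast_ne_zero.2 j.factorial_ne_zero
  have g3 : (a.factorial : ℂ) ≠ 0 := Nat.cast_ne_zero.2 a.factorial_ne_zero
  have g4 : (b.factorial : ℂ) ≠ 0 := Nat.cast_ne_zero.2 b.factorial_ne_zero
  have g5 : ((a + i).factorial : ℂ) ≠ 0 := Nat.cast_ne_zero.2 (a + i).factorial_ne_zero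
  have g6 : ((b + j).factorial : ℂ) ≠ 0 := Nat.cast_ne_zero.2 (b + j).factorial_ne_zero
  field_simp

end Pool.Agent.RO5
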