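import Pool.Agent.RO5.CalA

/-!
RO5-CalD. Entire functions of two variables are determined by their Taylor coefficients at `0`; Cauchy's estimate.
-/

set_option autoImplicit false

namespace Pool.Agent.RO5

open Complex Finset Pool.Agent.ROH

private theorem cd_ext {f g : ℂ → ℂ} (hf : Differentiable ℂ f) (hg : Differentiable ℂ g)
    (H : ∀ n, iteratedDeriv n f 0 = iteratedDeriv n g 0) : f = g := by
  funext z
  rw [← Complex.taylorSeries_eq_of_entire' 0 z hf, ← Complex.taylorSeries_eq_of_entire' 0 z hg]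
  simp only [H]

private theorem cd_J (g : ℂ → ℂ → ℂ) (n i : ℕ) :
    iteratedDeriv n (fun l => iteratedDeriv i (g l) 0) 0 = J g n i * ((n.factorial : ℂ) * (i.factorial : ℂ)) := by
  have h1 : (n.factorial : ℂ) ≠ 0 := Nat.cast_ne_zero.2 n.factorial_ne_zero
  have h2 : (i.factorial : ℂ) ≠ 0 := Nat.cast_ne_zero.2 i.factorial_ne_zero
  unfold J
  rw [div_mul_cancel₀ _ (mul_ne_zero h1 h2)]

theorem ext_J {g h : ℂ → ℂ → ℂ} (hg : Ent2 g) (hh : Ent2 h) (H : ∀ i j, J g i j = J h i j) : g = h := by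
  funext x
  refine cd_ext (ent2_right hg x) (ent2_right hh x) fun j => ?_
  have h1 : (fun l => iteratedDeriv j (g l) 0) = fun l => iteratedDeriv j (h l) 0 := by
    refine cd_ext (ent2_iteratedDeriv hg j) (ent2_iteratedDeriv hh j) fun i => ?_
    rw [cd_J, cd_J, H]
  exact congrFun h1 x

theorem norm_J_le {g : ℂ → ℂ → ℂ} (hg : Ent2 g) (M : ℝ)
    (hM : ∀ u1 u2 : ℂ, ‖u1‖ = 1 → ‖u2‖ = 1 → ‖g u1 u2‖ ≤ M) (i j : ℕ) : ‖J g i j‖ ≤ M := by
  have h1 : ((i.factorial : ℝ)) ≠ 0 := Nat.cast_ne_zero.2 i.factorial_ne_zero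
  have h2 : ((j.factorial : ℝ)) ≠ 0 := Nat.cast_ne_zero.2 j.factorial_ne_zero
  have h3 : ∀ u1 : ℂ, ‖u1‖ = 1 → ‖iteratedDeriv j (g u1) 0‖ ≤ j.factorial * M := by
    intro u1 hu
    have := Complex.norm_iteratedDeriv_le_of_forall_mem_sphere_norm_le (c := 0) (R := 1) (C := M) (f := g u1) j one_pos
      (ent2_right hg u1).diffContOnCl (by
        intro z hz
        exact hM u1 z hu (by simpa using hz))
    simpa using this
  have h4 := Complex.norm_iteratedDeriv_le_of_forall_mem_sphere_norm_le (c := 0) (R := 1) (C := j.factorial * M)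
    (f := fun l => iteratedDeriv j (g l) 0) i one_pos (ent2_iteratedDeriv hg j).diffContOnCl (by
        intro z hz
        exact h3 z (by simpa using hz))
  unfold J
  rw [norm_div, norm_mul, Complex.norm_natCast, Complex.norm_natCast]
  have h5 : (0 : ℝ) < (i.factorial : ℝ) * (j.factorial : ℝ) := by positivity
  rw [div_le_iff₀ h5]
  calc _ ≤ _ := h4
    _ = _ := by ring

theorem exists_norm_J_le {g : ℂ → ℂ → ℂ} (hg : Ent2 g) : ∃ M : ℝ, 0 ≤ M ∧ ∀ i j, ‖J g i j‖ ≤ M := by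
  have hc : Continuous (fun z : ℂ × ℂ => ‖g z.1 z.2‖) := by
    have : Differentiable ℂ (fun z : ℂ × ℂ => g z.1 z.2) := hg
    exact this.continuous.norm
  have hK : IsCompact (Metric.sphere (0 : ℂ) 1 ×ˢ Metric.sphere (0 : ℂ) 1) :=
    (isCompact_sphere _ _).prod (isCompact_sphere _ _)
  obtain ⟨M, hM⟩ := hK.bddAbove_image hc.continuousOn
  have hM' : ∀ u1 u2 : ℂ, ‖u1‖ = 1 → ‖u2‖ = 1 → ‖g u1 u2‖ ≤ M := by
    intro u1 u2 h1 h2
    exact hM ⟨(u1, u2), ⟨by simpa using h1, by simpa using h2⟩, rfl⟩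
  exact ⟨M, le_trans (norm_nonneg _) (hM' 1 1 (by simp) (by simp)), norm_J_le hg M hM'⟩

theorem J_smul {g : ℂ → ℂ → ℂ} (hg : Ent2 g) (c : ℂ) (i j : ℕ) : J (fun x y => c * g x y) i j = c * J g i j := by
  have _ := hg
  unfold J
  have h1 : (fun l => iteratedDeriv j (fun y => c * g l y) 0) = fun l => c * iteratedDeriv j (g l) 0 := by
    funext l
    exact iteratedDeriv_const_mul_field c (g l)
  rw [h1, iteratedDeriv_const_mul_field, mul_div_assoc]

/-- scaling -/
theorem J_scale {g : ℂ → ℂ → ℂ} (hg : Ent2 g) (a b : ℂ) (i j : ℕ) :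
    J (fun x y => g (a * x) (b * y)) i j = a ^ i * b ^ j * J g i j := by
  unfold J
  have h1 : (fun l => iteratedDeriv j (fun y => g (a * l) (b * y)) 0) =
      fun l => b ^ j * (fun x => iteratedDeriv j (g x) 0) (a * l) := by
    funext l
    rw [iteratedDeriv_comp_const_mul ((ent2_right hg (a * l)).contDiff) b]
    simp
  rw [h1, iteratedDeriv_const_mul_field, iteratedDeriv_comp_const_mul ((ent2_iteratedDeriv hg j).contDiff) a]
  simp only [mul_zero]
  ring

end Pool.Agent.RO5
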