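import Pool.Agent.RO5.FourB

/-!
RO5-Coef. A function in `QP5 N` is determined by the Fourier coefficients `FC p q (tw N g)`,
`0 ≤ p, q < N`: the twisted function is periodic for `o`, the translation by `b ζ` multiplies it by
a character and a constant, so the coefficients are known up to nonzero constants from those with
`0 ≤ p, q < N`.
-/

set_option autoImplicit false

namespace Pool.Agent.RO5

open Complex ComplexConjugate Finset Pool.Agent.ROH

private theorem chi_exp (a : ℤ × ℤ) :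
    chi a = cexp ((k1 * o1 a + k2 * o2 a) * (Real.pi * I)) := by
  have h := tr_one a
  have h' : (k1 * o1 a + k2 * o2 a : ℂ) = ((a.1 + a.2 : ℤ) : ℂ) := by
    have := congrArg (fun x : ℝ => (x : ℂ)) h
    push_cast at this ⊢
    exact this
  rw [h', Complex.exp_int_mul, Complex.exp_pi_mul_I]
  rfl

theorem tw_per {N : ℕ} {g : ℂ → ℂ → ℂ} (hg : QP5 N g) : PerO (tw N g) := by
  refine ⟨?_, ?_⟩
  · have h1 := hg.1
    unfold Ent2 at h1 ⊢
    unfold tw
    exact h1.mul (by fun_prop)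
  · intro a u1 u2
    have h1 := hg.2 a 0 u1 u2
    have hl1 : l1 a 0 = (o1 a : ℂ) := by simp [l1, o1]
    have hl2 : l2 a 0 = (o2 a : ℂ) := by simp [l2, o2]
    have hee : ee a 0 = chi a := by simp [ee, chi, tr]
    have hmf : mf a 0 u1 u2 = cexp ((k1 * o1 a + k2 * o2 a) * (Real.pi * I)) *
        cexp (Real.pi * (c1 * (u1 * o1 a) + c2 * (u2 * o2 a)) +
          Real.pi / 2 * (c1 * (o1 a * o1 a) + c2 * (o2 a * o2 a))) := by
      rw [mf, hee, hl1, hl2, conj_ofReal, conj_ofReal, chi_exp]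
    rw [hl1, hl2, hmf, mul_pow, ← Complex.exp_nat_mul, ← Complex.exp_nat_mul] at h1
    have key : ∀ E1 E2 E3 E4 z : ℂ, E1 + E2 + E3 = E4 →
        cexp E1 * cexp E2 * z * cexp E3 = z * cexp E4 := by
      intro E1 E2 E3 E4 z h
      rw [← h, Complex.exp_add, Complex.exp_add]
      ring
    unfold tw
    rw [h1]
    apply key
    ring

theorem tw_shift {N : ℕ} {g : ℂ → ℂ → ℂ} (hg : QP5 N g) (b : ℤ × ℤ) : ∃ C : ℂ, C ≠ 0 ∧
    ∀ u1 u2, tw N g (u1 + o1 b * z1) (u2 + o2 b * z2) =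
      C * (cexp (-(2 * Real.pi * I * (N * (k1 * o1 b * u1 + k2 * o2 b * u2)))) * tw N g u1 u2) := by
  have hl1 : l1 0 b = o1 b * z1 := by simp [l1, o1]
  have hl2 : l2 0 b = o2 b * z2 := by simp [l2, o2]
  have hee : ee 0 b ≠ 0 := by
    intro h0
    have := ee_sq 0 b
    rw [h0] at this
    norm_num at this
  have hz1 : c1 * (conj z1 - z1) = -(2 * I * k1) := by
    have h1 : conj z1 - z1 = -(2 * I * z1.im) := by
      apply Complex.ext <;> simp
      ring
    have h2 := congrArg (fun x : ℝ => (x : ℂ)) c1_im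
    push_cast at h2
    rw [h1, ← h2]
    ring
  have hz2 : c2 * (conj z2 - z2) = -(2 * I * k2) := by
    have h1 : conj z2 - z2 = -(2 * I * z2.im) := by
      apply Complex.ext <;> simp
      ring
    have h2 := congrArg (fun x : ℝ => (x : ℂ)) c2_im
    push_cast at h2
    rw [h1, ← h2]
    ring
  refine ⟨ee 0 b ^ N * cexp (N * (Real.pi / 2 * (c1 * (o1 b * z1 * conj (o1 b * z1)) +
    c2 * (o2 b * z2 * conj (o2 b * z2))) - Real.pi / 2 * (c1 * (o1 b * z1) ^ 2 +
    c2 * (o2 b * z2) ^ 2) - Real.pi * I * (k1 * (o1 b * z1) + k2 * (o2 b * z2)))),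
    mul_ne_zero (pow_ne_zero _ hee) (Complex.exp_ne_zero _), ?_⟩
  intro u1 u2
  have h1 := hg.2 0 b u1 u2
  rw [hl1, hl2, mf, hl1, hl2, mul_pow, ← Complex.exp_nat_mul] at h1
  have key : ∀ E1 E2 E3 E4 E5 z w : ℂ, E1 + E2 = E3 + (E4 + E5) →
      w * cexp E1 * z * cexp E2 = w * cexp E3 * (cexp E4 * (z * cexp E5)) := by
    intro E1 E2 E3 E4 E5 z w h
    have : cexp E1 * cexp E2 = cexp E3 * (cexp E4 * cexp E5) := by
      rw [← Complex.exp_add, h, Complex.exp_add, Complex.exp_add]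
    calc w * cexp E1 * z * cexp E2 = w * z * (cexp E1 * cexp E2) := by ring
      _ = _ := by rw [this]; ring
  unfold tw
  rw [h1]
  apply key
  rw [map_mul, map_mul, conj_ofReal, conj_ofReal]
  linear_combination (N : ℂ) * Real.pi * (o1 b * u1 * hz1 + o2 b * u2 * hz2)

theorem coef_step {N : ℕ} {g : ℂ → ℂ → ℂ} (hg : QP5 N g) (b : ℤ × ℤ) (m n : ℤ) : ∃ C : ℂ, C ≠ 0 ∧
    FC (m + N * (b.1 + b.2)) (n + N * (b.1 + 2 * b.2)) (tw N g) = C * FC m n (tw N g) := by
  obtain ⟨C, hC, hsh⟩ := tw_shift hg b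
  have hne : (eps - epc : ℂ) ≠ 0 := by
    have h1 : (0 : ℝ) < eps - epc := by linarith [eps_gt, epc_neg]
    have h2 : ((eps - epc : ℝ) : ℂ) ≠ 0 := by
      exact_mod_cast h1.ne'
    push_cast at h2
    exact h2
  obtain ⟨w2, hw2⟩ : ∃ w2 : ℂ, w2 * (eps - epc) = o1 b * z1 - o2 b * z2 :=
    ⟨(o1 b * z1 - o2 b * z2) / (eps - epc), div_mul_cancel₀ _ hne⟩
  obtain ⟨w1, hw1⟩ : ∃ w1 : ℂ, w1 = o1 b * z1 - w2 * eps := ⟨_, rfl⟩
  have e1 : w1 + w2 * eps = o1 b * z1 := by rw [hw1]; ring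
  have e2 : w1 + w2 * epc = o2 b * z2 := by rw [hw1]; linear_combination -hw2
  have hF := FC_shift (tw_per hg) w1 w2 m n
  rw [e1, e2] at hF
  simp only [hsh] at hF
  have hN1 : ((o1 (-((N : ℤ) * b.1), -((N : ℤ) * b.2)) : ℝ) : ℂ) = -(N * o1 b) := by
    simp only [o1]; push_cast; ring
  have hN2 : ((o2 (-((N : ℤ) * b.1), -((N : ℤ) * b.2)) : ℝ) : ℂ) = -(N * o2 b) := by
    simp only [o2]; push_cast; ring
  have hch := FC_char (tw N g) (-((N : ℤ) * b.1), -((N : ℤ) * b.2)) m n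
  have hfun : (fun u1 u2 => cexp (2 * Real.pi * I *
      (k1 * o1 (-((N : ℤ) * b.1), -((N : ℤ) * b.2)) * u1 +
        k2 * o2 (-((N : ℤ) * b.1), -((N : ℤ) * b.2)) * u2)) * tw N g u1 u2) =
      fun u1 u2 => cexp (-(2 * Real.pi * I * (N * (k1 * o1 b * u1 + k2 * o2 b * u2)))) *
        tw N g u1 u2 := by
    funext u1 u2
    rw [hN1, hN2]
    congr 2
    ring
  rw [hfun] at hch
  have hidx1 : m - (-((N : ℤ) * b.1) + -((N : ℤ) * b.2)) = m + N * (b.1 + b.2) := by ring
  have hidx2 : n - (-((N : ℤ) * b.1) + 2 * -((N : ℤ) * b.2)) = n + N * (b.1 + 2 * b.2) := by ring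
  simp only [hidx1, hidx2] at hch
  have hlin : FC m n (fun u1 u2 => C * (cexp (-(2 * Real.pi * I *
      (N * (k1 * o1 b * u1 + k2 * o2 b * u2)))) * tw N g u1 u2)) =
      C * FC m n (fun u1 u2 => cexp (-(2 * Real.pi * I *
      (N * (k1 * o1 b * u1 + k2 * o2 b * u2)))) * tw N g u1 u2) := by
    unfold FC
    rw [← intervalIntegral.integral_const_mul]
    congr 1
    funext x
    rw [← intervalIntegral.integral_const_mul]
    congr 1
    funext y
    ring
  rw [hlin, hch] at hF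
  refine ⟨C⁻¹ * cexp (2 * Real.pi * I * (m * w1 + n * w2)),
    mul_ne_zero (inv_ne_zero hC) (Complex.exp_ne_zero _), ?_⟩
  rw [mul_assoc, ← hF, ← mul_assoc, inv_mul_cancel₀ hC, one_mul]

theorem coef_zero {N : ℕ} (hN : 0 < N) {g : ℂ → ℂ → ℂ} (hg : QP5 N g)
    (h : ∀ p < N, ∀ q < N, FC p q (tw N g) = 0) (u1 u2 : ℂ) : g u1 u2 = 0 := by
  have hN' : (0 : ℤ) < N := by exact_mod_cast hN
  have hall : ∀ m n : ℤ, FC m n (tw N g) = 0 := by
    intro m n
    have hp0 := Int.emod_nonneg m hN'.ne'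
    have hq0 := Int.emod_nonneg n hN'.ne'
    have hp1 := Int.emod_lt_of_pos m hN'
    have hq1 := Int.emod_lt_of_pos n hN'
    have hp2 := Int.emod_add_mul_ediv m N
    have hq2 := Int.emod_add_mul_ediv n N
    obtain ⟨C, -, hC⟩ := coef_step hg (2 * (m / N) - n / N, n / N - m / N) (m % N) (n % N)
    have e1 : m % N + N * ((2 * (m / N) - n / N, n / N - m / N).1 +
        (2 * (m / N) - n / N, n / N - m / N).2) = m := by
      simp only
      linear_combination hp2
    have e2 : n % N + N * ((2 * (m / N) - n / N, n / N - m / N).1 +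
        2 * (2 * (m / N) - n / N, n / N - m / N).2) = n := by
      simp only
      linear_combination hq2
    rw [e1, e2] at hC
    have h0 := h (m % N).toNat (by omega) (n % N).toNat (by omega)
    rw [Int.toNat_of_nonneg hp0, Int.toNat_of_nonneg hq0] at h0
    rw [hC, h0, mul_zero]
  have h1 := FC_zero (tw_per hg) hall u1 u2
  unfold tw at h1
  exact (mul_eq_zero.1 h1).resolve_right (Complex.exp_ne_zero _)

end Pool.Agent.RO5
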