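import Pool.Agent.ROH.BDefs

/-!
Project ROH5 (MP_c2409d_nt, levels 5 and 10): definitions. Paper: /team-store/roh5_h25.md.
-/

set_option autoImplicit false

namespace Pool.Agent.RO5

open Complex ComplexConjugate Finset Pool.Agent.ROH

noncomputable section

/-- golden ratio -/
def eps : ℝ := (1 + Real.sqrt 5) / 2

/-- its conjugate -/
def epc : ℝ := (1 - Real.sqrt 5) / 2

/-- `ζ = exp(2πi/5)` -/
def z1 : ℂ := cexp (2 * Real.pi * I / 5)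

/-- `ζ²` -/
def z2 : ℂ := z1 ^ 2

def k1 : ℝ := eps / Real.sqrt 5

def k2 : ℝ := -epc / Real.sqrt 5

def c1 : ℝ := k1 / z1.im

def c2 : ℝ := k2 / z2.im

/-- `p + q ε` -/
def o1 (a : ℤ × ℤ) : ℝ := a.1 + a.2 * eps

/-- `p + q ε'` -/
def o2 (a : ℤ × ℤ) : ℝ := a.1 + a.2 * epc

/-- `Tr(k a b)`: the coefficient of `ε` in `ε a b` -/
def tr (a b : ℤ × ℤ) : ℤ := a.1 * b.1 + a.1 * b.2 + a.2 * b.1 + 2 * (a.2 * b.2)

/-- the character of `o` -/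
def chi (a : ℤ × ℤ) : ℂ := (-1 : ℂ) ^ (a.1 + a.2)

/-- first coordinate of `a + b ζ` -/
def l1 (a b : ℤ × ℤ) : ℂ := o1 a + o1 b * z1

/-- second coordinate of `a + b ζ` -/
def l2 (a b : ℤ × ℤ) : ℂ := o2 a + o2 b * z2

/-- the semicharacter -/
def ee (a b : ℤ × ℤ) : ℂ := chi a * chi b * (-1 : ℂ) ^ (tr a b)

/-- the factor of automorphy `e(λ) exp(π H(u,λ) + π/2 H(λ,λ))` -/
def mf (a b : ℤ × ℤ) (u1 u2 : ℂ) : ℂ :=
  ee a b * cexp (Real.pi * (c1 * (u1 * conj (l1 a b)) + c2 * (u2 * conj (l2 a b))) +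
    Real.pi / 2 * (c1 * (l1 a b * conj (l1 a b)) + c2 * (l2 a b * conj (l2 a b))))

/-- entire, quasi-periodic with the `N`-th power of the factor `mf` -/
def QP5 (N : ℕ) (g : ℂ → ℂ → ℂ) : Prop :=
  Ent2 g ∧ ∀ a b u1 u2, g (u1 + l1 a b) (u2 + l2 a b) = mf a b u1 u2 ^ N * g u1 u2

/-- exponent of a term of the theta series -/
def tex (b : ℤ × ℤ) (u1 u2 : ℂ) : ℂ :=
  Real.pi * I * (k1 * (1 / 2 + o1 b) ^ 2 * z1 + k2 * (1 / 2 + o2 b) ^ 2 * z2) +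
    2 * Real.pi * I * (k1 * (1 / 2 + o1 b) * u1 + k2 * (1 / 2 + o2 b) * u2)

/-- theta series -/
def th (u1 u2 : ℂ) : ℂ := ∑' b : ℤ × ℤ, chi b * cexp (tex b u1 u2)

/-- the theta function -/
def T (u1 u2 : ℂ) : ℂ := cexp (Real.pi / 2 * (c1 * u1 ^ 2 + c2 * u2 ^ 2)) * th u1 u2

/-- partial derivatives -/
def D (i j : ℕ) (g : ℂ → ℂ → ℂ) (u1 u2 : ℂ) : ℂ :=
  iteratedDeriv i (fun x => iteratedDeriv j (fun y => g x y) u2) u1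

/-- Hirota derivatives: Taylor coefficient at `p1^i p2^j` of `g(u+p) g(u-p)` -/
def hir (g : ℂ → ℂ → ℂ) (i j : ℕ) (u1 u2 : ℂ) : ℂ :=
  J (fun p1 p2 => g (u1 + p1) (u2 + p2) * g (u1 - p1) (u2 - p2)) i j

/-- the normalised system of Hirota equations -/
structure NF (f : ℂ → ℂ → ℂ) (b : ℂ) : Prop where
  ent : Ent2 f
  e40 : ∀ u1 u2, hir f 4 0 u1 u2 = hir f 0 2 u1 u2
  e31 : ∀ u1 u2, hir f 3 1 u1 u2 = b / 3 * hir f 0 0 u1 u2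
  e22 : ∀ u1 u2, hir f 2 2 u1 u2 = 0
  e13 : ∀ u1 u2, hir f 1 3 u1 u2 = -(2 / 3) * hir f 2 0 u1 u2
  e04 : ∀ u1 u2, hir f 0 4 u1 u2 = 1 / 6 * hir f 1 1 u1 u2

/-- the normal form of the theta function in the coordinates `v1 u1`, `v2 u2`
(curve `y² = x⁵ - 1`): Hirota equations, symmetry, first Taylor coefficients -/
structure NFT (f : ℂ → ℂ → ℂ) (b : ℂ) : Prop extends NF f b where
  sym : ∀ u1 u2, f (z1 * u1) (z2 * u2) = z1 * f u1 u2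
  odd : ∀ u1 u2, f (-u1) (-u2) = -f u1 u2
  J10 : J f 1 0 = 1
  J03 : J f 0 3 = -(1 / 3)
  line1 : ∀ c : ℂ, ∃ z, f c z ≠ 0
  line2 : ∀ c : ℂ, ∃ z, f z c ≠ 0

/-- rational Taylor coefficients with common denominators `≤ exp (C (N+1) log² (N+2))` -/
def RatTay2 (f : ℂ → ℂ → ℂ) : Prop :=
  ∃ t : ℕ → ℕ → ℚ, (∀ i j, J f i j = (t i j : ℂ)) ∧
    ∃ C : ℝ, 0 ≤ C ∧ (∀ i j, |(t i j : ℝ)| ≤ C) ∧
      ∀ N : ℕ, ∃ D : ℕ, 0 < D ∧ (D : ℝ) ≤ Real.exp (C * (N + 1) * Real.log (N + 2) ^ 2) ∧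
        ∀ i j, i + j ≤ N → ∃ a : ℤ, (D : ℚ) * t i j = a

end

end Pool.Agent.RO5
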