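import Pool.Agent.RO5.Defs

/-!
Project ROH5, blocks T and H (theta function, Hirota equations): auxiliary definitions.
-/

set_option autoImplicit false

namespace Pool.Agent.RO5

open Complex ComplexConjugate Finset Pool.Agent.ROH

noncomputable section

/-- product in `o` -/
def mo (a b : ℤ × ℤ) : ℤ × ℤ := (a.1 * b.1 + a.2 * b.2, a.1 * b.2 + a.2 * b.1 + a.2 * b.2)

/-- multiplication by `η = ζ + ζ⁻¹ = ε - 1` in `o` -/
def et (b : ℤ × ℤ) : ℤ × ℤ := (b.2 - b.1, b.1)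

/-- entire and periodic for `o` -/
def PerO (g : ℂ → ℂ → ℂ) : Prop :=
  Ent2 g ∧ ∀ a u1 u2, g (u1 + o1 a) (u2 + o2 a) = g u1 u2

/-- Fourier coefficient in the coordinates `u = (x + y ε, x + y ε')` -/
def FC (m n : ℤ) (g : ℂ → ℂ → ℂ) : ℂ :=
  ∫ x in (0 : ℝ)..1, ∫ y in (0 : ℝ)..1,
    g (x + y * eps) (x + y * epc) * cexp (-(2 * Real.pi * I * (m * x + n * y)))

/-- the twist which makes functions in `QP5 N` periodic for `o` -/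
def tw (N : ℕ) (g : ℂ → ℂ → ℂ) (u1 u2 : ℂ) : ℂ :=
  g u1 u2 * cexp (-(N * (Real.pi / 2 * (c1 * u1 ^ 2 + c2 * u2 ^ 2) +
    Real.pi * I * (k1 * u1 + k2 * u2))))

/-- the five Hirota equations with unknown constants -/
structure Eqs (f : ℂ → ℂ → ℂ) (a b c d : ℂ) : Prop where
  ent : Ent2 f
  odd : ∀ u1 u2, f (-u1) (-u2) = -f u1 u2
  e40 : ∀ u1 u2, hir f 4 0 u1 u2 = a / 12 * hir f 0 2 u1 u2
  e31 : ∀ u1 u2, hir f 3 1 u1 u2 = b / 3 * hir f 0 0 u1 u2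
  e22 : ∀ u1 u2, hir f 2 2 u1 u2 = 0
  e13 : ∀ u1 u2, hir f 1 3 u1 u2 = c / 3 * hir f 2 0 u1 u2
  e04 : ∀ u1 u2, hir f 0 4 u1 u2 = d / 24 * hir f 1 1 u1 u2
  line1 : ∀ c : ℂ, ∃ z, f c z ≠ 0
  line2 : ∀ c : ℂ, ∃ z, f z c ≠ 0

end

end Pool.Agent.RO5
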