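import Pool.Agent.RO5.Num

/-!
RO5-Eig. Linear algebra: eigenfunctions of `(Z g)(u) = g(ζ u)`.

Plan. For `F i` with `Z (F i) = μ i (F i)`, `μ` injective, `F i` not identically zero: the `F i` are
linearly independent (`Module.End.eigenvectors_linearIndependent'` on the space `ℂ → ℂ → ℂ`, or a Vandermonde
argument with `Z^k`, `k < 4`). So in the dependency `c 4 ≠ 0`, hence `g = Σ κ i F i`
(`eig_span`). If `Z g = ν g`: `Σ κ i (μ i - ν) F i = 0`, so `κ i = 0` unless `μ i = ν`.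
-/

set_option autoImplicit false

namespace Pool.Agent.RO5

open Complex ComplexConjugate Finset Pool.Agent.ROH

private noncomputable def eigZ : Module.End ℂ (ℂ → ℂ → ℂ) where
  toFun g := fun u1 u2 => g (z1 * u1) (z2 * u2)
  map_add' _ _ := rfl
  map_smul' _ _ := rfl

private theorem eig_li {F : Fin 4 → ℂ → ℂ → ℂ} {μ : Fin 4 → ℂ} (hμ : Function.Injective μ)
    (hF : ∀ i, ∃ u1 u2, F i u1 u2 ≠ 0)
    (hz : ∀ i u1 u2, F i (z1 * u1) (z2 * u2) = μ i * F i u1 u2) (d : Fin 4 → ℂ)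
    (hd : ∀ u1 u2, ∑ i, d i * F i u1 u2 = 0) (i : Fin 4) : d i = 0 := by
  have h1 : LinearIndependent ℂ F := by
    refine Module.End.eigenvectors_linearIndependent' eigZ μ hμ F fun i => ?_
    refine ⟨?_, ?_⟩
    · rw [Module.End.mem_eigenspace_iff]
      funext u1 u2
      exact hz i u1 u2
    · intro h
      obtain ⟨u1, u2, h2⟩ := hF i
      exact h2 (by rw [h]; rfl)
  rw [Fintype.linearIndependent_iff] at h1
  refine h1 d ?_ i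
  funext u1 u2
  rw [Finset.sum_apply, Finset.sum_apply]
  exact hd u1 u2

theorem eig_span {F : Fin 4 → ℂ → ℂ → ℂ} {μ : Fin 4 → ℂ} (hμ : Function.Injective μ)
    (hF : ∀ i, ∃ u1 u2, F i u1 u2 ≠ 0)
    (hz : ∀ i u1 u2, F i (z1 * u1) (z2 * u2) = μ i * F i u1 u2) {g : ℂ → ℂ → ℂ}
    (hdep : ∃ c : Fin 5 → ℂ, c ≠ 0 ∧ ∀ u1 u2, ∑ i, c i * (Fin.snoc F g : Fin 5 → ℂ → ℂ → ℂ) i u1 u2 = 0) :
    ∃ κ : Fin 4 → ℂ, ∀ u1 u2, g u1 u2 = ∑ i, κ i * F i u1 u2 := by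
  obtain ⟨c, hc, h⟩ := hdep
  have h1 : ∀ u1 u2, ∑ i : Fin 4, c i.castSucc * F i u1 u2 + c (Fin.last 4) * g u1 u2 = 0 := by
    intro u1 u2
    have h2 := h u1 u2
    rw [Fin.sum_univ_castSucc, Fin.snoc_last] at h2
    rw [← h2]
    refine congrArg (fun t => t + c (Fin.last 4) * g u1 u2) ?_
    refine Finset.sum_congr rfl fun i _ => ?_
    rw [Fin.snoc_castSucc]
  by_cases h0 : c (Fin.last 4) = 0
  · exfalso
    apply hc
    have h2 := eig_li hμ hF hz (fun i => c i.castSucc) (by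
      intro u1 u2
      have h3 := h1 u1 u2
      rwa [h0, zero_mul, add_zero] at h3)
    funext j
    refine Fin.lastCases ?_ (fun i => ?_) j
    · exact h0
    · exact h2 i
  · refine ⟨fun i => -(c i.castSucc / c (Fin.last 4)), fun u1 u2 => ?_⟩
    have h3 := h1 u1 u2
    have h4 : ∑ i : Fin 4, -(c i.castSucc / c (Fin.last 4)) * F i u1 u2 =
        -(∑ i : Fin 4, c i.castSucc * F i u1 u2) / c (Fin.last 4) := by
      rw [neg_div, Finset.sum_div, ← Finset.sum_neg_distrib]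
      refine Finset.sum_congr rfl fun i _ => ?_
      ring
    rw [h4, eq_div_iff h0]
    linear_combination h3

private theorem eig_kill {F : Fin 4 → ℂ → ℂ → ℂ} {μ : Fin 4 → ℂ} (hμ : Function.Injective μ)
    (hF : ∀ i, ∃ u1 u2, F i u1 u2 ≠ 0)
    (hz : ∀ i u1 u2, F i (z1 * u1) (z2 * u2) = μ i * F i u1 u2) {g : ℂ → ℂ → ℂ} {ν : ℂ}
    (hg : ∀ u1 u2, g (z1 * u1) (z2 * u2) = ν * g u1 u2) (κ : Fin 4 → ℂ)
    (hκ : ∀ u1 u2, g u1 u2 = ∑ i, κ i * F i u1 u2) (i : Fin 4) (hi : ν ≠ μ i) : κ i = 0 := by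
  have h1 := eig_li hμ hF hz (fun i => κ i * (μ i - ν)) (by
    intro u1 u2
    have h2 := hg u1 u2
    rw [hκ, hκ] at h2
    have h3 : ∑ i, κ i * (μ i - ν) * F i u1 u2 =
        ∑ i, κ i * F i (z1 * u1) (z2 * u2) - ν * ∑ i, κ i * F i u1 u2 := by
      rw [Finset.mul_sum, ← Finset.sum_sub_distrib]
      refine Finset.sum_congr rfl fun i _ => ?_
      rw [hz]
      ring
    rw [h3, h2, sub_self]) i
  rcases mul_eq_zero.1 h1 with h2 | h2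
  · exact h2
  · exact absurd (sub_eq_zero.1 h2).symm hi

theorem eig_eq {F : Fin 4 → ℂ → ℂ → ℂ} {μ : Fin 4 → ℂ} (hμ : Function.Injective μ)
    (hF : ∀ i, ∃ u1 u2, F i u1 u2 ≠ 0)
    (hz : ∀ i u1 u2, F i (z1 * u1) (z2 * u2) = μ i * F i u1 u2) {g : ℂ → ℂ → ℂ} {ν : ℂ}
    (hg : ∀ u1 u2, g (z1 * u1) (z2 * u2) = ν * g u1 u2)
    (hdep : ∃ c : Fin 5 → ℂ, c ≠ 0 ∧ ∀ u1 u2, ∑ i, c i * (Fin.snoc F g : Fin 5 → ℂ → ℂ → ℂ) i u1 u2 = 0)
    (i : Fin 4) (hi : ν = μ i) : ∃ κ : ℂ, ∀ u1 u2, g u1 u2 = κ * F i u1 u2 := by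
  obtain ⟨κ, hκ⟩ := eig_span hμ hF hz hdep
  refine ⟨κ i, fun u1 u2 => ?_⟩
  rw [hκ, Finset.sum_eq_single i]
  · intro j _ hj
    rw [eig_kill hμ hF hz hg κ hκ j (by
      rw [hi]
      exact fun h => hj (hμ h).symm), zero_mul]
  · intro h
    exact absurd (Finset.mem_univ i) h

theorem eig_zero {F : Fin 4 → ℂ → ℂ → ℂ} {μ : Fin 4 → ℂ} (hμ : Function.Injective μ)
    (hF : ∀ i, ∃ u1 u2, F i u1 u2 ≠ 0)
    (hz : ∀ i u1 u2, F i (z1 * u1) (z2 * u2) = μ i * F i u1 u2) {g : ℂ → ℂ → ℂ} {ν : ℂ}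
    (hg : ∀ u1 u2, g (z1 * u1) (z2 * u2) = ν * g u1 u2)
    (hdep : ∃ c : Fin 5 → ℂ, c ≠ 0 ∧ ∀ u1 u2, ∑ i, c i * (Fin.snoc F g : Fin 5 → ℂ → ℂ → ℂ) i u1 u2 = 0)
    (hi : ∀ i, ν ≠ μ i) (u1 u2 : ℂ) : g u1 u2 = 0 := by
  obtain ⟨κ, hκ⟩ := eig_span hμ hF hz hdep
  rw [hκ]
  refine Finset.sum_eq_zero fun j _ => ?_
  rw [eig_kill hμ hF hz hg κ hκ j (hi j), zero_mul]

end Pool.Agent.RO5
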