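import Pool.Agent.RO5.HirF
import Pool.Agent.RO5.Num

/-!
RO5-HirW. Hirota derivatives of a function in `QP5 1` are in `QP5 2`; action of `ζ`.

The factor of automorphy of the product `g(u+p) g(u-p)` does not depend on `p`; scaling of `J`.
-/

set_option autoImplicit false

namespace Pool.Agent.RO5

open Complex ComplexConjugate Finset Pool.Agent.ROH

private lemma hirw_mf (a b : ℤ × ℤ) (u1 u2 p1 p2 : ℂ) :
    mf a b (u1 + p1) (u2 + p2) * mf a b (u1 - p1) (u2 - p2) = mf a b u1 u2 ^ 2 := by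
  unfold mf
  rw [mul_mul_mul_comm, ← Complex.exp_add, mul_pow, ← pow_two, ← Complex.exp_nat_mul]
  congr 2
  push_cast
  ring

private lemma hirw_comp {g : ℂ → ℂ → ℂ} (hg : Ent2 g) {a b : ℂ × ℂ → ℂ} (ha : Differentiable ℂ a)
    (hb : Differentiable ℂ b) : Differentiable ℂ fun z => g (a z) (b z) := by
  have h : Differentiable ℂ fun z : ℂ × ℂ => g z.1 z.2 := hg
  exact h.comp (ha.prodMk hb)

private lemma hirw_ent_u {g : ℂ → ℂ → ℂ} (hg : Ent2 g) (p1 p2 : ℂ) :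
    Ent2 (fun u1 u2 => g (u1 + p1) (u2 + p2) * g (u1 - p1) (u2 - p2)) := by
  have h1 := hirw_comp hg (a := fun z => z.1 + p1) (b := fun z => z.2 + p2) (by fun_prop)
    (by fun_prop)
  have h2 := hirw_comp hg (a := fun z => z.1 - p1) (b := fun z => z.2 - p2) (by fun_prop)
    (by fun_prop)
  exact h1.mul h2

private lemma hirw_ent_p {g : ℂ → ℂ → ℂ} (hg : Ent2 g) (u1 u2 : ℂ) :
    Ent2 (fun p1 p2 => g (u1 + p1) (u2 + p2) * g (u1 - p1) (u2 - p2)) := by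
  have h1 := hirw_comp hg (a := fun z => u1 + z.1) (b := fun z => u2 + z.2) (by fun_prop)
    (by fun_prop)
  have h2 := hirw_comp hg (a := fun z => u1 - z.1) (b := fun z => u2 - z.2) (by fun_prop)
    (by fun_prop)
  exact h1.mul h2

private lemma hirw_J {H : ℂ → ℂ → ℂ} (hH : Ent2 H) (k a b : ℂ) (i j : ℕ) :
    J (fun x y => k * H (a * x) (b * y)) i j = k * (a ^ i * b ^ j) * J H i j := by
  have h1 : Ent2 (fun x y => H (a * x) (b * y)) :=
    hirw_comp hH (a := fun z => a * z.1) (b := fun z => b * z.2) (by fun_prop) (by fun_prop)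
  rw [J_eq, J_eq, D_const_mul h1, D_scale hH, mul_zero, mul_zero]
  ring

private lemma hirw_J1 {H : ℂ → ℂ → ℂ} (hH : Ent2 H) (k : ℂ) (i j : ℕ) :
    J (fun x y => k * H x y) i j = k * J H i j := by
  rw [J_eq, J_eq, D_const_mul hH]
  ring

private lemma hirw_J2 {H : ℂ → ℂ → ℂ} (hH : Ent2 H) (a b : ℂ) (i j : ℕ) :
    J (fun x y => H (a * x) (b * y)) i j = (a ^ i * b ^ j) * J H i j := by
  rw [J_eq, J_eq, D_scale hH, mul_zero, mul_zero]
  ring

theorem prod_qp {g : ℂ → ℂ → ℂ} (hg : QP5 1 g) (p1 p2 : ℂ) :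
    QP5 2 (fun u1 u2 => g (u1 + p1) (u2 + p2) * g (u1 - p1) (u2 - p2)) := by
  refine ⟨hirw_ent_u hg.1 p1 p2, fun a b u1 u2 => ?_⟩
  have h1 := hg.2 a b (u1 + p1) (u2 + p2)
  have h2 := hg.2 a b (u1 - p1) (u2 - p2)
  have e1 : u1 + l1 a b + p1 = u1 + p1 + l1 a b := by ring
  have e2 : u2 + l2 a b + p2 = u2 + p2 + l2 a b := by ring
  have e3 : u1 + l1 a b - p1 = u1 - p1 + l1 a b := by ring
  have e4 : u2 + l2 a b - p2 = u2 - p2 + l2 a b := by ring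
  simp only
  rw [e1, e2, e3, e4, h1, h2, pow_one, pow_one, ← hirw_mf a b u1 u2 p1 p2]
  ring

theorem hir_qp {g : ℂ → ℂ → ℂ} (hg : QP5 1 g) (i j : ℕ) : QP5 2 (hir g i j) := by
  refine ⟨ent_hir hg.1 i j, fun a b u1 u2 => ?_⟩
  have h1 : (fun p1 p2 => g (u1 + l1 a b + p1) (u2 + l2 a b + p2) *
      g (u1 + l1 a b - p1) (u2 + l2 a b - p2)) = fun p1 p2 => mf a b u1 u2 ^ 2 *
        (g (u1 + p1) (u2 + p2) * g (u1 - p1) (u2 - p2)) := by
    funext p1 p2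
    exact (prod_qp hg p1 p2).2 a b u1 u2
  unfold hir
  rw [h1]
  exact hirw_J1 (hirw_ent_p hg.1 u1 u2) _ i j

theorem hir_zeta {g : ℂ → ℂ → ℂ} (hg : Ent2 g) {ρ : ℂ}
    (h : ∀ u1 u2, g (z1 * u1) (z2 * u2) = ρ * g u1 u2) (i j : ℕ) (u1 u2 : ℂ) :
    z1 ^ i * z2 ^ j * hir g i j (z1 * u1) (z2 * u2) = ρ ^ 2 * hir g i j u1 u2 := by
  have h1 := hirw_J2 (hirw_ent_p hg (z1 * u1) (z2 * u2)) z1 z2 i j
  have h2 : (fun x y => g (z1 * u1 + z1 * x) (z2 * u2 + z2 * y) *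
      g (z1 * u1 - z1 * x) (z2 * u2 - z2 * y)) = fun x y => ρ ^ 2 *
        (g (u1 + x) (u2 + y) * g (u1 - x) (u2 - y)) := by
    funext x y
    rw [← mul_add, ← mul_add, ← mul_sub, ← mul_sub, h, h]
    ring
  have h3 := hirw_J1 (hirw_ent_p hg u1 u2) (ρ ^ 2) i j
  unfold hir
  rw [← h1, ← h3]
  exact congrArg (fun G => J G i j) h2

/-- rescaling -/
theorem hir_scale {g : ℂ → ℂ → ℂ} (hg : Ent2 g) (k a b : ℂ) (i j : ℕ) (u1 u2 : ℂ) :
    hir (fun x y => k * g (a * x) (b * y)) i j u1 u2 =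
      k ^ 2 * (a ^ i * b ^ j) * hir g i j (a * u1) (b * u2) := by
  have h1 := hirw_J (hirw_ent_p hg (a * u1) (b * u2)) (k ^ 2) a b i j
  unfold hir
  rw [← h1]
  refine congrArg (fun G => J G i j) ?_
  funext x y
  rw [← mul_add, ← mul_add, ← mul_sub, ← mul_sub]
  ring

end Pool.Agent.RO5
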