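import Pool.Agent.RO5.HirF

/-!
RO5-Zer. The Hirota derivatives of order 2 are not identically zero.

Plan. `const_ratio`: two entire functions `u`, `v` of one variable with `u' v = u v'` near `z0`,
`v z0 ≠ 0`, are proportional. `ord1`: an entire function `h` of one variable with `h h'' = h'²`,
`h z0 = 0`, is identically zero (`h' = c h`, so `h` is proportional to `e^{cz}`).
`hir20_ne`: apply `ord1` to `z ↦ f z 0`. `hir02_ne`: `z ↦ f 0 z`.
`hir11_ne`: `f z w * f z0 w0 = f z0 w * f z w0` (`const_ratio` twice), at `z = 0`, `w = 0`.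
-/

set_option autoImplicit false

namespace Pool.Agent.RO5

open Complex ComplexConjugate Finset Pool.Agent.ROH Filter Topology

theorem zer_ratio {u v : ℂ → ℂ} (hu : Differentiable ℂ u) (hv : Differentiable ℂ v) (z0 : ℂ)
    (h : ∀ᶠ z in 𝓝 z0, deriv u z * v z = u z * deriv v z) (h0 : v z0 ≠ 0) (z : ℂ) :
    u z * v z0 = u z0 * v z := by
  have hne : ∀ᶠ z in 𝓝 z0, v z ≠ 0 := hv.continuous.continuousAt.eventually_ne h0
  obtain ⟨r, hr, hball⟩ := Metric.eventually_nhds_iff_ball.1 (h.and hne)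
  have hconst : ∀ x ∈ Metric.ball z0 r, u x / v x = u z0 / v z0 := by
    intro x hx
    refine Metric.isOpen_ball.is_const_of_deriv_eq_zero (𝕜 := ℂ) (f := fun y => u y / v y)
      (convex_ball z0 r).isPreconnected ?_ ?_ hx (Metric.mem_ball_self hr)
    · intro y hy
      exact ((hu y).div (hv y) (hball y hy).2).differentiableWithinAt
    · intro y hy
      have h1 : HasDerivAt (fun y => u y / v y) ((deriv u y * v y - u y * deriv v y) / v y ^ 2) y :=
        (hu y).hasDerivAt.div (hv y).hasDerivAt (hball y hy).2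
      show deriv (fun y => u y / v y) y = 0
      rw [h1.deriv, (hball y hy).1, sub_self, zero_div]
  have hev : (fun x => u x * v z0) =ᶠ[𝓝 z0] (fun x => u z0 * v x) := by
    filter_upwards [Metric.ball_mem_nhds z0 hr] with x hx
    have h2 := hconst x hx
    have h3 := (hball x hx).2
    exact (div_eq_div_iff h3 h0).1 h2
  have hA1 : AnalyticOnNhd ℂ (fun x => u x * v z0) Set.univ := by
    intro x _
    exact (hu.mul_const (v z0)).analyticAt x
  have hA2 : AnalyticOnNhd ℂ (fun x => u z0 * v x) Set.univ := by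
    intro x _
    exact (hv.const_mul (u z0)).analyticAt x
  exact congrFun (hA1.eq_of_eventuallyEq hA2 hev) z

theorem zer_ord1 {h : ℂ → ℂ} (hh : Differentiable ℂ h)
    (he : ∀ z, h z * deriv (deriv h) z = deriv h z ^ 2) (z0 : ℂ) (h0 : h z0 = 0) (z : ℂ) :
    h z = 0 := by
  by_contra hz
  have hd : Differentiable ℂ (deriv h) := by
    intro x
    exact (hh.analyticAt x).deriv.differentiableAt
  have h1 := zer_ratio hd hh z (Eventually.of_forall (fun x => by
    have := he x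
    rw [mul_comm, this]; ring)) hz
  have hE : Differentiable ℂ (fun x : ℂ => cexp (deriv h z / h z * x)) := by
    exact (differentiable_id.const_mul _).cexp
  have hEd : ∀ x, deriv (fun x : ℂ => cexp (deriv h z / h z * x)) x =
      cexp (deriv h z / h z * x) * (deriv h z / h z) := by
    intro x
    have h2 : HasDerivAt (fun x : ℂ => cexp (deriv h z / h z * x))
        (cexp (deriv h z / h z * x) * (deriv h z / h z * 1)) x :=
      ((hasDerivAt_id x).const_mul (deriv h z / h z)).cexp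
    rw [h2.deriv, mul_one]
  have h3 := zer_ratio hh hE z0 (Eventually.of_forall (fun x => by
    rw [hEd x]
    have h4 : deriv h x = h x * (deriv h z / h z) := by
      have := h1 x
      field_simp
      linear_combination this
    rw [h4]; ring)) (exp_ne_zero _) z
  rw [h0, zero_mul] at h3
  rcases mul_eq_zero.1 h3 with h5 | h5
  · exact hz h5
  · exact exp_ne_zero _ h5

theorem zer_line1 {f : ℂ → ℂ → ℂ} (hf : Ent2 f) (w : ℂ) : Differentiable ℂ (fun z => f z w) := by
  have : Differentiable ℂ (fun z : ℂ => ((z, w) : ℂ × ℂ)) := by fun_prop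
  exact Differentiable.comp (g := fun z : ℂ × ℂ => f z.1 z.2) hf this

theorem zer_line2 {f : ℂ → ℂ → ℂ} (hf : Ent2 f) (z : ℂ) : Differentiable ℂ (fun w => f z w) := by
  have : Differentiable ℂ (fun w : ℂ => ((z, w) : ℂ × ℂ)) := by fun_prop
  exact Differentiable.comp (g := fun z : ℂ × ℂ => f z.1 z.2) hf this

theorem zer_D10 {f : ℂ → ℂ → ℂ} (hf : Ent2 f) (u1 u2 : ℂ) :
    D 1 0 f u1 u2 = deriv (fun x => f x u2) u1 := by
  rw [D_left hf 0 0]
  congr 1

theorem zer_D01 {f : ℂ → ℂ → ℂ} (hf : Ent2 f) (u1 u2 : ℂ) :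
    D 0 1 f u1 u2 = deriv (fun y => f u1 y) u2 := by
  rw [D_right hf 0 0]
  congr 1

theorem hir20_ne {f : ℂ → ℂ → ℂ} (hf : Ent2 f) (h0 : f 0 0 = 0) (h2 : ∃ z, f z 0 ≠ 0) :
    ∃ u1 u2, hir f 2 0 u1 u2 ≠ 0 := by
  by_contra hcon
  push Not at hcon
  obtain ⟨z, hz⟩ := h2
  refine hz (zer_ord1 (h := fun x => f x 0) (zer_line1 hf 0) (fun x => ?_) 0 h0 z)
  have h1 := hcon x 0
  rw [hir20 hf, D_left hf 1 0, zer_D10 hf] at h1
  have h3 : (fun x => D 1 0 f x 0) = deriv (fun x => f x 0) := by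
    funext y; exact zer_D10 hf y 0
  rw [h3] at h1
  exact sub_eq_zero.1 h1

theorem hir02_ne {f : ℂ → ℂ → ℂ} (hf : Ent2 f) (h0 : f 0 0 = 0) (h1 : ∃ z, f 0 z ≠ 0) :
    ∃ u1 u2, hir f 0 2 u1 u2 ≠ 0 := by
  by_contra hcon
  push Not at hcon
  obtain ⟨z, hz⟩ := h1
  refine hz (zer_ord1 (h := fun x => f 0 x) (zer_line2 hf 0) (fun x => ?_) 0 h0 z)
  have h1 := hcon 0 x
  rw [hir02 hf, D_right hf 0 1, zer_D01 hf] at h1
  have h3 : (fun y => D 0 1 f 0 y) = deriv (fun x => f 0 x) := by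
    funext y; exact zer_D01 hf 0 y
  rw [h3] at h1
  exact sub_eq_zero.1 h1

theorem hir11_ne {f : ℂ → ℂ → ℂ} (hf : Ent2 f) (h0 : f 0 0 = 0) (h1 : ∃ z, f 0 z ≠ 0)
    (h2 : ∃ z, f z 0 ≠ 0) : ∃ u1 u2, hir f 1 1 u1 u2 ≠ 0 := by
  by_contra hcon
  push Not at hcon
  have hE : ∀ z w, D 1 1 f z w * f z w = D 1 0 f z w * D 0 1 f z w := by
    intro z w
    have h3 := hcon z w
    rw [hir11 hf] at h3
    have h4 : f z w * D 1 1 f z w - D 1 0 f z w * D 0 1 f z w = 0 := by
      rcases mul_eq_zero.1 h3 with h | h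
      · norm_num at h
      · exact h
    linear_combination h4
  -- first step
  have hS1 : ∀ z w0, f z w0 ≠ 0 → ∀ w, D 1 0 f z w * f z w0 = D 1 0 f z w0 * f z w := by
    intro z w0 hne w
    refine zer_ratio (u := fun w => D 1 0 f z w) (v := fun w => f z w)
      (zer_line2 (ent_D hf 1 0) z) (zer_line2 hf z) w0 (Eventually.of_forall (fun x => ?_)) hne w
    have h3 := hE z x
    rw [D_right hf 1 0, zer_D01 hf] at h3
    exact h3
  -- second step
  have hS2 : ∀ z0 w0, f z0 w0 ≠ 0 → ∀ z w, f z w * f z0 w0 = f z0 w * f z w0 := by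
    intro z0 w0 hne z w
    refine zer_ratio (u := fun z => f z w) (v := fun z => f z w0)
      (zer_line1 hf w) (zer_line1 hf w0) z0 ?_ hne z
    have hne' : ∀ᶠ x in 𝓝 z0, f x w0 ≠ 0 :=
      (zer_line1 hf w0).continuous.continuousAt.eventually_ne hne
    filter_upwards [hne'] with x hx
    have h3 := hS1 x w0 hx w
    rw [zer_D10 hf, zer_D10 hf] at h3
    rw [h3]; ring
  have hS3 : ∀ z0 w0, f z0 w0 * (f z0 0 * f 0 w0) = 0 := by
    intro z0 w0
    by_cases hne : f z0 w0 = 0
    · rw [hne, zero_mul]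
    · have h3 := hS2 z0 w0 hne 0 0
      rw [h0, zero_mul] at h3
      rw [← h3, mul_zero]
  obtain ⟨a, ha⟩ := h1
  obtain ⟨b, hb⟩ := h2
  have hg : Ent2 (fun z w => f z 0 * f 0 w) := by
    have e1 : Differentiable ℂ (fun z : ℂ × ℂ => f z.1 0) :=
      (zer_line1 hf 0).comp (differentiable_fst)
    have e2 : Differentiable ℂ (fun z : ℂ × ℂ => f 0 z.2) :=
      (zer_line2 hf 0).comp (differentiable_snd)
    exact e1.mul e2
  have h4 := ent_mul_eq_zero hf hg hS3 ⟨0, a, ha⟩ b a
  rcases mul_eq_zero.1 h4 with h | h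
  · exact hb h
  · exact ha h

end Pool.Agent.RO5
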