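import Pool.Agent.RO5.Eig
import Pool.Agent.RO5.Zer
import Pool.Agent.RO5.HirW
import Pool.Agent.RO5.TZeta

/-!
RO5-Pde. The five Hirota equations of the theta function, with unknown constants.

Plan. `F = ![hir T 0 0, hir T 2 0, hir T 1 1, hir T 0 2]`, `μ = ρ² ![1, z1^-2, z1^-3, z1^-4]`
(`hir_zeta`, `z2 = z1²`: the eigenvalue of `hir T i j` is `ρ²/(z1^i z2^j) = ρ² z1^(-i-2j)`), injective
since `z1` is a primitive 5th root of unity and `ρ ≠ 0`; nonzero by `T_ne` (`hir00`), `hir20_ne`,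
`hir11_ne`, `hir02_ne`. All `hir T i j` and `T(u+p) T(u-p)` are in `QP5 2` (`hir_qp`, `prod_qp`, `qp_T`),
so `dim4` applies to `Fin.snoc F g` (check each index).
`hir 4 0`: exponent `-4`: equal to the one of `hir 0 2`; `hir 3 1`: `-5 ≡ 0`; `hir 2 2`: `-6 ≡ -1`, does
not occur; `hir 1 3`: `-7 ≡ -2`; `hir 0 4`: `-8 ≡ -3`. (`eig_eq`, `eig_zero`).
-/

set_option autoImplicit false

namespace Pool.Agent.RO5

open Complex ComplexConjugate Finset Pool.Agent.ROH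

private noncomputable def FF : Fin 4 → ℂ → ℂ → ℂ := ![hir T 0 0, hir T 2 0, hir T 1 1, hir T 0 2]

private def ex : Fin 4 → ℕ := ![0, 3, 2, 1]

private theorem FF_ne (i : Fin 4) : ∃ u1 u2, FF i u1 u2 ≠ 0 := by
  have h0 := T_zero
  have hl1 := T_line1 0
  have hl2 := T_line2 0
  fin_cases i
  · obtain ⟨u1, u2, h⟩ := T_ne
    exact ⟨u1, u2, by
      show hir T 0 0 u1 u2 ≠ 0
      rw [hir00 ent_T]
      exact pow_ne_zero 2 h⟩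
  · exact hir20_ne ent_T h0 hl2
  · exact hir11_ne ent_T h0 hl1 hl2
  · exact hir02_ne ent_T h0 hl1

private theorem hir_eig {ρ : ℂ} (hz : ∀ u1 u2, T (z1 * u1) (z2 * u2) = ρ * T u1 u2) (i j m k : ℕ)
    (h : i + 2 * j + m = 5 * k) (u1 u2 : ℂ) :
    hir T i j (z1 * u1) (z2 * u2) = ρ ^ 2 * z1 ^ m * hir T i j u1 u2 := by
  have h1 := hir_zeta ent_T hz i j u1 u2
  have h2 : z1 ^ m * (z1 ^ i * z2 ^ j) = 1 := by
    have : z1 ^ m * (z1 ^ i * z2 ^ j) = z1 ^ (i + 2 * j + m) := by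
      unfold z2
      rw [← pow_mul, pow_add, pow_add]
      ring
    rw [this, h, pow_mul, z1_pow, one_pow]
  calc hir T i j (z1 * u1) (z2 * u2)
      = (z1 ^ m * (z1 ^ i * z2 ^ j)) * hir T i j (z1 * u1) (z2 * u2) := by rw [h2, one_mul]
    _ = z1 ^ m * (z1 ^ i * z2 ^ j * hir T i j (z1 * u1) (z2 * u2)) := by ring
    _ = z1 ^ m * (ρ ^ 2 * hir T i j u1 u2) := by rw [h1]
    _ = _ := by ring

private theorem mu_inj {ρ : ℂ} (hρ : ρ ^ 5 = 1) :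
    Function.Injective (fun i : Fin 4 => ρ ^ 2 * z1 ^ (ex i)) := by
  intro i j hij
  have hρ0 : ρ ≠ 0 := by
    rintro rfl
    norm_num at hρ
  have h1 : z1 ^ (ex i) = z1 ^ (ex j) := mul_left_cancel₀ (pow_ne_zero 2 hρ0) hij
  have hlt : ∀ i : Fin 4, ex i < 5 := by decide
  have h2 : ex i = ex j := z1_prim.pow_inj (hlt i) (hlt j) h1
  have hi : ∀ i j : Fin 4, ex i = ex j → i = j := by decide
  exact hi i j h2

private theorem FF_z {ρ : ℂ} (hz : ∀ u1 u2, T (z1 * u1) (z2 * u2) = ρ * T u1 u2) (i : Fin 4)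
    (u1 u2 : ℂ) : FF i (z1 * u1) (z2 * u2) = ρ ^ 2 * z1 ^ (ex i) * FF i u1 u2 := by
  fin_cases i
  · exact hir_eig hz 0 0 0 0 rfl u1 u2
  · exact hir_eig hz 2 0 3 1 rfl u1 u2
  · exact hir_eig hz 1 1 2 1 rfl u1 u2
  · exact hir_eig hz 0 2 1 1 rfl u1 u2

private theorem FF_qp (i : Fin 4) : QP5 2 (FF i) := by
  fin_cases i
  · exact hir_qp qp_T 0 0
  · exact hir_qp qp_T 2 0
  · exact hir_qp qp_T 1 1
  · exact hir_qp qp_T 0 2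

private theorem FF_dep {g : ℂ → ℂ → ℂ} (hg : QP5 2 g) :
    ∃ c : Fin 5 → ℂ, c ≠ 0 ∧ ∀ u1 u2,
      ∑ i, c i * (Fin.snoc FF g : Fin 5 → ℂ → ℂ → ℂ) i u1 u2 = 0 := by
  apply dim4
  intro i
  refine Fin.lastCases ?_ (fun i => ?_) i
  · rw [Fin.snoc_last]
    exact hg
  · rw [Fin.snoc_castSucc]
    exact FF_qp i

theorem T_eqs : ∃ a b c d : ℂ, Eqs T a b c d := by
  obtain ⟨ρ, hρ, hz⟩ := T_zeta
  have hρ0 : ρ ≠ 0 := by
    rintro rfl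
    norm_num at hρ
  have hq : ∀ i j, QP5 2 (hir T i j) := fun i j => hir_qp qp_T i j
  obtain ⟨a, ha⟩ := eig_eq (mu_inj hρ) FF_ne (FF_z hz) (hir_eig hz 4 0 1 1 rfl) (FF_dep (hq 4 0))
    3 rfl
  obtain ⟨b, hb⟩ := eig_eq (mu_inj hρ) FF_ne (FF_z hz) (hir_eig hz 3 1 0 1 rfl) (FF_dep (hq 3 1))
    0 rfl
  obtain ⟨c, hc⟩ := eig_eq (mu_inj hρ) FF_ne (FF_z hz) (hir_eig hz 1 3 3 2 rfl) (FF_dep (hq 1 3))
    1 rfl
  obtain ⟨d, hd⟩ := eig_eq (mu_inj hρ) FF_ne (FF_z hz) (hir_eig hz 0 4 2 2 rfl) (FF_dep (hq 0 4))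
    2 rfl
  have h22 := eig_zero (mu_inj hρ) FF_ne (FF_z hz) (hir_eig hz 2 2 4 2 rfl) (FF_dep (hq 2 2)) (by
    intro i hi
    have h1 : z1 ^ 4 = z1 ^ (ex i) := mul_left_cancel₀ (pow_ne_zero 2 hρ0) hi
    have hlt : ∀ i : Fin 4, ex i < 5 := by decide
    have h2 : 4 = ex i := z1_prim.pow_inj (by norm_num) (hlt i) h1
    have hi : ∀ i : Fin 4, 4 ≠ ex i := by decide
    exact hi i h2)
  refine ⟨12 * a, 3 * b, 3 * c, 24 * d, ⟨ent_T, T_odd, fun u1 u2 => ?_, fun u1 u2 => ?_, h22,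
    fun u1 u2 => ?_, fun u1 u2 => ?_, T_line1, T_line2⟩⟩
  · rw [ha u1 u2]
    show a * hir T 0 2 u1 u2 = _
    ring
  · rw [hb u1 u2]
    show b * hir T 0 0 u1 u2 = _
    ring
  · rw [hc u1 u2]
    show c * hir T 2 0 u1 u2 = _
    ring
  · rw [hd u1 u2]
    show d * hir T 1 1 u1 u2 = _
    ring

/-- the functions `T(u+p) T(u-p)` are combinations of `h00, h20, h11, h02` -/
theorem T_span (p1 p2 : ℂ) : ∃ κ0 κ1 κ2 κ3 : ℂ, ∀ u1 u2,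
    T (u1 + p1) (u2 + p2) * T (u1 - p1) (u2 - p2) = κ0 * hir T 0 0 u1 u2 + κ1 * hir T 2 0 u1 u2 +
      κ2 * hir T 1 1 u1 u2 + κ3 * hir T 0 2 u1 u2 := by
  obtain ⟨ρ, hρ, hz⟩ := T_zeta
  obtain ⟨κ, hκ⟩ := eig_span (mu_inj hρ) FF_ne (FF_z hz) (FF_dep (prod_qp qp_T p1 p2))
  refine ⟨κ 0, κ 1, κ 2, κ 3, fun u1 u2 => ?_⟩
  rw [hκ u1 u2, Fin.sum_univ_four]
  rfl

end Pool.Agent.RO5
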