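import Pool.Agent.RO5.ANe
import Pool.Agent.RO5.Pde

/-!
RO5-Norm. The normalised theta function.

Proved by helper81.
With `p = 1/v1`, `q = 1/v2` the scalings satisfy `p = -(c/2) q³`, `p⁴ (a/12) = q²`.
-/

set_option autoImplicit false

namespace Pool.Agent.RO5

open Complex ComplexConjugate Finset Pool.Agent.ROH

private theorem ent_scale {g : ℂ → ℂ → ℂ} (hg : Ent2 g) (p q : ℂ) :
    Ent2 (fun x y => g (p * x) (q * y)) := by
  have h1 : Differentiable ℂ (fun z : ℂ × ℂ => ((p * z.1, q * z.2) : ℂ × ℂ)) := by fun_prop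
  exact Differentiable.comp (g := fun z : ℂ × ℂ => g z.1 z.2) hg h1

private theorem ent_smul {g : ℂ → ℂ → ℂ} (hg : Ent2 g) (k : ℂ) :
    Ent2 (fun x y => k * g x y) := by
  have h1 : Differentiable ℂ (fun z : ℂ × ℂ => g z.1 z.2) := hg
  exact h1.const_mul k

private theorem J_scale {g : ℂ → ℂ → ℂ} (hg : Ent2 g) (k p q : ℂ) (i j : ℕ) :
    J (fun x y => k * g (p * x) (q * y)) i j = k * (p ^ i * q ^ j) * J g i j := by
  have hg2 : Ent2 (fun x y => g (p * x) (q * y)) := ent_scale hg p q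
  rw [J_eq, J_eq, D_const_mul hg2 k i j 0 0, D_scale hg p q i j 0 0, mul_zero, mul_zero]
  ring

private theorem nf_gen {T : ℂ → ℂ → ℂ} {a b c d ρ : ℂ} (H : Eqs T a b c d)
    (hz : ∀ u1 u2, T (z1 * u1) (z2 * u2) = ρ * T u1 u2) (hρ : ρ = z1) (hB : J T 0 3 ≠ 0)
    (hc : c * J T 1 0 = 6 * J T 0 3) (hd : d = -2 * c) (ha : a ≠ 0) (hJ : J T 1 0 ≠ 0) :
    ∃ v1 v2 k b : ℂ, v1 ≠ 0 ∧ v2 ≠ 0 ∧ k ≠ 0 ∧
      NFT (fun U1 U2 => k * T (U1 / v1) (U2 / v2)) b := by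
  have hc0 : c ≠ 0 := by
    rintro rfl
    apply hB
    have h6 : (6 : ℂ) * J T 0 3 = 0 := by
      rw [← hc]
      ring
    simpa using h6
  obtain ⟨v2, hv⟩ := IsAlgClosed.exists_pow_nat_eq (a * c ^ 4 / 192) (n := 10) (by norm_num)
  have hv2 : v2 ≠ 0 := by
    rintro rfl
    have h0 : a * c ^ 4 / 192 = 0 := by
      rw [← hv]
      norm_num
    have h1 : a * c ^ 4 ≠ 0 := mul_ne_zero ha (pow_ne_zero 4 hc0)
    exact h1 (by
      have := congrArg (fun t => t * 192) h0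
      simpa using this)
  obtain ⟨v1, hv1d⟩ : ∃ v1 : ℂ, v1 = -2 * v2 ^ 3 / c := ⟨_, rfl⟩
  have hv1 : v1 ≠ 0 := by
    rw [hv1d]
    exact div_ne_zero (mul_ne_zero (by norm_num) (pow_ne_zero 3 hv2)) hc0
  obtain ⟨p, hp⟩ : ∃ p : ℂ, p = v1⁻¹ := ⟨_, rfl⟩
  obtain ⟨q, hq⟩ : ∃ q : ℂ, q = v2⁻¹ := ⟨_, rfl⟩
  obtain ⟨A, hAd⟩ : ∃ A : ℂ, A = J T 1 0 := ⟨_, rfl⟩
  have hA0 : A ≠ 0 := by
    rw [hAd]
    exact hJ
  have hq0 : q ≠ 0 := by
    rw [hq]
    exact inv_ne_zero hv2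
  have hpv : p * v1 = 1 := by
    rw [hp]
    exact inv_mul_cancel₀ hv1
  have hqv : q * v2 = 1 := by
    rw [hq]
    exact inv_mul_cancel₀ hv2
  have R2 : p = -(c / 2) * q ^ 3 := by
    rw [hp, hq, hv1d]
    field_simp
  have R1 : p ^ 4 * (a / 12) = q ^ 2 := by
    have h1 : p ^ 4 * (a / 12) = q ^ 2 * (q ^ 10 * (a * c ^ 4 / 192)) := by
      rw [R2]
      ring
    rw [h1, ← hv, ← mul_pow, hqv]
    ring
  have hfe : (fun U1 U2 => v1 / A * T (U1 / v1) (U2 / v2)) =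
      fun x y => v1 / A * T (p * x) (q * y) := by
    funext x y
    rw [hp, hq, div_eq_inv_mul x v1, div_eq_inv_mul y v2]
  have hS : ∀ (i j : ℕ) (u1 u2 : ℂ), hir (fun x y => v1 / A * T (p * x) (q * y)) i j u1 u2 =
      (v1 / A) ^ 2 * (p ^ i * q ^ j) * hir T i j (p * u1) (q * u2) :=
    fun i j u1 u2 => hir_scale H.ent (v1 / A) p q i j u1 u2
  refine ⟨v1, v2, v1 / A, b * (p ^ 3 * q), hv1, hv2, div_ne_zero hv1 hA0, ?_⟩
  rw [hfe]
  refine { ent := ?_, e40 := ?_, e31 := ?_, e22 := ?_, e13 := ?_, e04 := ?_, sym := ?_, odd := ?_,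
           J10 := ?_, J03 := ?_, line1 := ?_, line2 := ?_ }
  · exact ent_smul (ent_scale H.ent p q) (v1 / A)
  · intro u1 u2
    rw [hS, hS, H.e40, ← R1]
    ring
  · intro u1 u2
    rw [hS, hS, H.e31]
    ring
  · intro u1 u2
    rw [hS, H.e22, mul_zero]
  · intro u1 u2
    rw [hS, hS, H.e13]
    have h1 : p ^ 1 * q ^ 3 * (c / 3) = -(2 / 3) * (p ^ 2 * q ^ 0) := by
      have : p ^ 2 = p * (-(c / 2) * q ^ 3) := by
        rw [← R2]
        ring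
      rw [this]
      ring
    linear_combination (v1 / A) ^ 2 * hir T 2 0 (p * u1) (q * u2) * h1
  · intro u1 u2
    rw [hS, hS, H.e04, hd]
    have h1 : p ^ 0 * q ^ 4 * (-2 * c / 24) = 1 / 6 * (p ^ 1 * q ^ 1) := by
      have : p ^ 1 = -(c / 2) * q ^ 3 := by
        rw [← R2]
        ring
      rw [this]
      ring
    linear_combination (v1 / A) ^ 2 * hir T 1 1 (p * u1) (q * u2) * h1
  · intro u1 u2
    have h1 := hz (p * u1) (q * u2)
    have e1 : p * (z1 * u1) = z1 * (p * u1) := by ring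
    have e2 : q * (z2 * u2) = z2 * (q * u2) := by ring
    show v1 / A * T (p * (z1 * u1)) (q * (z2 * u2)) = z1 * (v1 / A * T (p * u1) (q * u2))
    rw [e1, e2, h1, hρ]
    ring
  · intro u1 u2
    have h1 := H.odd (p * u1) (q * u2)
    show v1 / A * T (p * -u1) (q * -u2) = -(v1 / A * T (p * u1) (q * u2))
    rw [mul_neg, mul_neg, h1]
    ring
  · rw [J_scale H.ent, ← hAd]
    have h2 : v1 / A * (p ^ 1 * q ^ 0) * A = (p * v1) * (A / A) := by ring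
    rw [h2, hpv, div_self hA0, mul_one]
  · rw [J_scale H.ent]
    have hB6 : J T 0 3 = c * A / 6 := by
      rw [hAd, hc]
      ring
    rw [hB6]
    have h2 : v1 / A * (p ^ 0 * q ^ 3) * (c * A / 6) =
        -(1 / 3) * (v1 * (-(c / 2) * q ^ 3)) * (A / A) := by ring
    rw [h2, ← R2, mul_comm v1 p, hpv, div_self hA0]
    ring
  · intro c'
    obtain ⟨z, hz1⟩ := H.line1 (p * c')
    refine ⟨v2 * z, ?_⟩
    show v1 / A * T (p * c') (q * (v2 * z)) ≠ 0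
    have e : q * (v2 * z) = z := by
      rw [← mul_assoc, hqv, one_mul]
    rw [e]
    exact mul_ne_zero (div_ne_zero hv1 hA0) hz1
  · intro c'
    obtain ⟨z, hz1⟩ := H.line2 (q * c')
    refine ⟨v1 * z, ?_⟩
    show v1 / A * T (p * (v1 * z)) (q * c') ≠ 0
    have e : p * (v1 * z) = z := by
      rw [← mul_assoc, hpv, one_mul]
    rw [e]
    exact mul_ne_zero (div_ne_zero hv1 hA0) hz1

theorem exists_nf : ∃ v1 v2 k b : ℂ, v1 ≠ 0 ∧ v2 ≠ 0 ∧ k ≠ 0 ∧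
    NFT (fun U1 U2 => k * T (U1 / v1) (U2 / v2)) b := by
  obtain ⟨a, b, c, d, H⟩ := T_eqs
  obtain ⟨ρ, -, hz⟩ := T_zeta
  obtain ⟨hρ, hA, h01⟩ := grad H hz T_span
  obtain ⟨hB, hc, hd⟩ := bc H hA h01
  have ha : a ≠ 0 := a_ne qp_T H hA h01
  have hJ : J T 1 0 ≠ 0 := by
    rw [J_eq]
    exact div_ne_zero hA (by simp)
  exact nf_gen H hz hρ hB hc hd ha hJ

end Pool.Agent.RO5
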