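import Mathlib

/-!
Project ROH5: duplication and reflection formulas for the two period values.
-/

set_option autoImplicit false

namespace Pool.Agent.RO5

open Real

theorem refl15 : Real.Gamma (4 / 5) * (Real.Gamma (1 / 5) * Real.sin (π / 5)) = π := by
  have h := Real.Gamma_mul_Gamma_one_sub (1 / 5)
  rw [show (1 : ℝ) - 1 / 5 = 4 / 5 by norm_num, show π * (1 / 5) = π / 5 by ring] at h
  have hs : Real.sin (π / 5) ≠ 0 :=
    (Real.sin_pos_of_pos_of_lt_pi (by positivity) (by linarith [Real.pi_pos])).ne'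
  field_simp at h
  linarith

theorem refl25 : Real.Gamma (3 / 5) * (Real.Gamma (2 / 5) * Real.sin (2 * π / 5)) = π := by
  have h := Real.Gamma_mul_Gamma_one_sub (2 / 5)
  rw [show (1 : ℝ) - 2 / 5 = 3 / 5 by norm_num, show π * (2 / 5) = 2 * π / 5 by ring] at h
  have hs : Real.sin (2 * π / 5) ≠ 0 :=
    (Real.sin_pos_of_pos_of_lt_pi (by positivity) (by linarith [Real.pi_pos])).ne'
  field_simp at h
  linarith

theorem val1 : Real.Gamma (3 / 10) * Real.Gamma (1 / 2) / Real.Gamma (4 / 5) =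
    ((2 : ℝ) ^ (2 / 5 : ℝ) * (Real.sin (π / 5) ^ 2 / Real.sin (2 * π / 5))) *
      (Real.Gamma (1 / 5) ^ 2 / Real.Gamma (2 / 5)) := by
  have hd := Real.Gamma_mul_Gamma_add_half (3 / 10)
  rw [show (3 / 10 : ℝ) + 1 / 2 = 4 / 5 by norm_num, show (2 : ℝ) * (3 / 10) = 3 / 5 by norm_num,
    show (1 : ℝ) - 3 / 5 = 2 / 5 by norm_num] at hd
  have r1 := refl15
  have r2 := refl25
  have g1 : 0 < Real.Gamma (1 / 5) := Real.Gamma_pos_of_pos (by norm_num)
  have g2 : 0 < Real.Gamma (2 / 5) := Real.Gamma_pos_of_pos (by norm_num)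
  have g4 : 0 < Real.Gamma (4 / 5) := Real.Gamma_pos_of_pos (by norm_num)
  have s1 : 0 < Real.sin (π / 5) :=
    Real.sin_pos_of_pos_of_lt_pi (by positivity) (by linarith [Real.pi_pos])
  have s2 : 0 < Real.sin (2 * π / 5) :=
    Real.sin_pos_of_pos_of_lt_pi (by positivity) (by linarith [Real.pi_pos])
  have e4 : Real.Gamma (4 / 5) = π / (Real.Gamma (1 / 5) * Real.sin (π / 5)) := by
    rw [eq_div_iff (by positivity)]
    exact r1
  have e3 : Real.Gamma (3 / 5) = π / (Real.Gamma (2 / 5) * Real.sin (2 * π / 5)) := by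
    rw [eq_div_iff (by positivity)]
    exact r2
  have e0 : Real.Gamma (3 / 10) = Real.Gamma (3 / 5) * 2 ^ (2 / 5 : ℝ) * √π / Real.Gamma (4 / 5) := by
    rw [eq_div_iff g4.ne']
    exact hd
  have hpi := Real.mul_self_sqrt Real.pi_pos.le
  rw [e0, Real.Gamma_one_half_eq, e3, e4]
  have hp := Real.pi_pos
  generalize Real.sin (2 * π / 5) = S2 at s2 ⊢
  generalize Real.sin (π / 5) = S1 at s1 ⊢
  generalize Real.Gamma (1 / 5) = G1 at g1 ⊢
  generalize Real.Gamma (2 / 5) = G2 at g2 ⊢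
  generalize (2 : ℝ) ^ (2 / 5 : ℝ) = W
  have e : π / (G2 * S2) * W * √π / (π / (G1 * S1)) * √π / (π / (G1 * S1)) =
      (√π * √π) / π * (W * (S1 ^ 2 / S2) * (G1 ^ 2 / G2)) := by
    field_simp
  rw [e, hpi, div_self hp.ne', one_mul]

theorem val2 : Real.Gamma (1 / 10) * Real.Gamma (1 / 2) / Real.Gamma (3 / 5) =
    ((2 : ℝ) ^ (4 / 5 : ℝ) * Real.sin (2 * π / 5) ^ 2) *
      (Real.Gamma (1 / 5) * Real.Gamma (2 / 5) ^ 2 / π) := by
  have hd := Real.Gamma_mul_Gamma_add_half (1 / 10)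
  rw [show (1 / 10 : ℝ) + 1 / 2 = 3 / 5 by norm_num, show (2 : ℝ) * (1 / 10) = 1 / 5 by norm_num,
    show (1 : ℝ) - 1 / 5 = 4 / 5 by norm_num] at hd
  have r2 := refl25
  have g2 : 0 < Real.Gamma (2 / 5) := Real.Gamma_pos_of_pos (by norm_num)
  have g3 : 0 < Real.Gamma (3 / 5) := Real.Gamma_pos_of_pos (by norm_num)
  have s2 : 0 < Real.sin (2 * π / 5) :=
    Real.sin_pos_of_pos_of_lt_pi (by positivity) (by linarith [Real.pi_pos])
  have e3 : Real.Gamma (3 / 5) = π / (Real.Gamma (2 / 5) * Real.sin (2 * π / 5)) := by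
    rw [eq_div_iff (by positivity)]
    exact r2
  have e0 : Real.Gamma (1 / 10) = Real.Gamma (1 / 5) * 2 ^ (4 / 5 : ℝ) * √π / Real.Gamma (3 / 5) := by
    rw [eq_div_iff g3.ne']
    exact hd
  have hpi := Real.mul_self_sqrt Real.pi_pos.le
  rw [e0, Real.Gamma_one_half_eq, e3]
  have hp := Real.pi_pos
  generalize Real.sin (2 * π / 5) = S2 at s2 ⊢
  generalize Real.Gamma (1 / 5) = G1
  generalize Real.Gamma (2 / 5) = G2 at g2 ⊢
  generalize (2 : ℝ) ^ (4 / 5 : ℝ) = W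
  have e : G1 * W * √π / (π / (G2 * S2)) * √π / (π / (G2 * S2)) =
      (√π * √π) / π * (W * S2 ^ 2 * (G1 * G2 ^ 2 / π)) := by
    field_simp
  rw [e, hpi, div_self hp.ne', one_mul]

theorem isAlg_rpow2 (m : ℕ) : IsAlgebraic ℚ (((2 : ℝ) ^ ((m : ℝ) / 5) : ℝ) : ℂ) := by
  refine IsAlgebraic.of_pow (n := 5) (by norm_num) ?_
  have : (((2 : ℝ) ^ ((m : ℝ) / 5) : ℝ) : ℂ) ^ 5 = ((2 : ℝ) ^ m : ℝ) := by
    rw [← Complex.ofReal_pow]
    congr 1
    rw [← Real.rpow_natCast ((2 : ℝ) ^ ((m : ℝ) / 5)) 5, ← Real.rpow_mul (by norm_num),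
      ← Real.rpow_natCast 2 m]
    congr 1
    push_cast
    ring
  rw [this]
  push_cast
  have h2 : IsAlgebraic ℚ (2 : ℂ) := by
    have : (2 : ℂ) = algebraMap ℚ ℂ 2 := by simp
    rw [this]
    exact isAlgebraic_algebraMap _
  exact h2.pow m

end Pool.Agent.RO5
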