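import Pool.Agent.RO5.RSplit

/-!
RO5-RInt. Integrality up to powers of `2` of the solutions of the system `Sys`: strong induction on the
weight `3X+Y`, inside one weight on `Y`; the claim is `ZZ (2X + Y - 7) (S X Y)` (natural subtraction).
-/

set_option autoImplicit false

namespace Pool.Agent.RO5

open Finset

private lemma zmono {a b : ℕ} {x : ℂ} (hab : a ≤ b) (h : ZZ a x) : ZZ b x := by
  obtain ⟨n, hn⟩ := h
  obtain ⟨c, rfl⟩ := Nat.exists_eq_add_of_le hab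
  refine ⟨n * 2 ^ c, ?_⟩
  push_cast
  rw [← hn]
  ring

private lemma zzero (a : ℕ) : ZZ a 0 := ⟨0, by simp⟩

private lemma zadd {a : ℕ} {x y : ℂ} (hx : ZZ a x) (hy : ZZ a y) : ZZ a (x + y) := by
  obtain ⟨n, hn⟩ := hx
  obtain ⟨m, hm⟩ := hy
  refine ⟨n + m, ?_⟩
  push_cast
  rw [← hn, ← hm]
  ring

private lemma zint {a : ℕ} {x : ℂ} (k : ℤ) (hx : ZZ a x) : ZZ a ((k : ℂ) * x) := by
  obtain ⟨n, hn⟩ := hx
  refine ⟨k * n, ?_⟩
  push_cast
  rw [← hn]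
  ring

private lemma zmul {a b : ℕ} {x y : ℂ} (hx : ZZ a x) (hy : ZZ b y) : ZZ (a + b) (x * y) := by
  obtain ⟨n, hn⟩ := hx
  obtain ⟨m, hm⟩ := hy
  refine ⟨n * m, ?_⟩
  push_cast
  rw [← hn, ← hm]
  ring

private lemma zdiv {a : ℕ} {x : ℂ} (c : ℕ) (hx : ZZ a x) : ZZ (a + c) (x / 2 ^ c) := by
  obtain ⟨n, hn⟩ := hx
  refine ⟨n, ?_⟩
  rw [← hn, pow_add]
  field_simp

private lemma zsum {ι : Type*} {a : ℕ} (s : Finset ι) (f : ι → ℂ) (h : ∀ i ∈ s, ZZ a (f i)) :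
    ZZ a (∑ i ∈ s, f i) := by
  classical
  induction s using Finset.induction_on with
  | empty => simpa using zzero a
  | insert i s hi ih =>
    rw [Finset.sum_insert hi]
    exact zadd (h i (Finset.mem_insert_self _ _)) (ih fun j hj => h j (Finset.mem_insert_of_mem hj))

private lemma HR_ZZ {S : ℕ → ℕ → ℂ} (i j α β : ℕ)
    (h : ∀ x y, 3 * x + y + 13 ≤ 3 * (α + i) + (β + j) → ZZ (2 * x + y - 7) (S x y)) :
    ZZ (2 * (α + i) + (β + j) - 14) (HR S i j α β) := by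
  unfold HR
  refine zsum _ _ fun x hx => zsum _ _ fun y hy => ?_
  rw [Finset.mem_range] at hx hy
  split_ifs with hc
  · obtain ⟨h1, h2⟩ := hc
    have h3 := h x y (by omega)
    have h4 := h (α + i - x) (β + j - y) (by omega)
    have h5 := zint (kc i x α * kc j y β) (zmul h3 h4)
    push_cast at h5
    refine zmono ?_ h5
    omega
  · exact zzero _

private lemma HH_ZZ {S : ℕ → ℕ → ℂ} (hs : ∀ x y, S x y ≠ 0 → (3 * x + y) % 10 = 3) (i j α β : ℕ)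
    (h : ∀ x y, 3 * x + y ≤ 3 * (α + i) + (β + j) → ZZ (2 * x + y - 7) (S x y)) :
    ZZ (2 * (α + i) + (β + j) - 9) (HH S i j α β) := by
  unfold HH
  refine zsum _ _ fun x hx => zsum _ _ fun y hy => ?_
  rw [Finset.mem_range] at hx hy
  by_cases h1 : S x y = 0
  · rw [h1, zero_mul, mul_zero]
    exact zzero _
  by_cases h2 : S (α + i - x) (β + j - y) = 0
  · rw [h2, mul_zero, mul_zero]
    exact zzero _
  have e1 := hs _ _ h1
  have e2 := hs _ _ h2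
  have h3 := h x y (by omega)
  have h4 := h (α + i - x) (β + j - y) (by omega)
  have h5 := zint (kc i x α * kc j y β) (zmul h3 h4)
  push_cast at h5
  refine zmono ?_ h5
  omega

section

variable {S : ℕ → ℕ → ℂ}

private lemma E22 (h : Sys S) (X Y : ℕ) (hX : 1 ≤ X) (hY : 2 ≤ Y) (hw : 13 ≤ 3 * X + Y) :
    2 * ((X : ℂ) - 3) * S X Y - 4 * (kc 2 3 (Y - 2) : ℂ) * S (X + 1) (Y - 3) +
      HR S 2 2 (X - 1) (Y - 2) = 0 := by
  obtain ⟨α, rfl⟩ := Nat.exists_eq_add_of_le' hX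
  obtain ⟨β, rfl⟩ := Nat.exists_eq_add_of_le' hY
  have h1 := HH_split h.supp h.s10 h.s03 (i := 2) (j := 2) (by decide) α β (by omega)
  rw [h.h22] at h1
  have e1 : α + 2 - 1 = α + 1 := by omega
  rw [e1] at h1
  rw [Nat.add_sub_cancel, Nat.add_sub_cancel]
  push_cast at h1 ⊢
  linear_combination -h1

private lemma E13 (h : Sys S) (X Y : ℕ) (hY : 3 ≤ Y) (hw : 13 ≤ 3 * X + Y) :
    2 * ((X : ℂ) - 1) * S X Y + 4 * (kc 3 3 (Y - 3) : ℂ) * S (X + 1) (Y - 3) + HR S 1 3 X (Y - 3) =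
      -2 * (2 * ((X : ℂ) - 2) * S (X + 1) (Y - 3) - 4 * (kc 0 3 (Y - 3) : ℂ) * S (X + 2) (Y - 6) +
        HR S 2 0 X (Y - 3)) := by
  obtain ⟨β, rfl⟩ := Nat.exists_eq_add_of_le' hY
  have h1 := HH_split h.supp h.s10 h.s03 (i := 1) (j := 3) (by decide) X β (by omega)
  have h2 := HH_split h.supp h.s10 h.s03 (i := 2) (j := 0) (by decide) X β (by omega)
  have h3 := h.h13 X β
  have e1 : X + 1 - 1 = X := by omega
  have e2 : X + 2 - 1 = X + 1 := by omega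
  have e3 : β + 3 - 6 = β - 3 := by omega
  rw [e1] at h1
  rw [e2, Nat.add_zero] at h2
  rw [Nat.add_sub_cancel] at h1
  rw [Nat.add_sub_cancel, e3]
  push_cast at h1 h2 ⊢
  linear_combination -h1 + h3 + (-2) * h2

private lemma E31 (h : Sys S) (X Y : ℕ) (hX : 2 ≤ X) (hY : 1 ≤ Y) (hw : 13 ≤ 3 * X + Y) :
    2 * ((X : ℂ) - 5) * S X Y + 4 * (kc 1 3 (Y - 1) : ℂ) * S (X + 1) (Y - 3) +
      HR S 3 1 (X - 2) (Y - 1) = -8 * HH S 0 0 (X - 2) (Y - 1) := by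
  obtain ⟨α, rfl⟩ := Nat.exists_eq_add_of_le' hX
  obtain ⟨β, rfl⟩ := Nat.exists_eq_add_of_le' hY
  have h1 := HH_split h.supp h.s10 h.s03 (i := 3) (j := 1) (by decide) α β (by omega)
  rw [h.h31] at h1
  have e1 : α + 3 - 1 = α + 2 := by omega
  rw [e1] at h1
  rw [Nat.add_sub_cancel, Nat.add_sub_cancel]
  push_cast at h1 ⊢
  linear_combination -h1

private lemma E40 (h : Sys S) (X Y : ℕ) (hX : 3 ≤ X) (hw : 13 ≤ 3 * X + Y) :
    2 * ((X : ℂ) - 7) * S X Y - 4 * (kc 0 3 Y : ℂ) * S (X + 1) (Y - 3) +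
      HR S 4 0 (X - 3) Y = 12 * HH S 0 2 (X - 3) Y := by
  obtain ⟨α, rfl⟩ := Nat.exists_eq_add_of_le' hX
  have h1 := HH_split h.supp h.s10 h.s03 (i := 4) (j := 0) (by decide) α Y (by omega)
  rw [h.h40] at h1
  have e1 : α + 4 - 1 = α + 3 := by omega
  rw [e1, Nat.add_zero] at h1
  rw [Nat.add_sub_cancel]
  push_cast at h1 ⊢
  linear_combination -h1

/-- the better exponent for `Y = 3` -/
private lemma st3 (h : Sys S) (X : ℕ) (hw : 13 ≤ 3 * X + 3)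
    (ih : ∀ x y, 3 * x + y < 3 * X + 3 → ZZ (2 * x + y - 7) (S x y)) : ZZ (2 * X - 6) (S X 3) := by
  by_cases h0 : S X 3 = 0
  · rw [h0]
    exact zzero _
  have hs0 := h.supp _ _ h0
  have e1 := E22 h X 3 (by omega) (by omega) hw
  have e2 := E40 h X 3 (by omega) hw
  have k1 : kc 2 3 (3 - 2) = 1 := by
    rw [kc3_2]
    decide
  have k2 : kc 0 3 3 = 1 := by
    rw [kc3_0]
    decide
  rw [k1] at e1
  rw [k2] at e2
  have z1 : ZZ (2 * X - 6) (HH S 0 2 (X - 3) 3 / 2 ^ 1) :=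
    zmono (by omega) (zdiv 1 (HH_ZZ h.supp 0 2 (X - 3) 3 fun x y hxy => ih x y (by omega)))
  have z2 : ZZ (2 * X - 6) (HR S 2 2 (X - 1) (3 - 2) / 2 ^ 3) :=
    zmono (by omega) (zdiv 3 (HR_ZZ 2 2 (X - 1) (3 - 2) fun x y hxy => ih x y (by omega)))
  have z3 : ZZ (2 * X - 6) (HR S 4 0 (X - 3) 3 / 2 ^ 3) :=
    zmono (by omega) (zdiv 3 (HR_ZZ 4 0 (X - 3) 3 fun x y hxy => ih x y (by omega)))
  have z := zadd (zadd (zint (-3) z1) (zint (-1) z2)) z3
  have e : S X 3 = ((-3 : ℤ) : ℂ) * (HH S 0 2 (X - 3) 3 / 2 ^ 1) +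
      ((-1 : ℤ) : ℂ) * (HR S 2 2 (X - 1) (3 - 2) / 2 ^ 3) + HR S 4 0 (X - 3) 3 / 2 ^ 3 := by
    push_cast at e1 e2 ⊢
    linear_combination (1 / 8) * (e1 - e2)
  rw [e]
  exact z

private lemma step (h : Sys S) (X Y : ℕ) (hw : 13 ≤ 3 * X + Y)
    (ih : ∀ x y, 3 * x + y < 3 * X + Y → ZZ (2 * x + y - 7) (S x y)) :
    ZZ (2 * X + Y - 7) (S X Y) := by
  induction Y using Nat.strong_induction_on generalizing X with
  | _ Y ihY =>
  rcases Nat.lt_or_ge Y 4 with hY4 | hY4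
  · interval_cases Y
    · -- `Y = 0`
      obtain ⟨X, rfl⟩ : ∃ X', X = X' + 1 := ⟨X - 1, by omega⟩
      have z0 := st3 h X (by omega) fun x y hxy => ih x y (by omega)
      have e1 := E22 h X 3 (by omega) (by omega) (by omega)
      have k1 : kc 2 3 (3 - 2) = 1 := by
        rw [kc3_2]
        decide
      rw [k1] at e1
      have z1 : ZZ (2 * (X + 1) + 0 - 7) (S X 3 / 2 ^ 1) := zmono (by omega) (zdiv 1 z0)
      have z2 : ZZ (2 * (X + 1) + 0 - 7) (HR S 2 2 (X - 1) (3 - 2) / 2 ^ 2) :=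
        zmono (by omega) (zdiv 2 (HR_ZZ 2 2 (X - 1) (3 - 2) fun x y hxy => ih x y (by omega)))
      have z := zadd (zint ((X : ℤ) - 3) z1) z2
      have e : S (X + 1) 0 = (((X : ℤ) - 3 : ℤ) : ℂ) * (S X 3 / 2 ^ 1) +
          HR S 2 2 (X - 1) (3 - 2) / 2 ^ 2 := by
        have e3 : (3 : ℕ) - 3 = 0 := rfl
        rw [e3] at e1
        push_cast at e1 ⊢
        linear_combination (-1 / 4) * e1
      rw [e]
      exact z
    · -- `Y = 1`
      have e1 := E31 h X 1 (by omega) (by omega) hw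
      have e2 := E40 h X 1 (by omega) hw
      have k1 : kc 1 3 (1 - 1) = 0 := kc_eq_zero (by omega)
      have k2 : kc 0 3 1 = 0 := kc_eq_zero (by omega)
      rw [k1] at e1
      rw [k2] at e2
      have z1 : ZZ (2 * X + 1 - 7) (HH S 0 0 (X - 2) (1 - 1)) :=
        zmono (by omega) (HH_ZZ h.supp 0 0 (X - 2) (1 - 1) fun x y hxy => ih x y (by omega))
      have z2 : ZZ (2 * X + 1 - 7) (HH S 0 2 (X - 3) 1) :=
        zmono (by omega) (HH_ZZ h.supp 0 2 (X - 3) 1 fun x y hxy => ih x y (by omega))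
      have z3 : ZZ (2 * X + 1 - 7) (HR S 3 1 (X - 2) (1 - 1) / 2 ^ 2) :=
        zmono (by omega) (zdiv 2 (HR_ZZ 3 1 (X - 2) (1 - 1) fun x y hxy => ih x y (by omega)))
      have z4 : ZZ (2 * X + 1 - 7) (HR S 4 0 (X - 3) 1 / 2 ^ 2) :=
        zmono (by omega) (zdiv 2 (HR_ZZ 4 0 (X - 3) 1 fun x y hxy => ih x y (by omega)))
      have z := zadd (zadd (zadd (zint (-2) z1) (zint (-3) z2)) (zint (-1) z3)) z4
      have e : S X 1 = ((-2 : ℤ) : ℂ) * HH S 0 0 (X - 2) (1 - 1) + ((-3 : ℤ) : ℂ) * HH S 0 2 (X - 3) 1 +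
          ((-1 : ℤ) : ℂ) * (HR S 3 1 (X - 2) (1 - 1) / 2 ^ 2) + HR S 4 0 (X - 3) 1 / 2 ^ 2 := by
        push_cast at e1 e2 ⊢
        linear_combination (1 / 4) * (e1 - e2)
      rw [e]
      exact z
    · -- `Y = 2`
      have e1 := E22 h X 2 (by omega) (by omega) hw
      have e2 := E31 h X 2 (by omega) (by omega) hw
      have k1 : kc 2 3 (2 - 2) = 0 := kc_eq_zero (by omega)
      have k2 : kc 1 3 (2 - 1) = 0 := kc_eq_zero (by omega)
      rw [k1] at e1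
      rw [k2] at e2
      have z1 : ZZ (2 * X + 2 - 7) (HH S 0 0 (X - 2) (2 - 1)) :=
        zmono (by omega) (HH_ZZ h.supp 0 0 (X - 2) (2 - 1) fun x y hxy => ih x y (by omega))
      have z2 : ZZ (2 * X + 2 - 7) (HR S 2 2 (X - 1) (2 - 2) / 2 ^ 2) :=
        zmono (by omega) (zdiv 2 (HR_ZZ 2 2 (X - 1) (2 - 2) fun x y hxy => ih x y (by omega)))
      have z3 : ZZ (2 * X + 2 - 7) (HR S 3 1 (X - 2) (2 - 1) / 2 ^ 2) :=
        zmono (by omega) (zdiv 2 (HR_ZZ 3 1 (X - 2) (2 - 1) fun x y hxy => ih x y (by omega)))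
      have z := zadd (zadd (zint 2 z1) (zint (-1) z2)) z3
      have e : S X 2 = ((2 : ℤ) : ℂ) * HH S 0 0 (X - 2) (2 - 1) +
          ((-1 : ℤ) : ℂ) * (HR S 2 2 (X - 1) (2 - 2) / 2 ^ 2) + HR S 3 1 (X - 2) (2 - 1) / 2 ^ 2 := by
        push_cast at e1 e2 ⊢
        linear_combination (1 / 4) * (e1 - e2)
      rw [e]
      exact z
    · -- `Y = 3`
      exact zmono (by omega) (st3 h X hw ih)
  · -- `Y ≥ 4`
    have p1 : ZZ (2 * X + Y - 7) (S (X + 1) (Y - 3)) :=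
      zmono (by omega) (ihY (Y - 3) (by omega) (X + 1) (by omega) fun x y hxy => ih x y (by omega))
    have p2 : ZZ (2 * X + Y - 7) ((kc 0 3 (Y - 3) : ℂ) * S (X + 2) (Y - 6)) := by
      rcases Nat.lt_or_ge Y 6 with h6 | h6
      · have k : kc 0 3 (Y - 3) = 0 := kc_eq_zero (by omega)
        rw [k, Int.cast_zero, zero_mul]
        exact zzero _
      · exact zint _ (zmono (by omega) (ihY (Y - 6) (by omega) (X + 2) (by omega)
          fun x y hxy => ih x y (by omega)))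
    have e1 := E13 h X Y (by omega) hw
    have z1 : ZZ (2 * X + Y - 7) (HR S 1 3 X (Y - 3) / 2 ^ 2) :=
      zmono (by omega) (zdiv 2 (HR_ZZ 1 3 X (Y - 3) fun x y hxy => ih x y (by omega)))
    have z2 : ZZ (2 * X + Y - 7) (HR S 2 0 X (Y - 3) / 2 ^ 1) :=
      zmono (by omega) (zdiv 1 (HR_ZZ 2 0 X (Y - 3) fun x y hxy => ih x y (by omega)))
    rcases Nat.eq_zero_or_pos X with hX | hX
    · subst hX
      have z := zadd (zadd (zadd (zint (2 * kc 3 3 (Y - 3) - 4) p1) (zint (-4) p2)) (zint 2 z1))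
        (zint 2 z2)
      have e : S 0 Y = ((2 * kc 3 3 (Y - 3) - 4 : ℤ) : ℂ) * S (0 + 1) (Y - 3) +
          ((-4 : ℤ) : ℂ) * ((kc 0 3 (Y - 3) : ℂ) * S (0 + 2) (Y - 6)) +
          ((2 : ℤ) : ℂ) * (HR S 1 3 0 (Y - 3) / 2 ^ 2) + ((2 : ℤ) : ℂ) * (HR S 2 0 0 (Y - 3) / 2 ^ 1) := by
        push_cast at e1 ⊢
        linear_combination (-1 / 2) * e1
      rw [e]
      exact z
    · have e2 := E22 h X Y hX (by omega) hw
      have z3 : ZZ (2 * X + Y - 7) (HR S 2 2 (X - 1) (Y - 2) / 2 ^ 2) :=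
        zmono (by omega) (zdiv 2 (HR_ZZ 2 2 (X - 1) (Y - 2) fun x y hxy => ih x y (by omega)))
      have z := zadd (zadd (zadd (zadd
        (zint (-(kc 3 3 (Y - 3) + kc 2 3 (Y - 2) + ((X : ℤ) - 2))) p1) (zint 2 p2)) z3)
        (zint (-1) z1)) (zint (-1) z2)
      have e : S X Y = ((-(kc 3 3 (Y - 3) + kc 2 3 (Y - 2) + ((X : ℤ) - 2)) : ℤ) : ℂ) * S (X + 1) (Y - 3) +
          ((2 : ℤ) : ℂ) * ((kc 0 3 (Y - 3) : ℂ) * S (X + 2) (Y - 6)) +
          HR S 2 2 (X - 1) (Y - 2) / 2 ^ 2 + ((-1 : ℤ) : ℂ) * (HR S 1 3 X (Y - 3) / 2 ^ 2) +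
          ((-1 : ℤ) : ℂ) * (HR S 2 0 X (Y - 3) / 2 ^ 1) := by
        push_cast at e1 e2 ⊢
        linear_combination (1 / 4) * (e1 - e2)
      rw [e]
      exact z

end

theorem sys_int {S : ℕ → ℕ → ℂ} (h : Sys S) (x y : ℕ) : ZZ (2 * x + y) (S x y) := by
  have key : ∀ w x y : ℕ, 3 * x + y = w → ZZ (2 * x + y - 7) (S x y) := by
    intro w
    induction w using Nat.strong_induction_on with
    | _ w ih =>
    intro x y hxy
    rcases Nat.lt_or_ge w 13 with hw | hw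
    · by_cases h0 : S x y = 0
      · rw [h0]
        exact zzero _
      · have h1 := h.supp x y h0
        have h2 : (x = 1 ∧ y = 0) ∨ (x = 0 ∧ y = 3) := by omega
        rcases h2 with ⟨rfl, rfl⟩ | ⟨rfl, rfl⟩
        · exact zmono (Nat.zero_le _) ⟨1, by rw [h.s10]; simp⟩
        · exact zmono (Nat.zero_le _) ⟨-2, by rw [h.s03]; simp⟩
    · exact step h x y (by omega) fun x' y' hlt => ih (3 * x' + y') (by omega) x' y' rfl
  exact zmono (by omega) (key _ x y rfl)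

end Pool.Agent.RO5
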