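import Pool.Agent.RO5.RSys
import Pool.Agent.RO5.RInt
import Pool.Agent.RO5.CalD

/-!
RO5-RFin. Rational Taylor coefficients of the normal form.
-/

set_option autoImplicit false

namespace Pool.Agent.RO5

open Complex Finset Pool.Agent.ROH

private theorem log_bound (N : ℕ) :
    ((2 ^ (2 * N) * N.factorial : ℕ) : ℝ) ≤ Real.exp (5 * (N + 1) * Real.log (N + 2) ^ 2) := by
  have hN : (0 : ℝ) ≤ N := Nat.cast_nonneg N
  have hl2 : (0.6931471803 : ℝ) < Real.log 2 := Real.log_two_gt_d9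
  have hle : Real.log 2 ≤ Real.log (N + 2) := Real.log_le_log (by norm_num) (by linarith)
  have hl0 : 0 < Real.log (N + 2) := by linarith
  have h1 : ((2 ^ (2 * N) * N.factorial : ℕ) : ℝ) ≤ ((N : ℝ) + 2) ^ (3 * (N + 1)) := by
    push_cast
    have h2 : (2 : ℝ) ^ (2 * N) ≤ ((N : ℝ) + 2) ^ (2 * N) :=
      pow_le_pow_left₀ (by norm_num) (by linarith) _
    have h3 : (N.factorial : ℝ) ≤ ((N : ℝ) + 2) ^ N := by
      have h4 : (N.factorial : ℝ) ≤ (N : ℝ) ^ N := by exact_mod_cast Nat.factorial_le_pow N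
      exact h4.trans (pow_le_pow_left₀ hN (by linarith) _)
    calc (2 : ℝ) ^ (2 * N) * N.factorial
        ≤ ((N : ℝ) + 2) ^ (2 * N) * ((N : ℝ) + 2) ^ N :=
          mul_le_mul h2 h3 (by positivity) (by positivity)
      _ = ((N : ℝ) + 2) ^ (3 * N) := by rw [← pow_add]; congr 1; ring
      _ ≤ ((N : ℝ) + 2) ^ (3 * (N + 1)) := pow_le_pow_right₀ (by linarith) (by omega)
  refine h1.trans ?_
  have h5 : ((N : ℝ) + 2) ^ (3 * (N + 1)) = Real.exp (Real.log (N + 2) * ((3 * (N + 1) : ℕ) : ℝ)) := by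
    rw [← Real.rpow_natCast, Real.rpow_def_of_pos (by linarith)]
  rw [h5]
  apply Real.exp_le_exp.2
  push_cast
  have h6 : Real.log (N + 2) * (3 * ((N : ℝ) + 1)) = (N + 1) * (3 * Real.log (N + 2)) := by ring
  have h7 : 5 * ((N : ℝ) + 1) * Real.log (N + 2) ^ 2 = (N + 1) * (5 * Real.log (N + 2) ^ 2) := by
    ring
  rw [h6, h7]
  apply mul_le_mul_of_nonneg_left _ (by linarith)
  nlinarith

theorem ratTay2_of_nft {f : ℂ → ℂ → ℂ} {b : ℂ} (h : NFT f b) : RatTay2 f := by
  have hS := nft_sys h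
  have hZ : ∀ x y : ℕ, ∃ n : ℤ, (2 : ℂ) ^ (2 * x + y) *
      ((x.factorial : ℂ) * y.factorial * J f x y) = n := fun x y => sys_int hS x y
  choose n hn using hZ
  obtain ⟨M, hM0, hM⟩ := exists_norm_J_le h.ent
  have hJ : ∀ i j, J f i j =
      (((n i j : ℚ) / (2 ^ (2 * i + j) * i.factorial * j.factorial) : ℚ) : ℂ) := by
    intro i j
    push_cast
    rw [← hn i j]
    have h1 : (i.factorial : ℂ) ≠ 0 := by exact_mod_cast Nat.factorial_ne_zero i
    have h2 : (j.factorial : ℂ) ≠ 0 := by exact_mod_cast Nat.factorial_ne_zero j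
    have h3 : (2 : ℂ) ^ (2 * i + j) ≠ 0 := pow_ne_zero _ (by norm_num)
    rw [eq_div_iff (mul_ne_zero (mul_ne_zero h3 h1) h2)]
    ring
  refine ⟨fun i j => (n i j : ℚ) / (2 ^ (2 * i + j) * i.factorial * j.factorial), hJ, M + 5,
    by linarith, ?_, ?_⟩
  · intro i j
    have h1 := hM i j
    rw [hJ i j] at h1
    have h2 : ‖((((n i j : ℚ) / (2 ^ (2 * i + j) * i.factorial * j.factorial) : ℚ)) : ℂ)‖ =
        |((((n i j : ℚ) / (2 ^ (2 * i + j) * i.factorial * j.factorial) : ℚ)) : ℝ)| := by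
      rw [← Complex.ofReal_ratCast, Complex.norm_real, Real.norm_eq_abs]
    rw [h2] at h1
    linarith
  · intro N
    refine ⟨2 ^ (2 * N) * N.factorial, by positivity, ?_, ?_⟩
    · refine (log_bound N).trans ?_
      apply Real.exp_le_exp.2
      have h1 : (0 : ℝ) ≤ ((N : ℝ) + 1) * Real.log (N + 2) ^ 2 := by positivity
      nlinarith
    · intro i j hij
      obtain ⟨c, hc⟩ : i.factorial * j.factorial ∣ N.factorial :=
        (Nat.factorial_mul_factorial_dvd_factorial_add i j).trans (Nat.factorial_dvd_factorial hij)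
      have hp : (2 : ℚ) ^ (2 * N) = 2 ^ (2 * i + j) * 2 ^ (2 * N - (2 * i + j)) := by
        rw [← pow_add]
        congr 1
        omega
      refine ⟨n i j * 2 ^ (2 * N - (2 * i + j)) * c, ?_⟩
      have h1 : (i.factorial : ℚ) ≠ 0 := by exact_mod_cast Nat.factorial_ne_zero i
      have h2 : (j.factorial : ℚ) ≠ 0 := by exact_mod_cast Nat.factorial_ne_zero j
      have h3 : (2 : ℚ) ^ (2 * i + j) ≠ 0 := pow_ne_zero _ (by norm_num)
      rw [hc]
      push_cast
      rw [hp]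
      field_simp

end Pool.Agent.RO5
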