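import Pool.Agent.RO5.PFin
import Pool.Agent.RO5.PGam
import Pool.Agent.RO5.TPer
import Pool.Agent.RO5.RFin

/-!
Project ROH5: the periods in terms of `Γ(1/5)`, `Γ(2/5)` (interface of blocks P and R).
-/

set_option autoImplicit false

namespace Pool.Agent.RO5

open Complex Finset Pool.Agent.ROH

theorem isAlg_sinq (q : ℚ) : IsAlgebraic ℚ ((Real.sin (q * Real.pi) : ℝ) : ℂ) := by
  have h : IsAlgebraic ℚ (Real.sin (q * Real.pi)) :=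
    (IsFractionRing.isAlgebraic_iff ℤ ℚ ℝ).1 (Real.isAlgebraic_sin_rat_mul_pi q)
  exact h.algebraMap (A := ℂ)

theorem ratTay {f : ℂ → ℂ → ℂ} {b : ℂ} (h : NFT f b) : RatTay2 f := ratTay2_of_nft h

theorem qp_scaled {g : ℂ → ℂ → ℂ} (hg : QP5 1 g) {v1 v2 k : ℂ} (h1 : v1 ≠ 0) (h2 : v2 ≠ 0) :
    QP5 1 (fun u1 u2 => (fun U1 U2 => k * g (U1 / v1) (U2 / v2)) (v1 * u1) (v2 * u2)) := by
  have e : (fun u1 u2 => (fun U1 U2 => k * g (U1 / v1) (U2 / v2)) (v1 * u1) (v2 * u2)) =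
      fun u1 u2 => k * g u1 u2 := by
    funext u1 u2
    simp only
    rw [mul_div_cancel_left₀ _ h1, mul_div_cancel_left₀ _ h2]
  rw [e]
  refine ⟨?_, fun a b u1 u2 => ?_⟩
  · have := hg.1
    unfold Ent2 at this ⊢
    exact this.const_mul k
  · show k * g (u1 + _) (u2 + _) = _ * (k * g u1 u2)
    rw [hg.2 a b u1 u2]
    ring

/-- the periods -/
theorem periods {v1 v2 k b : ℂ} (h1 : v1 ≠ 0) (h2 : v2 ≠ 0)
    (h : NFT (fun U1 U2 => k * T (U1 / v1) (U2 / v2)) b) :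
    (∃ a1 : ℂ, IsAlgebraic ℚ a1 ∧ a1 ≠ 0 ∧
      v1 = a1 * ((Real.Gamma (1 / 5) ^ 2 / Real.Gamma (2 / 5) : ℝ) : ℂ)) ∧
    (∃ a2 : ℂ, IsAlgebraic ℚ a2 ∧ a2 ≠ 0 ∧
      v2 = a2 * ((Real.Gamma (1 / 5) * Real.Gamma (2 / 5) ^ 2 / Real.pi : ℝ) : ℂ)) := by
  obtain ⟨a1, a2, A1, A2, n1, n2, e1, e2⟩ := v_values h (qp_scaled qp_T h1 h2) h1 h2
  have s1 : 0 < Real.sin (Real.pi / 5) :=
    Real.sin_pos_of_pos_of_lt_pi (by positivity) (by linarith [Real.pi_pos])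
  have s2 : 0 < Real.sin (2 * Real.pi / 5) :=
    Real.sin_pos_of_pos_of_lt_pi (by positivity) (by linarith [Real.pi_pos])
  have t1 : IsAlgebraic ℚ ((Real.sin (Real.pi / 5) : ℝ) : ℂ) := by
    have := isAlg_sinq (1 / 5)
    convert this using 3
    push_cast
    ring
  have t2 : IsAlgebraic ℚ ((Real.sin (2 * Real.pi / 5) : ℝ) : ℂ) := by
    have := isAlg_sinq (2 / 5)
    convert this using 3
    push_cast
    ring
  have w1 := isAlg_rpow2 2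
  have w2 := isAlg_rpow2 4
  rw [show (((2 : ℕ) : ℝ)) / 5 = 2 / 5 by norm_num] at w1
  rw [show (((4 : ℕ) : ℝ)) / 5 = 4 / 5 by norm_num] at w2
  refine ⟨⟨a1 * (((2 : ℝ) ^ (2 / 5 : ℝ) * (Real.sin (Real.pi / 5) ^ 2 / Real.sin (2 * Real.pi / 5)) : ℝ) : ℂ),
    ?_, ?_, ?_⟩, ⟨a2 * (((2 : ℝ) ^ (4 / 5 : ℝ) * Real.sin (2 * Real.pi / 5) ^ 2 : ℝ) : ℂ), ?_, ?_, ?_⟩⟩
  · refine A1.mul ?_
    rw [Complex.ofReal_mul, Complex.ofReal_div, Complex.ofReal_pow]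
    exact w1.mul ((t1.pow 2).mul t2.inv)
  · refine mul_ne_zero n1 ?_
    have : (0 : ℝ) < (2 : ℝ) ^ (2 / 5 : ℝ) * (Real.sin (Real.pi / 5) ^ 2 / Real.sin (2 * Real.pi / 5)) := by
      positivity
    exact_mod_cast this.ne'
  · rw [e1, val1, Complex.ofReal_mul]
    ring
  · refine A2.mul ?_
    rw [Complex.ofReal_mul, Complex.ofReal_pow]
    exact w2.mul (t2.pow 2)
  · refine mul_ne_zero n2 ?_
    have : (0 : ℝ) < (2 : ℝ) ^ (4 / 5 : ℝ) * Real.sin (2 * Real.pi / 5) ^ 2 := by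
      positivity
    exact_mod_cast this.ne'
  · rw [e2, val2, Complex.ofReal_mul]
    ring

end Pool.Agent.RO5
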