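import Pool.Agent.RO5.Main5
import Pool.Agent.RO5.PEnd
import Pool.Agent.RO5.Norm
import Pool.Agent.ROH.GelfF
import Pool.Agent.ROH.ZAlg

/-!
RO5-Fin5. `Γ(1/5)/√π` and `Γ(2/5)/√π` are algebraically independent.
-/

set_option autoImplicit false

namespace Pool.Agent.RO5

open Complex Finset Polynomial IntermediateField Pool.Agent.ROH Pool.Agent.GP.DedM

/-- `Γ(1/5)/√π` -/
noncomputable def gx : ℝ := Real.Gamma (1 / 5) / Real.sqrt Real.pi

/-- `Γ(2/5)/√π` -/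
noncomputable def gy : ℝ := Real.Gamma (2 / 5) / Real.sqrt Real.pi

theorem no_theta {θ : ℂ} (hθ : Transcendental ℚ θ) (hx : IsAlgebraic ℚ⟮θ⟯ (gx : ℂ))
    (hy : IsAlgebraic ℚ⟮θ⟯ (gy : ℂ)) : False := by
  obtain ⟨v1, v2, k, b, h1, h2, hk, hN⟩ := exists_nf
  obtain ⟨⟨a1, ha1, ha1', e1⟩, ⟨a2, ha2, ha2', e2⟩⟩ := periods h1 h2 hN
  have hpi := Real.pi_pos
  have hsp : 0 < Real.sqrt Real.pi := Real.sqrt_pos.2 hpi
  have hs2 : Real.sqrt Real.pi ^ 2 = Real.pi := Real.sq_sqrt hpi.le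
  have hG1 : 0 < Real.Gamma (1 / 5) := Real.Gamma_pos_of_pos (by norm_num)
  have hG2 : 0 < Real.Gamma (2 / 5) := Real.Gamma_pos_of_pos (by norm_num)
  have hgx : 0 < gx := div_pos hG1 hsp
  have hgy : 0 < gy := div_pos hG2 hsp
  have A1 : IsAlgebraic ℚ⟮θ⟯ a1 := ha1.tower_top _
  have A2 : IsAlgebraic ℚ⟮θ⟯ a2 := ha2.tower_top _
  have r1 : Real.Gamma (1 / 5) ^ 2 / Real.Gamma (2 / 5) = Real.sqrt Real.pi * (gx ^ 2 / gy) := by
    unfold gx gy
    field_simp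
  have r2 : Real.Gamma (1 / 5) * Real.Gamma (2 / 5) ^ 2 / Real.pi =
      Real.sqrt Real.pi * (gx * gy ^ 2) := by
    unfold gx gy
    field_simp
    try rw [hs2]
    try ring
  have hsC : ((Real.sqrt Real.pi : ℝ) : ℂ) ≠ 0 := by exact_mod_cast hsp.ne'
  have hgxC : (gx : ℂ) ≠ 0 := by exact_mod_cast hgx.ne'
  have hgyC : (gy : ℂ) ≠ 0 := by exact_mod_cast hgy.ne'
  have hsC2 : ((Real.sqrt Real.pi : ℝ) : ℂ) ^ 2 = (Real.pi : ℂ) := by exact_mod_cast hs2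
  have hpC : (Real.pi : ℂ) ≠ 0 := by exact_mod_cast hpi.ne'
  rw [r1] at e1
  rw [r2] at e2
  push_cast at e1 e2
  refine main5 gelfondForm h1 h2 hk hN.ent (ratTay hN) hθ ?_ ?_
  · have e : v2 / v1 = (a2 * a1⁻¹) * ((gy : ℂ) ^ 3 * (gx : ℂ)⁻¹) := by
      rw [e1, e2]
      field_simp
    rw [e]
    exact (A2.mul A1.inv).mul ((hy.pow 3).mul hx.inv)
  · have e : (Real.pi : ℂ) / (v1 * v2) = (a1⁻¹ * a2⁻¹) * (((gx : ℂ) ^ 3)⁻¹ * (gy : ℂ)⁻¹) := by
      rw [e1, e2, ← hsC2]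
      field_simp
    rw [e]
    exact (A1.inv.mul A2.inv).mul ((hx.pow 3).inv.mul hy.inv)

theorem trans_gx : Transcendental ℚ gx := by
  intro hx
  by_cases hy : IsAlgebraic ℚ gy
  · have hL : Transcendental ℚ (((liouvilleNumber 2 : ℝ)) : ℂ) := by
      have h1 : Transcendental ℤ (liouvilleNumber (2 : ℕ)) :=
        transcendental_liouvilleNumber (m := 2) le_rfl
      intro h
      apply h1
      have h2 := alg_down h
      have h3 : IsAlgebraic ℤ (liouvilleNumber 2) := (IsFractionRing.isAlgebraic_iff ℤ ℚ ℝ).2 h2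
      exact_mod_cast h3
    exact no_theta hL (alg_up hx) (alg_up hy)
  · have hyC : Transcendental ℚ ((gy : ℝ) : ℂ) := fun h => hy (alg_down h)
    exact no_theta hyC (alg_up hx) (self_alg _)

theorem ind5 : AlgebraicIndependent ℚ
    ![Real.Gamma (1 / 5) / Real.sqrt Real.pi, Real.Gamma (2 / 5) / Real.sqrt Real.pi] := by
  change AlgebraicIndependent ℚ ![gx, gy]
  apply algInd2 trans_gx
  intro hy
  have hxC : Transcendental ℚ ((gx : ℝ) : ℂ) := fun h => trans_gx (alg_down h)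
  exact no_theta hxC (self_alg _) hy

end Pool.Agent.RO5
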