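import Mathlib

/-!
RO5-FourA. Fourier coefficients of entire functions of one variable with period 1.

Plan. `four_shift`: for real `w` by periodicity (`Function.Periodic.intervalIntegral_add_eq` applied
to `x ↦ h x` composed with `ofReal`); for `w = i y` by Cauchy's theorem for the rectangle
`[0,1] × [0,y]` (`Complex.integral_boundary_rect_eq_zero_of_differentiableOn`), the vertical sides
cancel by periodicity.
`four_zero`: the restriction to the real line is a continuous function on `AddCircle 1` all of whose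
Fourier coefficients vanish, hence zero (`hasSum_fourier_series_of_summable`,
`fourierCoeff_eq_intervalIntegral`, `fourier_coe_apply`); then `h = 0` on `ℂ` by the identity theorem
(`AnalyticOnNhd.eq_of_frequently_eq`), since it vanishes on `ℝ`.
`four_zero_real` is the first half, for continuous functions.
-/

set_option autoImplicit false

namespace Pool.Agent.RO5

open Complex

theorem four_shift {h : ℂ → ℂ} (hd : Differentiable ℂ h) (hp : ∀ z, h (z + 1) = h z) (w : ℂ) :
    ∫ x in (0 : ℝ)..1, h (x + w) = ∫ x in (0 : ℝ)..1, h x := by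
  obtain ⟨a, b⟩ := w
  have h1 := Complex.integral_boundary_rect_eq_zero_of_differentiableOn h (⟨a, 0⟩ : ℂ) (⟨a + 1, b⟩ : ℂ)
    hd.differentiableOn
  simp only at h1
  have h2 : ∀ y : ℝ, h (((a + 1 : ℝ) : ℂ) + y * I) = h ((a : ℂ) + y * I) := by
    intro y
    rw [← hp ((a : ℂ) + y * I)]
    push_cast
    ring_nf
  simp only [h2] at h1
  have h3 : ∫ x in a..(a + 1), h ((x : ℂ) + (b : ℝ) * I) = ∫ x in a..(a + 1), h ((x : ℂ) + ((0 : ℝ) : ℂ) * I) := by
    have h4 : (∫ x in a..(a + 1), h ((x : ℂ) + ((0 : ℝ) : ℂ) * I)) -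
        (∫ x in a..(a + 1), h ((x : ℂ) + (b : ℝ) * I)) = 0 := by
      rw [← h1]
      ring
    exact (sub_eq_zero.1 h4).symm
  have h5 : ∫ x in (0 : ℝ)..1, h (x + (⟨a, b⟩ : ℂ)) = ∫ x in a..(a + 1), h ((x : ℂ) + (b : ℝ) * I) := by
    have h6 := intervalIntegral.integral_comp_add_right (a := (0 : ℝ)) (b := 1)
      (fun x : ℝ => h ((x : ℂ) + (b : ℝ) * I)) a
    rw [zero_add, add_comm 1 a] at h6
    rw [← h6]
    refine intervalIntegral.integral_congr fun x _ => ?_
    have h7 : ((x : ℂ) + (⟨a, b⟩ : ℂ)) = (((x + a : ℝ) : ℂ) + (b : ℝ) * I) := by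
      apply Complex.ext <;> simp
    show h ((x : ℂ) + (⟨a, b⟩ : ℂ)) = h (((x + a : ℝ) : ℂ) + (b : ℝ) * I)
    rw [h7]
  have h8 : ∫ x in a..(a + 1), h ((x : ℂ) + ((0 : ℝ) : ℂ) * I) = ∫ x in (0 : ℝ)..1, h x := by
    have h9 : Function.Periodic (fun x : ℝ => h (x : ℂ)) 1 := by
      intro x
      simp only
      rw [← hp (x : ℂ)]
      push_cast
      rfl
    have h10 := h9.intervalIntegral_add_eq a 0
    rw [zero_add] at h10
    rw [← h10]
    refine intervalIntegral.integral_congr fun x _ => ?_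
    simp
  rw [h5, h3, h8]

theorem four_zero_real {h : ℝ → ℂ} (hc : Continuous h) (hp : ∀ x, h (x + 1) = h x)
    (h0 : ∀ m : ℤ, ∫ x in (0 : ℝ)..1, h x * cexp (-(2 * Real.pi * I * (m * x))) = 0) (x : ℝ) :
    h x = 0 := by
  have hF : Fact ((0 : ℝ) < 1) := ⟨one_pos⟩
  have hper : Function.Periodic h 1 := hp
  let F : C(AddCircle (1 : ℝ), ℂ) := ⟨hper.lift, by
    refine continuous_quot_lift _ hc⟩
  have hFx : ∀ y : ℝ, F (y : AddCircle (1 : ℝ)) = h y := fun y => rfl
  have hcoef : ∀ n : ℤ, fourierCoeff (F : AddCircle (1 : ℝ) → ℂ) n = 0 := by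
    intro n
    rw [fourierCoeff_eq_intervalIntegral _ n 0]
    rw [zero_add, div_one, one_smul]
    rw [← h0 n]
    refine intervalIntegral.integral_congr fun y _ => ?_
    show (fourier (-n) (y : AddCircle (1 : ℝ)) : ℂ) • F (y : AddCircle (1 : ℝ)) = _
    rw [hFx, fourier_coe_apply, smul_eq_mul, mul_comm]
    congr 2
    push_cast
    ring
  have hs : Summable (fourierCoeff (F : AddCircle (1 : ℝ) → ℂ)) := by
    have h1 : fourierCoeff (F : AddCircle (1 : ℝ) → ℂ) = fun _ => 0 := funext hcoef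
    rw [h1]
    exact summable_zero
  have h2 := hasSum_fourier_series_of_summable hs
  have h3 : F = 0 := by
    refine h2.unique ?_
    have h4 : (fun i => fourierCoeff (F : AddCircle (1 : ℝ) → ℂ) i • fourier (T := 1) i) = fun _ => 0 := by
      funext i
      rw [hcoef, zero_smul]
    rw [h4]
    exact hasSum_zero
  rw [← hFx, h3]
  rfl

theorem zero_of_real {h : ℂ → ℂ} (hd : Differentiable ℂ h) (h0 : ∀ x : ℝ, h x = 0) (z : ℂ) :
    h z = 0 := by
  have h1 : AnalyticOnNhd ℂ h Set.univ := fun z _ => hd.analyticAt z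
  have h2 : AnalyticOnNhd ℂ (fun _ : ℂ => (0 : ℂ)) Set.univ := fun _ _ => analyticAt_const
  have h3 : ∃ᶠ y in nhdsWithin (0 : ℂ) {0}ᶜ, h y = (fun _ : ℂ => (0 : ℂ)) y := by
    have h4 : Filter.Tendsto (fun x : ℝ => (x : ℂ)) (nhdsWithin (0 : ℝ) {0}ᶜ) (nhdsWithin (0 : ℂ) {0}ᶜ) := by
      refine tendsto_nhdsWithin_iff.2 ⟨?_, ?_⟩
      · have h5 : Filter.Tendsto (fun x : ℝ => (x : ℂ)) (nhds 0) (nhds ((0 : ℝ) : ℂ)) :=
          Complex.continuous_ofReal.tendsto 0
        rw [Complex.ofReal_zero] at h5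
        exact h5.mono_left nhdsWithin_le_nhds
      · filter_upwards [self_mem_nhdsWithin] with x hx
        intro h6
        exact hx (Complex.ofReal_eq_zero.1 h6)
    refine h4.frequently ?_
    refine Filter.Eventually.frequently (Filter.Eventually.of_forall fun x => ?_)
    exact h0 x
  exact congrFun (h1.eq_of_frequently_eq h2 h3) z

end Pool.Agent.RO5
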