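import Pool.Agent.RO5.FourA
import Pool.Agent.RO5.Num

/-!
RO5-FourB. Fourier coefficients `FC m n g` of entire functions periodic for `o`, in the coordinates
`u1 = x + y ε`, `u2 = x + y ε'`.
-/

set_option autoImplicit false

namespace Pool.Agent.RO5

open Complex ComplexConjugate Finset Pool.Agent.ROH

/-- the function in the coordinates `x, y` -/
private noncomputable def fbG (g : ℂ → ℂ → ℂ) (x y : ℂ) : ℂ := g (x + y * eps) (x + y * epc)

private theorem fbG_ent {g : ℂ → ℂ → ℂ} (hg : Ent2 g) : Ent2 (fbG g) := by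
  have h : Differentiable ℂ (fun z : ℂ × ℂ => (z.1 + z.2 * (eps : ℂ), z.1 + z.2 * (epc : ℂ))) := by
    fun_prop
  exact Differentiable.comp (g := fun z : ℂ × ℂ => g z.1 z.2) hg h

private theorem fbG_per1 {g : ℂ → ℂ → ℂ} (hg : PerO g) (x y : ℂ) :
    fbG g (x + 1) y = fbG g x y := by
  have h := hg.2 (1, 0) (x + y * eps) (x + y * epc)
  simp only [o1, o2, Int.cast_one, Int.cast_zero, zero_mul, add_zero, Complex.ofReal_one] at h
  rw [fbG, fbG, ← h]
  congr 1 <;> ring

private theorem fbG_per2 {g : ℂ → ℂ → ℂ} (hg : PerO g) (x y : ℂ) :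
    fbG g x (y + 1) = fbG g x y := by
  have h := hg.2 (0, 1) (x + y * eps) (x + y * epc)
  simp only [o1, o2, Int.cast_one, Int.cast_zero, one_mul, zero_add] at h
  rw [fbG, fbG, ← h]
  congr 1 <;> ring

private theorem fb_left {g : ℂ → ℂ → ℂ} (hg : Ent2 g) (y : ℂ) :
    Differentiable ℂ (fun x => g x y) := by
  have h : Differentiable ℂ (fun x : ℂ => (x, y)) := by fun_prop
  exact Differentiable.comp (g := fun z : ℂ × ℂ => g z.1 z.2) hg h

private theorem fb_right {g : ℂ → ℂ → ℂ} (hg : Ent2 g) (x : ℂ) :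
    Differentiable ℂ (fun y => g x y) := by
  have h : Differentiable ℂ (fun y : ℂ => (x, y)) := by fun_prop
  exact Differentiable.comp (g := fun z : ℂ × ℂ => g z.1 z.2) hg h

/-- continuity of the restriction to real points, shifted -/
private theorem fb_cont {g : ℂ → ℂ → ℂ} (hg : Ent2 g) (a b : ℂ) :
    Continuous (fun p : ℝ × ℝ => g ((p.1 : ℂ) + a) ((p.2 : ℂ) + b)) := by
  have h1 : Continuous (fun z : ℂ × ℂ => g z.1 z.2) := hg.continuous
  have h2 : Continuous (fun p : ℝ × ℝ => (((p.1 : ℂ) + a, (p.2 : ℂ) + b) : ℂ × ℂ)) := by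
    fun_prop
  exact h1.comp h2

private theorem fb_cont0 {g : ℂ → ℂ → ℂ} (hg : Ent2 g) :
    Continuous (fun p : ℝ × ℝ => g (p.1 : ℂ) (p.2 : ℂ)) := by
  have := fb_cont hg 0 0
  simpa using this

private theorem fb_swap {F : ℝ → ℝ → ℂ} (hF : Continuous (Function.uncurry F)) :
    ∫ x in (0 : ℝ)..1, ∫ y in (0 : ℝ)..1, F x y = ∫ y in (0 : ℝ)..1, ∫ x in (0 : ℝ)..1, F x y := by
  rw [MeasureTheory.intervalIntegral_intervalIntegral_swap]
  have h1 : MeasureTheory.IntegrableOn (Function.uncurry F)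
      (Set.uIcc (0 : ℝ) 1 ×ˢ Set.uIcc (0 : ℝ) 1) :=
    hF.continuousOn.integrableOn_compact (isCompact_uIcc.prod isCompact_uIcc)
  exact h1.mono_set (Set.prod_mono Set.uIoc_subset_uIcc Set.uIoc_subset_uIcc)

/-- twisted function -/
private noncomputable def fbH (g : ℂ → ℂ → ℂ) (m n : ℤ) (x y : ℂ) : ℂ :=
  fbG g x y * cexp (-(2 * Real.pi * I * (m * x + n * y)))

private theorem fbH_ent {g : ℂ → ℂ → ℂ} (hg : Ent2 g) (m n : ℤ) : Ent2 (fbH g m n) := by
  have h : Differentiable ℂ (fun z : ℂ × ℂ =>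
      cexp (-(2 * Real.pi * I * (m * z.1 + n * z.2)))) := by fun_prop
  exact Differentiable.mul (fbG_ent hg) h

private theorem fbH_per1 {g : ℂ → ℂ → ℂ} (hg : PerO g) (m n : ℤ) (x y : ℂ) :
    fbH g m n (x + 1) y = fbH g m n x y := by
  rw [fbH, fbH, fbG_per1 hg]
  congr 1
  rw [Complex.exp_eq_exp_iff_exists_int]
  exact ⟨-m, by push_cast; ring⟩

private theorem fbH_per2 {g : ℂ → ℂ → ℂ} (hg : PerO g) (m n : ℤ) (x y : ℂ) :
    fbH g m n x (y + 1) = fbH g m n x y := by
  rw [fbH, fbH, fbG_per2 hg]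
  congr 1
  rw [Complex.exp_eq_exp_iff_exists_int]
  exact ⟨-n, by push_cast; ring⟩

private theorem FC_eq (m n : ℤ) (g : ℂ → ℂ → ℂ) :
    FC m n g = ∫ x in (0 : ℝ)..1, ∫ y in (0 : ℝ)..1, fbH g m n x y := rfl

theorem FC_shift {g : ℂ → ℂ → ℂ} (hg : PerO g) (w1 w2 : ℂ) (m n : ℤ) :
    FC m n (fun u1 u2 => g (u1 + (w1 + w2 * eps)) (u2 + (w1 + w2 * epc))) =
      cexp (2 * Real.pi * I * (m * w1 + n * w2)) * FC m n g := by
  have he := fbH_ent hg.1 m n
  have h1 : ∀ x y : ℝ, fbH (fun u1 u2 => g (u1 + (w1 + w2 * eps)) (u2 + (w1 + w2 * epc))) m n x y =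
      cexp (2 * Real.pi * I * (m * w1 + n * w2)) * fbH g m n (x + w1) (y + w2) := by
    intro x y
    simp only [fbH, fbG]
    rw [mul_left_comm, ← Complex.exp_add]
    congr 1
    · congr 1 <;> ring
    · congr 1
      ring
  rw [FC_eq, FC_eq]
  simp_rw [h1]
  have h2 : ∀ x : ℝ, ∫ y in (0 : ℝ)..1, cexp (2 * Real.pi * I * (m * w1 + n * w2)) *
      fbH g m n (x + w1) (y + w2) = cexp (2 * Real.pi * I * (m * w1 + n * w2)) *
      ∫ y in (0 : ℝ)..1, fbH g m n (x + w1) y := by
    intro x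
    rw [intervalIntegral.integral_const_mul,
      four_shift (h := fun y => fbH g m n (x + w1) y) (fb_right he _) (fun z => fbH_per2 hg m n _ z)]
  simp_rw [h2]
  rw [intervalIntegral.integral_const_mul]
  congr 1
  rw [fb_swap (F := fun x y => fbH g m n (x + w1) y)
    (by simpa [Function.uncurry_def] using fb_cont he w1 0)]
  have h3 : ∀ y : ℝ, ∫ x in (0 : ℝ)..1, fbH g m n (x + w1) y = ∫ x in (0 : ℝ)..1, fbH g m n x y :=
    fun y => four_shift (h := fun x => fbH g m n x y) (fb_left he _) (fun z => fbH_per1 hg m n z _) w1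
  simp_rw [h3]
  rw [fb_swap (F := fun x y => fbH g m n x y) (fb_cont0 he)]

theorem FC_zero {g : ℂ → ℂ → ℂ} (hg : PerO g) (h : ∀ m n, FC m n g = 0) (u1 u2 : ℂ) :
    g u1 u2 = 0 := by
  have hGe := fbG_ent hg.1
  -- first for real `x`
  have h1 : ∀ n : ℤ, ∀ x : ℝ,
      ∫ y in (0 : ℝ)..1, fbG g x y * cexp (-(2 * Real.pi * I * (n * y))) = 0 := by
    intro n
    refine four_zero_real (h := fun x : ℝ =>
      ∫ y in (0 : ℝ)..1, fbG g x y * cexp (-(2 * Real.pi * I * (n * y)))) ?_ ?_ ?_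
    · apply intervalIntegral.continuous_parametric_intervalIntegral_of_continuous'
      have h2 := fb_cont0 hGe
      have h3 : Continuous (fun p : ℝ × ℝ => cexp (-(2 * Real.pi * I * (n * (p.2 : ℂ))))) := by
        fun_prop
      exact h2.mul h3
    · intro x
      refine intervalIntegral.integral_congr fun y _ => ?_
      show fbG g ((x + 1 : ℝ) : ℂ) y * _ = _
      rw [Complex.ofReal_add, Complex.ofReal_one, fbG_per1 hg]
    · intro m
      have h4 := h m n
      rw [FC_eq] at h4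
      rw [← h4]
      refine intervalIntegral.integral_congr fun x _ => ?_
      show (∫ y in (0 : ℝ)..1, fbG g x y * cexp (-(2 * Real.pi * I * (n * y)))) *
        cexp (-(2 * Real.pi * I * (m * x))) = ∫ y in (0 : ℝ)..1, fbH g m n x y
      rw [← intervalIntegral.integral_mul_const]
      refine intervalIntegral.integral_congr fun y _ => ?_
      show fbG g x y * cexp (-(2 * Real.pi * I * (n * y))) *
        cexp (-(2 * Real.pi * I * (m * x))) = fbH g m n x y
      rw [fbH, mul_assoc, ← Complex.exp_add]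
      congr 2
      ring
  have h2 : ∀ x y : ℝ, fbG g x y = 0 := by
    intro x
    refine four_zero_real (h := fun y : ℝ => fbG g x y) ?_ ?_ ?_
    · exact (fb_right hGe x).continuous.comp Complex.continuous_ofReal
    · intro y
      show fbG g x ((y + 1 : ℝ) : ℂ) = _
      rw [Complex.ofReal_add, Complex.ofReal_one, fbG_per2 hg]
    · intro n
      exact h1 n x
  have h3 : ∀ (x : ℝ) (y : ℂ), fbG g x y = 0 := fun x y =>
    zero_of_real (h := fun y => fbG g x y) (fb_right hGe _) (h2 x) y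
  have h4 : ∀ x y : ℂ, fbG g x y = 0 := fun x y =>
    zero_of_real (h := fun x => fbG g x y) (fb_left hGe _) (fun x => h3 x y) x
  have hne : (eps : ℂ) - epc ≠ 0 := by
    have h5 : (eps : ℝ) - epc ≠ 0 := by
      have := eps_gt
      have := epc_neg
      linarith
    exact_mod_cast h5
  have h5 := h4 (u1 - (u1 - u2) / (eps - epc) * eps) ((u1 - u2) / (eps - epc))
  rw [fbG] at h5
  rw [← h5]
  congr 1
  · ring
  · field_simp
    ring

theorem FC_char (g : ℂ → ℂ → ℂ) (b : ℤ × ℤ) (m n : ℤ) :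
    FC m n (fun u1 u2 => cexp (2 * Real.pi * I * (k1 * o1 b * u1 + k2 * o2 b * u2)) * g u1 u2) =
      FC (m - (b.1 + b.2)) (n - (b.1 + 2 * b.2)) g := by
  rw [FC_eq, FC_eq]
  refine intervalIntegral.integral_congr fun x _ => ?_
  refine intervalIntegral.integral_congr fun y _ => ?_
  show fbH _ m n x y = fbH g _ _ x y
  simp only [fbH, fbG]
  have h1 : (k1 : ℂ) * o1 b + k2 * o2 b = b.1 + b.2 := by
    exact_mod_cast congrArg (fun r : ℝ => (r : ℂ)) (tr_one b)
  have h2 : (k1 : ℂ) * (o1 b * eps) + k2 * (o2 b * epc) = b.1 + 2 * b.2 := by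
    exact_mod_cast congrArg (fun r : ℝ => (r : ℂ)) (tr_eps b)
  rw [mul_right_comm, ← Complex.exp_add, mul_comm]
  congr 2
  push_cast
  linear_combination (2 * Real.pi * I * x) * h1 + (2 * Real.pi * I * y) * h2

theorem FC_sum {ι : Type*} (s : Finset ι) (c : ι → ℂ) (g : ι → ℂ → ℂ → ℂ)
    (hg : ∀ i ∈ s, Ent2 (g i)) (m n : ℤ) :
    FC m n (fun u1 u2 => ∑ i ∈ s, c i * g i u1 u2) = ∑ i ∈ s, c i * FC m n (g i) := by
  have h1 : ∀ x y : ℝ, fbH (fun u1 u2 => ∑ i ∈ s, c i * g i u1 u2) m n x y =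
      ∑ i ∈ s, c i * fbH (g i) m n x y := by
    intro x y
    simp only [fbH, fbG]
    rw [Finset.sum_mul]
    exact Finset.sum_congr rfl fun i _ => by ring
  rw [FC_eq]
  simp_rw [FC_eq, h1]
  have h2 : ∀ x : ℝ, ∫ y in (0 : ℝ)..1, ∑ i ∈ s, c i * fbH (g i) m n x y =
      ∑ i ∈ s, c i * ∫ y in (0 : ℝ)..1, fbH (g i) m n x y := by
    intro x
    rw [intervalIntegral.integral_finsetSum]
    · exact Finset.sum_congr rfl fun i _ => intervalIntegral.integral_const_mul _ _
    · intro i hi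
      apply Continuous.intervalIntegrable
      exact ((fb_right (fbH_ent (hg i hi) m n) x).continuous.comp
        Complex.continuous_ofReal).const_mul _ |>.congr fun _ => rfl
  simp_rw [h2]
  rw [intervalIntegral.integral_finsetSum]
  · exact Finset.sum_congr rfl fun i _ => intervalIntegral.integral_const_mul _ _
  · intro i hi
    apply Continuous.intervalIntegrable
    have h3 : Continuous fun x : ℝ => ∫ y in (0 : ℝ)..1, fbH (g i) m n x y := by
      apply intervalIntegral.continuous_parametric_intervalIntegral_of_continuous'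
      exact fb_cont0 (fbH_ent (hg i hi) m n)
    exact continuous_const.mul h3

end Pool.Agent.RO5
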