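import Pool.Agent.RO5.CalA
import Pool.Agent.RO5.CalB

/-!
RO5-JLin. Taylor coefficients of `f` composed with linear maps (chain rule and Pascal's rule).
-/

set_option autoImplicit false

namespace Pool.Agent.RO5

open Complex Finset Pool.Agent.ROH

private theorem jl_pascal (a : ℕ → ℂ) (n : ℕ) :
    ∑ i ∈ range (n + 2), ((n + 1).choose i : ℂ) * a i =
      ∑ i ∈ range (n + 1), (n.choose i : ℂ) * a (i + 1) + ∑ i ∈ range (n + 1), (n.choose i : ℂ) * a i := by
  rw [Finset.sum_range_succ' _ (n + 1)]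
  have h1 : ∑ i ∈ range (n + 1), ((n + 1).choose (i + 1) : ℂ) * a (i + 1) =
      ∑ i ∈ range (n + 1), (n.choose i : ℂ) * a (i + 1) +
        ∑ i ∈ range (n + 1), (n.choose (i + 1) : ℂ) * a (i + 1) := by
    rw [← Finset.sum_add_distrib]
    refine Finset.sum_congr rfl fun i _ => ?_
    rw [Nat.choose_succ_succ]
    push_cast
    ring
  have h2 : ∑ i ∈ range (n + 1), (n.choose (i + 1) : ℂ) * a (i + 1) + ((n + 1).choose 0 : ℂ) * a 0 =
      ∑ i ∈ range (n + 1), (n.choose i : ℂ) * a i := by
    have h3 := Finset.sum_range_succ' (fun i => (n.choose i : ℂ) * a i) (n + 1)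
    have h4 := Finset.sum_range_succ (fun i => (n.choose i : ℂ) * a i) (n + 1)
    rw [Nat.choose_succ_self, Nat.cast_zero, zero_mul, add_zero] at h4
    rw [← h4, h3]
    simp only [Nat.choose_zero_right]
  rw [h1, add_assoc, h2]

theorem line_deriv {g : ℂ → ℂ → ℂ} (hg : Ent2 g) (p r : ℂ) (n : ℕ) (u : ℂ) :
    iteratedDeriv n (fun l => g (p * l) (r * l)) u =
      ∑ i ∈ range (n + 1), (n.choose i : ℂ) * (p ^ i * r ^ (n - i)) *
        D i (n - i) g (p * u) (r * u) := by
  induction n generalizing u with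
  | zero =>
    rw [iteratedDeriv_zero, zero_add, Finset.sum_range_one, Nat.choose_self, Nat.sub_zero, D_zero_zero]
    simp
  | succ n ih =>
    have h1 : iteratedDeriv n (fun l => g (p * l) (r * l)) = fun u =>
        ∑ i ∈ range (n + 1), (n.choose i : ℂ) * (p ^ i * r ^ (n - i)) *
          D i (n - i) g (p * u) (r * u) := funext ih
    rw [iteratedDeriv_succ, h1]
    have h2 : HasDerivAt (fun u => ∑ i ∈ range (n + 1), (n.choose i : ℂ) * (p ^ i * r ^ (n - i)) *
        D i (n - i) g (p * u) (r * u))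
        (∑ i ∈ range (n + 1), (n.choose i : ℂ) * (p ^ i * r ^ (n - i)) *
          (D (i + 1) (n - i) g (p * u) (r * u) * p + D i (n - i + 1) g (p * u) (r * u) * r)) u := by
      refine HasDerivAt.fun_sum fun i _ => ?_
      refine HasDerivAt.const_mul _ ?_
      have h3 := hasDerivAt_comp2 (ent2_D hg i (n - i)) (u := fun u => p * u) (v := fun u => r * u)
        (u' := p) (v' := r) (s := u) (by simpa using (hasDerivAt_id u).const_mul p)
        (by simpa using (hasDerivAt_id u).const_mul r)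
      rw [D_D hg, D_D hg, zero_add, zero_add, Nat.add_comm 1 i, Nat.add_comm 1 (n - i)] at h3
      exact h3
    rw [h2.deriv]
    have h5 := jl_pascal (fun i => p ^ i * r ^ (n + 1 - i) * D i (n + 1 - i) g (p * u) (r * u)) n
    have h6 : ∑ i ∈ range (n + 1 + 1), ((n + 1).choose i : ℂ) * (p ^ i * r ^ (n + 1 - i)) *
        D i (n + 1 - i) g (p * u) (r * u) =
        ∑ i ∈ range (n + 2), ((n + 1).choose i : ℂ) *
          (p ^ i * r ^ (n + 1 - i) * D i (n + 1 - i) g (p * u) (r * u)) :=
      Finset.sum_congr rfl fun i _ => by ring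
    rw [h6, h5, ← Finset.sum_add_distrib]
    refine Finset.sum_congr rfl fun i hi => ?_
    rw [Finset.mem_range] at hi
    have e1 : n + 1 - (i + 1) = n - i := by omega
    have e2 : n + 1 - i = n - i + 1 := by omega
    rw [e1, e2]
    ring

private theorem jl_J (f : ℂ → ℂ → ℂ) (i m : ℕ) :
    J f i m = D i m f 0 0 / ((i.factorial : ℂ) * (m.factorial : ℂ)) := rfl

private theorem jl_fac (n k i : ℕ) (hi : i ≤ n) (x : ℂ) :
    (n.choose i : ℂ) * x / ((n.factorial : ℂ) * (k.factorial : ℂ)) =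
      ((n - i + k).choose k : ℂ) * (x / ((i.factorial : ℂ) * ((n - i + k).factorial : ℂ))) := by
  have h1 : (n.choose i : ℂ) * (i.factorial : ℂ) * ((n - i).factorial : ℂ) = (n.factorial : ℂ) := by
    exact_mod_cast congrArg (Nat.cast : ℕ → ℂ) (Nat.choose_mul_factorial_mul_factorial hi)
  have h2 : ((n - i + k).choose k : ℂ) * (k.factorial : ℂ) * ((n - i).factorial : ℂ) =
      ((n - i + k).factorial : ℂ) := by
    have h3 := Nat.choose_mul_factorial_mul_factorial (Nat.le_add_left k (n - i))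
    rw [Nat.add_sub_cancel] at h3
    exact_mod_cast congrArg (Nat.cast : ℕ → ℂ) h3
  have a1 : (n.factorial : ℂ) ≠ 0 := by exact_mod_cast n.factorial_ne_zero
  have a2 : (k.factorial : ℂ) ≠ 0 := by exact_mod_cast k.factorial_ne_zero
  have a3 : (i.factorial : ℂ) ≠ 0 := by exact_mod_cast i.factorial_ne_zero
  have a4 : ((n - i + k).factorial : ℂ) ≠ 0 := by exact_mod_cast (n - i + k).factorial_ne_zero
  have a5 : ((n - i).factorial : ℂ) ≠ 0 := by exact_mod_cast (n - i).factorial_ne_zero
  field_simp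
  apply mul_right_cancel₀ a5
  linear_combination (((n - i + k).factorial : ℂ) * x) * h1 - ((n.factorial : ℂ) * x) * h2

theorem J_lineA {f : ℂ → ℂ → ℂ} (hf : Ent2 f) (p r : ℂ) (n k : ℕ) :
    J (fun l t => f (p * l) (r * l + t)) n k =
      ∑ i ∈ range (n + 1), p ^ i * r ^ (n - i) * ((n - i + k).choose k : ℂ) *
        J f i (n - i + k) := by
  have h1 : (fun l => iteratedDeriv k (fun t => f (p * l) (r * l + t)) 0) =
      fun l => D 0 k f (p * l) (r * l) := by
    funext l
    rw [iteratedDeriv_comp_const_add k (f (p * l)) (r * l)]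
    simp [D]
  show iteratedDeriv n (fun l => iteratedDeriv k (fun t => f (p * l) (r * l + t)) 0) 0 /
    ((n.factorial : ℂ) * (k.factorial : ℂ)) = _
  rw [h1, line_deriv (ent2_D hf 0 k), Finset.sum_div]
  refine Finset.sum_congr rfl fun i hi => ?_
  rw [Finset.mem_range] at hi
  rw [D_D hf, Nat.add_zero, mul_zero, mul_zero, jl_J, mul_assoc, jl_fac n k i (by omega)]
  ring

theorem J_lineB {f : ℂ → ℂ → ℂ} (hf : Ent2 f) (p q r : ℂ) (n k : ℕ) :
    J (fun l t => f (q * (p * l + t)) (r * l)) n k =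
      ∑ j ∈ range (n + 1), p ^ (n - j) * r ^ j * q ^ (n - j + k) *
        ((n - j + k).choose k : ℂ) * J f (n - j + k) j := by
  have hx : ∀ v : ℂ, Differentiable ℂ (fun x => f x v) := by
    intro v
    have h2 : Differentiable ℂ (fun x : ℂ => ((x, v) : ℂ × ℂ)) := by fun_prop
    exact Differentiable.comp (g := fun z : ℂ × ℂ => f z.1 z.2) hf h2
  have h1 : (fun l => iteratedDeriv k (fun t => f (q * (p * l + t)) (r * l)) 0) =
      fun l => q ^ k * D k 0 f (q * p * l) (r * l) := by
    funext l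
    rw [iteratedDeriv_comp_const_add k (fun t => f (q * t) (r * l)) (p * l)]
    have h3 := iteratedDeriv_comp_const_mul (n := k) (f := fun x => f x (r * l))
      ((hx (r * l)).contDiff) q
    rw [h3]
    simp only [add_zero, D, iteratedDeriv_zero, mul_assoc]
  show iteratedDeriv n (fun l => iteratedDeriv k (fun t => f (q * (p * l + t)) (r * l)) 0) 0 /
    ((n.factorial : ℂ) * (k.factorial : ℂ)) = _
  rw [h1, iteratedDeriv_const_mul_field, line_deriv (ent2_D hf k 0), Finset.mul_sum, Finset.sum_div]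
  rw [← Finset.sum_range_reflect]
  refine Finset.sum_congr rfl fun j hj => ?_
  rw [Finset.mem_range] at hj
  have e1 : n + 1 - 1 - j = n - j := by omega
  have e2 : n - (n - j) = j := by omega
  rw [e1, e2, D_D hf, Nat.add_zero, mul_zero, mul_zero, jl_J]
  have h4 := jl_fac n k j (by omega) (D (n - j + k) j f 0 0)
  rw [← Nat.choose_symm (show j ≤ n by omega)] at h4
  have h5 : q ^ k * ((n.choose (n - j) : ℂ) * ((q * p) ^ (n - j) * r ^ j) * D (n - j + k) j f 0 0) /
      ((n.factorial : ℂ) * (k.factorial : ℂ)) =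
      (q ^ k * ((q * p) ^ (n - j) * r ^ j)) * ((n.choose (n - j) : ℂ) * D (n - j + k) j f 0 0 /
        ((n.factorial : ℂ) * (k.factorial : ℂ))) := by ring
  rw [h5, h4, mul_pow, pow_add q]
  ring

end Pool.Agent.RO5
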