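import Pool.Agent.RO5.JDefs
import Pool.Agent.RO5.JLin

/-!
RO5-JA. Represented coefficients of `f(a l, β b l + t)`.

Plan. `J_lineA` with `p = a`, `r = β b`: `D0^n D J = Σ_{i≤n} a^i b^(n-i) C(n-i+k,k) (D0 β)^(n-i) D0^i (D t_{i,n-i+k})`
with `D` the common denominator of `RatTay2` for total degree `2 N` (`n - i + k + i ≤ 2N`), so the last factor is an
integer of absolute value `≤ D C`. `Rep.int`, `Rep.mul_pow`, `Rep.mul`, `Rep.sum`; each factor is
`≤ exp(C' N log²(N+2))`: `a^i b^(n-i) ≤ N^N`, `C(..) ≤ 2^(2N)`, `((δ+1) X)^n`. ROH/RepLin (`rep_Ga`) contains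
all the estimates (`rl_*` lemmas, copy them).
-/

set_option autoImplicit false

namespace Pool.Agent.RO5

open Complex Finset Polynomial Pool.Agent.ROH Pool.Agent.GP

private theorem ja_log (N : ℕ) (hN : 1 ≤ N) : 1 ≤ Real.log (N + 2) := by
  have h1 : (1 : ℝ) ≤ N := by exact_mod_cast hN
  rw [Real.le_log_iff_exp_le (by positivity)]
  have h2 := Real.exp_one_lt_d9
  linarith

private theorem ja_N (N : ℕ) (hN : 1 ≤ N) : (N : ℝ) ≤ N * Real.log (N + 2) ^ 2 := by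
  have h1 := ja_log N hN
  have h2 : 1 ≤ Real.log (N + 2) ^ 2 := one_le_pow₀ h1
  have h3 : (0 : ℝ) ≤ N := Nat.cast_nonneg N
  nlinarith

private theorem ja_one (N : ℕ) (hN : 1 ≤ N) : (1 : ℝ) ≤ N * Real.log (N + 2) ^ 2 := by
  have h1 : (1 : ℝ) ≤ N := by exact_mod_cast hN
  exact h1.trans (ja_N N hN)

private theorem ja_pow (K : ℝ) (hK : 0 ≤ K) (N : ℕ) (hN : 1 ≤ N) :
    K ^ N ≤ Real.exp (K * (N * Real.log (N + 2) ^ 2)) := by
  have h1 : K ≤ Real.exp K := by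
    have := Real.add_one_le_exp K
    linarith
  calc K ^ N ≤ Real.exp K ^ N := pow_le_pow_left₀ hK h1 N
    _ = Real.exp (N * K) := (Real.exp_nat_mul K N).symm
    _ ≤ _ := by
      apply Real.exp_le_exp.2
      have h2 := mul_le_mul_of_nonneg_left (ja_N N hN) hK
      linarith

private theorem ja_const (K : ℝ) (hK : 0 ≤ K) (N : ℕ) (hN : 1 ≤ N) :
    K ≤ Real.exp (K * (N * Real.log (N + 2) ^ 2)) := by
  have h1 : K ≤ Real.exp K := by
    have := Real.add_one_le_exp K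
    linarith
  refine h1.trans (Real.exp_le_exp.2 ?_)
  have h2 := mul_le_mul_of_nonneg_left (ja_one N hN) hK
  linarith

private theorem ja_NN (N : ℕ) (hN : 1 ≤ N) : (N : ℝ) ^ N ≤ Real.exp (N * Real.log (N + 2) ^ 2) := by
  have h0 : (0 : ℝ) ≤ N := Nat.cast_nonneg N
  have h1 : (N : ℝ) ≤ Real.exp (Real.log (N + 2)) := by
    rw [Real.exp_log (by positivity)]
    linarith
  calc (N : ℝ) ^ N ≤ Real.exp (Real.log (N + 2)) ^ N := pow_le_pow_left₀ h0 h1 N
    _ = Real.exp (N * Real.log (N + 2)) := (Real.exp_nat_mul _ N).symm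
    _ ≤ _ := by
      apply Real.exp_le_exp.2
      refine mul_le_mul_of_nonneg_left ?_ h0
      have h2 := ja_log N hN
      nlinarith

private theorem ja_den (C : ℝ) (hC : 0 ≤ C) (N : ℕ) (hN : 1 ≤ N) :
    Real.exp (C * ((2 * N : ℕ) + 1) * Real.log ((2 * N : ℕ) + 2) ^ 2) ≤
      Real.exp (12 * C * (N * Real.log (N + 2) ^ 2)) := by
  apply Real.exp_le_exp.2
  have h1 : (1 : ℝ) ≤ N := by exact_mod_cast hN
  have h2 : Real.log ((2 * N : ℕ) + 2) ≤ 2 * Real.log (N + 2) := by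
    have h3 : 2 * Real.log ((N : ℝ) + 2) = Real.log (((N : ℝ) + 2) ^ 2) := by
      rw [Real.log_pow]
      norm_num
    rw [h3]
    apply Real.log_le_log (by positivity)
    push_cast
    nlinarith
  have h3 : 0 ≤ Real.log ((2 * N : ℕ) + 2) := by
    apply Real.log_nonneg
    have : (0 : ℝ) ≤ ((2 * N : ℕ) : ℝ) := Nat.cast_nonneg _
    linarith
  have h4 : Real.log ((2 * N : ℕ) + 2) ^ 2 ≤ (2 * Real.log (N + 2)) ^ 2 := pow_le_pow_left₀ h3 h2 2
  have h5 : (((2 * N : ℕ) : ℝ) + 1) ≤ 3 * N := by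
    push_cast
    linarith
  calc C * ((2 * N : ℕ) + 1) * Real.log ((2 * N : ℕ) + 2) ^ 2
      ≤ C * (3 * N) * (2 * Real.log (N + 2)) ^ 2 :=
        mul_le_mul (mul_le_mul_of_nonneg_left h5 hC) h4 (by positivity) (by positivity)
    _ = 12 * C * (N * Real.log (N + 2) ^ 2) := by ring

private theorem ja_ab (N n j a b : ℕ) (hN : 1 ≤ N) (hn : n ≤ N) (hj : j ≤ n) (ha : a ≤ N) (hb : b ≤ N) :
    (a : ℝ) ^ j * (b : ℝ) ^ (n - j) ≤ Real.exp (N * Real.log (N + 2) ^ 2) := by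
  have h0 : (1 : ℝ) ≤ N := by exact_mod_cast hN
  have h1 : (a : ℝ) ≤ N := by exact_mod_cast ha
  have h2 : (b : ℝ) ≤ N := by exact_mod_cast hb
  calc (a : ℝ) ^ j * (b : ℝ) ^ (n - j) ≤ (N : ℝ) ^ j * (N : ℝ) ^ (n - j) :=
        mul_le_mul (pow_le_pow_left₀ (Nat.cast_nonneg _) h1 _) (pow_le_pow_left₀ (Nat.cast_nonneg _) h2 _)
          (by positivity) (by positivity)
    _ = (N : ℝ) ^ n := by
      rw [← pow_add]
      congr 1
      omega
    _ ≤ (N : ℝ) ^ N := pow_le_pow_right₀ h0 hn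
    _ ≤ _ := ja_NN N hN

private theorem ja_ch (N m i : ℕ) (hN : 1 ≤ N) (hm : m + i ≤ 2 * N) :
    (((m + i).choose i : ℕ) : ℝ) ≤ Real.exp (4 * (N * Real.log (N + 2) ^ 2)) := by
  have h1 : (((m + i).choose i : ℕ) : ℝ) ≤ ((2 ^ (m + i) : ℕ) : ℝ) := by
    exact_mod_cast Nat.choose_le_two_pow (m + i) i
  have h2 : ((2 ^ (m + i) : ℕ) : ℝ) ≤ (4 : ℝ) ^ N := by
    push_cast
    calc (2 : ℝ) ^ (m + i) ≤ 2 ^ (2 * N) := pow_le_pow_right₀ (by norm_num) hm
      _ = 4 ^ N := by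
        rw [pow_mul]
        norm_num
  exact (h1.trans h2).trans (ja_pow 4 (by norm_num) N hN)

private theorem ja_a {t : ℚ} {Ds : ℕ} {a : ℤ} (h : (Ds : ℚ) * t = a) :
    (Ds : ℂ) * (t : ℂ) = (a : ℂ) ∧ |(a : ℝ)| = Ds * |(t : ℝ)| := by
  constructor
  · exact_mod_cast congrArg (fun x : ℚ => (x : ℂ)) h
  · have h1 : (a : ℝ) = Ds * (t : ℝ) := by
      exact_mod_cast (congrArg (fun x : ℚ => (x : ℝ)) h).symm
    rw [h1, abs_mul, Nat.abs_cast]

theorem repF_A {δ : ℕ} {ω : Fin (δ + 1) → ℂ} {θ : ℂ} {D0 : ℤ[X]} {E : ℕ} {X : ℝ}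
    (B : Base δ ω θ D0 E X) {β : ℂ} (hβ : Rep (δ + 1) ω θ (aeval θ D0 * β) E X)
    {f : ℂ → ℂ → ℂ} (hf : Ent2 f) (hT : RatTay2 f) :
    RepF δ ω θ D0 E 0 (fun a b _ l t => f (a * l) (β * b * l + t)) := by
  obtain ⟨t, ht0, Ct, hCt, htb, htd⟩ := hT
  have hX := B.hX
  have hY : (1 : ℝ) ≤ ((δ + 1 : ℕ) : ℝ) * X := by
    have h1 : (1 : ℝ) ≤ ((δ + 1 : ℕ) : ℝ) := by exact_mod_cast Nat.succ_le_succ (Nat.zero_le δ)
    nlinarith
  refine ⟨fun a b _ => ?_, 6 + 13 * Ct + ((δ + 1 : ℕ) : ℝ) * X, by linarith, ?_⟩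
  · have hu : Ent2 (fun l _ : ℂ => (a : ℂ) * l) := by
      unfold Ent2
      fun_prop
    have hv : Ent2 (fun l t : ℂ => β * (b : ℂ) * l + t) := by
      unfold Ent2
      fun_prop
    exact ent2_comp hf hu hv
  intro N hN
  obtain ⟨Ds, hDs, hDsb, hDsi⟩ := htd (2 * N)
  have hDs' := hDsb.trans (ja_den Ct hCt N hN)
  have hΦ := ja_one N hN
  refine ⟨Ds, hDs, ?_, ?_⟩
  · refine hDs'.trans ?_
    apply Real.exp_le_exp.2
    nlinarith [mul_nonneg hCt (zero_le_one.trans hΦ), mul_nonneg (zero_le_one.trans hY) (zero_le_one.trans hΦ)]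
  · intro n hn i hi a ha b hb _ _
    have hex : ∀ j : ℕ, ∃ z : ℤ, j ≤ n → (Ds : ℚ) * t j (n - j + i) = z := by
      intro j
      by_cases hj : j ≤ n
      · obtain ⟨z, hz⟩ := hDsi j (n - j + i) (by omega)
        exact ⟨z, fun _ => hz⟩
      · exact ⟨0, fun h => absurd h hj⟩
    choose z hz using hex
    have key : (Ds : ℂ) * aeval θ D0 ^ (n + 0) * J (fun l t => f ((a : ℂ) * l) (β * (b : ℂ) * l + t)) n i =
        ∑ j ∈ range (n + 1), ((((a : ℤ) ^ j * (b : ℤ) ^ (n - j) * (((n - j + i).choose i : ℕ) : ℤ) * z j : ℤ) : ℂ) *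
          (aeval θ D0 * β) ^ (n - j)) * (aeval θ D0) ^ j := by
      rw [J_lineA hf, Finset.mul_sum]
      refine Finset.sum_congr rfl fun j hj => ?_
      have hj' : j ≤ n := Nat.lt_succ_iff.1 (Finset.mem_range.1 hj)
      have h1 := (ja_a (hz j hj')).1
      rw [ht0 j (n - j + i)]
      push_cast
      rw [← h1, mul_pow, mul_pow]
      have h2 : (aeval θ D0 : ℂ) ^ (n + 0) = aeval θ D0 ^ (n - j) * aeval θ D0 ^ j := by
        rw [← pow_add]
        congr 1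
        omega
      rw [h2]
      ring
    show Rep (δ + 1) ω θ ((Ds : ℂ) * aeval θ D0 ^ (n + 0) *
      J (fun l t => f ((a : ℂ) * l) (β * (b : ℂ) * l + t)) n i) ((n + 0) * E) _
    rw [key]
    have hterm : ∀ j ∈ range (n + 1), Rep (δ + 1) ω θ
        (((((a : ℤ) ^ j * (b : ℤ) ^ (n - j) * (((n - j + i).choose i : ℕ) : ℤ) * z j : ℤ) : ℂ) *
          (aeval θ D0 * β) ^ (n - j)) * (aeval θ D0) ^ j) ((n + 0) * E)
        (Real.exp ((5 + 13 * Ct + ((δ + 1 : ℕ) : ℝ) * X) * (N * Real.log (N + 2) ^ 2))) := by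
      intro j hj
      have hj' : j ≤ n := Nat.lt_succ_iff.1 (Finset.mem_range.1 hj)
      have h1 := Rep.mul_pow (Nat.succ_pos δ) B.d (Rep.mul_pow (Nat.succ_pos δ) hβ (Rep.int ω θ
        ((a : ℤ) ^ j * (b : ℤ) ^ (n - j) * (((n - j + i).choose i : ℕ) : ℤ) * z j)) (n - j)) j
      refine h1.mono ?_ ?_
      · rw [Nat.add_zero, Nat.zero_add, ← Nat.add_mul]
        exact Nat.mul_le_mul_right _ (by omega)
      · rw [mul_assoc, ← pow_add, show n - j + j = n by omega]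
        have h2 : |(((a : ℤ) ^ j * (b : ℤ) ^ (n - j) * (((n - j + i).choose i : ℕ) : ℤ) * z j : ℤ) : ℝ)| ≤
            Real.exp (N * Real.log (N + 2) ^ 2) * Real.exp (4 * (N * Real.log (N + 2) ^ 2)) *
            (Real.exp (12 * Ct * (N * Real.log (N + 2) ^ 2)) * Real.exp (Ct * (N * Real.log (N + 2) ^ 2))) := by
          push_cast
          rw [abs_mul, abs_mul, abs_mul, abs_pow, abs_pow, (ja_a (hz j hj')).2, Nat.abs_cast, Nat.abs_cast,
            Nat.abs_cast]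
          refine mul_le_mul (mul_le_mul (ja_ab N n j a b hN hn hj' ha hb) (ja_ch N _ i hN (by omega))
            (by positivity) (by positivity)) ?_ (by positivity) (by positivity)
          exact mul_le_mul hDs' ((htb _ _).trans (ja_const Ct hCt N hN)) (abs_nonneg _) (by positivity)
        have hp : (((δ + 1 : ℕ) : ℝ) * X) ^ n ≤ Real.exp (((δ + 1 : ℕ) : ℝ) * X * (N * Real.log (N + 2) ^ 2)) :=
          (pow_le_pow_right₀ hY hn).trans (ja_pow _ (by linarith) N hN)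
        refine (mul_le_mul h2 hp (by positivity) (by positivity)).trans ?_
        rw [← Real.exp_add, ← Real.exp_add, ← Real.exp_add, ← Real.exp_add]
        apply Real.exp_le_exp.2
        linarith
    refine (Rep.sum _ hterm).mono le_rfl ?_
    rw [Finset.sum_const, Finset.card_range, nsmul_eq_mul]
    have h3 : ((n + 1 : ℕ) : ℝ) ≤ Real.exp (N * Real.log (N + 2) ^ 2) := by
      have h4 : (n : ℝ) ≤ N := by exact_mod_cast hn
      have h5 := Real.add_one_le_exp (N : ℝ)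
      have h6 := Real.exp_le_exp.2 (ja_N N hN)
      push_cast
      linarith
    refine (mul_le_mul_of_nonneg_right h3 (Real.exp_pos _).le).trans ?_
    rw [← Real.exp_add]
    apply Real.exp_le_exp.2
    linarith

end Pool.Agent.RO5
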