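import Pool.Agent.RO5.JDefs
import Pool.Agent.RO5.JLin

/-!
RO5-JB. Represented coefficients of `f(α e l + t, γ a l)`.

`J_lineB` and the estimates of ROH/RepLin.
-/

set_option autoImplicit false

namespace Pool.Agent.RO5

open Complex Finset Polynomial Pool.Agent.ROH Pool.Agent.GP

private theorem rjb_log (N : ℕ) (hN : 1 ≤ N) : 1 ≤ Real.log (N + 2) := by
  have h1 : (1 : ℝ) ≤ N := by exact_mod_cast hN
  rw [Real.le_log_iff_exp_le (by positivity)]
  have h2 := Real.exp_one_lt_d9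
  linarith

private theorem rjb_N (N : ℕ) (hN : 1 ≤ N) : (N : ℝ) ≤ N * Real.log (N + 2) ^ 2 := by
  have h1 := rjb_log N hN
  have h2 : 1 ≤ Real.log (N + 2) ^ 2 := one_le_pow₀ h1
  have h3 : (0 : ℝ) ≤ N := Nat.cast_nonneg N
  nlinarith

private theorem rjb_one (N : ℕ) (hN : 1 ≤ N) : (1 : ℝ) ≤ N * Real.log (N + 2) ^ 2 := by
  have h1 : (1 : ℝ) ≤ N := by exact_mod_cast hN
  exact h1.trans (rjb_N N hN)

private theorem rjb_pow (K : ℝ) (hK : 0 ≤ K) (N : ℕ) (hN : 1 ≤ N) :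
    K ^ N ≤ Real.exp (K * (N * Real.log (N + 2) ^ 2)) := by
  have h1 : K ≤ Real.exp K := by
    have := Real.add_one_le_exp K
    linarith
  calc K ^ N ≤ Real.exp K ^ N := pow_le_pow_left₀ hK h1 N
    _ = Real.exp (N * K) := (Real.exp_nat_mul K N).symm
    _ ≤ _ := by
      apply Real.exp_le_exp.2
      have h2 := mul_le_mul_of_nonneg_left (rjb_N N hN) hK
      linarith

private theorem rjb_const (K : ℝ) (hK : 0 ≤ K) (N : ℕ) (hN : 1 ≤ N) :
    K ≤ Real.exp (K * (N * Real.log (N + 2) ^ 2)) := by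
  have h1 : K ≤ Real.exp K := by
    have := Real.add_one_le_exp K
    linarith
  refine h1.trans (Real.exp_le_exp.2 ?_)
  have h2 := mul_le_mul_of_nonneg_left (rjb_one N hN) hK
  linarith

private theorem rjb_NN (N : ℕ) (hN : 1 ≤ N) : (N : ℝ) ^ N ≤ Real.exp (N * Real.log (N + 2) ^ 2) := by
  have h0 : (0 : ℝ) ≤ N := Nat.cast_nonneg N
  have h1 : (N : ℝ) ≤ Real.exp (Real.log (N + 2)) := by
    rw [Real.exp_log (by positivity)]
    linarith
  calc (N : ℝ) ^ N ≤ Real.exp (Real.log (N + 2)) ^ N := pow_le_pow_left₀ h0 h1 N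
    _ = Real.exp (N * Real.log (N + 2)) := (Real.exp_nat_mul _ N).symm
    _ ≤ _ := by
      apply Real.exp_le_exp.2
      refine mul_le_mul_of_nonneg_left ?_ h0
      have h2 := rjb_log N hN
      nlinarith

private theorem rjb_den (C : ℝ) (hC : 0 ≤ C) (N : ℕ) (hN : 1 ≤ N) :
    Real.exp (C * ((2 * N : ℕ) + 1) * Real.log ((2 * N : ℕ) + 2) ^ 2) ≤
      Real.exp (12 * C * (N * Real.log (N + 2) ^ 2)) := by
  apply Real.exp_le_exp.2
  have h1 : (1 : ℝ) ≤ N := by exact_mod_cast hN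
  have h2 : Real.log ((2 * N : ℕ) + 2) ≤ 2 * Real.log (N + 2) := by
    have h3 : 2 * Real.log ((N : ℝ) + 2) = Real.log (((N : ℝ) + 2) ^ 2) := by
      rw [Real.log_pow]
      norm_num
    rw [h3]
    apply Real.log_le_log (by positivity)
    push_cast
    nlinarith
  have h3 : 0 ≤ Real.log ((2 * N : ℕ) + 2) := by
    apply Real.log_nonneg
    have : (0 : ℝ) ≤ ((2 * N : ℕ) : ℝ) := Nat.cast_nonneg _
    linarith
  have h4 : Real.log ((2 * N : ℕ) + 2) ^ 2 ≤ (2 * Real.log (N + 2)) ^ 2 := pow_le_pow_left₀ h3 h2 2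
  have h5 : (((2 * N : ℕ) : ℝ) + 1) ≤ 3 * N := by
    push_cast
    linarith
  calc C * ((2 * N : ℕ) + 1) * Real.log ((2 * N : ℕ) + 2) ^ 2
      ≤ C * (3 * N) * (2 * Real.log (N + 2)) ^ 2 :=
        mul_le_mul (mul_le_mul_of_nonneg_left h5 hC) h4 (by positivity) (by positivity)
    _ = 12 * C * (N * Real.log (N + 2) ^ 2) := by ring

private theorem rjb_n (K : ℝ) (hK : 1 ≤ K) (N n : ℕ) (hn : n ≤ N) : K ^ n ≤ K ^ N := pow_le_pow_right₀ hK hn

private theorem rjb_a {t : ℚ} {Ds : ℕ} {a : ℤ} (h : (Ds : ℚ) * t = a) :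
    (Ds : ℂ) * (t : ℂ) = (a : ℂ) ∧ |(a : ℝ)| = Ds * |(t : ℝ)| := by
  constructor
  · exact_mod_cast congrArg (fun x : ℚ => (x : ℂ)) h
  · have h1 : (a : ℝ) = Ds * (t : ℝ) := by
      exact_mod_cast (congrArg (fun x : ℚ => (x : ℝ)) h).symm
    rw [h1, abs_mul, Nat.abs_cast]

private theorem rjb_ch (N m k : ℕ) (hN : 1 ≤ N) (hm : m ≤ 2 * N) :
    ((m.choose k : ℕ) : ℝ) ≤ Real.exp (4 * (N * Real.log (N + 2) ^ 2)) := by
  have h1 : ((m.choose k : ℕ) : ℝ) ≤ ((2 ^ m : ℕ) : ℝ) := by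
    exact_mod_cast Nat.choose_le_two_pow m k
  have h2 : ((2 ^ m : ℕ) : ℝ) ≤ (4 : ℝ) ^ N := by
    push_cast
    calc (2 : ℝ) ^ m ≤ 2 ^ (2 * N) := pow_le_pow_right₀ (by norm_num) hm
      _ = 4 ^ N := by
        rw [pow_mul]
        norm_num
  exact (h1.trans h2).trans (rjb_pow 4 (by norm_num) N hN)

private theorem rjb_ab (N a e n j : ℕ) (hN : 1 ≤ N) (ha : a ≤ N) (he : e ≤ N) (hn : n ≤ N)
    (hj : j ≤ n) : (e : ℝ) ^ (n - j) * (a : ℝ) ^ j ≤ Real.exp (N * Real.log (N + 2) ^ 2) := by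
  have h0 : (1 : ℝ) ≤ N := by exact_mod_cast hN
  have h1 : (a : ℝ) ≤ N := by exact_mod_cast ha
  have h2 : (e : ℝ) ≤ N := by exact_mod_cast he
  calc (e : ℝ) ^ (n - j) * (a : ℝ) ^ j ≤ (N : ℝ) ^ (n - j) * (N : ℝ) ^ j :=
        mul_le_mul (pow_le_pow_left₀ (Nat.cast_nonneg _) h2 _)
          (pow_le_pow_left₀ (Nat.cast_nonneg _) h1 _) (by positivity) (by positivity)
    _ = (N : ℝ) ^ n := by rw [← pow_add, Nat.sub_add_cancel hj]
    _ ≤ (N : ℝ) ^ N := pow_le_pow_right₀ h0 hn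
    _ ≤ _ := rjb_NN N hN

private theorem rjb_comp {g : ℂ → ℂ → ℂ} (hg : Ent2 g) {a b : ℂ × ℂ → ℂ} (ha : Differentiable ℂ a)
    (hb : Differentiable ℂ b) : Differentiable ℂ fun z => g (a z) (b z) := by
  have h : Differentiable ℂ fun z : ℂ × ℂ => g z.1 z.2 := hg
  exact h.comp (ha.prodMk hb)

theorem repF_B {δ : ℕ} {ω : Fin (δ + 1) → ℂ} {θ : ℂ} {D0 : ℤ[X]} {E : ℕ} {X : ℝ}
    (B : Base δ ω θ D0 E X) {α γ : ℂ} (hα : Rep (δ + 1) ω θ (aeval θ D0 * α) E X)
    (hγ : Rep (δ + 1) ω θ (aeval θ D0 * γ) E X)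
    {f : ℂ → ℂ → ℂ} (hf : Ent2 f) (hT : RatTay2 f) :
    RepF δ ω θ D0 E 0 (fun a _ e l t => f (α * e * l + t) (γ * a * l)) := by
  refine ⟨fun a b e => rjb_comp hf (a := fun z => α * e * z.1 + z.2) (b := fun z => γ * a * z.1)
    (by fun_prop) (by fun_prop), ?_⟩
  obtain ⟨t, ht0, Ct, hCt, htb, htd⟩ := hT
  have hX := B.hX
  have hY : (1 : ℝ) ≤ ((δ + 1 : ℕ) : ℝ) * X := by
    have h1 : (1 : ℝ) ≤ ((δ + 1 : ℕ) : ℝ) := by exact_mod_cast Nat.succ_le_succ (Nat.zero_le δ)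
    nlinarith
  refine ⟨7 + 13 * Ct + ((δ + 1 : ℕ) : ℝ) * X, by linarith, ?_⟩
  intro N hN
  obtain ⟨Ds, hDs, hDsb, hDsi⟩ := htd (2 * N)
  have hDs' := hDsb.trans (rjb_den Ct hCt N hN)
  have hΦ := rjb_one N hN
  refine ⟨Ds, hDs, ?_, ?_⟩
  · refine hDs'.trans ?_
    apply Real.exp_le_exp.2
    nlinarith [mul_nonneg hCt (zero_le_one.trans hΦ),
      mul_nonneg (zero_le_one.trans hY) (zero_le_one.trans hΦ)]
  · intro n hn k hk a ha b _ e he
    have hJ := J_lineB hf (α * e) 1 (γ * a) n k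
    simp only [one_mul, one_pow, mul_one] at hJ
    have hd : ∀ j ∈ range (n + 1), ∃ A : ℤ, (Ds : ℚ) * t (n - j + k) j = A := by
      intro j hj
      have hj' : j ≤ n := Nat.lt_succ_iff.1 (Finset.mem_range.1 hj)
      exact hDsi (n - j + k) j (by omega)
    choose! A hA using hd
    have key : (Ds : ℂ) * aeval θ D0 ^ (n + 0) *
        J (fun l t => f (α * e * l + t) (γ * a * l)) n k =
        ∑ j ∈ range (n + 1), (((((e : ℤ) ^ (n - j) * (a : ℤ) ^ j *
          ((n - j + k).choose k : ℤ) * A j : ℤ) : ℂ) * (aeval θ D0 * α) ^ (n - j)) *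
            (aeval θ D0 * γ) ^ j) := by
      rw [hJ, Finset.mul_sum]
      refine Finset.sum_congr rfl fun j hj => ?_
      have hj' : j ≤ n := Nat.lt_succ_iff.1 (Finset.mem_range.1 hj)
      have h1 := (rjb_a (hA j hj)).1
      have h2 : (aeval θ D0) ^ (n + 0) = (aeval θ D0) ^ (n - j) * (aeval θ D0) ^ j := by
        rw [← pow_add, Nat.sub_add_cancel hj', Nat.add_zero]
      rw [ht0, h2, Int.cast_mul, ← h1]
      push_cast
      ring
    show Rep (δ + 1) ω θ ((Ds : ℂ) * aeval θ D0 ^ (n + 0) *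
        J (fun l t => f (α * e * l + t) (γ * a * l)) n k) ((n + 0) * E) _
    rw [key]
    have hterm : ∀ j ∈ range (n + 1), Rep (δ + 1) ω θ (((((e : ℤ) ^ (n - j) * (a : ℤ) ^ j *
          ((n - j + k).choose k : ℤ) * A j : ℤ) : ℂ) * (aeval θ D0 * α) ^ (n - j)) *
            (aeval θ D0 * γ) ^ j) ((n + 0) * E)
          (Real.exp ((5 + 13 * Ct + ((δ + 1 : ℕ) : ℝ) * X) * (N * Real.log (N + 2) ^ 2))) := by
      intro j hj
      have hj' : j ≤ n := Nat.lt_succ_iff.1 (Finset.mem_range.1 hj)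
      have h2 := (rjb_a (hA j hj)).2
      have hR := Rep.mul_pow (Nat.succ_pos δ) hγ (Rep.mul_pow (Nat.succ_pos δ) hα
        (Rep.int ω θ ((e : ℤ) ^ (n - j) * (a : ℤ) ^ j * ((n - j + k).choose k : ℤ) * A j))
          (n - j)) j
      refine hR.mono (le_of_eq ?_) ?_
      · obtain ⟨m, rfl⟩ := Nat.exists_eq_add_of_le hj'
        rw [Nat.add_sub_cancel_left]
        ring
      · have hz : |(((e : ℤ) ^ (n - j) * (a : ℤ) ^ j * ((n - j + k).choose k : ℤ) * A j : ℤ) : ℝ)| ≤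
            Real.exp (N * Real.log (N + 2) ^ 2) * Real.exp (4 * (N * Real.log (N + 2) ^ 2)) *
            (Real.exp (12 * Ct * (N * Real.log (N + 2) ^ 2)) *
              Real.exp (Ct * (N * Real.log (N + 2) ^ 2))) := by
          push_cast
          rw [abs_mul, abs_mul, abs_mul, abs_pow, abs_pow, h2, Nat.abs_cast, Nat.abs_cast,
            Nat.abs_cast]
          refine mul_le_mul (mul_le_mul (rjb_ab N a e n j hN ha he hn hj')
            (rjb_ch N _ k hN (by omega)) (by positivity) (by positivity)) ?_ (by positivity)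
            (by positivity)
          exact mul_le_mul hDs' ((htb _ _).trans (rjb_const Ct hCt N hN)) (abs_nonneg _)
            (by positivity)
        have hp : (((δ + 1 : ℕ) : ℝ) * X) ^ (n - j) * (((δ + 1 : ℕ) : ℝ) * X) ^ j ≤
            Real.exp (((δ + 1 : ℕ) : ℝ) * X * (N * Real.log (N + 2) ^ 2)) := by
          rw [← pow_add, Nat.sub_add_cancel hj']
          exact (rjb_n _ hY N n hn).trans (rjb_pow _ (by linarith) N hN)
        have h3 := mul_le_mul hz hp (by positivity) (by positivity)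
        rw [mul_assoc]
        refine h3.trans ?_
        rw [← Real.exp_add, ← Real.exp_add, ← Real.exp_add, ← Real.exp_add]
        apply Real.exp_le_exp.2
        linarith
    refine (Rep.sum _ hterm).mono le_rfl ?_
    rw [Finset.sum_const, Finset.card_range, nsmul_eq_mul]
    have h4 : ((n + 1 : ℕ) : ℝ) ≤ Real.exp (2 * (N * Real.log (N + 2) ^ 2)) := by
      have h5 : n + 1 ≤ 2 ^ N := by
        have : N < 2 ^ N := Nat.lt_two_pow_self
        omega
      have h6 : ((n + 1 : ℕ) : ℝ) ≤ (2 : ℝ) ^ N := by exact_mod_cast h5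
      exact h6.trans (rjb_pow 2 (by norm_num) N hN)
    refine (mul_le_mul_of_nonneg_right h4 (by positivity)).trans ?_
    rw [← Real.exp_add]
    apply Real.exp_le_exp.2
    linarith

end Pool.Agent.RO5
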