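import Pool.Agent.RO5.JDefs
import Pool.Agent.RO5.JLin
import Pool.Agent.RO5.Num

/-!
RO5-JC. Represented coefficients of `f(ε⁻¹ (α e l + t), -ε γ a l)`.

Plan. `J_lineB` with `q = ε⁻¹`, `p = α e`, `r = -(ε γ a)`:
`D0^(n+1) D J = Σ_{j≤n} (-1)^j e^(n-j) a^j C(n-j+k,k) (D0 α)^(n-j) (D0 γ)^j (D0 ε^j (ε⁻¹)^(n-j+k)) (D t_{n-j+k,j})`.
`eps_pow`: for `m, m'`, `ε^m (ε⁻¹)^m' = x + y ε` with integers `|x|, |y| ≤ 2^(m+m')` (`ε⁻¹ = ε - 1`, induction:
`ε (x + y ε) = y + (x+y) ε`, `(ε-1)(x+yε) = (y - x) + x ε`), so `D0 ε^m (ε⁻¹)^m' = x D0 + y (D0 ε)` is represented with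
degree `E` and length `2^(m+m'+1) X` (`Rep.int`, `Rep.mul`, `Rep.add`): only ONE power of `D0` is needed although
`k` may be large. Otherwise as `RO5-JA`, `RO5-JB`.
-/

set_option autoImplicit false

namespace Pool.Agent.RO5

open Complex Finset Polynomial Pool.Agent.ROH Pool.Agent.GP

theorem eps_pow (m m' : ℕ) : ∃ x y : ℤ, |(x : ℝ)| ≤ 2 ^ (m + m') ∧ |(y : ℝ)| ≤ 2 ^ (m + m') ∧
    eps ^ m * eps⁻¹ ^ m' = x + y * eps := by
  have hs := eps_sq
  have h0 : eps ≠ 0 := by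
    have := eps_gt
    linarith
  have hi : eps⁻¹ = eps - 1 := by
    have h1 : (eps - 1) * eps = 1 := by linear_combination hs
    exact (eq_inv_of_mul_eq_one_left h1).symm
  induction m with
  | zero =>
    induction m' with
    | zero => exact ⟨1, 0, by simp, by simp, by simp⟩
    | succ m' ih =>
      obtain ⟨x, y, hx, hy, h⟩ := ih
      rw [Nat.zero_add] at hx hy ⊢
      have h2 : (0 : ℝ) ≤ 2 ^ m' := by positivity
      refine ⟨y - x, x, ?_, ?_, ?_⟩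
      · push_cast
        rw [pow_succ]
        have h3 := abs_sub (y : ℝ) (x : ℝ)
        linarith
      · rw [pow_succ]
        linarith
      · rw [pow_succ, ← mul_assoc, h, hi]
        push_cast
        linear_combination (y : ℝ) * hs
  | succ m ih =>
    obtain ⟨x, y, hx, hy, h⟩ := ih
    have h2 : (0 : ℝ) ≤ 2 ^ (m + m') := by positivity
    have e1 : m + 1 + m' = m + m' + 1 := by omega
    rw [e1, pow_succ]
    refine ⟨y, x + y, by linarith, ?_, ?_⟩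
    · push_cast
      have h3 := abs_add_le (x : ℝ) (y : ℝ)
      linarith
    · have h4 : eps ^ (m + 1) * eps⁻¹ ^ m' = eps * (eps ^ m * eps⁻¹ ^ m') := by
        rw [pow_succ]
        ring
      rw [h4, h]
      push_cast
      linear_combination (y : ℝ) * hs

private theorem rjc_eps (m m' : ℕ) : ∃ x y : ℤ, |(x : ℝ)| ≤ 2 ^ (m + m') ∧
    |(y : ℝ)| ≤ 2 ^ (m + m') ∧ (eps : ℂ) ^ m * (eps : ℂ)⁻¹ ^ m' = x + y * eps := by
  obtain ⟨x, y, hx, hy, h⟩ := eps_pow m m'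
  refine ⟨x, y, hx, hy, ?_⟩
  exact_mod_cast congrArg (fun t : ℝ => (t : ℂ)) h

private theorem rjc_log (N : ℕ) (hN : 1 ≤ N) : 1 ≤ Real.log (N + 2) := by
  have h1 : (1 : ℝ) ≤ N := by exact_mod_cast hN
  rw [Real.le_log_iff_exp_le (by positivity)]
  have h2 := Real.exp_one_lt_d9
  linarith

private theorem rjc_N (N : ℕ) (hN : 1 ≤ N) : (N : ℝ) ≤ N * Real.log (N + 2) ^ 2 := by
  have h1 := rjc_log N hN
  have h2 : 1 ≤ Real.log (N + 2) ^ 2 := one_le_pow₀ h1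
  have h3 : (0 : ℝ) ≤ N := Nat.cast_nonneg N
  nlinarith

private theorem rjc_one (N : ℕ) (hN : 1 ≤ N) : (1 : ℝ) ≤ N * Real.log (N + 2) ^ 2 := by
  have h1 : (1 : ℝ) ≤ N := by exact_mod_cast hN
  exact h1.trans (rjc_N N hN)

private theorem rjc_pow (K : ℝ) (hK : 0 ≤ K) (N : ℕ) (hN : 1 ≤ N) :
    K ^ N ≤ Real.exp (K * (N * Real.log (N + 2) ^ 2)) := by
  have h1 : K ≤ Real.exp K := by
    have := Real.add_one_le_exp K
    linarith
  calc K ^ N ≤ Real.exp K ^ N := pow_le_pow_left₀ hK h1 N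
    _ = Real.exp (N * K) := (Real.exp_nat_mul K N).symm
    _ ≤ _ := by
      apply Real.exp_le_exp.2
      have h2 := mul_le_mul_of_nonneg_left (rjc_N N hN) hK
      linarith

private theorem rjc_const (K : ℝ) (hK : 0 ≤ K) (N : ℕ) (hN : 1 ≤ N) :
    K ≤ Real.exp (K * (N * Real.log (N + 2) ^ 2)) := by
  have h1 : K ≤ Real.exp K := by
    have := Real.add_one_le_exp K
    linarith
  refine h1.trans (Real.exp_le_exp.2 ?_)
  have h2 := mul_le_mul_of_nonneg_left (rjc_one N hN) hK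
  linarith

private theorem rjc_NN (N : ℕ) (hN : 1 ≤ N) : (N : ℝ) ^ N ≤ Real.exp (N * Real.log (N + 2) ^ 2) := by
  have h0 : (0 : ℝ) ≤ N := Nat.cast_nonneg N
  have h1 : (N : ℝ) ≤ Real.exp (Real.log (N + 2)) := by
    rw [Real.exp_log (by positivity)]
    linarith
  calc (N : ℝ) ^ N ≤ Real.exp (Real.log (N + 2)) ^ N := pow_le_pow_left₀ h0 h1 N
    _ = Real.exp (N * Real.log (N + 2)) := (Real.exp_nat_mul _ N).symm
    _ ≤ _ := by
      apply Real.exp_le_exp.2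
      refine mul_le_mul_of_nonneg_left ?_ h0
      have h2 := rjc_log N hN
      nlinarith

private theorem rjc_den (C : ℝ) (hC : 0 ≤ C) (N : ℕ) (hN : 1 ≤ N) :
    Real.exp (C * ((2 * N : ℕ) + 1) * Real.log ((2 * N : ℕ) + 2) ^ 2) ≤
      Real.exp (12 * C * (N * Real.log (N + 2) ^ 2)) := by
  apply Real.exp_le_exp.2
  have h1 : (1 : ℝ) ≤ N := by exact_mod_cast hN
  have h2 : Real.log ((2 * N : ℕ) + 2) ≤ 2 * Real.log (N + 2) := by
    have h3 : 2 * Real.log ((N : ℝ) + 2) = Real.log (((N : ℝ) + 2) ^ 2) := by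
      rw [Real.log_pow]
      norm_num
    rw [h3]
    apply Real.log_le_log (by positivity)
    push_cast
    nlinarith
  have h3 : 0 ≤ Real.log ((2 * N : ℕ) + 2) := by
    apply Real.log_nonneg
    have : (0 : ℝ) ≤ ((2 * N : ℕ) : ℝ) := Nat.cast_nonneg _
    linarith
  have h4 : Real.log ((2 * N : ℕ) + 2) ^ 2 ≤ (2 * Real.log (N + 2)) ^ 2 := pow_le_pow_left₀ h3 h2 2
  have h5 : (((2 * N : ℕ) : ℝ) + 1) ≤ 3 * N := by
    push_cast
    linarith
  calc C * ((2 * N : ℕ) + 1) * Real.log ((2 * N : ℕ) + 2) ^ 2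
      ≤ C * (3 * N) * (2 * Real.log (N + 2)) ^ 2 :=
        mul_le_mul (mul_le_mul_of_nonneg_left h5 hC) h4 (by positivity) (by positivity)
    _ = 12 * C * (N * Real.log (N + 2) ^ 2) := by ring

private theorem rjc_n (K : ℝ) (hK : 1 ≤ K) (N n : ℕ) (hn : n ≤ N) : K ^ n ≤ K ^ N := pow_le_pow_right₀ hK hn

private theorem rjc_a {t : ℚ} {Ds : ℕ} {a : ℤ} (h : (Ds : ℚ) * t = a) :
    (Ds : ℂ) * (t : ℂ) = (a : ℂ) ∧ |(a : ℝ)| = Ds * |(t : ℝ)| := by
  constructor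
  · exact_mod_cast congrArg (fun x : ℚ => (x : ℂ)) h
  · have h1 : (a : ℝ) = Ds * (t : ℝ) := by
      exact_mod_cast (congrArg (fun x : ℚ => (x : ℝ)) h).symm
    rw [h1, abs_mul, Nat.abs_cast]

private theorem rjc_ch (N m k : ℕ) (hN : 1 ≤ N) (hm : m ≤ 2 * N) :
    ((m.choose k : ℕ) : ℝ) ≤ Real.exp (4 * (N * Real.log (N + 2) ^ 2)) := by
  have h1 : ((m.choose k : ℕ) : ℝ) ≤ ((2 ^ m : ℕ) : ℝ) := by
    exact_mod_cast Nat.choose_le_two_pow m k
  have h2 : ((2 ^ m : ℕ) : ℝ) ≤ (4 : ℝ) ^ N := by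
    push_cast
    calc (2 : ℝ) ^ m ≤ 2 ^ (2 * N) := pow_le_pow_right₀ (by norm_num) hm
      _ = 4 ^ N := by
        rw [pow_mul]
        norm_num
  exact (h1.trans h2).trans (rjc_pow 4 (by norm_num) N hN)

private theorem rjc_ab (N a e n j : ℕ) (hN : 1 ≤ N) (ha : a ≤ N) (he : e ≤ N) (hn : n ≤ N)
    (hj : j ≤ n) : (e : ℝ) ^ (n - j) * (a : ℝ) ^ j ≤ Real.exp (N * Real.log (N + 2) ^ 2) := by
  have h0 : (1 : ℝ) ≤ N := by exact_mod_cast hN
  have h1 : (a : ℝ) ≤ N := by exact_mod_cast ha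
  have h2 : (e : ℝ) ≤ N := by exact_mod_cast he
  calc (e : ℝ) ^ (n - j) * (a : ℝ) ^ j ≤ (N : ℝ) ^ (n - j) * (N : ℝ) ^ j :=
        mul_le_mul (pow_le_pow_left₀ (Nat.cast_nonneg _) h2 _)
          (pow_le_pow_left₀ (Nat.cast_nonneg _) h1 _) (by positivity) (by positivity)
    _ = (N : ℝ) ^ n := by rw [← pow_add, Nat.sub_add_cancel hj]
    _ ≤ (N : ℝ) ^ N := pow_le_pow_right₀ h0 hn
    _ ≤ _ := rjc_NN N hN

private theorem rjc_comp {g : ℂ → ℂ → ℂ} (hg : Ent2 g) {a b : ℂ × ℂ → ℂ} (ha : Differentiable ℂ a)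
    (hb : Differentiable ℂ b) : Differentiable ℂ fun z => g (a z) (b z) := by
  have h : Differentiable ℂ fun z : ℂ × ℂ => g z.1 z.2 := hg
  exact h.comp (ha.prodMk hb)

theorem repF_C {δ : ℕ} {ω : Fin (δ + 1) → ℂ} {θ : ℂ} {D0 : ℤ[X]} {E : ℕ} {X : ℝ}
    (B : Base δ ω θ D0 E X) {α γ : ℂ} (hα : Rep (δ + 1) ω θ (aeval θ D0 * α) E X)
    (hγ : Rep (δ + 1) ω θ (aeval θ D0 * γ) E X)
    (he : Rep (δ + 1) ω θ (aeval θ D0 * (eps : ℂ)) E X)
    {f : ℂ → ℂ → ℂ} (hf : Ent2 f) (hT : RatTay2 f) :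
    RepF δ ω θ D0 E 1 (fun a _ e l t => f ((eps : ℂ)⁻¹ * (α * e * l + t)) (-(eps * γ * a * l))) := by
  refine ⟨fun a b e => rjc_comp hf (a := fun z => (eps : ℂ)⁻¹ * (α * e * z.1 + z.2))
    (b := fun z => -(eps * γ * a * z.1)) (by fun_prop) (by fun_prop), ?_⟩
  obtain ⟨t, ht0, Ct, hCt, htb, htd⟩ := hT
  have hX := B.hX
  have hδ1 : (1 : ℝ) ≤ ((δ + 1 : ℕ) : ℝ) := by exact_mod_cast Nat.succ_le_succ (Nat.zero_le δ)
  have hY : (1 : ℝ) ≤ ((δ + 1 : ℕ) : ℝ) * X := by nlinarith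
  have hY2 : ((δ + 1 : ℕ) : ℝ) ≤ ((δ + 1 : ℕ) : ℝ) * X := by nlinarith
  refine ⟨15 + 13 * Ct + 3 * (((δ + 1 : ℕ) : ℝ) * X), by linarith, ?_⟩
  intro N hN
  obtain ⟨Ds, hDs, hDsb, hDsi⟩ := htd (2 * N)
  have hDs' := hDsb.trans (rjc_den Ct hCt N hN)
  have hΦ := rjc_one N hN
  refine ⟨Ds, hDs, ?_, ?_⟩
  · refine hDs'.trans ?_
    apply Real.exp_le_exp.2
    nlinarith [mul_nonneg hCt (zero_le_one.trans hΦ),
      mul_nonneg (zero_le_one.trans hY) (zero_le_one.trans hΦ)]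
  · intro n hn k hk a ha b _ e he'
    have hJ := J_lineB hf (α * e) (eps : ℂ)⁻¹ (-(eps * γ * a)) n k
    simp only [neg_mul] at hJ
    have hd : ∀ j ∈ range (n + 1), ∃ A : ℤ, (Ds : ℚ) * t (n - j + k) j = A := by
      intro j hj
      have hj' : j ≤ n := Nat.lt_succ_iff.1 (Finset.mem_range.1 hj)
      exact hDsi (n - j + k) j (by omega)
    choose! A hA using hd
    have hxy : ∀ j : ℕ, ∃ x y : ℤ, |(x : ℝ)| ≤ 2 ^ (j + (n - j + k)) ∧
        |(y : ℝ)| ≤ 2 ^ (j + (n - j + k)) ∧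
        (eps : ℂ) ^ j * (eps : ℂ)⁻¹ ^ (n - j + k) = x + y * eps := fun j => rjc_eps j (n - j + k)
    choose x y hx hy hxy using hxy
    have key : (Ds : ℂ) * aeval θ D0 ^ (n + 1) *
        J (fun l t => f ((eps : ℂ)⁻¹ * (α * e * l + t)) (-(eps * γ * a * l))) n k =
        ∑ j ∈ range (n + 1), ((((((-1) ^ j * (e : ℤ) ^ (n - j) * (a : ℤ) ^ j *
          ((n - j + k).choose k : ℤ) * A j : ℤ) : ℂ) * (aeval θ D0 * α) ^ (n - j)) *
            (aeval θ D0 * γ) ^ j) * ((x j : ℂ) * aeval θ D0 + (y j : ℂ) * (aeval θ D0 * eps))) := by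
      rw [hJ, Finset.mul_sum]
      refine Finset.sum_congr rfl fun j hj => ?_
      have hj' : j ≤ n := Nat.lt_succ_iff.1 (Finset.mem_range.1 hj)
      have h1 := (rjc_a (hA j hj)).1
      have h2 : (aeval θ D0) ^ (n + 1) = (aeval θ D0) ^ (n - j) * (aeval θ D0) ^ j * aeval θ D0 := by
        rw [← pow_add, Nat.sub_add_cancel hj', ← pow_succ]
      have h3 : (x j : ℂ) * aeval θ D0 + (y j : ℂ) * (aeval θ D0 * eps) =
          aeval θ D0 * ((eps : ℂ) ^ j * (eps : ℂ)⁻¹ ^ (n - j + k)) := by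
        rw [hxy j]
        ring
      have h4 : (-((eps : ℂ) * γ * (a : ℂ))) ^ j = (-1) ^ j * (eps : ℂ) ^ j * γ ^ j * (a : ℂ) ^ j := by
        rw [← mul_pow, ← mul_pow, ← mul_pow]
        congr 1
        ring
      rw [ht0, h2, h3, h4, Int.cast_mul, ← h1]
      push_cast
      ring
    show Rep (δ + 1) ω θ ((Ds : ℂ) * aeval θ D0 ^ (n + 1) *
        J (fun l t => f ((eps : ℂ)⁻¹ * (α * e * l + t)) (-(eps * γ * a * l))) n k) ((n + 1) * E) _
    rw [key]
    have hterm : ∀ j ∈ range (n + 1), Rep (δ + 1) ω θ ((((((-1) ^ j * (e : ℤ) ^ (n - j) * (a : ℤ) ^ j *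
          ((n - j + k).choose k : ℤ) * A j : ℤ) : ℂ) * (aeval θ D0 * α) ^ (n - j)) *
            (aeval θ D0 * γ) ^ j) * ((x j : ℂ) * aeval θ D0 + (y j : ℂ) * (aeval θ D0 * eps)))
          ((n + 1) * E)
          (Real.exp ((13 + 13 * Ct + 3 * (((δ + 1 : ℕ) : ℝ) * X)) * (N * Real.log (N + 2) ^ 2))) := by
      intro j hj
      have hj' : j ≤ n := Nat.lt_succ_iff.1 (Finset.mem_range.1 hj)
      have h2 := (rjc_a (hA j hj)).2
      have hR := Rep.mul_pow (Nat.succ_pos δ) hγ (Rep.mul_pow (Nat.succ_pos δ) hα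
        (Rep.int ω θ ((-1) ^ j * (e : ℤ) ^ (n - j) * (a : ℤ) ^ j * ((n - j + k).choose k : ℤ) * A j))
          (n - j)) j
      have hE1 := Rep.add (Rep.mul (Rep.int ω θ (x j)) B.d (Nat.succ_pos δ))
        (Rep.mul (Rep.int ω θ (y j)) he (Nat.succ_pos δ))
      have hE2 : ((δ + 1 : ℕ) : ℝ) * |(x j : ℝ)| * X + ((δ + 1 : ℕ) : ℝ) * |(y j : ℝ)| * X ≤
          ((δ + 1 : ℕ) : ℝ) * X * (2 * 2 ^ (n + k)) := by
        have e1 : j + (n - j + k) = n + k := by omega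
        have hx' := hx j
        have hy' := hy j
        rw [e1] at hx' hy'
        have h5 : 0 ≤ ((δ + 1 : ℕ) : ℝ) * X := by linarith
        have h6 := mul_le_mul_of_nonneg_left hx' h5
        have h7 := mul_le_mul_of_nonneg_left hy' h5
        linarith
      have hE3 := hE1.mono (E' := E) (by simp) hE2
      have hR2 := Rep.mul hR hE3 (Nat.succ_pos δ)
      refine hR2.mono (le_of_eq ?_) ?_
      · obtain ⟨m, rfl⟩ := Nat.exists_eq_add_of_le hj'
        rw [Nat.add_sub_cancel_left]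
        ring
      · have hz : |(((-1) ^ j * (e : ℤ) ^ (n - j) * (a : ℤ) ^ j * ((n - j + k).choose k : ℤ) * A j : ℤ) : ℝ)| ≤
            Real.exp (N * Real.log (N + 2) ^ 2) * Real.exp (4 * (N * Real.log (N + 2) ^ 2)) *
            (Real.exp (12 * Ct * (N * Real.log (N + 2) ^ 2)) *
              Real.exp (Ct * (N * Real.log (N + 2) ^ 2))) := by
          push_cast
          rw [abs_mul, abs_mul, abs_mul, abs_mul, abs_pow, abs_pow, abs_pow, abs_neg, abs_one, one_pow,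
            one_mul, h2, Nat.abs_cast, Nat.abs_cast, Nat.abs_cast]
          refine mul_le_mul (mul_le_mul (rjc_ab N a e n j hN ha he' hn hj')
            (rjc_ch N _ k hN (by omega)) (by positivity) (by positivity)) ?_ (by positivity)
            (by positivity)
          exact mul_le_mul hDs' ((htb _ _).trans (rjc_const Ct hCt N hN)) (abs_nonneg _)
            (by positivity)
        have hp : (((δ + 1 : ℕ) : ℝ) * X) ^ (n - j) * (((δ + 1 : ℕ) : ℝ) * X) ^ j ≤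
            Real.exp (((δ + 1 : ℕ) : ℝ) * X * (N * Real.log (N + 2) ^ 2)) := by
          rw [← pow_add, Nat.sub_add_cancel hj']
          exact (rjc_n _ hY N n hn).trans (rjc_pow _ (by linarith) N hN)
        have h3 := mul_le_mul hz hp (by positivity) (by positivity)
        rw [← mul_assoc] at h3
        have hq : (2 : ℝ) * 2 ^ (n + k) ≤ Real.exp (8 * (N * Real.log (N + 2) ^ 2)) := by
          have h4 : (2 : ℝ) * 2 ^ (n + k) ≤ 8 ^ N := by
            have h5 : (2 : ℝ) * 2 ^ (n + k) = 2 ^ (n + k + 1) := by ring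
            rw [h5]
            calc (2 : ℝ) ^ (n + k + 1) ≤ 2 ^ (3 * N) :=
                  pow_le_pow_right₀ (by norm_num) (by omega)
              _ = 8 ^ N := by
                rw [pow_mul]
                norm_num
          exact h4.trans (rjc_pow 8 (by norm_num) N hN)
        have hc := rjc_const (((δ + 1 : ℕ) : ℝ) * X) (by linarith) N hN
        have h6 := mul_le_mul hc hq (by positivity) (by positivity)
        have h7 := mul_le_mul (mul_le_mul (hY2.trans hc) h3 (by positivity) (by positivity)) h6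
          (by positivity) (by positivity)
        refine h7.trans ?_
        rw [← Real.exp_add, ← Real.exp_add, ← Real.exp_add, ← Real.exp_add, ← Real.exp_add,
          ← Real.exp_add, ← Real.exp_add]
        apply Real.exp_le_exp.2
        linarith
    refine (Rep.sum _ hterm).mono le_rfl ?_
    rw [Finset.sum_const, Finset.card_range, nsmul_eq_mul]
    have h4 : ((n + 1 : ℕ) : ℝ) ≤ Real.exp (2 * (N * Real.log (N + 2) ^ 2)) := by
      have h5 : n + 1 ≤ 2 ^ N := by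
        have : N < 2 ^ N := Nat.lt_two_pow_self
        omega
      have h6 : ((n + 1 : ℕ) : ℝ) ≤ (2 : ℝ) ^ N := by exact_mod_cast h5
      exact h6.trans (rjc_pow 2 (by norm_num) N hN)
    refine (mul_le_mul_of_nonneg_right h4 (by positivity)).trans ?_
    rw [← Real.exp_add]
    apply Real.exp_le_exp.2
    linarith

end Pool.Agent.RO5
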