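import Pool.Agent.RO5.Defs2
import Pool.Agent.ROH.RepMul
import Pool.Agent.ROH.AuxF
import Pool.Agent.GP.Alg

/-!
Project ROH5, arithmetic: definitions for the generic main theorem.
-/

set_option autoImplicit false

namespace Pool.Agent.RO5

open Complex Finset Polynomial Pool.Agent.ROH Pool.Agent.GP

/-- the algebraic environment: `D0(θ)` is represented -/
structure Base (δ : ℕ) (ω : Fin (δ + 1) → ℂ) (θ : ℂ) (D0 : ℤ[X]) (E : ℕ) (X : ℝ) : Prop where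
  hX : 1 ≤ X
  d : Rep (δ + 1) ω θ (aeval θ D0) E X

/-- a family of entire functions `g a b e (l, t)` whose Taylor coefficients at `l^n t^i` times
`D D0(θ)^(n+p)` are represented, uniformly for `n, i, a, b, e ≤ N`, with `D` and the lengths
`≤ exp (C N log² (N+2))` -/
def RepF (δ : ℕ) (ω : Fin (δ + 1) → ℂ) (θ : ℂ) (D0 : ℤ[X]) (E p : ℕ)
    (g : ℕ → ℕ → ℕ → ℂ → ℂ → ℂ) : Prop :=
  (∀ a b e, Ent2 (g a b e)) ∧ ∃ C : ℝ, 1 ≤ C ∧ ∀ N : ℕ, 1 ≤ N → ∃ D : ℕ, 0 < D ∧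
    (D : ℝ) ≤ Real.exp (C * N * Real.log (N + 2) ^ 2) ∧
    ∀ n ≤ N, ∀ i ≤ N, ∀ a ≤ N, ∀ b ≤ N, ∀ e ≤ N,
      Rep (δ + 1) ω θ (D * aeval θ D0 ^ (n + p) * J (g a b e) n i) ((n + p) * E)
        (Real.exp (C * N * Real.log (N + 2) ^ 2))

end Pool.Agent.RO5
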