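import Pool.Agent.RO5.JDefs
import Pool.Agent.ROH.JetLE

/-!
RO5-JExp. The exponential factor: `J (fun l t => exp(-(κ m l t))) n i = 0` for `n ≠ i` and
`(-κ m)^n / n!` for `n = i`; the common denominator is `N!`.
-/

set_option autoImplicit false

namespace Pool.Agent.RO5

open Complex Finset Polynomial Pool.Agent.ROH Pool.Agent.GP

private theorem je_log (N : ℕ) (hN : 1 ≤ N) : 1 ≤ Real.log (N + 2) := by
  have h1 : (1 : ℝ) ≤ N := by exact_mod_cast hN
  rw [Real.le_log_iff_exp_le (by positivity)]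
  have h2 := Real.exp_one_lt_d9
  linarith

private theorem je_N (N : ℕ) (hN : 1 ≤ N) : (N : ℝ) ≤ N * Real.log (N + 2) ^ 2 := by
  have h1 := je_log N hN
  have h2 : 1 ≤ Real.log (N + 2) ^ 2 := one_le_pow₀ h1
  have h3 : (0 : ℝ) ≤ N := Nat.cast_nonneg N
  nlinarith

private theorem je_one (N : ℕ) (hN : 1 ≤ N) : (1 : ℝ) ≤ N * Real.log (N + 2) ^ 2 := by
  have h1 : (1 : ℝ) ≤ N := by exact_mod_cast hN
  exact h1.trans (je_N N hN)

private theorem je_pow (K : ℝ) (hK : 0 ≤ K) (N : ℕ) (hN : 1 ≤ N) :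
    K ^ N ≤ Real.exp (K * (N * Real.log (N + 2) ^ 2)) := by
  have h1 : K ≤ Real.exp K := by
    have := Real.add_one_le_exp K
    linarith
  calc K ^ N ≤ Real.exp K ^ N := pow_le_pow_left₀ hK h1 N
    _ = Real.exp (N * K) := (Real.exp_nat_mul K N).symm
    _ ≤ _ := by
      apply Real.exp_le_exp.2
      have h2 := mul_le_mul_of_nonneg_left (je_N N hN) hK
      linarith

private theorem je_NN (N : ℕ) (hN : 1 ≤ N) : (N : ℝ) ^ N ≤ Real.exp (N * Real.log (N + 2) ^ 2) := by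
  have h0 : (0 : ℝ) ≤ N := Nat.cast_nonneg N
  have h1 : (N : ℝ) ≤ Real.exp (Real.log (N + 2)) := by
    rw [Real.exp_log (by positivity)]
    linarith
  calc (N : ℝ) ^ N ≤ Real.exp (Real.log (N + 2)) ^ N := pow_le_pow_left₀ h0 h1 N
    _ = Real.exp (N * Real.log (N + 2)) := (Real.exp_nat_mul _ N).symm
    _ ≤ _ := by
      apply Real.exp_le_exp.2
      refine mul_le_mul_of_nonneg_left ?_ h0
      have h2 := je_log N hN
      nlinarith

private theorem je_P (N n : ℕ) (hN : 1 ≤ N) (hn : n ≤ N) (m : ℕ) (hm : m ≤ N) :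
    (m : ℝ) ^ n ≤ Real.exp (N * Real.log (N + 2) ^ 2) := by
  have h0 : (1 : ℝ) ≤ N := by exact_mod_cast hN
  have h1 : (m : ℝ) ≤ N := by exact_mod_cast hm
  calc (m : ℝ) ^ n ≤ (N : ℝ) ^ n := pow_le_pow_left₀ (Nat.cast_nonneg _) h1 n
    _ ≤ (N : ℝ) ^ N := pow_le_pow_right₀ h0 hn
    _ ≤ _ := je_NN N hN

theorem repF_exp {δ : ℕ} {ω : Fin (δ + 1) → ℂ} {θ : ℂ} {D0 : ℤ[X]} {E : ℕ} {X : ℝ}
    (B : Base δ ω θ D0 E X) {κ : ℂ} (hκ : Rep (δ + 1) ω θ (aeval θ D0 * κ) E X)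
    (pr : ℕ → ℕ → ℕ → ℕ) (hpr : ∀ N a b e, a ≤ N → b ≤ N → e ≤ N → pr a b e ≤ N) :
    RepF δ ω θ D0 E 0 (fun a b e l t => cexp (-(κ * pr a b e * l * t))) := by
  have hX := B.hX
  have hY : (1 : ℝ) ≤ ((δ + 1 : ℕ) : ℝ) * X := by
    have h1 : (1 : ℝ) ≤ ((δ + 1 : ℕ) : ℝ) := by exact_mod_cast Nat.succ_le_succ (Nat.zero_le δ)
    nlinarith
  refine ⟨fun a b e => by unfold Ent2; fun_prop, 2 + ((δ + 1 : ℕ) : ℝ) * X, by linarith, ?_⟩
  intro N hN
  have hΦ := je_one N hN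
  have hfac : (N.factorial : ℝ) ≤ Real.exp (N * Real.log (N + 2) ^ 2) := by
    refine le_trans ?_ (je_NN N hN)
    exact_mod_cast Nat.factorial_le_pow N
  refine ⟨N.factorial, Nat.factorial_pos N, ?_, ?_⟩
  · refine hfac.trans (Real.exp_le_exp.2 ?_)
    nlinarith [mul_nonneg (zero_le_one.trans hY) (zero_le_one.trans hΦ)]
  · intro n hn i hi a ha b hb e he
    have hm' := hpr N a b e ha hb he
    have hJ : J ((fun a b e l t => cexp (-(κ * pr a b e * l * t))) a b e) n i =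
        J (Gc (κ * (pr a b e : ℕ))) n i := rfl
    rw [hJ, J_exp, add_zero]
    by_cases hni : n = i
    · rw [if_pos hni]
      obtain ⟨m, hm⟩ := Nat.factorial_dvd_factorial hn
      have hn0 : (n.factorial : ℂ) ≠ 0 := by exact_mod_cast Nat.factorial_ne_zero n
      have key : (N.factorial : ℂ) * aeval θ D0 ^ n * ((-(κ * (pr a b e : ℕ))) ^ n / (n.factorial : ℂ)) =
          (((m : ℤ) * (-(pr a b e : ℤ)) ^ n : ℤ) : ℂ) * (aeval θ D0 * κ) ^ n := by
        rw [hm]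
        push_cast
        have h1 : (-(κ * (pr a b e : ℕ))) ^ n = κ ^ n * (-((pr a b e : ℕ) : ℂ)) ^ n := by
          rw [← mul_pow]
          congr 1
          ring
        rw [mul_pow (aeval θ D0), h1]
        field_simp
      rw [key]
      refine (Rep.mul_pow (Nat.succ_pos δ) hκ (Rep.int ω θ _) n).mono (by omega) ?_
      have hz : |(((m : ℤ) * (-(pr a b e : ℤ)) ^ n : ℤ) : ℝ)| ≤
          Real.exp (N * Real.log (N + 2) ^ 2) * Real.exp (N * Real.log (N + 2) ^ 2) := by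
        push_cast
        rw [abs_mul, abs_pow, abs_neg, Nat.abs_cast, Nat.abs_cast]
        refine mul_le_mul ?_ (je_P N n hN hn _ hm') (by positivity) (by positivity)
        refine le_trans ?_ hfac
        rw [hm]
        have h1 : m ≤ n.factorial * m := Nat.le_mul_of_pos_left m (Nat.factorial_pos n)
        exact_mod_cast h1
      have hp : (((δ + 1 : ℕ) : ℝ) * X) ^ n ≤ Real.exp (((δ + 1 : ℕ) : ℝ) * X * (N * Real.log (N + 2) ^ 2)) :=
        (pow_le_pow_right₀ hY hn).trans (je_pow _ (by linarith) N hN)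
      refine (mul_le_mul hz hp (by positivity) (by positivity)).trans ?_
      rw [← Real.exp_add, ← Real.exp_add]
      apply Real.exp_le_exp.2
      linarith
    · rw [if_neg hni, mul_zero]
      exact (Rep.zero ω θ (n * E)).mono le_rfl (Real.exp_pos _).le

end Pool.Agent.RO5
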