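import Pool.Agent.RO5.JDefs

/-!
RO5-JMul. Products of represented families.
-/

set_option autoImplicit false

namespace Pool.Agent.RO5

open Complex Finset Polynomial Pool.Agent.ROH Pool.Agent.GP

theorem RepF.mul {δ : ℕ} {ω : Fin (δ + 1) → ℂ} {θ : ℂ} {D0 : ℤ[X]} {E p q : ℕ}
    {g h : ℕ → ℕ → ℕ → ℂ → ℂ → ℂ} (hg : RepF δ ω θ D0 E p g) (hh : RepF δ ω θ D0 E q h) :
    RepF δ ω θ D0 E (p + q) (fun a b e l t => g a b e l t * h a b e l t) := by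
  obtain ⟨hgE, Ca, hCa, Ha⟩ := hg
  obtain ⟨hhE, Cb, hCb, Hb⟩ := hh
  have hδ : (0 : ℝ) ≤ δ := Nat.cast_nonneg _
  refine ⟨fun a b e => (hgE a b e).mul (hhE a b e), 2 + δ + Ca + Cb, by linarith, fun N hN => ?_⟩
  obtain ⟨Da, hDa, hDa', Ha⟩ := Ha N hN
  obtain ⟨Db, hDb, hDb', Hb⟩ := Hb N hN
  have hN1 : (1 : ℝ) ≤ N := by exact_mod_cast hN
  have hlog : 1 ≤ Real.log ((N : ℝ) + 2) := by
    rw [Real.le_log_iff_exp_le (by linarith)]
    have := Real.exp_one_lt_d9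
    linarith
  set L : ℝ := Real.log ((N : ℝ) + 2) with hL
  set Λ : ℝ := N * L ^ 2 with hΛ
  have hΛL : L ≤ Λ := by
    rw [hΛ]
    nlinarith [sq_nonneg L]
  have hΛ1 : 1 ≤ Λ := hlog.trans hΛL
  have eqx : ∀ x : ℝ, x * N * L ^ 2 = x * Λ := fun x => by rw [hΛ]; ring
  have hu : ((N : ℝ) + 1) ≤ Real.exp Λ := by
    have h1 : ((N : ℝ) + 2) = Real.exp L := by rw [hL, Real.exp_log (by linarith)]
    have h2 : Real.exp L ≤ Real.exp Λ := Real.exp_le_exp.2 hΛL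
    linarith
  have hv : ((δ : ℝ) + 1) ≤ Real.exp (δ * Λ) := by
    have h1 : (δ : ℝ) + 1 ≤ Real.exp δ := Real.add_one_le_exp _
    have h2 : Real.exp (δ : ℝ) ≤ Real.exp (δ * Λ) := by
      apply Real.exp_le_exp.2
      nlinarith
    linarith
  rw [eqx] at hDa' hDb'
  refine ⟨Da * Db, by positivity, ?_, ?_⟩
  · rw [eqx]
    push_cast
    have h1 : (Da : ℝ) * Db ≤ Real.exp (Ca * Λ) * Real.exp (Cb * Λ) := by
      gcongr
    refine h1.trans ?_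
    rw [← Real.exp_add]
    apply Real.exp_le_exp.2
    have h2 : (0 : ℝ) ≤ δ * Λ := by positivity
    nlinarith
  intro n hn i hi a ha b hb e he
  have pa : 0 < Real.exp (Ca * Λ) := Real.exp_pos _
  have pb : 0 < Real.exp (Cb * Λ) := Real.exp_pos _
  have ra : ∀ n ≤ N, ∀ i ≤ N, Rep (δ + 1) ω θ (Da * aeval θ D0 ^ (n + p) * J (g a b e) n i)
      ((n + p) * E) (Real.exp (Ca * Λ)) := by
    intro n hn i hi
    have := Ha n hn i hi a ha b hb e he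
    rwa [eqx] at this
  have rb : ∀ n ≤ N, ∀ i ≤ N, Rep (δ + 1) ω θ (Db * aeval θ D0 ^ (n + q) * J (h a b e) n i)
      ((n + q) * E) (Real.exp (Cb * Λ)) := by
    intro n hn i hi
    have := Hb n hn i hi a ha b hb e he
    rwa [eqx] at this
  have r := rep_J_mul (hgE a b e) (hhE a b e) N p q Da Db _ _ pa.le pb.le ra rb n i hn hi
  refine r.mono le_rfl ?_
  rw [eqx]
  have h1 : ((N : ℝ) + 1) ^ 2 * ((δ + 1) * Real.exp (Ca * Λ) * Real.exp (Cb * Λ)) ≤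
      Real.exp Λ ^ 2 * (Real.exp (δ * Λ) * Real.exp (Ca * Λ) * Real.exp (Cb * Λ)) := by
    gcongr
  refine h1.trans (le_of_eq ?_)
  simp only [← Real.exp_add, ← Real.exp_nat_mul]
  congr 1
  push_cast
  ring

end Pool.Agent.RO5
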