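import Pool.Agent.RO5.Near

/-!
RO5-Lim. A theta function does not vanish on the curve `(κ s³, s)`.

Plan. For `n = 1, 2, 3, ..` (`s = n` real) choose by `near_lat` lattice points with
`(κ n³, n) = λ_n + p_n`, `‖p_n‖ ≤ R`; a subsequence `p_n → p = (P1, P2)` (compactness of the closed ball).
For fixed `t ∈ ℂ` put `s = n + t/n²`: `κ s³ = κ n³ + 3 κ t + 3 κ t²/n³ + κ t³/n^6`, so
`0 = f(κ s³, s) = f(λ_n + p_n + (3κt + 3κt²/n³ + κt³/n^6, t/n²))`, and by quasi-periodicity (`mf ≠ 0`)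
`f(p_n + (3κt + 3κt²/n³ + κt³/n^6, t/n²)) = 0`; in the limit `f(P1 + 3κt, P2) = 0` for all `t`,
contradiction to `hl P2`.
-/

set_option autoImplicit false

namespace Pool.Agent.RO5

open Complex ComplexConjugate Finset Pool.Agent.ROH


theorem lim_curve {f : ℂ → ℂ → ℂ} (hf : QP5 1 f) (hl : ∀ c, ∃ z, f z c ≠ 0) {κ : ℂ} (hκ : κ ≠ 0)
    (h : ∀ s, f (κ * s ^ 3) s = 0) : False := by
  obtain ⟨R, _, hR⟩ := near_lat
  have hpts : ∀ n : ℕ, ∃ a b : ℤ × ℤ, ‖κ * ((n : ℂ) + 1) ^ 3 - l1 a b‖ ≤ R ∧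
      ‖((n : ℂ) + 1) - l2 a b‖ ≤ R := fun n => hR _ _
  choose a b h1 h2 using hpts
  set p : ℕ → ℂ × ℂ := fun n => (κ * ((n : ℂ) + 1) ^ 3 - l1 (a n) (b n),
    ((n : ℂ) + 1) - l2 (a n) (b n)) with hp
  have hmem : ∀ n, p n ∈ Metric.closedBall (0 : ℂ × ℂ) R := by
    intro n
    rw [mem_closedBall_zero_iff, Prod.norm_def]
    exact max_le (h1 n) (h2 n)
  obtain ⟨P, _, φ, hφ, hlim⟩ := (isCompact_closedBall (0 : ℂ × ℂ) R).tendsto_subseq hmem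
  have hcont : Continuous fun z : ℂ × ℂ => f z.1 z.2 := hf.1.continuous
  have hzero : ∀ t : ℂ, f (P.1 + 3 * κ * t) P.2 = 0 := by
    intro t
    -- the zeros
    have hz : ∀ n : ℕ, f ((p n).1 + κ * (3 * t + 3 * t ^ 2 * (((n : ℂ) + 1) ^ 3)⁻¹ +
        t ^ 3 * (((n : ℂ) + 1) ^ 6)⁻¹)) ((p n).2 + t * (((n : ℂ) + 1) ^ 2)⁻¹) = 0 := by
      intro n
      have hn : ((n : ℂ) + 1) ≠ 0 := by exact_mod_cast Nat.succ_ne_zero n
      have h3 := h (((n : ℂ) + 1) + t * (((n : ℂ) + 1) ^ 2)⁻¹)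
      have h4 := hf.2 (a n) (b n)
        ((p n).1 + κ * (3 * t + 3 * t ^ 2 * (((n : ℂ) + 1) ^ 3)⁻¹ +
          t ^ 3 * (((n : ℂ) + 1) ^ 6)⁻¹)) ((p n).2 + t * (((n : ℂ) + 1) ^ 2)⁻¹)
      have e1 : (p n).1 + κ * (3 * t + 3 * t ^ 2 * (((n : ℂ) + 1) ^ 3)⁻¹ +
          t ^ 3 * (((n : ℂ) + 1) ^ 6)⁻¹) + l1 (a n) (b n) =
          κ * (((n : ℂ) + 1) + t * (((n : ℂ) + 1) ^ 2)⁻¹) ^ 3 := by
        simp only [hp]
        field_simp
        ring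
      have e2 : (p n).2 + t * (((n : ℂ) + 1) ^ 2)⁻¹ + l2 (a n) (b n) =
          ((n : ℂ) + 1) + t * (((n : ℂ) + 1) ^ 2)⁻¹ := by
        simp only [hp]
        ring
      rw [e1, e2, h3, pow_one] at h4
      exact (mul_eq_zero.1 h4.symm).resolve_left (mf_ne _ _ _ _)
    -- limits
    have hinv : Filter.Tendsto (fun n : ℕ => ((((φ n : ℕ) : ℂ) + 1))⁻¹) Filter.atTop (nhds 0) := by
      have h5 : Filter.Tendsto (fun n : ℕ => ((n : ℂ) + 1)⁻¹) Filter.atTop (nhds 0) := by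
        have h6 := tendsto_one_div_add_atTop_nhds_zero_nat (𝕜 := ℂ)
        simpa [one_div] using h6
      exact h5.comp hφ.tendsto_atTop
    have hinvk : ∀ k : ℕ, k ≠ 0 → Filter.Tendsto
        (fun n : ℕ => ((((φ n : ℕ) : ℂ) + 1) ^ k)⁻¹) Filter.atTop (nhds 0) := by
      intro k hk
      have h6 := hinv.pow k
      rw [zero_pow hk] at h6
      refine h6.congr fun n => ?_
      rw [inv_pow]
    have hP1 : Filter.Tendsto (fun n => (p (φ n)).1) Filter.atTop (nhds P.1) :=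
      (continuous_fst.tendsto P).comp hlim
    have hP2 : Filter.Tendsto (fun n => (p (φ n)).2) Filter.atTop (nhds P.2) :=
      (continuous_snd.tendsto P).comp hlim
    have hq1 : Filter.Tendsto (fun n : ℕ => (p (φ n)).1 + κ * (3 * t +
        3 * t ^ 2 * ((((φ n : ℕ) : ℂ) + 1) ^ 3)⁻¹ + t ^ 3 * ((((φ n : ℕ) : ℂ) + 1) ^ 6)⁻¹))
        Filter.atTop (nhds (P.1 + κ * (3 * t + 3 * t ^ 2 * 0 + t ^ 3 * 0))) :=
      hP1.add ((((tendsto_const_nhds (x := 3 * t)).add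
        ((hinvk 3 (by norm_num)).const_mul (3 * t ^ 2))).add
        ((hinvk 6 (by norm_num)).const_mul (t ^ 3))).const_mul κ)
    have hq2 : Filter.Tendsto (fun n : ℕ => (p (φ n)).2 + t * ((((φ n : ℕ) : ℂ) + 1) ^ 2)⁻¹)
        Filter.atTop (nhds (P.2 + t * 0)) :=
      hP2.add ((hinvk 2 (by norm_num)).const_mul t)
    have hfl := (hcont.tendsto (P.1 + κ * (3 * t + 3 * t ^ 2 * 0 + t ^ 3 * 0), P.2 + t * 0)).comp
      (hq1.prodMk_nhds hq2)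
    have hconst : ((fun z : ℂ × ℂ => f z.1 z.2) ∘ fun n : ℕ => ((p (φ n)).1 + κ * (3 * t +
        3 * t ^ 2 * ((((φ n : ℕ) : ℂ) + 1) ^ 3)⁻¹ + t ^ 3 * ((((φ n : ℕ) : ℂ) + 1) ^ 6)⁻¹),
        (p (φ n)).2 + t * ((((φ n : ℕ) : ℂ) + 1) ^ 2)⁻¹)) = fun _ => (0 : ℂ) := by
      funext n
      exact hz (φ n)
    rw [hconst] at hfl
    have hfin := tendsto_nhds_unique hfl tendsto_const_nhds
    simp only [mul_zero, add_zero] at hfin
    rw [← hfin]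
    congr 1
    ring
  obtain ⟨z, hz⟩ := hl P.2
  apply hz
  have h6 := hzero ((z - P.1) / (3 * κ))
  have h3κ : (3 : ℂ) * κ ≠ 0 := mul_ne_zero (by norm_num) hκ
  rwa [mul_div_cancel₀ _ h3κ, add_sub_cancel] at h6

end Pool.Agent.RO5
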