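import Pool.Agent.RO5.MainGen
import Pool.Agent.RO5.JMul
import Pool.Agent.RO5.JExp
import Pool.Agent.RO5.JA
import Pool.Agent.RO5.JB
import Pool.Agent.RO5.JC
import Pool.Agent.RO5.CFL

/-!
RO5-Main5. The main theorem on the periods `v1`, `v2` of the normalised theta function.
-/

set_option autoImplicit false

namespace Pool.Agent.RO5

open Complex Finset Polynomial IntermediateField Pool.Agent.ROH

/-- elements algebraic over `ℚ` -/
private theorem alg_up {θ x : ℂ} (h : IsAlgebraic ℚ x) : IsAlgebraic ℚ⟮θ⟯ x := h.tower_top _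

private theorem alg_eps : IsAlgebraic ℚ (eps : ℂ) := by
  refine ⟨X ^ 2 - X - 1, ?_, ?_⟩
  · intro h
    have h1 := congrArg (fun p : ℚ[X] => p.coeff 0) h
    simp at h1
  · have h1 := eps_sq
    have h2 : (eps : ℂ) ^ 2 = eps + 1 := by exact_mod_cast h1
    simp only [map_sub, map_pow, aeval_X, map_one]
    rw [h2]
    ring

private theorem alg_sg : IsAlgebraic ℚ (sg : ℂ) := by
  refine IsAlgebraic.of_pow (n := 2) (by norm_num) ?_
  have h1 : (sg : ℂ) ^ 2 = (eps : ℂ)⁻¹ := by exact_mod_cast sg_sq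
  rw [h1]
  exact alg_eps.inv

private theorem alg_z1 : IsAlgebraic ℚ z1 := by
  refine ⟨X ^ 5 - 1, ?_, ?_⟩
  · intro h
    have h1 := congrArg (fun p : ℚ[X] => p.coeff 0) h
    simp at h1
  · simp [z1_pow]

private theorem alg_I : IsAlgebraic ℚ I := by
  refine ⟨X ^ 2 + 1, ?_, ?_⟩
  · intro h
    have h1 := congrArg (fun p : ℚ[X] => p.coeff 0) h
    simp at h1
  · simp

private theorem alg_im {z : ℂ} (hz : IsAlgebraic ℚ z) (hc : IsAlgebraic ℚ (starRingEnd ℂ z)) :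
    IsAlgebraic ℚ (z.im : ℂ) := by
  have h1 : (z.im : ℂ) = (z - starRingEnd ℂ z) * (2 * I)⁻¹ := by
    rw [Complex.sub_conj]
    field_simp
    push_cast
    ring
  rw [h1]
  have h2 : IsAlgebraic ℚ (2 : ℂ) := by exact_mod_cast isAlgebraic_natCast (R := ℚ) (A := ℂ) 2
  exact (hz.sub hc).mul (h2.mul alg_I).inv

private theorem alg_c2 : IsAlgebraic ℚ (c2 : ℂ) := by
  have hc : starRingEnd ℂ z2 = epc - 1 - z2 := by
    have := z2_conj
    linear_combination this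
  have hz2 : IsAlgebraic ℚ z2 := by
    unfold z2
    exact alg_z1.pow 2
  have hepc : IsAlgebraic ℚ (epc : ℂ) := by
    have h : (epc : ℂ) = 1 - eps := by
      have := eps_add
      have h2 : (eps : ℂ) + epc = 1 := by exact_mod_cast this
      linear_combination h2
    rw [h]
    exact (isAlgebraic_one).sub alg_eps
  have h1 : IsAlgebraic ℚ (z2.im : ℂ) := by
    refine alg_im hz2 ?_
    rw [hc]
    exact (hepc.sub isAlgebraic_one).sub hz2
  have h5 : IsAlgebraic ℚ ((Real.sqrt 5 : ℝ) : ℂ) := by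
    have h : ((Real.sqrt 5 : ℝ) : ℂ) = 2 * eps - 1 := by
      have := sqrt5
      exact_mod_cast this
    rw [h]
    have h2 : IsAlgebraic ℚ (2 : ℂ) := by exact_mod_cast isAlgebraic_natCast (R := ℚ) (A := ℂ) 2
    exact (h2.mul alg_eps).sub isAlgebraic_one
  have h3 : (c2 : ℂ) = -epc * ((Real.sqrt 5 : ℝ) : ℂ)⁻¹ * (z2.im : ℂ)⁻¹ := by
    unfold c2 k2
    push_cast
    ring
  rw [h3]
  exact ((hepc.neg).mul h5.inv).mul h1.inv

private theorem alg_c1 : IsAlgebraic ℚ (c1 : ℂ) := by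
  have h : (c1 : ℂ) = eps * c2 := by exact_mod_cast c1_eq
  rw [h]
  exact alg_eps.mul alg_c2

theorem main5 (hG : GelfondForm) {v1 v2 k : ℂ} (hv1 : v1 ≠ 0) (hv2 : v2 ≠ 0) (hk : k ≠ 0)
    (hent : Ent2 (fun U1 U2 => k * T (U1 / v1) (U2 / v2)))
    (hT : RatTay2 (fun U1 U2 => k * T (U1 / v1) (U2 / v2))) {θ : ℂ} (hθ : Transcendental ℚ θ)
    (h1 : IsAlgebraic ℚ⟮θ⟯ (v2 / v1)) (h2 : IsAlgebraic ℚ⟮θ⟯ ((Real.pi : ℂ) / (v1 * v2))) :
    False := by
  have he := alg_up (θ := θ) alg_eps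
  have hs := alg_up (θ := θ) alg_sg
  have hc1 := alg_up (θ := θ) alg_c1
  have hc2 := alg_up (θ := θ) alg_c2
  have hsg : (sg : ℂ) ≠ 0 := by exact_mod_cast sg_pos.ne'
  have hα : IsAlgebraic ℚ⟮θ⟯ (1 / (sg : ℂ)) := by
    rw [one_div]
    exact hs.inv
  have hβ : IsAlgebraic ℚ⟮θ⟯ (v2 / (sg * v1)) := by
    have e : v2 / (sg * v1) = (v2 / v1) * (sg : ℂ)⁻¹ := by field_simp
    rw [e]
    exact h1.mul hs.inv
  have hn2 : IsAlgebraic ℚ⟮θ⟯ (2 : ℂ) := by
    exact_mod_cast isAlgebraic_natCast (R := ℚ⟮θ⟯) (A := ℂ) 2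
  have hκ1 : IsAlgebraic ℚ⟮θ⟯ (2 * alc * sg / (v1 * v2)) := by
    have e : 2 * (alc : ℂ) * sg / (v1 * v2) = (c1 * sg) * ((Real.pi : ℂ) / (v1 * v2)) := by
      unfold alc
      push_cast
      field_simp
    rw [e]
    exact (hc1.mul hs).mul h2
  have hκ2 : IsAlgebraic ℚ⟮θ⟯ (2 * bec * sg / v1 ^ 2) := by
    have e : 2 * (bec : ℂ) * sg / v1 ^ 2 =
        (c2 * (1 + eps ^ 2) * sg) * ((Real.pi : ℂ) / (v1 * v2)) * (v2 / v1) := by
      unfold bec
      push_cast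
      field_simp
    rw [e]
    exact ((((hc2.mul (isAlgebraic_one.add (he.pow 2))).mul hs)).mul h2).mul h1
  obtain ⟨δ, ω, D0, E, X, hω0, hD0, hli, hrep⟩ := Pool.Agent.GP.exists_basis hθ
    (![(eps : ℂ), 1 / (sg : ℂ), v2 / (sg * v1), v2 / v1, 2 * alc * sg / (v1 * v2),
      2 * bec * sg / v1 ^ 2] : Fin 6 → ℂ)
    (by
      intro i
      fin_cases i
      · exact he
      · exact hα
      · exact hβ
      · exact h1
      · exact hκ1
      · exact hκ2)
  set E' : ℕ := max E D0.natDegree with hE'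
  set X' : ℝ := max 1 (max X (Pool.Agent.GP.l1 D0)) with hX'
  have hEE : E ≤ E' := le_max_left _ _
  have hXX : X ≤ X' := (le_max_left _ _).trans (le_max_right _ _)
  have B : Base δ ω θ D0 E' X' :=
    ⟨le_max_left _ _, (Pool.Agent.GP.Rep.poly ω θ D0).mono (le_max_right _ _)
      ((le_max_right _ _).trans (le_max_right _ _))⟩
  have r0 := (hrep 0).mono hEE hXX
  have r1 := (hrep 1).mono hEE hXX
  have r2 := (hrep 2).mono hEE hXX
  have r3 := (hrep 3).mono hEE hXX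
  have r4 := (hrep 4).mono hEE hXX
  have r5 := (hrep 5).mono hEE hXX
  set f : ℂ → ℂ → ℂ := fun U1 U2 => k * T (U1 / v1) (U2 / v2) with hf
  have J1 := (repF_A B r2 hent hT).mul (repF_exp B r4 (fun _ _ e => e) (fun N a b e _ _ h => h))
  have J2 := ((repF_B B r1 r3 hent hT).mul (repF_C B r1 r3 r0 hent hT)).mul
    (repF_exp B r5 (fun _ b _ => b) (fun N a b e _ h _ => h))
  refine main_gen hG hθ hω0 hD0 hli (mkC k hk) (r1 := sg / v2) (r2 := sg / v1) (μ := 1 / v1)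
    (div_ne_zero hsg hv2) (div_ne_zero hsg hv1) (one_div_ne_zero hv1) J1 J2 ?_ ?_
  · intro n a b e l
    exact F_lin hv1 hv2 hk hf n a b e l
  · intro n a b e l
    exact H_lin hv1 hv2 hk hf n a b e l

end Pool.Agent.RO5
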