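import Pool.Agent.RO5.PolyG
import Pool.Agent.ROH.Main

/-!
RO5-MainGen. The generic main theorem (generic form of ROH/Main `mainV`, copy it; also ROH8/GMain).

Plan. As `mainV`: `c.exists_lower`, `c.exists_zero_estimate`, `c.exists_aux r1 r2 θ`, `norm_pc_le r1 r2 θ`,
`c.exists_taylor_small`, `exists_int_dir .. μ hμ`, `iteratedDeriv_scale`, `poly_xiG` (RO5/PolyG). `caseA` is needed in the
form with `r1, r2 ≠ 0` complex: `Σ_d N k j d θ^d = (r1⁻¹)^k (r2⁻¹)^j pc ..` (copy `caseA` with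
`W = max 1 (max ‖r1⁻¹‖ ‖r2⁻¹‖)`); `caseB_num C0 (1/‖μ‖)` gives the factor `((ν+1)(1+‖μ‖))^ν`, and
`‖m μ‖ ≤ (ν+1)(1+‖μ‖)` for `m ≤ ν`.
-/

set_option autoImplicit false

namespace Pool.Agent.RO5

open Complex Finset Polynomial Pool.Agent.ROH Pool.Agent.GP

private theorem mg_caseA (r1 r2 : ℂ) (hr1 : r1 ≠ 0) (hr2 : r2 ≠ 0) (θ : ℂ) : ∃ n0 : ℕ, ∀ n : ℕ, n0 ≤ n →
    ∀ N : ℕ → ℕ → ℕ → ℤ, (∀ k j d, |(N k j d : ℝ)| ≤ Real.exp ((n : ℝ) ^ 13)) →
      (∃ k < n ^ 12, ∃ j < n ^ 12, ∃ d < n ^ 8, N k j d ≠ 0) →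
      (∀ k < n ^ 12, ∀ j < n ^ 12,
        ‖pc r1 r2 θ (n ^ 8) N k j‖ ≤ Real.exp (-((n : ℝ) ^ 22 / 2))) →
      ∃ P : ℤ[X], P ≠ 0 ∧ (P.natDegree : ℝ) ≤ (n : ℝ) ^ 8 ∧
        (∀ i, |(P.coeff i : ℝ)| ≤ Real.exp ((n : ℝ) ^ 13)) ∧
        ‖aeval θ P‖ ≤ Real.exp (-((n : ℝ) ^ 22 / 3)) := by
  obtain ⟨v1, hv1e⟩ : ∃ v : ℝ, v = ‖r1⁻¹‖ := ⟨_, rfl⟩
  obtain ⟨v2, hv2e⟩ : ∃ v : ℝ, v = ‖r2⁻¹‖ := ⟨_, rfl⟩
  have hv1 : 0 < v1 := by rw [hv1e]; exact norm_pos_iff.2 (inv_ne_zero hr1)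
  have hv2 : 0 < v2 := by rw [hv2e]; exact norm_pos_iff.2 (inv_ne_zero hr2)
  set W : ℝ := max 1 (max v1 v2) with hW
  have hW1 : 1 ≤ W := le_max_left _ _
  have hr1' : v1 ≤ W := (le_max_left _ _).trans (le_max_right _ _)
  have hr2' : v2 ≤ W := (le_max_right _ _).trans (le_max_right _ _)
  obtain ⟨n0, hn0⟩ := pow_le_of_ev (12 * Real.log W) 12 22 (by norm_num)
  refine ⟨n0, fun n hn N hN hne hsm => ?_⟩
  obtain ⟨k, hk, j, hj, d, hd, hNd⟩ := hne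
  have hcoef : ∀ i, (∑ d ∈ range (n ^ 8), monomial d (N k j d) : ℤ[X]).coeff i =
      if i < n ^ 8 then N k j i else 0 := by
    intro i
    rw [finsetSum_coeff]
    simp only [coeff_monomial]
    rw [Finset.sum_ite_eq']
    simp
  refine ⟨∑ d ∈ range (n ^ 8), monomial d (N k j d), ?_, ?_, ?_, ?_⟩
  · intro h
    have := hcoef d
    rw [h, if_pos hd, coeff_zero] at this
    exact hNd this.symm
  · have : (∑ d ∈ range (n ^ 8), monomial d (N k j d) : ℤ[X]).natDegree ≤ n ^ 8 := by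
      rw [natDegree_le_iff_coeff_eq_zero]
      intro i hi
      rw [hcoef, if_neg (by omega)]
    exact_mod_cast this
  · intro i
    rw [hcoef]
    split_ifs
    · exact hN _ _ _
    · simp [Real.exp_nonneg]
  · have e1 : aeval θ (∑ d ∈ range (n ^ 8), monomial d (N k j d) : ℤ[X]) =
        ∑ d ∈ range (n ^ 8), (N k j d : ℂ) * θ ^ d := by
      rw [map_sum]
      refine Finset.sum_congr rfl fun d _ => ?_
      rw [aeval_monomial]
      simp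
    have e2 : ∑ d ∈ range (n ^ 8), (N k j d : ℂ) * θ ^ d =
        (r1⁻¹) ^ k * (r2⁻¹) ^ j * pc r1 r2 θ (n ^ 8) N k j := by
      unfold pc
      rw [inv_pow, inv_pow]
      field_simp
    rw [e1, e2, norm_mul, norm_mul, norm_pow, norm_pow, ← hv1e, ← hv2e]
    have hlog : 0 ≤ Real.log W := Real.log_nonneg hW1
    have e3 : v1 ^ k * v2 ^ j ≤ Real.exp ((n : ℝ) ^ 12 * Real.log W) *
        Real.exp ((n : ℝ) ^ 12 * Real.log W) := by
      have hWexp : W ^ (n ^ 12) = Real.exp ((n : ℝ) ^ 12 * Real.log W) := by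
        have : ((n ^ 12 : ℕ) : ℝ) * Real.log W = (n : ℝ) ^ 12 * Real.log W := by push_cast; ring
        rw [← this, ← Real.log_pow, Real.exp_log (by positivity)]
      rw [← hWexp]
      refine mul_le_mul ?_ ?_ (by positivity) (by positivity)
      · exact (pow_le_pow_left₀ hv1.le hr1' k).trans (pow_le_pow_right₀ hW1 hk.le)
      · exact (pow_le_pow_left₀ hv2.le hr2' j).trans (pow_le_pow_right₀ hW1 hj.le)
    refine (mul_le_mul e3 (hsm k hk j hj) (norm_nonneg _) (by positivity)).trans ?_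
    rw [← Real.exp_add, ← Real.exp_add]
    apply Real.exp_le_exp.2
    have := hn0 n hn
    nlinarith

theorem main_gen (hG : GelfondForm) {δ : ℕ} {ω : Fin (δ + 1) → ℂ} {θ : ℂ}
    (hθ : Transcendental ℚ θ) {D0 : ℤ[X]}
    {E p q : ℕ} (hω0 : ω 0 = 1) (hD0 : D0 ≠ 0)
    (hli : ∀ s : Fin (δ + 1) → ℤ[X], ∑ m, aeval θ (s m) * ω m = 0 → s = 0) (c : Core)
    {r1 r2 μ : ℂ} (hr1 : r1 ≠ 0) (hr2 : r2 ≠ 0) (hμ : μ ≠ 0)
    {g1 g2 : ℕ → ℕ → ℕ → ℂ → ℂ → ℂ} (h1 : RepF δ ω θ D0 E p g1)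
    (h2 : RepF δ ω θ D0 E q g2)
    (hF : ∀ (k a b e : ℕ) (l : ℂ), r1 ^ k * c.F k (l * (a * μ)) (l * (b * μ)) (l * (e * μ)) =
      iteratedDeriv k (g1 a b e l) 0)
    (hH : ∀ (j a b e : ℕ) (l : ℂ), r2 ^ j * c.H j (l * (a * μ)) (l * (b * μ)) (l * (e * μ)) =
      iteratedDeriv j (g2 a b e l) 0) : False := by
  obtain ⟨v1, hv1e⟩ : ∃ v : ℝ, v = 1 / ‖μ‖ := ⟨_, rfl⟩
  have hv1 : 0 < v1 := by rw [hv1e]; exact one_div_pos.2 (norm_pos_iff.2 hμ)
  -- constants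
  obtain ⟨CL, hCL1, hlow⟩ := c.exists_lower
  obtain ⟨CZ, hCZ1, K0, hzero⟩ := c.exists_zero_estimate (CL + 1)
  obtain ⟨C0, hC0⟩ := exists_nat_ge CZ
  have hC01 : (1 : ℝ) ≤ C0 := hCZ1.trans hC0
  obtain ⟨CP, nP0, hpoly⟩ := poly_xiG hθ hω0 hD0 hli c h1 h2 hF hH C0
  obtain ⟨na, haux⟩ := c.exists_aux r1 r2 θ
  obtain ⟨nb, hpc⟩ := norm_pc_le r1 r2 θ
  obtain ⟨nc, hcA⟩ := mg_caseA r1 r2 hr1 hr2 θ
  obtain ⟨g0, htay⟩ := c.exists_taylor_small
  obtain ⟨nd, hnum⟩ := caseB_num C0 v1 hv1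
  obtain ⟨ne, hlg⟩ : ∃ ne : ℕ, ∀ n : ℕ, ne ≤ n →
      (((n ^ 12 : ℕ) : ℝ)) * Real.log (((n ^ 12 : ℕ) : ℝ) + 1) ≤ (((n ^ 11 : ℕ) : ℝ)) ^ 2 := by
    obtain ⟨m, hm⟩ := pow_le_of_ev 16 13 22 (by norm_num)
    refine ⟨max m 1, fun n hn => ?_⟩
    have hn1 : (1 : ℝ) ≤ n := by exact_mod_cast (le_max_right _ _).trans hn
    have h1 := hm n ((le_max_left _ _).trans hn)
    have h2 : Real.log (((n ^ 12 : ℕ) : ℝ) + 1) ≤ 13 * n := by
      have h3 : (((n ^ 12 : ℕ) : ℝ) + 1) ≤ (2 * (n : ℝ)) ^ 12 := by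
        push_cast
        have : (1 : ℝ) ≤ (n : ℝ) ^ 12 := one_le_pow₀ hn1
        nlinarith [mul_pow (2 : ℝ) (n : ℝ) 12]
      calc Real.log (((n ^ 12 : ℕ) : ℝ) + 1) ≤ Real.log ((2 * (n : ℝ)) ^ 12) :=
            Real.log_le_log (by positivity) h3
        _ = 12 * Real.log (2 * n) := by rw [Real.log_pow]; norm_num
        _ ≤ 13 * n := by
            have h4 : Real.log (2 * (n : ℝ)) = Real.log 2 + Real.log n :=
              Real.log_mul (by norm_num) (by positivity)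
            have h5 : Real.log (n : ℝ) ≤ n - 1 := Real.log_le_sub_one_of_pos (by positivity)
            have h6 : Real.log 2 ≤ 1 := by
              have := Real.log_two_lt_d9
              linarith
            rw [h4]
            nlinarith
    calc (((n ^ 12 : ℕ) : ℝ)) * Real.log (((n ^ 12 : ℕ) : ℝ) + 1) ≤ ((n ^ 12 : ℕ) : ℝ) * (13 * n) := by
          gcongr
      _ ≤ (((n ^ 11 : ℕ) : ℝ)) ^ 2 := by
          push_cast
          have : (n : ℝ) ^ 12 * (13 * n) = 13 * (n : ℝ) ^ 13 := by ring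
          have h7 : (0 : ℝ) ≤ (n : ℝ) ^ 13 := by positivity
          nlinarith [show ((n : ℝ) ^ 11) ^ 2 = (n : ℝ) ^ 22 by ring]
  -- Gelfond
  refine hG θ hθ (max 1 CP) (max nP0 (max na (max nb (max nc (max g0 (max nd (max ne
    (max K0 1)))))))) fun n hn => ?_
  have hnP0 : nP0 ≤ n := (le_max_left _ _).trans hn
  have hn1' := (le_max_right _ _).trans hn
  have hna : na ≤ n := (le_max_left _ _).trans hn1'
  have hn2' := (le_max_right _ _).trans hn1'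
  have hnb : nb ≤ n := (le_max_left _ _).trans hn2'
  have hn3' := (le_max_right _ _).trans hn2'
  have hnc : nc ≤ n := (le_max_left _ _).trans hn3'
  have hn4' := (le_max_right _ _).trans hn3'
  have hg0 : g0 ≤ n := (le_max_left _ _).trans hn4'
  have hn5' := (le_max_right _ _).trans hn4'
  have hnd : nd ≤ n := (le_max_left _ _).trans hn5'
  have hn6' := (le_max_right _ _).trans hn5'
  have hne : ne ≤ n := (le_max_left _ _).trans hn6'
  have hn7' := (le_max_right _ _).trans hn6'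
  have hK0 : K0 ≤ n := (le_max_left _ _).trans hn7'
  have hn1 : 1 ≤ n := (le_max_right _ _).trans hn7'
  have hn1R : (1 : ℝ) ≤ n := by exact_mod_cast hn1
  have hpow : ∀ a : ℕ, 0 < a → n ≤ n ^ a := fun a ha => Nat.le_self_pow ha.ne' n
  obtain ⟨N, hNne, hN, hS⟩ := haux n hna
  set p := pc r1 r2 θ (n ^ 8) N with hp
  by_cases hcase : ∀ k < n ^ 12, ∀ j < n ^ 12, ‖p k j‖ ≤ Real.exp (-((n : ℝ) ^ 22 / 2))
  · obtain ⟨P, hP0, hPd, hPc, hPθ⟩ := hcA n hnc N hN hNne hcase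
    refine ⟨P, hP0, hPd.trans ?_, fun i => (hPc i).trans ?_, hPθ⟩
    · exact le_mul_of_one_le_left (by positivity) (le_max_left _ _)
    · exact Real.exp_le_exp.2 (le_mul_of_one_le_left (by positivity) (le_max_left _ _))
  · push Not at hcase
    obtain ⟨k, hk, j, hj, hkj⟩ := hcase
    have hK1 : 1 ≤ n ^ 12 := Nat.one_le_pow _ _ hn1
    have h22 : (n : ℝ) ^ 22 ≤ (n : ℝ) ^ 24 := pow_le_pow_right₀ hn1R (by norm_num)
    have hKK : (((n ^ 12 : ℕ) : ℝ)) ^ 2 = (n : ℝ) ^ 24 := by push_cast; ring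
    have hCL0 : 0 < CL := by linarith
    -- the lower bound of S
    have hSlow : Real.exp (-((CL + 1) * (((n ^ 12 : ℕ) : ℝ)) ^ 2)) ≤ c.S (n ^ 12) p 0 := by
      have h1 := hlow (n ^ 12) p hK1
      have h2 := (hkj.le.trans (nP_ge p hk hj)).trans h1
      have h4 : Real.exp (-((n : ℝ) ^ 22 / 2)) * Real.exp (-(CL * (((n ^ 12 : ℕ) : ℝ)) ^ 2)) ≤
          c.S (n ^ 12) p 0 := by
        calc _ ≤ c.S (n ^ 12) p 0 * Real.exp (CL * (((n ^ 12 : ℕ) : ℝ)) ^ 2) *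
              Real.exp (-(CL * (((n ^ 12 : ℕ) : ℝ)) ^ 2)) := by gcongr
          _ = _ := by rw [mul_assoc, ← Real.exp_add, add_neg_cancel, Real.exp_zero, mul_one]
      refine le_trans ?_ h4
      rw [← Real.exp_add]
      apply Real.exp_le_exp.2
      rw [hKK]
      have : (0 : ℝ) ≤ (n : ℝ) ^ 22 := by positivity
      nlinarith
    have hpn : ∀ k < n ^ 12, ∀ j < n ^ 12, ‖p k j‖ ≤ Real.exp ((n : ℝ) ^ 22) :=
      fun k hk j hj => hpc n hnb N hN k hk j hj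
    -- the order of vanishing
    have hVan : ¬ c.Van (n ^ 12) p (C0 * n ^ 8 + 1) := by
      intro hV
      have h1 := hzero (n ^ 12) p (C0 * n ^ 8 + 1) (hK0.trans (hpow 12 (by norm_num)))
        (fun k hk j hj => (hpn k hk j hj).trans (Real.exp_le_exp.2 ?_)) hSlow hV
      · rw [hKK] at h1
        have h2 : ((C0 : ℝ) * (n : ℝ) ^ 8) ^ 3 < (((C0 * n ^ 8 + 1 : ℕ) : ℝ)) ^ 3 := by
          push_cast
          exact pow_lt_pow_left₀ (by linarith) (by positivity) (by norm_num)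
        have h3 : CZ * (n : ℝ) ^ 24 ≤ ((C0 : ℝ) * (n : ℝ) ^ 8) ^ 3 := by
          have e : ((C0 : ℝ) * (n : ℝ) ^ 8) ^ 3 = (C0 : ℝ) ^ 3 * (n : ℝ) ^ 24 := by ring
          rw [e]
          have h4 : CZ ≤ (C0 : ℝ) ^ 3 := hC0.trans (le_self_pow₀ hC01 (by norm_num))
          gcongr
        linarith
      · rw [hKK]
        nlinarith [show (0 : ℝ) ≤ (n : ℝ) ^ 24 by positivity]
    obtain ⟨ν, hν, a, b, e, ha, hb, he, hne0⟩ := exists_int_dir c (n ^ 12) p (C0 * n ^ 8 + 1) hVan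
      μ hμ
    have hν' : ν ≤ C0 * n ^ 8 := by omega
    -- smallness
    have hM : Real.log (Real.exp ((n : ℝ) ^ 22)) ≤ (((n ^ 11 : ℕ) : ℝ)) ^ 2 := by
      rw [Real.log_exp]
      push_cast
      exact le_of_eq (by ring)
    have hS' : c.S (n ^ 12) p 0 ≤ Real.exp (-(((n ^ 11 : ℕ) : ℝ)) ^ 2) := by
      refine hS.trans (le_of_eq ?_)
      congr 2
      push_cast
      ring
    have hT := htay (n ^ 11) (hg0.trans (hpow 11 (by norm_num))) (n ^ 12) p (Real.exp ((n : ℝ) ^ 22)) hK1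
      (hlg n hne) (Real.one_le_exp (by positivity)) hM hpn hS'
    have hρ : 0 < ((ν : ℝ) + 1) * (1 + 1 / v1) := by positivity
    have hdir : ∀ m : ℕ, m ≤ ν → ‖(m : ℂ) * μ‖ ≤ ((ν : ℝ) + 1) * (1 + 1 / v1) := by
      intro m hm
      have hm' : (m : ℝ) ≤ ν := by exact_mod_cast hm
      have h0 : 0 < 1 / v1 := by positivity
      have h00 : ‖μ‖ = 1 / v1 := by rw [hv1e, one_div_one_div]
      rw [norm_mul, h00, Complex.norm_natCast]
      calc (m : ℝ) * (1 / v1) ≤ ν * (1 / v1) := by gcongr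
        _ ≤ ((ν : ℝ) + 1) * (1 + 1 / v1) := by nlinarith
    have hsc := iteratedDeriv_scale (f := c.f (n ^ 12) p) (c.differentiable_f (n ^ 12) p) ν _ _ hρ
      (fun x y w hx hy hw => hT x y w hx hy hw ν) _ _ _ (hdir a ha) (hdir b hb) (hdir e he)
    have hfin : ‖iteratedDeriv ν (fun t : ℂ => c.f (n ^ 12) p (t * (a * μ))
        (t * (b * μ)) (t * (e * μ))) 0‖ ≤ Real.exp (-(9 / 20 * (n : ℝ) ^ 22)) := by
      refine hsc.trans ?_
      have := hnum n hnd ν hν'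
      push_cast
      exact this
    obtain ⟨P, hP0, hPd, hPc, hPθ⟩ := hpoly n hnP0 N hN ν hν' a b e ha hb he hne0 hfin
    refine ⟨P, hP0, hPd.trans ?_, fun i => (hPc i).trans ?_, hPθ⟩
    · exact mul_le_mul_of_nonneg_right (le_max_right _ _) (by positivity)
    · exact Real.exp_le_exp.2 (mul_le_mul_of_nonneg_right (le_max_right _ _) (by positivity))

end Pool.Agent.RO5
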