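import Pool.Agent.RO5.PQ
import Pool.Agent.RO5.CalA
import Pool.Agent.RO5.CalB

/-!
RO5-PD. The differential equation of the graph `u1 = G(u2)`.

`Pij = Dn i j f (G z) z`. Differentiate `f (G z) z = 0` (`hasDerivAt_comp2`): `P10 G' + P01 = 0`, so `q := G' = - P01/P10`. Derivatives along the graph: `(P01)' = P11 q + 2 P02`,
`(P10)' = 2 P20 q + P11` (`D_D`, `Dn 1 1 = D 1 1`, `Dn 0 2 = D 0 2 / 2`, ...). Hence `q' = -2 (P20 q² + P11 q + P02)/P10` and by `sq_identity`: `q'² = 4 (q - q⁶)` for `‖z‖ < δ`.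
At `z = 0`: `P01 = 0`, `P02 = 0` , `P11 = 0`, `P20 = 0` (`odd`: all `J f i j` with `i + j` even vanish; `J f 0 1 = 0` by `sym`: `(ζ² - ζ) J f 0 1 = 0`; or use `hJ01`), `P10 = 1`, `P03 = -1/3`, so
`q(0) = 0`, `q'(0) = 0`, and `q''(0) = -2 (3 P03)/P10 = 2` (differentiate `q' P10 = -2 (P20 q² + P11 q + P02)` at `0`; `(P02)' = P12 q + 3 P03`). So `q'` is not locally zero; it is
analytic, hence `q' ≠ 0` for `0 < ‖z‖ < δ'` (`AnalyticAt.eventually_eq_zero_or_eventually_ne_zero`). Differentiate `q'² = 4 (q - q⁶)`: `2 q' q'' = 4 q' (1 - 6 q⁵)`, so `q'' = 2 - 12 q⁵` for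
`0 < ‖z‖ < δ'`, and at `0` since `q''(0) = 2`.
-/

set_option autoImplicit false

namespace Pool.Agent.RO5

open Complex Finset Pool.Agent.ROH

private theorem PD_nb {δ : ℝ} {z : ℂ} (hz : ‖z‖ < δ) : ∀ᶠ t in nhds z, ‖t‖ < δ :=
  (isOpen_lt continuous_norm continuous_const).mem_nhds hz

private theorem PD_mem {δ : ℝ} {z : ℂ} (hz : ‖z‖ < δ) : Metric.ball (0 : ℂ) δ ∈ nhds z :=
  Metric.isOpen_ball.mem_nhds (by simpa using hz)

private theorem PD_ch {G : ℂ → ℂ} {δ : ℝ} (hG : DifferentiableOn ℂ G (Metric.ball 0 δ))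
    {g : ℂ → ℂ → ℂ} (hg : Ent2 g) {z : ℂ} (hz : ‖z‖ < δ) :
    HasDerivAt (fun t => g (G t) t) (D 1 0 g (G z) z * deriv G z + D 0 1 g (G z) z) z := by
  have h1 : HasDerivAt G (deriv G z) z := (hG.differentiableAt (PD_mem hz)).hasDerivAt
  have h2 := hasDerivAt_comp2 hg h1 (hasDerivAt_id z)
  rw [mul_one] at h2
  exact h2

private theorem PD_J01 {f : ℂ → ℂ → ℂ} {b : ℂ} (h : NFT f b) : D 0 1 f 0 0 = 0 := by
  have hz1 : IsPrimitiveRoot z1 5 := by
    have h1 := Complex.isPrimitiveRoot_exp 5 (by norm_num)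
    have h2 : z1 = Complex.exp (2 * Real.pi * Complex.I / ((5 : ℕ) : ℂ)) := by
      unfold z1
      norm_num
    rw [h2]
    exact h1
  have hne : z2 ≠ z1 := by
    intro h3
    have h4 : z1 ^ 2 = z1 ^ 1 := by rw [pow_one]; exact h3
    have h5 := hz1.pow_inj (by norm_num) (by norm_num) h4
    norm_num at h5
  have e : D 0 1 f 0 0 = deriv (fun y => f 0 y) 0 := by
    simp only [D, iteratedDeriv_one, iteratedDeriv_zero]
  have hd : HasDerivAt (fun y : ℂ => f 0 y) (D 0 1 f 0 0) 0 := by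
    rw [e]
    have h1 : Differentiable ℂ (fun y : ℂ => ((0 : ℂ), y)) := by fun_prop
    have h2 := (Differentiable.comp (g := fun z : ℂ × ℂ => f z.1 z.2) h.ent h1)
    exact (h2 0).hasDerivAt
  have h6 : HasDerivAt (fun y : ℂ => f 0 (z2 * y)) (z2 * D 0 1 f 0 0) 0 := by
    have h7 : HasDerivAt (fun y : ℂ => z2 * y) z2 0 := by
      simpa using (hasDerivAt_id (0 : ℂ)).const_mul z2
    have h8 : HasDerivAt (fun y : ℂ => f 0 y) (D 0 1 f 0 0) (z2 * 0) := by
      rw [mul_zero]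
      exact hd
    have h9 := h8.comp 0 h7
    rw [mul_comm] at h9
    exact h9
  have h10 : (fun y : ℂ => f 0 (z2 * y)) = fun y => z1 * f 0 y := by
    funext y
    have := h.sym 0 y
    rwa [mul_zero] at this
  rw [h10] at h6
  have h11 := h6.unique (hd.const_mul z1)
  have h12 : (z2 - z1) * D 0 1 f 0 0 = 0 := by rw [sub_mul, h11, sub_self]
  exact (mul_eq_zero.1 h12).resolve_left (sub_ne_zero.2 hne)

theorem graph_ode {f : ℂ → ℂ → ℂ} {b : ℂ} (h : NFT f b) {G : ℂ → ℂ} {δ η : ℝ} (hG : Gr f G δ η) :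
    ∃ r : ℝ, r ≤ δ ∧ GrOde G r := by
  have hf : Ent2 f := h.ent
  have hq : DifferentiableOn ℂ (deriv G) (Metric.ball 0 δ) := hG.diff.deriv Metric.isOpen_ball
  have hqq : DifferentiableOn ℂ (deriv (deriv G)) (Metric.ball 0 δ) :=
    hq.deriv Metric.isOpen_ball
  have dq : ∀ z : ℂ, ‖z‖ < δ → HasDerivAt (deriv G) (deriv (deriv G) z) z := fun z hz =>
    (hq.differentiableAt (PD_mem hz)).hasDerivAt
  have dqq : ∀ z : ℂ, ‖z‖ < δ → HasDerivAt (deriv (deriv G)) (deriv (deriv (deriv G)) z) z :=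
    fun z hz => (hqq.differentiableAt (PD_mem hz)).hasDerivAt
  -- first derivative
  have E1 : ∀ z : ℂ, ‖z‖ < δ → D 1 0 f (G z) z * deriv G z + D 0 1 f (G z) z = 0 := by
    intro z hz
    have h2 : HasDerivAt (fun t => f (G t) t) 0 z :=
      (hasDerivAt_const z (0 : ℂ)).congr_of_eventuallyEq
        ((PD_nb hz).mono fun t ht => hG.zero t ht)
    exact (PD_ch hG.diff hf hz).unique h2
  -- second derivative
  have E2 : ∀ z : ℂ, ‖z‖ < δ → D 1 0 f (G z) z * deriv (deriv G) z =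
      -(D 2 0 f (G z) z * deriv G z ^ 2 + 2 * D 1 1 f (G z) z * deriv G z + D 0 2 f (G z) z) := by
    intro z hz
    have c1 := PD_ch hG.diff (ent2_D hf 1 0) hz
    have c2 := PD_ch hG.diff (ent2_D hf 0 1) hz
    have h3 := (c1.mul (dq z hz)).add c2
    have h4 : HasDerivAt (fun t => D 1 0 f (G t) t * deriv G t + D 0 1 f (G t) t) 0 z :=
      (hasDerivAt_const z (0 : ℂ)).congr_of_eventuallyEq
        ((PD_nb hz).mono fun t ht => E1 t ht)
    have h5 := h3.unique h4
    rw [D_D hf, D_D hf, D_D hf, D_D hf] at h5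
    norm_num at h5
    linear_combination h5
  -- the square
  have E3 : ∀ z : ℂ, ‖z‖ < δ → deriv (deriv G) z ^ 2 = 4 * (deriv G z - deriv G z ^ 6) := by
    intro z hz
    have h1 := hG.d1 z hz
    have h2 : Dn 0 1 f (G z) z = -(deriv G z * Dn 1 0 f (G z) z) := by
      simp only [Dn, Nat.factorial]
      have := E1 z hz
      push_cast
      linear_combination this
    have h3 := sq_identity h.toNF (hG.zero z hz) h2
    simp only [Dn, Nat.factorial] at h3
    push_cast at h3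
    have h4 := E2 z hz
    have h5 : D 1 0 f (G z) z ^ 2 * (deriv (deriv G) z ^ 2 - 4 * (deriv G z - deriv G z ^ 6)) = 0 := by
      linear_combination (D 1 0 f (G z) z * deriv (deriv G) z - (D 2 0 f (G z) z * deriv G z ^ 2 +
        2 * D 1 1 f (G z) z * deriv G z + D 0 2 f (G z) z)) * h4 + 4 * h3
    have h6 := (mul_eq_zero.1 h5).resolve_left (pow_ne_zero 2 h1)
    linear_combination h6
  have z0 : ‖(0 : ℂ)‖ < δ := by simpa using hG.hδ
  have P10 : D 1 0 f 0 0 = 1 := by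
    have := h.J10
    rw [J_eq_Dn] at this
    simpa [Dn] using this
  have q0 : deriv G 0 = 0 := by
    have h1 := E1 0 z0
    rw [hG.G0, P10, PD_J01 h] at h1
    simpa using h1
  have q1 : deriv (deriv G) 0 = 0 := by
    have h1 := E3 0 z0
    rw [q0] at h1
    have h2 : deriv (deriv G) 0 ^ 2 = 0 := by rw [h1]; ring
    exact pow_eq_zero_iff (two_ne_zero) |>.1 h2
  have q2 : deriv (deriv (deriv G)) 0 = 2 := by
    have c0 := PD_ch hG.diff (ent2_D hf 1 0) z0
    have c1 := PD_ch hG.diff (ent2_D hf 2 0) z0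
    have c2 := PD_ch hG.diff (ent2_D hf 1 1) z0
    have c3 := PD_ch hG.diff (ent2_D hf 0 2) z0
    have l := c0.mul (dqq 0 z0)
    have r := (((c1.mul ((dq 0 z0).pow 2)).add ((c2.const_mul 2).mul (dq 0 z0))).add c3).neg
    have e : (fun t => D 1 0 f (G t) t * deriv (deriv G) t) =ᶠ[nhds 0] fun t =>
        -(D 2 0 f (G t) t * deriv G t ^ 2 + 2 * D 1 1 f (G t) t * deriv G t + D 0 2 f (G t) t) :=
      (PD_nb z0).mono fun t ht => E2 t ht
    have l2 := l.congr_of_eventuallyEq e.symm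
    have h5 := l2.unique r
    have P03 : D 0 3 f 0 0 = -2 := by
      have := h.J03
      rw [J_eq_Dn] at this
      simp only [Dn, Nat.factorial] at this
      push_cast at this
      linear_combination 6 * this
    rw [D_D hf, D_D hf, D_D hf, D_D hf, D_D hf, D_D hf, D_D hf, D_D hf, hG.G0, q0, q1, P10] at h5
    norm_num [P03] at h5
    rw [q0] at h5
    linear_combination h5
  -- the second derivative is not zero near the origin
  have hne := (dqq 0 z0).eventually_ne (c := 0) (by rw [q2]; norm_num)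
  rw [eventually_nhdsWithin_iff, Metric.eventually_nhds_iff] at hne
  obtain ⟨ρ, hρ, hρ2⟩ := hne
  refine ⟨min ρ δ, min_le_right _ _, lt_min hρ hG.hδ,
    hG.diff.mono (Metric.ball_subset_ball (min_le_right _ _)), hG.G0, q0, q1, ?_⟩
  intro z hz
  have hz1 : ‖z‖ < ρ := lt_of_lt_of_le hz (min_le_left _ _)
  have hz2 : ‖z‖ < δ := lt_of_lt_of_le hz (min_le_right _ _)
  by_cases hz0 : z = 0
  · rw [hz0, q2, q0]
    norm_num
  have h1 : deriv (deriv G) z ≠ 0 := hρ2 (by simpa using hz1) hz0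
  have l := (dqq z hz2).pow 2
  have r := ((dq z hz2).sub ((dq z hz2).pow 6)).const_mul 4
  have e : (fun t => deriv (deriv G) t ^ 2) =ᶠ[nhds z] fun t =>
      4 * (deriv G t - deriv G t ^ 6) := (PD_nb hz2).mono fun t ht => E3 t ht
  have l2 := l.congr_of_eventuallyEq e.symm
  have h5 := l2.unique r
  norm_num at h5
  have h6 : deriv (deriv G) z * (deriv (deriv (deriv G)) z - (2 - 12 * deriv G z ^ 5)) = 0 := by
    linear_combination h5 / 2
  exact sub_eq_zero.1 ((mul_eq_zero.1 h6).resolve_left h1)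

end Pool.Agent.RO5
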