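import Pool.Agent.RO5.PCc

/-!
RO5-PM (ordinary differential equations, Mathlib only in substance). The graph and the path coincide for small parameters.

Let `q = deriv G`, `q1 = deriv q`. For real `s ∈ [0, η)` (`C2 s ≤ s < δ`, `PCc.C2_ge`) put
`A(s) = q(C2 s) - sin² s`, `B(s) = q1(C2 s) - 2 sin s cos s √(Pq(sin² s))`. With `h2 = C2' = 1/√(Pq(sin² s))`:
`A' = q1(C2 s) h2 - 2 sin s cos s = h2 B`. `(2 sin cos √(Pq(sin²)))' = h2 (2 - 12 sin^10)`: put `v = sin² s`, `v' = 2 sin cos`, `E = 2 sin cos √(Pq v)`, `E² = 4 v (1-v) Pq v = 4 (v - v⁶)`, so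
`2 E E' = 4 (1 - 6 v⁵) v'` and `v' = E h2`; as an identity of smooth functions `E' = h2 (2 - 12 v⁵)` can be checked directly by differentiation: `E' = 2 cos 2s √P + sin 2s P'(v) v'/(2√P)`,
multiply by `√P`: `2 (1-2v) P + 2 v (1-v) P' = 2 - 12 v⁵` (ring, `P = Pq v`). So `B' = h2 (q'' (C2 s) - (2 - 12 v⁵)) = -12 h2 (q(C2 s)^5 - v^5) =
-12 h2 (q⁴ + q³v + ... + v⁴) A`. `A(0) = B(0) = 0`, bounded coefficients on `[0, η/2]`: `(A, B) = 0` (Gronwall: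
`eq_zero_of_abs_deriv_le_mul_abs_self_of_eq_zero_right` or `ODE_solution_unique`). Hence `(G(C2 s))' = q(C2 s) h2 = sin² s h2 = C1'` and `G(C2 s) = C1 s`.
-/

set_option autoImplicit false

namespace Pool.Agent.RO5

open Complex Finset

private theorem pm_h2_bd (s : ℝ) : 0 < h2 s ∧ h2 s ≤ 1 := by
  have h1 : 1 ≤ Pq (Real.sin s ^ 2) := Pq_pos (sq_nonneg _)
  have h2' : 1 ≤ Real.sqrt (Pq (Real.sin s ^ 2)) := by
    rw [Real.one_le_sqrt]
    exact h1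
  unfold h2
  refine ⟨by positivity, ?_⟩
  rw [div_le_one (by linarith)]
  exact h2'

private theorem pm_E (s : ℝ) : HasDerivAt
    (fun s : ℝ => 2 * Real.sin s * Real.cos s * Real.sqrt (Pq (Real.sin s ^ 2)))
    (h2 s * (2 - 12 * (Real.sin s ^ 2) ^ 5)) s := by
  have h1 : 1 ≤ Pq (Real.sin s ^ 2) := Pq_pos (sq_nonneg _)
  have hs := Real.hasDerivAt_sin s
  have hc := Real.hasDerivAt_cos s
  have hv : HasDerivAt (fun s : ℝ => Real.sin s ^ 2) (2 * Real.sin s * Real.cos s) s := by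
    have := hs.fun_pow 2
    simpa using this
  have hP : HasDerivAt (fun s : ℝ => Pq (Real.sin s ^ 2))
      ((1 + 2 * (Real.sin s ^ 2) + 3 * (Real.sin s ^ 2) ^ 2 + 4 * (Real.sin s ^ 2) ^ 3) *
        (2 * Real.sin s * Real.cos s)) s := by
    have h3 := ((((hasDerivAt_const s (1 : ℝ)).fun_add hv).fun_add (hv.fun_pow 2)).fun_add
      (hv.fun_pow 3)).fun_add (hv.fun_pow 4)
    refine (h3.congr_deriv ?_)
    norm_num
    ring
  have hsq := hP.sqrt (by linarith : Pq (Real.sin s ^ 2) ≠ 0)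
  have hE := ((hs.const_mul 2).fun_mul hc).fun_mul hsq
  refine hE.congr_deriv ?_
  have hpos : 0 < Real.sqrt (Pq (Real.sin s ^ 2)) := Real.sqrt_pos.2 (by linarith)
  have hsqr : Real.sqrt (Pq (Real.sin s ^ 2)) ^ 2 = Pq (Real.sin s ^ 2) := Real.sq_sqrt (by linarith)
  unfold h2
  set w := Real.sqrt (Pq (Real.sin s ^ 2)) with hw
  have hcos : Real.cos s ^ 2 = 1 - Real.sin s ^ 2 := by
    have := Real.sin_sq_add_cos_sq s
    linarith
  field_simp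
  unfold Pq at hsqr
  have key : (Real.cos s ^ 2 - Real.sin s ^ 2) * w ^ 2 + Real.sin s ^ 2 * Real.cos s ^ 2 *
      (1 + 2 * (Real.sin s ^ 2) + 3 * (Real.sin s ^ 2) ^ 2 + 4 * (Real.sin s ^ 2) ^ 3) =
      1 - 6 * (Real.sin s ^ 2) ^ 5 := by
    rw [hsqr, hcos]
    ring
  linear_combination 2 * key

theorem match_path {G : ℂ → ℂ} {δ : ℝ} (h : GrOde G δ) :
    ∃ η : ℝ, 0 < η ∧ ∀ s : ℝ, 0 ≤ s → s < η → C2 s < δ ∧ G (C2 s) = C1 s := by
  have hδ := h.hδ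
  set η : ℝ := δ / 2 with hη
  have hη0 : 0 < η := by positivity
  have hC2 : ∀ s ∈ Set.Icc 0 η, C2 s < δ ∧ 0 ≤ C2 s := by
    intro s hs
    obtain ⟨h1, h2'⟩ := C2_ge hs.1
    have h3 : 0 ≤ s / Real.sqrt 5 := div_nonneg hs.1 (Real.sqrt_nonneg _)
    have := hs.2
    constructor <;> linarith
  have hball : ∀ s ∈ Set.Icc 0 η, ((C2 s : ℝ) : ℂ) ∈ Metric.ball (0 : ℂ) δ := by
    intro s hs
    rw [mem_ball_zero_iff, Complex.norm_real, Real.norm_eq_abs, abs_of_nonneg (hC2 s hs).2]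
    exact (hC2 s hs).1
  have hq := h.diff.deriv Metric.isOpen_ball
  have hq1 := hq.deriv Metric.isOpen_ball
  have dG : ∀ s ∈ Set.Icc 0 η, HasDerivAt G (deriv G (C2 s)) ((C2 s : ℝ) : ℂ) := fun s hs =>
    (h.diff.differentiableAt (Metric.isOpen_ball.mem_nhds (hball s hs))).hasDerivAt
  have dq : ∀ s ∈ Set.Icc 0 η, HasDerivAt (deriv G) (deriv (deriv G) (C2 s)) ((C2 s : ℝ) : ℂ) := fun s hs =>
    (hq.differentiableAt (Metric.isOpen_ball.mem_nhds (hball s hs))).hasDerivAt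
  have dq1 : ∀ s ∈ Set.Icc 0 η, HasDerivAt (deriv (deriv G)) (2 - 12 * deriv G (C2 s) ^ 5)
      ((C2 s : ℝ) : ℂ) := fun s hs => by
    rw [← h.ode _ (mem_ball_zero_iff.1 (hball s hs))]
    exact (hq1.differentiableAt (Metric.isOpen_ball.mem_nhds (hball s hs))).hasDerivAt
  have dC2 : ∀ s : ℝ, HasDerivAt (fun s : ℝ => ((C2 s : ℝ) : ℂ)) ((h2 s : ℝ) : ℂ) s := fun s =>
    (hasDerivAt_C2 s).ofReal_comp
  -- the two functions
  set E : ℝ → ℝ := fun s => 2 * Real.sin s * Real.cos s * Real.sqrt (Pq (Real.sin s ^ 2)) with hE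
  set y : ℝ → ℂ × ℂ := fun s => (deriv G (C2 s) - ((Real.sin s ^ 2 : ℝ) : ℂ),
    deriv (deriv G) (C2 s) - ((E s : ℝ) : ℂ)) with hy
  set k : ℝ → ℂ := fun s => deriv G (C2 s) ^ 4 + deriv G (C2 s) ^ 3 * ((Real.sin s ^ 2 : ℝ) : ℂ) +
    deriv G (C2 s) ^ 2 * ((Real.sin s ^ 2 : ℝ) : ℂ) ^ 2 + deriv G (C2 s) * ((Real.sin s ^ 2 : ℝ) : ℂ) ^ 3 +
    ((Real.sin s ^ 2 : ℝ) : ℂ) ^ 4 with hk
  set y' : ℝ → ℂ × ℂ := fun s => (((h2 s : ℝ) : ℂ) * (y s).2, -(12 * ((h2 s : ℝ) : ℂ) * k s) * (y s).1) with hy'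
  have hv : ∀ s : ℝ, HasDerivAt (fun s : ℝ => ((Real.sin s ^ 2 : ℝ) : ℂ))
      ((2 * Real.sin s * Real.cos s : ℝ) : ℂ) s := by
    intro s
    have h3 : HasDerivAt (fun s : ℝ => Real.sin s ^ 2) (2 * Real.sin s * Real.cos s) s := by
      have := (Real.hasDerivAt_sin s).fun_pow 2
      simpa using this
    exact h3.ofReal_comp
  have hder : ∀ s ∈ Set.Icc 0 η, HasDerivAt y (y' s) s := by
    intro s hs
    have h3 := (HasDerivAt.comp s (dq s hs) (dC2 s)).fun_sub (hv s)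
    have h4 := (HasDerivAt.comp s (dq1 s hs) (dC2 s)).fun_sub (pm_E s).ofReal_comp
    refine (h3.prodMk h4).congr_deriv ?_
    have hw : 1 ≤ Real.sqrt (Pq (Real.sin s ^ 2)) := by
      rw [Real.one_le_sqrt]
      exact Pq_pos (sq_nonneg _)
    have h5 : h2 s * E s = 2 * Real.sin s * Real.cos s := by
      simp only [hE]
      unfold h2
      field_simp
    refine Prod.ext ?_ ?_
    · simp only [hy', hy]
      rw [← h5]
      push_cast
      ring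
    · simp only [hy', hy, hk]
      push_cast
      ring
  have hcont : ContinuousOn y (Set.Icc 0 η) := fun s hs =>
    (hder s hs).continuousAt.continuousWithinAt
  have hqc : ContinuousOn (fun s : ℝ => deriv G (C2 s)) (Set.Icc 0 η) := by
    intro s hs
    have h3 := (HasDerivAt.comp s (dq s hs) (dC2 s)).continuousAt
    exact h3.continuousWithinAt
  obtain ⟨M, hM⟩ := isCompact_Icc.exists_bound_of_continuousOn hqc
  have hM0 : 0 ≤ M := (norm_nonneg _).trans (hM 0 ⟨le_rfl, hη0.le⟩)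
  set K : ℝ := 12 * (M ^ 4 + M ^ 3 + M ^ 2 + M + 1) with hK
  have hK1 : 1 ≤ K := by
    have : 0 ≤ M ^ 4 + M ^ 3 + M ^ 2 + M := by positivity
    rw [hK]
    linarith
  have hy0 : y 0 = 0 := by
    simp only [hy, hE]
    rw [C2_zero, ofReal_zero, h.G1, h.G2, Real.sin_zero]
    simp
  have hbound : ∀ s ∈ Set.Ico 0 η, ‖y' s‖ ≤ K * ‖y s‖ := by
    intro s hs
    have hs' : s ∈ Set.Icc 0 η := ⟨hs.1, hs.2.le⟩
    obtain ⟨hp, hl⟩ := pm_h2_bd s
    have hn2 : ‖((h2 s : ℝ) : ℂ)‖ ≤ 1 := by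
      rw [Complex.norm_real, Real.norm_eq_abs, abs_of_pos hp]
      exact hl
    have hyn1 : ‖(y s).1‖ ≤ ‖y s‖ := norm_fst_le _
    have hyn2 : ‖(y s).2‖ ≤ ‖y s‖ := norm_snd_le _
    have hkn : ‖k s‖ ≤ M ^ 4 + M ^ 3 + M ^ 2 + M + 1 := by
      have hq' := hM s hs'
      have hvn : ‖((Real.sin s ^ 2 : ℝ) : ℂ)‖ ≤ 1 := by
        rw [Complex.norm_real, Real.norm_eq_abs, abs_of_nonneg (sq_nonneg _)]
        exact Real.sin_sq_le_one s
      set a := ‖deriv G (C2 s)‖ with ha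
      set b := ‖((Real.sin s ^ 2 : ℝ) : ℂ)‖ with hb
      have ha0 : 0 ≤ a := norm_nonneg _
      have hb0 : 0 ≤ b := norm_nonneg _
      have h6 : ‖k s‖ ≤ a ^ 4 + a ^ 3 * b + a ^ 2 * b ^ 2 + a * b ^ 3 + b ^ 4 := by
        simp only [hk]
        refine (norm_add_le _ _).trans (add_le_add ((norm_add_le _ _).trans (add_le_add
          ((norm_add_le _ _).trans (add_le_add ((norm_add_le _ _).trans (add_le_add ?_ ?_)) ?_)) ?_)) ?_)
        · rw [norm_pow]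
        · rw [norm_mul, norm_pow]
        · rw [norm_mul, norm_pow, norm_pow]
        · rw [norm_mul, norm_pow]
        · rw [norm_pow]
      have h7 : a ^ 4 ≤ M ^ 4 := by gcongr
      have h8 : a ^ 3 * b ≤ M ^ 3 := by
        calc a ^ 3 * b ≤ M ^ 3 * 1 := by gcongr
          _ = M ^ 3 := mul_one _
      have h9 : a ^ 2 * b ^ 2 ≤ M ^ 2 := by
        calc a ^ 2 * b ^ 2 ≤ M ^ 2 * 1 ^ 2 := by gcongr
          _ = M ^ 2 := by ring
      have h10 : a * b ^ 3 ≤ M := by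
        calc a * b ^ 3 ≤ M * 1 ^ 3 := by gcongr
          _ = M := by ring
      have h11 : b ^ 4 ≤ 1 := pow_le_one₀ hb0 hvn
      linarith
    rw [Prod.norm_def]
    refine max_le ?_ ?_
    · show ‖((h2 s : ℝ) : ℂ) * (y s).2‖ ≤ _
      rw [norm_mul]
      calc ‖((h2 s : ℝ) : ℂ)‖ * ‖(y s).2‖ ≤ 1 * ‖y s‖ := by gcongr
        _ ≤ K * ‖y s‖ := by gcongr
    · show ‖-(12 * ((h2 s : ℝ) : ℂ) * k s) * (y s).1‖ ≤ _
      rw [norm_mul, norm_neg, norm_mul, norm_mul]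
      have h12 : ‖(12 : ℂ)‖ = 12 := by simp
      rw [h12]
      have hbr : 0 ≤ M ^ 4 + M ^ 3 + M ^ 2 + M + 1 := by positivity
      calc 12 * ‖((h2 s : ℝ) : ℂ)‖ * ‖k s‖ * ‖(y s).1‖
          ≤ 12 * 1 * (M ^ 4 + M ^ 3 + M ^ 2 + M + 1) * ‖y s‖ := by gcongr
        _ = K * ‖y s‖ := by rw [hK]; ring
  have hyz := eq_zero_of_abs_deriv_le_mul_abs_self_of_eq_zero_right hcont
    (fun s hs => (hder s ⟨hs.1, hs.2.le⟩).hasDerivWithinAt) hy0 hbound
  have hqs : ∀ s ∈ Set.Icc 0 η, deriv G (C2 s) = ((Real.sin s ^ 2 : ℝ) : ℂ) := by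
    intro s hs
    have h3 := congrArg Prod.fst (hyz s hs)
    exact sub_eq_zero.1 h3
  -- the graph
  have hW : ∀ s ∈ Set.Icc 0 η, HasDerivAt (fun s : ℝ => G (C2 s) - ((C1 s : ℝ) : ℂ)) 0 s := by
    intro s hs
    have h3 := (HasDerivAt.comp s (dG s hs) (dC2 s)).fun_sub (hasDerivAt_C1 s).ofReal_comp
    refine h3.congr_deriv ?_
    rw [hqs s hs, ← ofReal_mul, ← ofReal_sub]
    have h4 : Real.sin s ^ 2 * h2 s - h1 s = 0 := by
      unfold h1 h2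
      ring
    rw [h4, ofReal_zero]
  have hW0 := eq_zero_of_abs_deriv_le_mul_abs_self_of_eq_zero_right (K := 0)
    (f := fun s : ℝ => G (C2 s) - ((C1 s : ℝ) : ℂ)) (f' := fun _ => 0) (a := 0) (b := η)
    (fun s hs => (hW s hs).continuousAt.continuousWithinAt)
    (fun s hs => (hW s ⟨hs.1, hs.2.le⟩).hasDerivWithinAt)
    (by
      show G (C2 0) - ((C1 0 : ℝ) : ℂ) = 0
      rw [C2_zero, C1_zero, ofReal_zero, h.G0, sub_zero])
    (fun s hs => by simp)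
  refine ⟨η, hη0, fun s hs0 hs1 => ⟨(hC2 s ⟨hs0, hs1.le⟩).1, ?_⟩⟩
  exact sub_eq_zero.1 (hW0 s ⟨hs0, hs1.le⟩)

end Pool.Agent.RO5
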