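import Pool.Agent.RO5.PCc

/-!
RO5-PS (one complex variable, Mathlib only in substance). Analytic continuation of the path to a strip.

On the real axis `Q(t) = 1 + s + .. + s⁴`, `s = sin² t`, has values in `[1, 5]`. For `|Im z| < ε` (small `ε`): `sin² z = (1 - cos 2z)/2` and
`|cos (2x+2iy) - cos 2x| ≤ (cosh 2y - 1) + sinh 2|y|` uniformly in `x`, `|s| ≤ 2`, hence `Re Q(z) > 0`; so `g2(z) = exp(-(1/2) log Q(z))`, `g1 = sin² z g2` are holomorphic on the
strip, equal to `h2`, `h1` on the real axis. Primitive on the (convex, star-shaped) strip: `H(z) = ∫_0^1 z g(τ z) dτ` or any Mathlib primitive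
lemma; `H` and `C` have the same derivative on the real line and the same value at `0`.
-/

set_option autoImplicit false

namespace Pool.Agent.RO5

open Complex Finset

private theorem ps_prim {f : ℂ → ℂ} {ε : ℝ} (hε : 0 < ε) (hf : DifferentiableOn ℂ f {z : ℂ | |z.im| < ε}) :
    ∃ H : ℂ → ℂ, H 0 = 0 ∧ ∀ z : ℂ, |z.im| < ε → HasDerivAt H (f z) z := by
  refine ⟨fun w => wedgeIntegral 0 w f, ?_, fun z hz => ?_⟩
  · simp [wedgeIntegral]
  · set c : ℂ := (z.re : ℂ) with hc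
    have hcr : c.re = z.re := by rw [hc, ofReal_re]
    have hci : c.im = 0 := by rw [hc, ofReal_im]
    have hsub : Metric.ball c ε ⊆ {z : ℂ | |z.im| < ε} := by
      intro w hw
      rw [mem_ball_iff_norm] at hw
      have h1 := Complex.abs_im_le_norm (w - c)
      rw [Complex.sub_im, hci, sub_zero] at h1
      exact lt_of_le_of_lt h1 hw
    have hzb : z ∈ Metric.ball c ε := by
      rw [mem_ball_iff_norm]
      have h1 : z - c = z.im * I := by
        rw [hc]
        nth_rewrite 1 [← Complex.re_add_im z]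
        ring
      rw [h1, norm_mul, Complex.norm_I, mul_one, Complex.norm_real]
      exact hz
    have hfb := hf.mono hsub
    have h2 := hfb.isConservativeOn.hasDerivAt_wedgeIntegral hfb.continuousOn hzb
    have hcont : Continuous fun x : ℝ => f (x + (0 : ℝ) * I) := by
      rw [← continuousOn_univ]
      refine hf.continuousOn.comp (by fun_prop) fun x _ => ?_
      simpa using hε
    have h3 : (fun w => wedgeIntegral 0 w f) = fun w =>
        (∫ x in (0 : ℝ)..z.re, f (x + (0 : ℝ) * I)) + wedgeIntegral c w f := by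
      funext w
      unfold wedgeIntegral
      rw [hcr, hci, Complex.zero_re, Complex.zero_im, ← add_assoc,
        intervalIntegral.integral_add_adjacent_intervals (hcont.intervalIntegrable _ _)
          (hcont.intervalIntegrable _ _)]
    rw [h3]
    exact h2.const_add _

private theorem ps_sin1 (w : ℂ) : ‖sin w‖ ≤ Real.exp |w.im| := by
  rw [Complex.sin, norm_div, norm_mul, Complex.norm_I, mul_one]
  have h1 : ‖cexp (-w * I)‖ ≤ Real.exp |w.im| := by
    rw [Complex.norm_exp]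
    apply Real.exp_le_exp.2
    have : (-w * I).re = w.im := by simp
    rw [this]
    exact le_abs_self _
  have h2' : ‖cexp (w * I)‖ ≤ Real.exp |w.im| := by
    rw [Complex.norm_exp]
    apply Real.exp_le_exp.2
    have : (w * I).re = -w.im := by simp
    rw [this]
    exact neg_le_abs _
  have h3 := norm_sub_le (cexp (-w * I)) (cexp (w * I))
  have h4 : ‖(2 : ℂ)‖ = 2 := by simp
  rw [h4]
  linarith

private theorem ps_sin2 (w : ℂ) (hw : ‖w‖ ≤ 1) : ‖sin w‖ ≤ 2 * ‖w‖ := by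
  rw [Complex.sin, norm_div, norm_mul, Complex.norm_I, mul_one]
  have h1 := Complex.norm_exp_sub_one_le (x := -w * I) (by simpa using hw)
  have h2' := Complex.norm_exp_sub_one_le (x := w * I) (by simpa using hw)
  have h3 : cexp (-w * I) - cexp (w * I) = (cexp (-w * I) - 1) - (cexp (w * I) - 1) := by ring
  have h4 := norm_sub_le (cexp (-w * I) - 1) (cexp (w * I) - 1)
  have h5 : ‖(2 : ℂ)‖ = 2 := by simp
  rw [h3, h5]
  rw [norm_mul, norm_neg, Complex.norm_I, mul_one] at h1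
  rw [norm_mul, Complex.norm_I, mul_one] at h2'
  linarith

/-- `1 + v + v² + v³ + v⁴` at a complex number -/
private noncomputable def psQ (v : ℂ) : ℂ := 1 + v + v ^ 2 + v ^ 3 + v ^ 4

private theorem ps_re {z : ℂ} (hz : |z.im| < 1 / 1000) : 0 < (psQ (sin z ^ 2)).re := by
  set x : ℂ := (z.re : ℂ) with hx
  set d : ℂ := sin z ^ 2 - sin x ^ 2 with hd
  have h1 : d = sin (z + x) * sin (z - x) := by
    rw [hd, Complex.sin_add, Complex.sin_sub]
    have h1 := Complex.sin_sq_add_cos_sq z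
    have h2' := Complex.sin_sq_add_cos_sq x
    linear_combination (-(sin z ^ 2)) * h2' + sin x ^ 2 * h1
  have hzx : z - x = z.im * I := by
    rw [hx]
    nth_rewrite 1 [← Complex.re_add_im z]
    ring
  have hn1 : ‖sin (z + x)‖ ≤ 3 := by
    refine (ps_sin1 _).trans ?_
    have h3 : (z + x).im = z.im := by rw [Complex.add_im, hx, ofReal_im, add_zero]
    rw [h3]
    have h4 : Real.exp |z.im| ≤ Real.exp 1 := Real.exp_le_exp.2 (by linarith)
    have := Real.exp_one_lt_d9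
    linarith
  have hn2 : ‖sin (z - x)‖ ≤ 2 / 1000 := by
    have h3 : ‖z - x‖ = |z.im| := by
      rw [hzx, norm_mul, Complex.norm_I, mul_one, Complex.norm_real, Real.norm_eq_abs]
    have h4 := ps_sin2 (z - x) (by rw [h3]; linarith)
    rw [h3] at h4
    linarith
  have hnd : ‖d‖ ≤ 6 / 1000 := by
    rw [h1, norm_mul]
    calc ‖sin (z + x)‖ * ‖sin (z - x)‖ ≤ 3 * (2 / 1000) := by gcongr
      _ = 6 / 1000 := by norm_num
  -- the real value
  have hsr : sin x ^ 2 = ((Real.sin z.re ^ 2 : ℝ) : ℂ) := by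
    rw [hx, ← Complex.ofReal_sin]
    push_cast
    rfl
  set v : ℝ := Real.sin z.re ^ 2 with hv
  have hv0 : 0 ≤ v := sq_nonneg _
  have hv1 : v ≤ 1 := Real.sin_sq_le_one _
  have hsz : sin z ^ 2 = v + d := by rw [hd, hsr]; ring
  have hre0 : (psQ (v : ℂ)).re = Pq v := by
    unfold psQ Pq
    norm_cast
  have hP := Pq_pos hv0
  have hdiff : psQ (sin z ^ 2) - psQ v = d * (1 + ((v + d) + v) + ((v + d) ^ 2 + (v + d) * v + v ^ 2) +
      ((v + d) ^ 3 + (v + d) ^ 2 * v + (v + d) * v ^ 2 + v ^ 3)) := by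
    rw [hsz]
    unfold psQ
    ring
  have hnv : ‖(v : ℂ)‖ ≤ 1 := by
    rw [Complex.norm_real, Real.norm_eq_abs, abs_of_nonneg hv0]
    exact hv1
  have hnvd : ‖(v : ℂ) + d‖ ≤ 2 := by
    have := norm_add_le (v : ℂ) d
    linarith
  have hbig : ‖1 + (((v : ℂ) + d) + v) + (((v : ℂ) + d) ^ 2 + ((v : ℂ) + d) * v + v ^ 2) +
      (((v : ℂ) + d) ^ 3 + ((v : ℂ) + d) ^ 2 * v + ((v : ℂ) + d) * v ^ 2 + v ^ 3)‖ ≤
      1 + (2 + 1) + (2 ^ 2 + 2 * 1 + 1 ^ 2) + (2 ^ 3 + 2 ^ 2 * 1 + 2 * 1 ^ 2 + 1 ^ 3) := by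
    have e1 : ‖(1 : ℂ)‖ = 1 := norm_one
    refine (norm_add_le _ _).trans (add_le_add ((norm_add_le _ _).trans (add_le_add
      ((norm_add_le _ _).trans (add_le_add (le_of_eq e1) ((norm_add_le _ _).trans (add_le_add hnvd hnv)))) ?_)) ?_)
    · refine (norm_add_le _ _).trans (add_le_add ((norm_add_le _ _).trans (add_le_add ?_ ?_)) ?_)
      · rw [norm_pow]; gcongr
      · rw [norm_mul]; gcongr
      · rw [norm_pow]; gcongr
    · refine (norm_add_le _ _).trans (add_le_add ((norm_add_le _ _).trans (add_le_add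
        ((norm_add_le _ _).trans (add_le_add ?_ ?_)) ?_)) ?_)
      · rw [norm_pow]; gcongr
      · rw [norm_mul, norm_pow]; gcongr
      · rw [norm_mul, norm_pow]; gcongr
      · rw [norm_pow]; gcongr
  have hnorm : ‖psQ (sin z ^ 2) - psQ v‖ ≤ 1 / 2 := by
    rw [hdiff, norm_mul]
    exact (mul_le_mul hnd hbig (norm_nonneg _) (by norm_num)).trans (by norm_num)
  have hre := Complex.abs_re_le_norm (psQ (sin z ^ 2) - psQ v)
  rw [Complex.sub_re, hre0] at hre
  have := (abs_le.1 (hre.trans hnorm)).1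
  linarith

private theorem ps_inv {P : ℝ} (hP : 0 < P) : Real.exp (-(1 / 2) * Real.log P) = 1 / Real.sqrt P := by
  have h1 : Real.sqrt P = Real.exp (Real.log P / 2) := by
    rw [Real.exp_half, Real.exp_log hP]
  have h2' : 1 / Real.exp (Real.log P / 2) = Real.exp (-(Real.log P / 2)) := by
    rw [Real.exp_neg, one_div]
  rw [h1, h2']
  congr 1
  ring

private theorem ps_real (s : ℝ) : cexp (-(1 / 2) * log (psQ (sin (s : ℂ) ^ 2))) = ((h2 s : ℝ) : ℂ) := by
  have h1 : psQ (sin (s : ℂ) ^ 2) = ((Pq (Real.sin s ^ 2) : ℝ) : ℂ) := by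
    unfold psQ Pq
    push_cast
    rfl
  have hP : 0 < Pq (Real.sin s ^ 2) := by
    have := Pq_pos (sq_nonneg (Real.sin s))
    linarith
  rw [h1, ← Complex.ofReal_log hP.le]
  have h3 : (-(1 / 2) * ((Real.log (Pq (Real.sin s ^ 2)) : ℝ) : ℂ)) =
      ((-(1 / 2) * Real.log (Pq (Real.sin s ^ 2)) : ℝ) : ℂ) := by push_cast; ring
  rw [h3, ← Complex.ofReal_exp, ps_inv hP]
  rfl

private theorem ps_eq {g H : ℂ → ℂ} {C h : ℝ → ℝ} (hH0 : H 0 = 0) (hH : ∀ z : ℂ, |z.im| < 1 / 1000 → HasDerivAt H (g z) z)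
    (hC0 : C 0 = 0) (hC : ∀ s, HasDerivAt C (h s) s) (hgh : ∀ s : ℝ, g s = ((h s : ℝ) : ℂ)) (s : ℝ) :
    H s = ((C s : ℝ) : ℂ) := by
  have hd : ∀ s : ℝ, HasDerivAt (fun s : ℝ => H s - ((C s : ℝ) : ℂ)) 0 s := by
    intro s
    have h1 : HasDerivAt (fun s : ℝ => H (s : ℂ)) (g s) s :=
      (hH (s : ℂ) (by rw [ofReal_im, abs_zero]; norm_num)).comp_ofReal
    refine (h1.fun_sub (hC s).ofReal_comp).congr_deriv ?_
    rw [hgh, sub_self]
  have h2' := is_const_of_deriv_eq_zero (fun s => (hd s).differentiableAt) (fun s => (hd s).deriv) s 0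
  simp only [ofReal_zero, hH0, hC0, sub_zero] at h2'
  exact sub_eq_zero.1 h2'

theorem exists_strip : ∃ (ε : ℝ) (H1 H2 : ℂ → ℂ), 0 < ε ∧
    DifferentiableOn ℂ H1 {z : ℂ | |z.im| < ε} ∧ DifferentiableOn ℂ H2 {z : ℂ | |z.im| < ε} ∧
    (∀ s : ℝ, H1 s = C1 s) ∧ (∀ s : ℝ, H2 s = C2 s) := by
  have hε : (0 : ℝ) < 1 / 1000 := by norm_num
  set g2 : ℂ → ℂ := fun z => cexp (-(1 / 2) * log (psQ (sin z ^ 2))) with hg2
  set g1 : ℂ → ℂ := fun z => sin z ^ 2 * g2 z with hg1
  have hQ : Differentiable ℂ fun z => psQ (sin z ^ 2) := by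
    unfold psQ
    fun_prop
  have hd2 : DifferentiableOn ℂ g2 {z : ℂ | |z.im| < 1 / 1000} := by
    have h1 : DifferentiableOn ℂ (fun z => log (psQ (sin z ^ 2))) {z : ℂ | |z.im| < 1 / 1000} :=
      hQ.differentiableOn.clog fun z hz => Or.inl (ps_re hz)
    exact (h1.const_mul _).cexp
  have hd1 : DifferentiableOn ℂ g1 {z : ℂ | |z.im| < 1 / 1000} := by
    have h1 : Differentiable ℂ fun z : ℂ => sin z ^ 2 := by fun_prop
    exact h1.differentiableOn.mul hd2
  obtain ⟨H1, h10, hH1⟩ := ps_prim hε hd1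
  obtain ⟨H2, h20, hH2⟩ := ps_prim hε hd2
  refine ⟨1 / 1000, H1, H2, hε, fun z hz => (hH1 z hz).differentiableAt.differentiableWithinAt,
    fun z hz => (hH2 z hz).differentiableAt.differentiableWithinAt,
    ps_eq h10 hH1 C1_zero hasDerivAt_C1 ?_, ps_eq h20 hH2 C2_zero hasDerivAt_C2 ps_real⟩
  intro s
  show sin (s : ℂ) ^ 2 * cexp (-(1 / 2) * log (psQ (sin (s : ℂ) ^ 2))) = _
  rw [ps_real]
  unfold h1 h2
  push_cast
  ring

end Pool.Agent.RO5
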