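import Pool.Agent.RO5.PG
import Pool.Agent.RO5.PD
import Pool.Agent.RO5.PM
import Pool.Agent.RO5.PS

/-!
RO5-PA. The path lies in the zero set; the set `Zs f` in terms of the graph.

`zs_iff`: (→) `s ↦ f (p1 + C1 s) (p2 + C2 s)` vanishes for all real `s`, in particular (`match_path`) `f (p1 + G z) (p2 + z) = 0` for `z = C2 s`, `0 ≤ s < η'`; these `z` accumulate at `0` (`C2` continuous,
strictly increasing), and `z ↦ f (p1 + G z) (p2 + z)` is analytic on `ball 0 r`: identity theorem (`AnalyticOnNhd.eqOn_zero_of_preconnected_of_frequently_eq_zero`). (←): for small `s ≥ 0`: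
`f (p1 + C1 s) (p2 + C2 s) = f (p1 + G (C2 s)) (p2 + C2 s) = 0`; the function `z ↦ f (p1 + H1 z) (p2 + H2 z)` (`exists_strip`) is holomorphic on the strip `{|Im z| < ε}` (convex, open), so it
vanishes there.
`zero_mem`: `zs_iff` with `p = 0` and `f (G z) z = 0`.
-/

set_option autoImplicit false

namespace Pool.Agent.RO5

open Complex Finset Pool.Agent.ROH

/-- values on a sequence of positive reals tending to `0` -/
private theorem PA_freq {F : ℂ → ℂ} {g : ℝ → ℝ} {η : ℝ} (hη : 0 < η) (hg0 : ∀ s, 0 < s → 0 < g s)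
    (hg1 : ∀ s, 0 < s → g s ≤ s) (h : ∀ s, 0 < s → s < η → F (g s) = 0) :
    ∃ᶠ z in nhdsWithin (0 : ℂ) {0}ᶜ, F z = 0 := by
  rw [Filter.frequently_iff]
  intro U hU
  rw [Metric.mem_nhdsWithin_iff] at hU
  obtain ⟨e, he, hU⟩ := hU
  set s := min e η / 2 with hs
  have hs0 : 0 < s := by
    have := lt_min he hη
    linarith
  have hse : s < e := by
    have := min_le_left e η
    linarith
  have hsη : s < η := by
    have := min_le_right e η
    linarith
  refine ⟨(g s : ℂ), hU ⟨?_, ?_⟩, h s hs0 hsη⟩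
  · rw [Metric.mem_ball, dist_zero_right, Complex.norm_real, Real.norm_of_nonneg (hg0 s hs0).le]
    exact (hg1 s hs0).trans_lt hse
  · intro h0
    have h0' : (g s : ℂ) = 0 := h0
    exact (hg0 s hs0).ne' (by exact_mod_cast h0')

private theorem PA_C2pos {s : ℝ} (hs : 0 < s) : 0 < C2 s :=
  lt_of_lt_of_le (div_pos hs (Real.sqrt_pos.2 (by norm_num))) (C2_ge hs.le).1

theorem zs_iff {f : ℂ → ℂ → ℂ} (hf : Ent2 f) {G : ℂ → ℂ} {r : ℝ} (hG : GrOde G r) (p : ℂ × ℂ)
    {r' : ℝ} (hr' : 0 < r') (hr : r' ≤ r) :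
    p ∈ Zs f ↔ ∀ z : ℂ, ‖z‖ < r' → f (p.1 + G z) (p.2 + z) = 0 := by
  obtain ⟨η, hη, hm⟩ := match_path hG
  constructor
  · intro hp z hz
    have hdiff : DifferentiableOn ℂ (fun z => f (p.1 + G z) (p.2 + z)) (Metric.ball 0 r) := by
      have h1 : DifferentiableOn ℂ (fun z => ((p.1 + G z, p.2 + z) : ℂ × ℂ)) (Metric.ball 0 r) :=
        ((differentiableOn_const _).add hG.diff).prodMk ((differentiableOn_const _).add differentiableOn_id)
      exact (show Differentiable ℂ (fun z : ℂ × ℂ => f z.1 z.2) from hf).comp_differentiableOn h1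
    have han := hdiff.analyticOnNhd Metric.isOpen_ball
    have hfr : ∃ᶠ z in nhdsWithin (0 : ℂ) {0}ᶜ, f (p.1 + G z) (p.2 + z) = 0 := by
      refine PA_freq (g := C2) hη (fun s hs => PA_C2pos hs) (fun s hs => (C2_ge hs.le).2) ?_
      intro s hs hsη
      rw [(hm s hs.le hsη).2]
      exact hp s
    have h2 := han.eqOn_zero_of_preconnected_of_frequently_eq_zero
      (convex_ball (0 : ℂ) r).isPreconnected (Metric.mem_ball_self hG.hδ) hfr
    exact h2 (by rw [Metric.mem_ball, dist_zero_right]; exact hz.trans_le hr)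
  · intro h s
    obtain ⟨ε, H1, H2, hε, hd1, hd2, h1, h2⟩ := exists_strip
    have hopen : IsOpen {z : ℂ | |z.im| < ε} :=
      isOpen_lt (continuous_abs.comp Complex.continuous_im) continuous_const
    have hconv : Convex ℝ {z : ℂ | |z.im| < ε} := by
      have h3 : {z : ℂ | |z.im| < ε} = {z : ℂ | -ε < z.im} ∩ {z : ℂ | z.im < ε} := by
        ext z
        simp [abs_lt]
      rw [h3]
      exact (convex_halfSpace_im_gt _).inter (convex_halfSpace_im_lt _)
    have hdiff : DifferentiableOn ℂ (fun z => f (p.1 + H1 z) (p.2 + H2 z)) {z : ℂ | |z.im| < ε} := by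
      have h3 : DifferentiableOn ℂ (fun z => ((p.1 + H1 z, p.2 + H2 z) : ℂ × ℂ)) {z : ℂ | |z.im| < ε} :=
        ((differentiableOn_const _).add hd1).prodMk ((differentiableOn_const _).add hd2)
      exact (show Differentiable ℂ (fun z : ℂ × ℂ => f z.1 z.2) from hf).comp_differentiableOn h3
    have han := hdiff.analyticOnNhd hopen
    have hfr : ∃ᶠ z in nhdsWithin (0 : ℂ) {0}ᶜ, f (p.1 + H1 z) (p.2 + H2 z) = 0 := by
      refine PA_freq (g := fun s => s) (lt_min hη hr') (fun s hs => hs) (fun s hs => le_rfl) ?_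
      intro s hs hsη
      show f (p.1 + H1 (s : ℂ)) (p.2 + H2 (s : ℂ)) = 0
      rw [h1, h2, ← (hm s hs.le (hsη.trans_le (min_le_left _ _))).2]
      apply h
      rw [Complex.norm_real, Real.norm_of_nonneg (PA_C2pos hs).le]
      exact (C2_ge hs.le).2.trans_lt (hsη.trans_le (min_le_right _ _))
    have h4 := han.eqOn_zero_of_preconnected_of_frequently_eq_zero hconv.isPreconnected
      (by simpa using hε) hfr
    have h5 : f (p.1 + H1 (s : ℂ)) (p.2 + H2 (s : ℂ)) = 0 := h4 (by simpa using hε)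
    rwa [h1, h2] at h5

end Pool.Agent.RO5
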