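import Pool.Agent.RO5.PDefs
import Pool.Agent.ROH.LBeta

/-!
RO5-PB (real analysis). The values `C1 π = Γ(3/10)Γ(1/2)/(5 Γ(4/5))`, `C2 π = Γ(1/10)Γ(1/2)/(5 Γ(3/5))`.

`∫_0^π = 2 ∫_0^(π/2)` (symmetry `sin (π - t) = sin t`). Substitution `v = sin^10 t`:
`dv = 10 sin^9 t cos t dt`, `1 - v = cos² t · Pq (sin² t)`, so for `0 < a`
`∫_0^1 v^(a-1) (1-v)^(-1/2) dv = 10 ∫_0^(π/2) sin^(10a-1) t / √(Pq(sin² t)) dt`; `a = 3/10` resp. `a = 1/10`. See the real Beta integral in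
`Pool/Agent/ROH/LBeta.lean` and Mathlib's `Complex.betaIntegral`, `Complex.Gamma_mul_Gamma_eq_betaIntegral`. For the improper substitution see `Pool/Agent/ROH/LSub.lean`
(`MeasureTheory.integral_image_eq_integral_abs_deriv_smul` on `Ioo 0 (π/2)` is convenient, the map `t ↦ sin^10 t` is injective there with image `Ioo 0 1`).
-/

set_option autoImplicit false

namespace Pool.Agent.RO5

open Complex Finset

private theorem pb_point (k : ℕ) (a : ℝ) (ha : 10 * a = k + 1) {S c : ℝ} (hS0 : 0 < S)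
    (hc0 : 0 < c) (hSc : S ^ 2 + c ^ 2 = 1) :
    |10 * S ^ 9 * c| * ((S ^ 10) ^ (a - 1) * (1 - S ^ 10) ^ ((1 : ℝ) / 2 - 1)) =
      10 * (S ^ k / Real.sqrt (Pq (S ^ 2))) := by
  have hP : 0 < Pq (S ^ 2) := lt_of_lt_of_le one_pos (Pq_pos (by positivity))
  have hsP : 0 < Real.sqrt (Pq (S ^ 2)) := Real.sqrt_pos.2 hP
  have h1 : 1 - S ^ 10 = c ^ 2 * Pq (S ^ 2) := by
    have : c ^ 2 = 1 - S ^ 2 := by linarith
    rw [this]
    unfold Pq
    ring
  have h2 : (1 - S ^ 10) ^ ((1 : ℝ) / 2 - 1) = (c * Real.sqrt (Pq (S ^ 2)))⁻¹ := by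
    have h3 : (0 : ℝ) ≤ c ^ 2 * Pq (S ^ 2) := by positivity
    rw [h1, show (1 : ℝ) / 2 - 1 = -(1 / 2) by norm_num, Real.rpow_neg h3, ← Real.sqrt_eq_rpow,
      Real.sqrt_mul (by positivity), Real.sqrt_sq hc0.le]
  have h4 : S ^ 9 * (S ^ 10) ^ (a - 1) = S ^ k := by
    rw [← Real.rpow_natCast S 10, ← Real.rpow_natCast S 9, ← Real.rpow_mul hS0.le,
      ← Real.rpow_add hS0, ← Real.rpow_natCast S k]
    congr 1
    push_cast
    linarith
  rw [abs_of_pos (by positivity), h2]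
  have h5 : 10 * S ^ 9 * c * ((S ^ 10) ^ (a - 1) * (c * Real.sqrt (Pq (S ^ 2)))⁻¹) =
      10 * (S ^ 9 * (S ^ 10) ^ (a - 1)) * (c * (c * Real.sqrt (Pq (S ^ 2)))⁻¹) := by ring
  rw [h5, h4]
  field_simp

private theorem pb_half (k : ℕ) (a : ℝ) (ha : 10 * a = k + 1) :
    ∫ u in Set.Ioo (0 : ℝ) 1, u ^ (a - 1) * (1 - u) ^ ((1 : ℝ) / 2 - 1) =
      ∫ t in Set.Ioo (0 : ℝ) (Real.pi / 2),
        10 * (Real.sin t ^ k / Real.sqrt (Pq (Real.sin t ^ 2))) := by
  have hsin : ∀ t ∈ Set.Ioo (0 : ℝ) (Real.pi / 2), 0 < Real.sin t := fun t ht =>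
    Real.sin_pos_of_pos_of_lt_pi ht.1 (by linarith [ht.2, Real.pi_pos])
  have hcos : ∀ t ∈ Set.Ioo (0 : ℝ) (Real.pi / 2), 0 < Real.cos t := fun t ht =>
    Real.cos_pos_of_mem_Ioo ⟨by linarith [ht.1, Real.pi_pos], ht.2⟩
  have hd : ∀ t ∈ Set.Ioo (0 : ℝ) (Real.pi / 2), HasDerivWithinAt (fun t => Real.sin t ^ 10)
      (10 * Real.sin t ^ 9 * Real.cos t) (Set.Ioo (0 : ℝ) (Real.pi / 2)) t := by
    intro t _
    have h1 := (Real.hasDerivAt_sin t).fun_pow 10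
    have h2 : ((10 : ℕ) : ℝ) * Real.sin t ^ (10 - 1) * Real.cos t =
        10 * Real.sin t ^ 9 * Real.cos t := by norm_num
    rw [h2] at h1
    exact h1.hasDerivWithinAt
  have hinj : Set.InjOn (fun t => Real.sin t ^ 10) (Set.Ioo (0 : ℝ) (Real.pi / 2)) := by
    intro x hx y hy hxy
    have h1 : Real.sin x = Real.sin y :=
      (pow_left_inj₀ (hsin x hx).le (hsin y hy).le (by norm_num)).1 hxy
    exact Real.injOn_sin ⟨by linarith [hx.1, Real.pi_pos], hx.2.le⟩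
      ⟨by linarith [hy.1, Real.pi_pos], hy.2.le⟩ h1
  have himg : (fun t => Real.sin t ^ 10) '' Set.Ioo (0 : ℝ) (Real.pi / 2) = Set.Ioo 0 1 := by
    ext y
    constructor
    · rintro ⟨t, ht, rfl⟩
      have h1 := hsin t ht
      have h2 : Real.sin t < 1 := by
        have h3 := Real.sin_lt_sin_of_lt_of_le_pi_div_two (x := t) (y := Real.pi / 2)
          (by linarith [ht.1, Real.pi_pos]) le_rfl ht.2
        rwa [Real.sin_pi_div_two] at h3
      exact ⟨by positivity, pow_lt_one₀ h1.le h2 (by norm_num)⟩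
    · rintro ⟨hy0, hy1⟩
      have h1 : 0 < y ^ ((10 : ℕ) : ℝ)⁻¹ := Real.rpow_pos_of_pos hy0 _
      have h2 : y ^ ((10 : ℕ) : ℝ)⁻¹ < 1 := Real.rpow_lt_one hy0.le hy1 (by norm_num)
      refine ⟨Real.arcsin (y ^ ((10 : ℕ) : ℝ)⁻¹), ⟨Real.arcsin_pos.2 h1,
        Real.arcsin_lt_pi_div_two.2 h2⟩, ?_⟩
      show Real.sin _ ^ 10 = y
      rw [Real.sin_arcsin (by linarith) h2.le]
      exact Real.rpow_inv_natCast_pow hy0.le (by norm_num)
  have hint := MeasureTheory.integral_image_eq_integral_abs_deriv_smul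
    (measurableSet_Ioo : MeasurableSet (Set.Ioo (0 : ℝ) (Real.pi / 2)))
    hd hinj (fun u : ℝ => u ^ (a - 1) * (1 - u) ^ ((1 : ℝ) / 2 - 1))
  rw [himg] at hint
  rw [hint]
  refine MeasureTheory.setIntegral_congr_fun measurableSet_Ioo fun t ht => ?_
  exact pb_point k a ha (hsin t ht) (hcos t ht) (Real.sin_sq_add_cos_sq t)

private theorem pb_cont (k : ℕ) :
    Continuous fun t : ℝ => Real.sin t ^ k / Real.sqrt (Pq (Real.sin t ^ 2)) := by
  refine Continuous.div (Real.continuous_sin.pow k) ?_ fun t => ?_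
  · refine Real.continuous_sqrt.comp ?_
    unfold Pq
    fun_prop
  · exact (Real.sqrt_pos.2 (lt_of_lt_of_le one_pos (Pq_pos (by positivity)))).ne'

private theorem pb_main (k : ℕ) (a : ℝ) (ha0 : 0 < a) (ha : 10 * a = k + 1) :
    ∫ t in (0 : ℝ)..Real.pi, Real.sin t ^ k / Real.sqrt (Pq (Real.sin t ^ 2)) =
      Real.Gamma a * Real.Gamma (1 / 2) / (5 * Real.Gamma (a + 1 / 2)) := by
  have hc := pb_cont k
  have h1 := ROH.beta_int a (1 / 2) ha0 (by norm_num)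
  rw [pb_half k a ha, MeasureTheory.integral_const_mul, ← MeasureTheory.integral_Ioc_eq_integral_Ioo,
    ← intervalIntegral.integral_of_le (by positivity)] at h1
  have h2 : ∫ t in (Real.pi / 2)..Real.pi, Real.sin t ^ k / Real.sqrt (Pq (Real.sin t ^ 2)) =
      ∫ t in (0 : ℝ)..(Real.pi / 2), Real.sin t ^ k / Real.sqrt (Pq (Real.sin t ^ 2)) := by
    have h3 := intervalIntegral.integral_comp_sub_left (a := 0) (b := Real.pi / 2)
      (fun t => Real.sin t ^ k / Real.sqrt (Pq (Real.sin t ^ 2))) Real.pi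
    simp only [Real.sin_pi_sub, sub_zero] at h3
    rw [h3]
    congr 1
    ring
  have h4 := intervalIntegral.integral_add_adjacent_intervals
    (hc.intervalIntegrable (0 : ℝ) (Real.pi / 2) (μ := MeasureTheory.volume))
    (hc.intervalIntegrable (Real.pi / 2) Real.pi (μ := MeasureTheory.volume))
  rw [← h4, h2]
  have hG : 0 < Real.Gamma (a + 1 / 2) := Real.Gamma_pos_of_pos (by linarith)
  rw [eq_div_iff (by positivity)]
  rw [eq_div_iff hG.ne'] at h1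
  linarith

theorem C1_pi : C1 Real.pi = Real.Gamma (3 / 10) * Real.Gamma (1 / 2) / (5 * Real.Gamma (4 / 5)) := by
  have h := pb_main 2 (3 / 10) (by norm_num) (by norm_num)
  rw [show (3 : ℝ) / 10 + 1 / 2 = 4 / 5 by norm_num] at h
  exact h

theorem C2_pi : C2 Real.pi = Real.Gamma (1 / 10) * Real.Gamma (1 / 2) / (5 * Real.Gamma (3 / 5)) := by
  have h := pb_main 0 (1 / 10) (by norm_num) (by norm_num)
  rw [show (1 : ℝ) / 10 + 1 / 2 = 3 / 5 by norm_num] at h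
  simp only [pow_zero] at h
  exact h

end Pool.Agent.RO5
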