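import Pool.Agent.RO5.PDefs

/-!
RO5-PCc (real analysis, Mathlib only in substance). Elementary properties of the path.

`h1, h2` are continuous (`Pq_pos`), `π`-periodic (`sin (t + π) = - sin t`). `C(s + π) = C(s) + C(π)`: `intervalIntegral` additivity and
`Function.Periodic.intervalIntegral_add_eq`.
-/

set_option autoImplicit false

namespace Pool.Agent.RO5

open Complex Finset

private lemma sqrtPq_pos (t : ℝ) : 0 < Real.sqrt (Pq (Real.sin t ^ 2)) :=
  Real.sqrt_pos.mpr (lt_of_lt_of_le one_pos (Pq_pos (sq_nonneg _)))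

private lemma cont_sq : Continuous fun t : ℝ => Real.sqrt (Pq (Real.sin t ^ 2)) := by
  unfold Pq
  fun_prop

theorem continuous_h1 : Continuous h1 := by
  unfold h1
  exact (by fun_prop : Continuous fun t : ℝ => Real.sin t ^ 2).div cont_sq
    (fun t => (sqrtPq_pos t).ne')

theorem continuous_h2 : Continuous h2 := by
  unfold h2
  exact continuous_const.div cont_sq (fun t => (sqrtPq_pos t).ne')

theorem C1_zero : C1 0 = 0 := by simp [C1]

theorem C2_zero : C2 0 = 0 := by simp [C2]

theorem hasDerivAt_C1 (s : ℝ) : HasDerivAt C1 (h1 s) s := by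
  have h : HasDerivAt (fun u => ∫ t in (0 : ℝ)..u, h1 t) (h1 s) s :=
    intervalIntegral.integral_hasDerivAt_right (continuous_h1.intervalIntegrable _ _)
      (continuous_h1.stronglyMeasurableAtFilter _ _) continuous_h1.continuousAt
  exact h

theorem hasDerivAt_C2 (s : ℝ) : HasDerivAt C2 (h2 s) s := by
  have h : HasDerivAt (fun u => ∫ t in (0 : ℝ)..u, h2 t) (h2 s) s :=
    intervalIntegral.integral_hasDerivAt_right (continuous_h2.intervalIntegrable _ _)
      (continuous_h2.stronglyMeasurableAtFilter _ _) continuous_h2.continuousAt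
  exact h

private lemma per_add {h : ℝ → ℝ} (hc : Continuous h) (hp : Function.Periodic h Real.pi) (s : ℝ) :
    (∫ t in (0 : ℝ)..(s + Real.pi), h t) = (∫ t in (0 : ℝ)..s, h t) + ∫ t in (0 : ℝ)..Real.pi, h t := by
  have e1 : (∫ t in (0 : ℝ)..s, h t) + (∫ t in s..(s + Real.pi), h t) =
      ∫ t in (0 : ℝ)..(s + Real.pi), h t :=
    intervalIntegral.integral_add_adjacent_intervals (hc.intervalIntegrable _ _)
      (hc.intervalIntegrable _ _)
  have e2 : (∫ t in s..(s + Real.pi), h t) = ∫ t in (0 : ℝ)..(0 + Real.pi), h t :=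
    hp.intervalIntegral_add_eq s 0
  rw [← e1, e2, zero_add]

private lemma per_h1 : Function.Periodic h1 Real.pi := by
  intro t
  simp [h1, Real.sin_add_pi]

private lemma per_h2 : Function.Periodic h2 Real.pi := by
  intro t
  simp [h2, Real.sin_add_pi]

theorem C1_add_pi (s : ℝ) : C1 (s + Real.pi) = C1 s + C1 Real.pi :=
  per_add continuous_h1 per_h1 s

theorem C2_add_pi (s : ℝ) : C2 (s + Real.pi) = C2 s + C2 Real.pi :=
  per_add continuous_h2 per_h2 s

theorem C1_sub_pi (s : ℝ) : C1 (s - Real.pi) = C1 s - C1 Real.pi := by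
  have h := C1_add_pi (s - Real.pi)
  rw [sub_add_cancel] at h
  linarith

theorem C2_sub_pi (s : ℝ) : C2 (s - Real.pi) = C2 s - C2 Real.pi := by
  have h := C2_add_pi (s - Real.pi)
  rw [sub_add_cancel] at h
  linarith

private lemma Pq_le (t : ℝ) : Pq (Real.sin t ^ 2) ≤ 5 := by
  have h0 : 0 ≤ Real.sin t ^ 2 := sq_nonneg _
  have h1 : Real.sin t ^ 2 ≤ 1 := Real.sin_sq_le_one t
  unfold Pq
  have h2 : (Real.sin t ^ 2) ^ 2 ≤ 1 := pow_le_one₀ h0 h1
  have h3 : (Real.sin t ^ 2) ^ 3 ≤ 1 := pow_le_one₀ h0 h1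
  have h4 : (Real.sin t ^ 2) ^ 4 ≤ 1 := pow_le_one₀ h0 h1
  linarith

/-- `C2` is strictly increasing: its derivative is `≥ 1/√5` -/
theorem C2_ge {s : ℝ} (hs : 0 ≤ s) : s / Real.sqrt 5 ≤ C2 s ∧ C2 s ≤ s := by
  have hlow : ∀ t : ℝ, 1 / Real.sqrt 5 ≤ h2 t := by
    intro t
    unfold h2
    exact one_div_le_one_div_of_le (sqrtPq_pos t) (Real.sqrt_le_sqrt (Pq_le t))
  have hup : ∀ t : ℝ, h2 t ≤ 1 := by
    intro t
    unfold h2
    rw [div_le_one (sqrtPq_pos t)]
    have := Real.sqrt_le_sqrt (Pq_pos (sq_nonneg (Real.sin t)))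
    rwa [Real.sqrt_one] at this
  constructor
  · have h := intervalIntegral.integral_mono_on (a := 0) (b := s) hs
      (continuous_const.intervalIntegrable (μ := MeasureTheory.volume) 0 s)
      (continuous_h2.intervalIntegrable 0 s) (fun t _ => hlow t)
    rw [intervalIntegral.integral_const] at h
    unfold C2
    calc s / Real.sqrt 5 = (s - 0) • (1 / Real.sqrt 5) := by
          simp [div_eq_mul_inv]
      _ ≤ _ := h
  · have h := intervalIntegral.integral_mono_on (a := 0) (b := s) hs
      (continuous_h2.intervalIntegrable (μ := MeasureTheory.volume) 0 s)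
      (continuous_const.intervalIntegrable 0 s) (fun t _ => hup t)
    rw [intervalIntegral.integral_const] at h
    unfold C2
    calc _ ≤ (s - 0) • (1 : ℝ) := h
      _ = s := by simp

end Pool.Agent.RO5
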