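import Pool.Agent.RO5.Defs

/-!
Project ROH5, block P (the branch of the curve at the origin and the periods): definitions.

`C1, C2` is the explicit real path; `om1 = C1 π`, `om2 = C2 π`.
-/

set_option autoImplicit false

namespace Pool.Agent.RO5

open Complex ComplexConjugate Finset Pool.Agent.ROH

noncomputable section

/-- `1 + v + v² + v³ + v⁴` -/
def Pq (v : ℝ) : ℝ := 1 + v + v ^ 2 + v ^ 3 + v ^ 4

def h1 (t : ℝ) : ℝ := Real.sin t ^ 2 / Real.sqrt (Pq (Real.sin t ^ 2))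

def h2 (t : ℝ) : ℝ := 1 / Real.sqrt (Pq (Real.sin t ^ 2))

def C1 (s : ℝ) : ℝ := ∫ t in (0 : ℝ)..s, h1 t

def C2 (s : ℝ) : ℝ := ∫ t in (0 : ℝ)..s, h2 t

/-- local graph `u1 = G u2` of the zero set of `f` near the origin -/
structure Gr (f : ℂ → ℂ → ℂ) (G : ℂ → ℂ) (δ η : ℝ) : Prop where
  hδ : 0 < δ
  hη : 0 < η
  diff : DifferentiableOn ℂ G (Metric.ball 0 δ)
  G0 : G 0 = 0
  zero : ∀ z : ℂ, ‖z‖ < δ → f (G z) z = 0
  d1 : ∀ z : ℂ, ‖z‖ < δ → D 1 0 f (G z) z ≠ 0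
  uniq : ∀ z w : ℂ, ‖z‖ < δ → ‖w‖ < η → f w z = 0 → w = G z

/-- the differential equation of the graph on `‖z‖ < δ` -/
structure GrOde (G : ℂ → ℂ) (δ : ℝ) : Prop where
  hδ : 0 < δ
  diff : DifferentiableOn ℂ G (Metric.ball 0 δ)
  G0 : G 0 = 0
  G1 : deriv G 0 = 0
  G2 : deriv (deriv G) 0 = 0
  ode : ∀ z : ℂ, ‖z‖ < δ → deriv (deriv (deriv G)) z = 2 - 12 * deriv G z ^ 5

/-- translates of the path contained in the zero set of `f` -/
def Zs (f : ℂ → ℂ → ℂ) : Set (ℂ × ℂ) := {p | ∀ s : ℝ, f (p.1 + C1 s) (p.2 + C2 s) = 0}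

end

theorem Pq_pos {v : ℝ} (hv : 0 ≤ v) : 1 ≤ Pq v := by
  unfold Pq
  have := pow_nonneg hv 2
  have := pow_nonneg hv 3
  have := pow_nonneg hv 4
  linarith

end Pool.Agent.RO5
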