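import Pool.Agent.RO5.PZ
import Pool.Agent.RO5.PB

/-!
Project ROH5, block P: final statement. `v1`, `v2` are algebraic multiples of explicit Gamma quotients.
-/

set_option autoImplicit false

namespace Pool.Agent.RO5

open Complex Finset Pool.Agent.ROH

theorem isAlg_sqrt5 : IsAlgebraic ℚ ((Real.sqrt 5 : ℝ) : ℂ) := by
  refine IsAlgebraic.of_pow (n := 2) (by norm_num) ?_
  rw [← ofReal_pow, Real.sq_sqrt (by norm_num)]
  have : (((5 : ℝ)) : ℂ) = algebraMap ℚ ℂ 5 := by simp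
  rw [this]
  exact isAlgebraic_algebraMap _

theorem isAlg_rat (q : ℚ) : IsAlgebraic ℚ (q : ℂ) := by
  have : (q : ℂ) = algebraMap ℚ ℂ q := by simp
  rw [this]
  exact isAlgebraic_algebraMap _

theorem isAlg_z1 : IsAlgebraic ℚ z1 := by
  refine IsAlgebraic.of_pow (n := 5) (by norm_num) ?_
  have : z1 ^ 5 = 1 := by
    unfold z1
    rw [← Complex.exp_nat_mul]
    have : ((5 : ℕ) : ℂ) * (2 * Real.pi * I / 5) = 2 * Real.pi * I := by push_cast; ring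
    rw [this, Complex.exp_two_pi_mul_I]
  rw [this]
  exact isAlgebraic_one

theorem isAlg_l1 (a c : ℤ × ℤ) : IsAlgebraic ℚ (l1 a c) := by
  unfold l1 o1 eps
  push_cast
  have h5 := isAlg_sqrt5
  have hi : ∀ n : ℤ, IsAlgebraic ℚ (n : ℂ) := fun n => by
    have := isAlg_rat (n : ℚ)
    simpa using this
  have h2 : IsAlgebraic ℚ (2 : ℂ) := by simpa using isAlg_rat 2
  have he : IsAlgebraic ℚ ((1 + ((Real.sqrt 5 : ℝ) : ℂ)) / 2) :=
    (isAlgebraic_one.add h5).mul h2.inv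
  exact ((hi _).add ((hi _).mul he)).add (((hi _).add ((hi _).mul he)).mul isAlg_z1)

theorem isAlg_l2 (a c : ℤ × ℤ) : IsAlgebraic ℚ (l2 a c) := by
  unfold l2 o2 epc z2
  push_cast
  have h5 := isAlg_sqrt5
  have hi : ∀ n : ℤ, IsAlgebraic ℚ (n : ℂ) := fun n => by
    have := isAlg_rat (n : ℚ)
    simpa using this
  have h2 : IsAlgebraic ℚ (2 : ℂ) := by simpa using isAlg_rat 2
  have he : IsAlgebraic ℚ ((1 - ((Real.sqrt 5 : ℝ) : ℂ)) / 2) :=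
    (isAlgebraic_one.sub h5).mul h2.inv
  exact ((hi _).add ((hi _).mul he)).add (((hi _).add ((hi _).mul he)).mul (isAlg_z1.pow 2))

theorem v_values {f : ℂ → ℂ → ℂ} {b : ℂ} (h : NFT f b) {v1 v2 : ℂ}
    (hq : QP5 1 (fun u1 u2 => f (v1 * u1) (v2 * u2))) (hv1 : v1 ≠ 0) (hv2 : v2 ≠ 0) :
    ∃ a1 a2 : ℂ, IsAlgebraic ℚ a1 ∧ IsAlgebraic ℚ a2 ∧ a1 ≠ 0 ∧ a2 ≠ 0 ∧
      v1 = a1 * ((Real.Gamma (3 / 10) * Real.Gamma (1 / 2) / Real.Gamma (4 / 5) : ℝ) : ℂ) ∧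
      v2 = a2 * ((Real.Gamma (1 / 10) * Real.Gamma (1 / 2) / Real.Gamma (3 / 5) : ℝ) : ℂ) := by
  obtain ⟨n, a, c, hn, e1, e2⟩ := period h hq hv1 hv2
  have g1 : 0 < Real.Gamma (3 / 10) := Real.Gamma_pos_of_pos (by norm_num)
  have g2 : 0 < Real.Gamma (1 / 2) := Real.Gamma_pos_of_pos (by norm_num)
  have g3 : 0 < Real.Gamma (4 / 5) := Real.Gamma_pos_of_pos (by norm_num)
  have g4 : 0 < Real.Gamma (1 / 10) := Real.Gamma_pos_of_pos (by norm_num)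
  have g5 : 0 < Real.Gamma (3 / 5) := Real.Gamma_pos_of_pos (by norm_num)
  have hn0 : (n : ℂ) ≠ 0 := by exact_mod_cast hn.ne'
  have hC1 : (C1 Real.pi : ℂ) ≠ 0 := by
    rw [C1_pi]
    exact_mod_cast (by positivity : Real.Gamma (3 / 10) * Real.Gamma (1 / 2) / (5 * Real.Gamma (4 / 5)) ≠ 0)
  have hC2 : (C2 Real.pi : ℂ) ≠ 0 := by
    rw [C2_pi]
    exact_mod_cast (by positivity : Real.Gamma (1 / 10) * Real.Gamma (1 / 2) / (5 * Real.Gamma (3 / 5)) ≠ 0)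
  have hl1 : l1 a c ≠ 0 := by
    intro h0
    rw [h0, mul_zero] at e1
    exact (mul_ne_zero hn0 hC1) e1
  have hl2 : l2 a c ≠ 0 := by
    intro h0
    rw [h0, mul_zero] at e2
    exact (mul_ne_zero hn0 hC2) e2
  have h5 : IsAlgebraic ℚ (5 : ℂ) := by simpa using isAlg_rat 5
  have hnA : IsAlgebraic ℚ (n : ℂ) := by simpa using isAlg_rat (n : ℚ)
  refine ⟨n * (l1 a c)⁻¹ * (5 : ℂ)⁻¹, n * (l2 a c)⁻¹ * (5 : ℂ)⁻¹,
    (hnA.mul (isAlg_l1 a c).inv).mul h5.inv, (hnA.mul (isAlg_l2 a c).inv).mul h5.inv,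
    mul_ne_zero (mul_ne_zero hn0 (inv_ne_zero hl1)) (by norm_num),
    mul_ne_zero (mul_ne_zero hn0 (inv_ne_zero hl2)) (by norm_num), ?_, ?_⟩
  · rw [C1_pi] at e1
    have : v1 = (l1 a c)⁻¹ * (n * ((Real.Gamma (3 / 10) * Real.Gamma (1 / 2) / (5 * Real.Gamma (4 / 5)) : ℝ) : ℂ)) := by
      rw [e1]; field_simp
    rw [this]
    push_cast
    field_simp
  · rw [C2_pi] at e2
    have : v2 = (l2 a c)⁻¹ * (n * ((Real.Gamma (1 / 10) * Real.Gamma (1 / 2) / (5 * Real.Gamma (3 / 5)) : ℝ) : ℂ)) := by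
      rw [e2]; field_simp
    rw [this]
    push_cast
    field_simp

end Pool.Agent.RO5
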