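import Pool.Agent.RO5.PDefs
import Pool.Agent.RO5.CalA
import Pool.Agent.RO5.CalB

/-!
RO5-PG. Local graph of the zero set (implicit function theorem, complex).

The map `Ψ(u, z) = (f u z, z)` on `ℂ × ℂ` has a strict derivative at `0` (its derivative `(u,z) ↦ (D 1 0 f * du + D 0 1 f * dz, dz)` is continuous since `D 1 0 f`, `D 0 1 f`
are entire, `ent2_D`), invertible as `D 1 0 f 0 0 ≠ 0`: `HasStrictFDerivAt.toOpenPartialHomeomorph` / `ContDiffAt.toOpenPartialHomeomorph`, `localInverse`; `G z = (Ψ⁻¹ (0, z)).1`. `G` is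
differentiable near `0` (`HasStrictFDerivAt.to_localInverse` at all nearby points, or `ContDiffAt.to_localInverse`), continuous at `0`, so `D 1 0 f (G z) z ≠ 0` for small `z`. Uniqueness: injectivity of
`Ψ` near `0`: if `‖w‖ < η`, `‖z‖ < δ` and `f w z = 0` then `Ψ(w,z) = (0,z) = Ψ(G z, z)`.
Alternative: one variable in `w` for fixed `z`, Rouché/inverse function. 
-/

set_option autoImplicit false

namespace Pool.Agent.RO5

open Complex Finset Pool.Agent.ROH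

private theorem pg_fderiv {g : ℂ → ℂ → ℂ} (hg : Ent2 g) (z : ℂ × ℂ) :
    HasFDerivAt (fun z : ℂ × ℂ => g z.1 z.2)
      (D 1 0 g z.1 z.2 • ContinuousLinearMap.fst ℂ ℂ ℂ +
        D 0 1 g z.1 z.2 • ContinuousLinearMap.snd ℂ ℂ ℂ) z := by
  have h0 : HasFDerivAt (fun z : ℂ × ℂ => g z.1 z.2)
      (fderiv ℂ (fun z : ℂ × ℂ => g z.1 z.2) z) z := (hg z).hasFDerivAt
  have e1 : fderiv ℂ (fun z : ℂ × ℂ => g z.1 z.2) z (1, 0) = D 1 0 g z.1 z.2 := by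
    have hl : HasDerivAt (fun s : ℂ => (s, z.2)) ((1 : ℂ), (0 : ℂ)) z.1 :=
      (hasDerivAt_id z.1).prodMk (hasDerivAt_const z.1 z.2)
    have h1 := h0.comp_hasDerivAt z.1 hl
    have hd : D 1 0 g z.1 z.2 = deriv (fun x => g x z.2) z.1 := by
      simp only [D, iteratedDeriv_one, iteratedDeriv_zero]
    rw [hd]
    exact h1.deriv.symm
  have e2 : fderiv ℂ (fun z : ℂ × ℂ => g z.1 z.2) z (0, 1) = D 0 1 g z.1 z.2 := by
    have hl : HasDerivAt (fun s : ℂ => (z.1, s)) ((0 : ℂ), (1 : ℂ)) z.2 :=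
      (hasDerivAt_const z.2 z.1).prodMk (hasDerivAt_id z.2)
    have h1 := h0.comp_hasDerivAt z.2 hl
    have hd : D 0 1 g z.1 z.2 = deriv (fun y => g z.1 y) z.2 := by
      simp only [D, iteratedDeriv_one, iteratedDeriv_zero]
    rw [hd]
    exact h1.deriv.symm
  have e3 : fderiv ℂ (fun z : ℂ × ℂ => g z.1 z.2) z =
      D 1 0 g z.1 z.2 • ContinuousLinearMap.fst ℂ ℂ ℂ +
        D 0 1 g z.1 z.2 • ContinuousLinearMap.snd ℂ ℂ ℂ := by
    refine ContinuousLinearMap.ext fun v => ?_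
    have hv : v = v.1 • ((1 : ℂ), (0 : ℂ)) + v.2 • ((0 : ℂ), (1 : ℂ)) := by
      ext <;> simp
    have h2 : fderiv ℂ (fun z : ℂ × ℂ => g z.1 z.2) z v =
        v.1 • fderiv ℂ (fun z : ℂ × ℂ => g z.1 z.2) z (1, 0) +
          v.2 • fderiv ℂ (fun z : ℂ × ℂ => g z.1 z.2) z (0, 1) := by
      conv_lhs => rw [hv]
      rw [map_add, map_smul, map_smul]
    rw [h2, e1, e2]
    show v.1 * D 1 0 g z.1 z.2 + v.2 * D 0 1 g z.1 z.2 =
      D 1 0 g z.1 z.2 * v.1 + D 0 1 g z.1 z.2 * v.2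
    ring
  rw [e3] at h0
  exact h0

private noncomputable def pg_L (a b : ℂ) : (ℂ × ℂ) →L[ℂ] (ℂ × ℂ) :=
  (a • ContinuousLinearMap.fst ℂ ℂ ℂ + b • ContinuousLinearMap.snd ℂ ℂ ℂ).prod
    (ContinuousLinearMap.snd ℂ ℂ ℂ)

private noncomputable def pg_e (a b : ℂ) (ha : a ≠ 0) : (ℂ × ℂ) ≃L[ℂ] (ℂ × ℂ) :=
  ContinuousLinearEquiv.equivOfInverse (pg_L a b)
    ((a⁻¹ • (ContinuousLinearMap.fst ℂ ℂ ℂ - b • ContinuousLinearMap.snd ℂ ℂ ℂ)).prod
      (ContinuousLinearMap.snd ℂ ℂ ℂ))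
    (by
      intro v
      ext
      · simp [pg_L, ha]
      · simp [pg_L])
    (by
      intro v
      ext
      · simp [pg_L]
        field_simp
        ring
      · simp [pg_L])

private theorem pg_strict {f : ℂ → ℂ → ℂ} (hf : Ent2 f) (z : ℂ × ℂ) :
    HasStrictFDerivAt (fun z : ℂ × ℂ => (f z.1 z.2, z.2))
      (pg_L (D 1 0 f z.1 z.2) (D 0 1 f z.1 z.2)) z := by
  have h : ∀ y : ℂ × ℂ, HasFDerivAt (fun z : ℂ × ℂ => (f z.1 z.2, z.2))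
      (pg_L (D 1 0 f y.1 y.2) (D 0 1 f y.1 y.2)) y := fun y =>
    (pg_fderiv hf y).prodMk hasFDerivAt_snd
  refine hasStrictFDerivAt_of_hasFDerivAt_of_continuousAt
    (f' := fun y : ℂ × ℂ => pg_L (D 1 0 f y.1 y.2) (D 0 1 f y.1 y.2))
    (Filter.Eventually.of_forall h) ?_
  have c1 : Continuous fun y : ℂ × ℂ => D 1 0 f y.1 y.2 := (ent2_D hf 1 0).continuous
  have c2 : Continuous fun y : ℂ × ℂ => D 0 1 f y.1 y.2 := (ent2_D hf 0 1).continuous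
  have c3 : Continuous fun y : ℂ × ℂ =>
      D 1 0 f y.1 y.2 • ((ContinuousLinearMap.fst ℂ ℂ ℂ).prod (0 : (ℂ × ℂ) →L[ℂ] ℂ)) +
      D 0 1 f y.1 y.2 • ((ContinuousLinearMap.snd ℂ ℂ ℂ).prod (0 : (ℂ × ℂ) →L[ℂ] ℂ)) +
      (0 : (ℂ × ℂ) →L[ℂ] ℂ).prod (ContinuousLinearMap.snd ℂ ℂ ℂ) :=
    ((c1.smul continuous_const).add (c2.smul continuous_const)).add continuous_const
  have c4 : Continuous fun y : ℂ × ℂ => pg_L (D 1 0 f y.1 y.2) (D 0 1 f y.1 y.2) := by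
    refine c3.congr fun y => ?_
    refine ContinuousLinearMap.ext fun v => ?_
    ext
    · simp [pg_L]
    · simp [pg_L]
  exact c4.continuousAt

theorem exists_graph {f : ℂ → ℂ → ℂ} (hf : Ent2 f) (h0 : f 0 0 = 0) (h1 : D 1 0 f 0 0 ≠ 0) :
    ∃ (G : ℂ → ℂ) (δ η : ℝ), Gr f G δ η := by
  have hs : HasStrictFDerivAt (fun z : ℂ × ℂ => (f z.1 z.2, z.2))
      ((pg_e (D 1 0 f 0 0) (D 0 1 f 0 0) h1 : (ℂ × ℂ) ≃L[ℂ] (ℂ × ℂ)) : (ℂ × ℂ) →L[ℂ] (ℂ × ℂ))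
      ((0 : ℂ), (0 : ℂ)) := pg_strict hf (0, 0)
  set Φ := hs.toOpenPartialHomeomorph (fun z : ℂ × ℂ => (f z.1 z.2, z.2)) with hΦ
  have hcoe : ∀ z, Φ z = (f z.1 z.2, z.2) := fun z => rfl
  have hsrc : ((0 : ℂ), (0 : ℂ)) ∈ Φ.source := hs.mem_toOpenPartialHomeomorph_source
  have htgt : ((0 : ℂ), (0 : ℂ)) ∈ Φ.target := by
    have h := Φ.map_source hsrc
    rw [hcoe] at h
    simpa [h0] using h
  have hΦ0 : Φ.symm (0, 0) = (0, 0) := by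
    have h := Φ.left_inv hsrc
    rw [hcoe] at h
    simpa [h0] using h
  have hι : Continuous fun z : ℂ => ((0 : ℂ), z) := by fun_prop
  -- small z
  have e1 : ∀ᶠ z : ℂ in nhds 0, ((0 : ℂ), z) ∈ Φ.target :=
    hι.continuousAt.eventually (Φ.open_target.mem_nhds htgt)
  have e2 : ∀ᶠ z : ℂ in nhds 0,
      D 1 0 f (Φ.symm ((0 : ℂ), z)).1 (Φ.symm ((0 : ℂ), z)).2 ≠ 0 := by
    have c1 : ContinuousAt (fun z : ℂ => Φ.symm ((0 : ℂ), z)) 0 :=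
      ContinuousAt.comp (f := fun z : ℂ => ((0 : ℂ), z)) (g := Φ.symm)
        (Φ.continuousAt_symm htgt) hι.continuousAt
    have c2 : Continuous fun y : ℂ × ℂ => D 1 0 f y.1 y.2 := (ent2_D hf 1 0).continuous
    have c3 : ContinuousAt (fun z : ℂ => D 1 0 f (Φ.symm ((0 : ℂ), z)).1
        (Φ.symm ((0 : ℂ), z)).2) 0 :=
      ContinuousAt.comp (f := fun z : ℂ => Φ.symm ((0 : ℂ), z))
        (g := fun y : ℂ × ℂ => D 1 0 f y.1 y.2) c2.continuousAt c1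
    refine c3.eventually_ne ?_
    rw [hΦ0]
    exact h1
  obtain ⟨r1, hr1, hr1'⟩ := Metric.eventually_nhds_iff_ball.1 e1
  obtain ⟨r2, hr2, hr2'⟩ := Metric.eventually_nhds_iff_ball.1 e2
  obtain ⟨r3, hr3, hr3'⟩ := Metric.isOpen_iff.1 Φ.open_source _ hsrc
  have key : ∀ z : ℂ, ‖z‖ < min r1 (min r2 r3) → ((0 : ℂ), z) ∈ Φ.target ∧
      D 1 0 f (Φ.symm ((0 : ℂ), z)).1 (Φ.symm ((0 : ℂ), z)).2 ≠ 0 ∧ ‖z‖ < r3 := by
    intro z hz
    refine ⟨hr1' z ?_, hr2' z ?_, ?_⟩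
    · rw [mem_ball_zero_iff]
      exact hz.trans_le (min_le_left _ _)
    · rw [mem_ball_zero_iff]
      exact hz.trans_le ((min_le_right _ _).trans (min_le_left _ _))
    · exact hz.trans_le ((min_le_right _ _).trans (min_le_right _ _))
  have inv : ∀ z : ℂ, ((0 : ℂ), z) ∈ Φ.target →
      f (Φ.symm ((0 : ℂ), z)).1 (Φ.symm ((0 : ℂ), z)).2 = 0 ∧ (Φ.symm ((0 : ℂ), z)).2 = z := by
    intro z hz
    have h := Φ.right_inv hz
    rw [hcoe] at h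
    exact ⟨congrArg Prod.fst h, congrArg Prod.snd h⟩
  refine ⟨fun z => (Φ.symm ((0 : ℂ), z)).1, min r1 (min r2 r3), r3, ?_⟩
  refine ⟨lt_min hr1 (lt_min hr2 hr3), hr3, ?_, ?_, ?_, ?_, ?_⟩
  · intro z hz
    rw [mem_ball_zero_iff] at hz
    obtain ⟨k1, k2, k3⟩ := key z hz
    have hd : HasFDerivAt Φ
        ((pg_e (D 1 0 f (Φ.symm ((0 : ℂ), z)).1 (Φ.symm ((0 : ℂ), z)).2)
          (D 0 1 f (Φ.symm ((0 : ℂ), z)).1 (Φ.symm ((0 : ℂ), z)).2) k2 :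
          (ℂ × ℂ) ≃L[ℂ] (ℂ × ℂ)) : (ℂ × ℂ) →L[ℂ] (ℂ × ℂ)) (Φ.symm ((0 : ℂ), z)) :=
      (pg_strict hf _).hasFDerivAt
    have hd2 := Φ.hasFDerivAt_symm k1 hd
    have hd3 : DifferentiableAt ℂ (fun z : ℂ => ((0 : ℂ), z)) z := by fun_prop
    have hd4 : DifferentiableAt ℂ (fun z : ℂ => Φ.symm ((0 : ℂ), z)) z :=
      DifferentiableAt.comp (f := fun z : ℂ => ((0 : ℂ), z)) (g := Φ.symm) z
        hd2.differentiableAt hd3
    exact (hd4.fst).differentiableWithinAt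
  · show (Φ.symm ((0 : ℂ), (0 : ℂ))).1 = 0
    rw [hΦ0]
  · intro z hz
    obtain ⟨k1, k2, k3⟩ := key z hz
    obtain ⟨i1, i2⟩ := inv z k1
    rw [i2] at i1
    exact i1
  · intro z hz
    obtain ⟨k1, k2, k3⟩ := key z hz
    obtain ⟨i1, i2⟩ := inv z k1
    rw [i2] at k2
    exact k2
  · intro z w hz hw h
    obtain ⟨k1, k2, k3⟩ := key z hz
    have hm : (w, z) ∈ Φ.source := by
      refine hr3' ?_
      rw [mem_ball_iff_norm, Prod.norm_def]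
      simp only [Prod.fst_sub, Prod.snd_sub, sub_zero]
      exact max_lt hw k3
    have h2 := Φ.left_inv hm
    rw [hcoe] at h2
    simp only [h] at h2
    show w = (Φ.symm ((0 : ℂ), z)).1
    rw [h2]

private theorem pg_norm1 : ‖z1‖ = 1 := by
  unfold z1
  have h : (2 * Real.pi * I / 5 : ℂ) = ((2 * Real.pi / 5 : ℝ) : ℂ) * I := by
    push_cast
    ring
  rw [h, Complex.norm_exp_ofReal_mul_I]

private theorem pg_norm2 : ‖z2‖ = 1 := by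
  unfold z2
  rw [norm_pow, pg_norm1, one_pow]

/-- equivariance of the graph -/
theorem graph_sym {f : ℂ → ℂ → ℂ} {G : ℂ → ℂ} {δ η : ℝ} (h : Gr f G δ η)
    (hsym : ∀ u1 u2, f (z1 * u1) (z2 * u2) = z1 * f u1 u2) :
    ∃ r : ℝ, 0 < r ∧ r ≤ δ ∧ ∀ z : ℂ, ‖z‖ < r → G (z2 * z) = z1 * G z := by
  have c : ContinuousAt G 0 :=
    (h.diff.differentiableAt (Metric.ball_mem_nhds 0 h.hδ)).continuousAt
  have e : ∀ᶠ z in nhds (0 : ℂ), ‖G z‖ < η := by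
    have c2 := c.norm
    refine c2.eventually_lt continuousAt_const ?_
    rw [h.G0, norm_zero]
    exact h.hη
  obtain ⟨r, hr, hr'⟩ := Metric.eventually_nhds_iff_ball.1 e
  refine ⟨min r δ, lt_min hr h.hδ, min_le_right _ _, ?_⟩
  intro z hz
  have hz1 : ‖z‖ < δ := hz.trans_le (min_le_right _ _)
  have hG : ‖G z‖ < η := hr' z (by
    rw [mem_ball_zero_iff]
    exact hz.trans_le (min_le_left _ _))
  refine (h.uniq (z2 * z) (z1 * G z) ?_ ?_ ?_).symm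
  · rw [norm_mul, pg_norm2, one_mul]
    exact hz1
  · rw [norm_mul, pg_norm1, one_mul]
    exact hG
  · rw [hsym, h.zero z hz1, mul_zero]

end Pool.Agent.RO5
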