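import Pool.Agent.RO5.Defs

/-!
RO5-PLat. The lattice `ℤ[ζ]` in `ℂ²`: covering, multiplication, density, pigeonhole.
-/

set_option autoImplicit false

namespace Pool.Agent.RO5

open Complex ComplexConjugate Finset Pool.Agent.ROH

private theorem pl_s5 : Real.sqrt 5 ^ 2 = 5 := Real.sq_sqrt (by norm_num)

private theorem pl_s5_pos : 0 < Real.sqrt 5 := Real.sqrt_pos.2 (by norm_num)

private theorem pl_s5_lo : 2 < Real.sqrt 5 := by
  rw [Real.lt_sqrt (by norm_num)]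
  norm_num

private theorem pl_s5_hi : Real.sqrt 5 < 3 := by
  rw [Real.sqrt_lt' (by norm_num)]
  norm_num

private theorem pl_eps_sq : eps ^ 2 = eps + 1 := by
  have h := pl_s5
  unfold eps
  nlinarith [h]

private theorem pl_epc_sq : epc ^ 2 = epc + 1 := by
  have h := pl_s5
  unfold epc
  nlinarith [h]

private theorem pl_sum : eps + epc = 1 := by
  unfold eps epc
  ring

private theorem pl_z1_re : z1.re = (eps - 1) / 2 := by
  have h1 : (2 * (Real.pi : ℂ) * I / 5) = ((2 * Real.pi / 5 : ℝ) : ℂ) * I := by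
    push_cast
    ring
  unfold z1
  rw [h1, Complex.exp_ofReal_mul_I_re]
  have h2 : 2 * Real.pi / 5 = 2 * (Real.pi / 5) := by ring
  rw [h2, Real.cos_two_mul, Real.cos_pi_div_five]
  have h := pl_s5
  unfold eps
  nlinarith [h]

private theorem pl_z1_im : 0 < z1.im := by
  have h1 : (2 * (Real.pi : ℂ) * I / 5) = ((2 * Real.pi / 5 : ℝ) : ℂ) * I := by
    push_cast
    ring
  unfold z1
  rw [h1, Complex.exp_ofReal_mul_I_im]
  have hp := Real.pi_pos
  apply Real.sin_pos_of_pos_of_lt_pi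
  · positivity
  · linarith

private theorem pl_z1_norm : ‖z1‖ = 1 := by
  have h1 : (2 * (Real.pi : ℂ) * I / 5) = ((2 * Real.pi / 5 : ℝ) : ℂ) * I := by
    push_cast
    ring
  unfold z1
  rw [h1, Complex.norm_exp_ofReal_mul_I]

private theorem pl_z1_sq : z1 ^ 2 = ((eps - 1 : ℝ) : ℂ) * z1 - 1 := by
  have h1 : z1 * conj z1 = 1 := by
    rw [Complex.mul_conj, Complex.normSq_eq_norm_sq, pl_z1_norm]
    norm_num
  have h2 : z1 + conj z1 = ((eps - 1 : ℝ) : ℂ) := by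
    rw [Complex.add_conj, pl_z1_re]
    push_cast
    ring
  rw [← h2]
  linear_combination -h1

private theorem pl_t (t : ℂ) : t ^ 2 + t = 1 → ∀ z : ℂ, z ^ 2 = t * z - 1 →
    z ^ 4 = t - z ∧ z ^ 5 = 1 := by
  intro ht z hz
  have h4 : z ^ 4 = t - z := by
    linear_combination (z ^ 2 + t * z - 1 + t ^ 2) * hz + (t * z - z - 1) * ht
  refine ⟨h4, ?_⟩
  have : z ^ 5 = z * z ^ 4 := by ring
  rw [this, h4]
  linear_combination -hz

private theorem pl_t1 : (((eps - 1 : ℝ) : ℂ)) ^ 2 + ((eps - 1 : ℝ) : ℂ) = 1 := by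
  have h := pl_eps_sq
  have h2 : (eps - 1) ^ 2 + (eps - 1) = 1 := by linarith [h, (by ring : (eps - 1) ^ 2 = eps ^ 2 - 2 * eps + 1)]
  exact_mod_cast h2

private theorem pl_t2 : (((epc - 1 : ℝ) : ℂ)) ^ 2 + ((epc - 1 : ℝ) : ℂ) = 1 := by
  have h := pl_epc_sq
  have h2 : (epc - 1) ^ 2 + (epc - 1) = 1 := by linarith [h, (by ring : (epc - 1) ^ 2 = epc ^ 2 - 2 * epc + 1)]
  exact_mod_cast h2

private theorem pl_z2_eq : z2 = ((eps - 1 : ℝ) : ℂ) * z1 - 1 := by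
  unfold z2
  exact pl_z1_sq

private theorem pl_z2_sq : z2 ^ 2 = ((epc - 1 : ℝ) : ℂ) * z2 - 1 := by
  have h4 := (pl_t _ pl_t1 z1 pl_z1_sq).1
  have h5 : z2 ^ 2 = z1 ^ 4 := by
    unfold z2
    ring
  have h6 : ((epc - 1 : ℝ) : ℂ) = -(((eps - 1 : ℝ) : ℂ)) - 1 := by
    have := pl_sum
    have h7 : epc - 1 = -(eps - 1) - 1 := by linarith
    rw [h7]
    push_cast
    ring
  rw [h5, h4, h6, pl_z2_eq]
  linear_combination z1 * pl_t1

private theorem pl_z2_im : 0 < z2.im := by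
  rw [pl_z2_eq]
  have h : 0 < eps - 1 := by
    have := pl_s5_lo
    unfold eps
    linarith
  have h1 := pl_z1_im
  have h2 : (((eps - 1 : ℝ) : ℂ) * z1 - 1).im = (eps - 1) * z1.im := by
    rw [Complex.sub_im, Complex.mul_im]
    simp
  rw [h2]
  exact mul_pos h h1

private theorem pl_z2_norm : ‖z2‖ = 1 := by
  unfold z2
  rw [norm_pow, pl_z1_norm, one_pow]

private theorem pl_round (x1 x2 : ℝ) : ∃ a : ℤ × ℤ, |x1 - o1 a| ≤ 3 ∧ |x2 - o2 a| ≤ 3 := by
  have h5 := pl_s5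
  have hlo := pl_s5_lo
  have hhi := pl_s5_hi
  set r := Real.sqrt 5 with hr
  have hr0 : r ≠ 0 := by linarith
  set t := (x1 - x2) / r with ht
  set s := x1 - t * eps with hs
  have hx1 : x1 = s + t * eps := by rw [hs]; ring
  have hx2 : x2 = s + t * epc := by
    have h1 : t * r = x1 - x2 := by rw [ht]; field_simp
    have h2 : eps - epc = r := by
      unfold eps epc
      rw [← hr]
      ring
    have h3 : t * (eps - epc) = x1 - x2 := by rw [h2]; exact h1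
    rw [hs]
    linarith [h3, (by ring : t * (eps - epc) = t * eps - t * epc)]
  refine ⟨(⌊s⌋, ⌊t⌋), ?_, ?_⟩
  · have h1 : x1 - o1 (⌊s⌋, ⌊t⌋) = Int.fract s + Int.fract t * eps := by
      rw [hx1]
      simp only [o1, Int.fract]
      ring
    rw [h1]
    have a1 := Int.fract_nonneg s
    have a2 := Int.fract_lt_one s
    have a3 := Int.fract_nonneg t
    have a4 := Int.fract_lt_one t
    have he : 0 < eps ∧ eps < 2 := by
      unfold eps
      rw [← hr]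
      constructor <;> linarith
    rw [abs_le]
    constructor
    · have := mul_nonneg a3 he.1.le
      linarith
    · have : Int.fract t * eps ≤ 1 * 2 := mul_le_mul a4.le he.2.le he.1.le (by norm_num)
      linarith
  · have h1 : x2 - o2 (⌊s⌋, ⌊t⌋) = Int.fract s + Int.fract t * epc := by
      rw [hx2]
      simp only [o2, Int.fract]
      ring
    rw [h1]
    have a1 := Int.fract_nonneg s
    have a2 := Int.fract_lt_one s
    have a3 := Int.fract_nonneg t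
    have a4 := Int.fract_lt_one t
    have he : -1 < epc ∧ epc < 0 := by
      unfold epc
      rw [← hr]
      constructor <;> linarith
    rw [abs_le]
    constructor
    · have : Int.fract t * (-epc) ≤ 1 * 1 := mul_le_mul a4.le (by linarith [he.1]) (by linarith [he.2]) (by norm_num)
      linarith [(by ring : Int.fract t * (-epc) = -(Int.fract t * epc))]
    · have : 0 ≤ Int.fract t * (-epc) := mul_nonneg a3 (by linarith [he.2])
      linarith [(by ring : Int.fract t * (-epc) = -(Int.fract t * epc))]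

private theorem pl_dec {z : ℂ} (hz : 0 < z.im) (p : ℂ) : ∃ x y : ℝ, p = x + y * z := by
  refine ⟨p.re - p.im / z.im * z.re, p.im / z.im, ?_⟩
  apply Complex.ext
  · rw [Complex.add_re, Complex.ofReal_re, Complex.re_ofReal_mul]
    ring
  · rw [Complex.add_im, Complex.ofReal_im, Complex.im_ofReal_mul]
    have : z.im ≠ 0 := hz.ne'
    field_simp
    ring

private theorem pl_bd {z : ℂ} (hz : ‖z‖ = 1) (x y a b : ℝ) (h1 : |x - a| ≤ 3) (h2 : |y - b| ≤ 3) :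
    ‖((x : ℂ) + y * z) - (a + b * z)‖ ≤ 6 := by
  have h : ((x : ℂ) + y * z) - (a + b * z) = ((x - a : ℝ) : ℂ) + ((y - b : ℝ) : ℂ) * z := by
    push_cast
    ring
  rw [h]
  refine (norm_add_le _ _).trans ?_
  rw [norm_mul, hz, Complex.norm_real, Complex.norm_real, Real.norm_eq_abs, Real.norm_eq_abs]
  linarith

theorem lat_cover : ∃ R : ℝ, 0 < R ∧ ∀ p1 p2 : ℂ, ∃ a b : ℤ × ℤ, ‖p1 - l1 a b‖ ≤ R ∧ ‖p2 - l2 a b‖ ≤ R := by
  refine ⟨6, by norm_num, fun p1 p2 => ?_⟩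
  obtain ⟨x1, y1, h1⟩ := pl_dec pl_z1_im p1
  obtain ⟨x2, y2, h2⟩ := pl_dec pl_z2_im p2
  obtain ⟨a, ha1, ha2⟩ := pl_round x1 x2
  obtain ⟨b, hb1, hb2⟩ := pl_round y1 y2
  refine ⟨a, b, ?_, ?_⟩
  · rw [h1]
    exact pl_bd pl_z1_norm x1 y1 (o1 a) (o1 b) ha1 hb1
  · rw [h2]
    exact pl_bd pl_z2_norm x2 y2 (o2 a) (o2 b) ha2 hb2

/-- product in `ℤ[ε]` -/
private def pm (a b : ℤ × ℤ) : ℤ × ℤ := (a.1 * b.1 + a.2 * b.2, a.1 * b.2 + a.2 * b.1 + a.2 * b.2)

private theorem pm1 (a b : ℤ × ℤ) : o1 (pm a b) = o1 a * o1 b := by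
  simp only [o1, pm]
  push_cast
  linear_combination -((a.2 : ℝ) * b.2) * pl_eps_sq

private theorem pm2 (a b : ℤ × ℤ) : o2 (pm a b) = o2 a * o2 b := by
  simp only [o2, pm]
  push_cast
  linear_combination -((a.2 : ℝ) * b.2) * pl_epc_sq

private theorem pa1 (a b : ℤ × ℤ) : o1 (a + b) = o1 a + o1 b := by
  simp only [o1, Prod.fst_add, Prod.snd_add]
  push_cast
  ring

private theorem pa2 (a b : ℤ × ℤ) : o2 (a + b) = o2 a + o2 b := by
  simp only [o2, Prod.fst_add, Prod.snd_add]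
  push_cast
  ring

private theorem ps1 (a b : ℤ × ℤ) : o1 (a - b) = o1 a - o1 b := by
  simp only [o1, Prod.fst_sub, Prod.snd_sub]
  push_cast
  ring

private theorem ps2 (a b : ℤ × ℤ) : o2 (a - b) = o2 a - o2 b := by
  simp only [o2, Prod.fst_sub, Prod.snd_sub]
  push_cast
  ring

theorem lat_mul (a b c d : ℤ × ℤ) : ∃ e g : ℤ × ℤ, l1 a b * l1 c d = l1 e g ∧ l2 a b * l2 c d = l2 e g := by
  refine ⟨pm a c - pm b d, pm a d + pm b c + pm (-1, 1) (pm b d), ?_, ?_⟩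
  · have h : o1 (-1, 1) = eps - 1 := by
      simp only [o1]
      push_cast
      ring
    simp only [l1, ps1, pa1, pm1, h]
    have h2 := pl_z1_sq
    push_cast at h2 ⊢
    linear_combination ((o1 b : ℂ) * o1 d) * h2
  · have h : o2 (-1, 1) = epc - 1 := by
      simp only [o2]
      push_cast
      ring
    simp only [l2, ps2, pa2, pm2, h]
    have h2 := pl_z2_sq
    push_cast at h2 ⊢
    linear_combination ((o2 b : ℂ) * o2 d) * h2

theorem lat_zeta (a b : ℤ × ℤ) : ∃ c d : ℤ × ℤ, z1 * l1 a b = l1 c d ∧ z2 * l2 a b = l2 c d := by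
  obtain ⟨e, g, h1, h2⟩ := lat_mul (0, 0) (1, 0) a b
  refine ⟨e, g, ?_, ?_⟩
  · rw [← h1]
    simp [l1, o1]
  · rw [← h2]
    simp [l2, o2]

/-- `ℤ[ζ]` is generated by the powers of `ζ` -/
theorem lat_gen (a b : ℤ × ℤ) : ∃ n : Fin 5 → ℤ, l1 a b = ∑ k, (n k : ℂ) * z1 ^ (k : ℕ) ∧
    l2 a b = ∑ k, (n k : ℂ) * z2 ^ (k : ℕ) := by
  refine ⟨![a.1 + a.2 + b.2, a.2 + b.1 + b.2, b.2, 0, a.2], ?_, ?_⟩
  · have h := pl_t _ pl_t1 z1 pl_z1_sq
    have h2 := pl_z1_sq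
    rw [Fin.sum_univ_five]
    simp only [l1, o1]
    simp
    push_cast at h h2
    linear_combination (-(a.2 : ℂ)) * h.1 + (-(b.2 : ℂ)) * h2
  · have h := pl_t _ pl_t2 z2 pl_z2_sq
    have h2 := pl_z2_sq
    rw [Fin.sum_univ_five]
    simp only [l2, o2]
    simp
    push_cast at h h2
    linear_combination (-(a.2 : ℂ)) * h.1 + (-(b.2 : ℂ)) * h2

theorem lat_add (a b c d : ℤ × ℤ) : l1 a b + l1 c d = l1 (a + c) (b + d) ∧ l2 a b + l2 c d = l2 (a + c) (b + d) := by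
  constructor
  · simp only [l1, pa1]
    push_cast
    ring
  · simp only [l2, pa2]
    push_cast
    ring

private theorem lat_sub (a b c d : ℤ × ℤ) : l1 a b - l1 c d = l1 (a - c) (b - d) ∧ l2 a b - l2 c d = l2 (a - c) (b - d) := by
  constructor
  · simp only [l1, ps1]
    push_cast
    ring
  · simp only [l2, ps2]
    push_cast
    ring

private def pw (u : ℤ × ℤ) : ℕ → ℤ × ℤ
  | 0 => (1, 0)
  | n + 1 => pm u (pw u n)

private theorem pw1 (u : ℤ × ℤ) (n : ℕ) : o1 (pw u n) = o1 u ^ n := by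
  induction n with
  | zero => simp [pw, o1]
  | succ n ih => rw [pw, pm1, ih, pow_succ']

private theorem pw2 (u : ℤ × ℤ) (n : ℕ) : o2 (pw u n) = o2 u ^ n := by
  induction n with
  | zero => simp [pw, o2]
  | succ n ih => rw [pw, pm2, ih, pow_succ']

private theorem pl_small {t R e : ℝ} (ht : |t| < 1) (hR : 0 < R) (he : 0 < e) : ∃ n : ℕ, R * |t| ^ n < e := by
  obtain ⟨n, hn⟩ := exists_pow_lt_of_lt_one (div_pos he hR) ht
  refine ⟨n, ?_⟩
  rw [lt_div_iff₀ hR] at hn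
  linarith

theorem lat_dense1 (c : ℂ) (e : ℝ) (he : 0 < e) : ∃ a b : ℤ × ℤ, ‖c - l1 a b‖ < e := by
  obtain ⟨R, hR, hcov⟩ := lat_cover
  have hlo := pl_s5_lo
  have hhi := pl_s5_hi
  have ho : o1 (-1, 1) = eps - 1 := by
    simp only [o1]
    push_cast
    ring
  have ht0 : 0 < eps - 1 := by unfold eps; linarith
  have ht1 : |eps - 1| < 1 := by
    rw [abs_lt]
    unfold eps
    constructor <;> linarith
  obtain ⟨n, hn⟩ := pl_small ht1 hR he
  have htn : (((eps - 1) ^ n : ℝ) : ℂ) ≠ 0 := by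
    exact_mod_cast (pow_pos ht0 n).ne'
  obtain ⟨a, b, hab, -⟩ := hcov (c / (((eps - 1) ^ n : ℝ) : ℂ)) 0
  refine ⟨pm (pw (-1, 1) n) a, pm (pw (-1, 1) n) b, ?_⟩
  have h1 : l1 (pm (pw (-1, 1) n) a) (pm (pw (-1, 1) n) b) = (((eps - 1) ^ n : ℝ) : ℂ) * l1 a b := by
    simp only [l1, pm1, pw1, ho]
    push_cast
    ring
  have h2 : c - (((eps - 1) ^ n : ℝ) : ℂ) * l1 a b =
      (((eps - 1) ^ n : ℝ) : ℂ) * (c / (((eps - 1) ^ n : ℝ) : ℂ) - l1 a b) := by
    rw [mul_sub, mul_div_cancel₀ _ htn]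
  rw [h1, h2, norm_mul, Complex.norm_real, Real.norm_eq_abs, abs_pow]
  calc |eps - 1| ^ n * ‖c / (((eps - 1) ^ n : ℝ) : ℂ) - l1 a b‖ ≤ |eps - 1| ^ n * R :=
        mul_le_mul_of_nonneg_left hab (by positivity)
    _ = R * |eps - 1| ^ n := mul_comm _ _
    _ < e := hn

theorem lat_dense2 (c : ℂ) (e : ℝ) (he : 0 < e) : ∃ a b : ℤ × ℤ, ‖c - l2 a b‖ < e := by
  obtain ⟨R, hR, hcov⟩ := lat_cover
  have hlo := pl_s5_lo
  have hhi := pl_s5_hi
  have ho : o2 (0, 1) = epc := by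
    simp only [o2]
    push_cast
    ring
  have ht0 : epc ≠ 0 := by
    unfold epc
    intro h
    linarith
  have ht1 : |epc| < 1 := by
    rw [abs_lt]
    unfold epc
    constructor <;> linarith
  obtain ⟨n, hn⟩ := pl_small ht1 hR he
  have htn : ((epc ^ n : ℝ) : ℂ) ≠ 0 := by
    exact_mod_cast pow_ne_zero n ht0
  obtain ⟨a, b, -, hab⟩ := hcov 0 (c / ((epc ^ n : ℝ) : ℂ))
  refine ⟨pm (pw (0, 1) n) a, pm (pw (0, 1) n) b, ?_⟩
  have h1 : l2 (pm (pw (0, 1) n) a) (pm (pw (0, 1) n) b) = ((epc ^ n : ℝ) : ℂ) * l2 a b := by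
    simp only [l2, pm2, pw2, ho]
    push_cast
    ring
  have h2 : c - ((epc ^ n : ℝ) : ℂ) * l2 a b =
      ((epc ^ n : ℝ) : ℂ) * (c / ((epc ^ n : ℝ) : ℂ) - l2 a b) := by
    rw [mul_sub, mul_div_cancel₀ _ htn]
  rw [h1, h2, norm_mul, Complex.norm_real, Real.norm_eq_abs, abs_pow]
  calc |epc| ^ n * ‖c / ((epc ^ n : ℝ) : ℂ) - l2 a b‖ ≤ |epc| ^ n * R :=
        mul_le_mul_of_nonneg_left hab (by positivity)
    _ = R * |epc| ^ n := mul_comm _ _
    _ < e := hn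

theorem lat_pigeon (w1 w2 : ℂ) (e : ℝ) (he : 0 < e) : ∃ (n : ℕ) (a b : ℤ × ℤ), 0 < n ∧
    ‖n * w1 - l1 a b‖ < e ∧ ‖n * w2 - l2 a b‖ < e := by
  obtain ⟨R, hR, hcov⟩ := lat_cover
  choose a b h1 h2 using fun m : ℕ => hcov ((m : ℂ) * w1) ((m : ℂ) * w2)
  have hb : ∀ m : ℕ, (((m : ℂ) * w1 - l1 (a m) (b m), (m : ℂ) * w2 - l2 (a m) (b m)) : ℂ × ℂ) ∈
      Metric.closedBall (0 : ℂ × ℂ) R := by
    intro m
    rw [mem_closedBall_zero_iff, Prod.norm_def]
    exact max_le (h1 m) (h2 m)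
  obtain ⟨x, -, φ, hφ, hlim⟩ := tendsto_subseq_of_bounded (Metric.isBounded_closedBall (x := (0 : ℂ × ℂ)) (r := R)) hb
  have hc := hlim.cauchySeq
  rw [Metric.cauchySeq_iff'] at hc
  obtain ⟨N, hN⟩ := hc e he
  have h3 := hN (N + 1) (Nat.le_succ N)
  have hlt : φ N < φ (N + 1) := hφ (Nat.lt_succ_self N)
  rw [dist_eq_norm, Prod.norm_def] at h3
  have h4 := lt_of_le_of_lt (le_max_left _ _) h3
  have h5 := lt_of_le_of_lt (le_max_right _ _) h3
  simp only [Function.comp, Prod.fst_sub, Prod.snd_sub] at h4 h5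
  have hs := lat_sub (a (φ (N + 1))) (b (φ (N + 1))) (a (φ N)) (b (φ N))
  refine ⟨φ (N + 1) - φ N, a (φ (N + 1)) - a (φ N), b (φ (N + 1)) - b (φ N), Nat.sub_pos_of_lt hlt, ?_, ?_⟩
  · rw [← hs.1, Nat.cast_sub hlt.le]
    have h6 : ((φ (N + 1) : ℂ) - (φ N : ℂ)) * w1 - (l1 (a (φ (N + 1))) (b (φ (N + 1))) - l1 (a (φ N)) (b (φ N))) =
        (φ (N + 1) : ℂ) * w1 - l1 (a (φ (N + 1))) (b (φ (N + 1))) - ((φ N : ℂ) * w1 - l1 (a (φ N)) (b (φ N))) := by
      ring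
    rw [h6]
    exact h4
  · rw [← hs.2, Nat.cast_sub hlt.le]
    have h6 : ((φ (N + 1) : ℂ) - (φ N : ℂ)) * w2 - (l2 (a (φ (N + 1))) (b (φ (N + 1))) - l2 (a (φ N)) (b (φ N))) =
        (φ (N + 1) : ℂ) * w2 - l2 (a (φ (N + 1))) (b (φ (N + 1))) - ((φ N : ℂ) * w2 - l2 (a (φ N)) (b (φ N))) := by
      ring
    rw [h6]
    exact h5

private theorem pl_irr (p q : ℤ) (h : (p : ℝ) + q * Real.sqrt 5 = 0) : p = 0 ∧ q = 0 := by
  have hi : Irrational (Real.sqrt 5) := by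
    have := Nat.Prime.irrational_sqrt (p := 5) (by norm_num)
    simpa using this
  by_cases hq : q = 0
  · subst hq
    refine ⟨?_, rfl⟩
    simpa using h
  · exfalso
    apply hi
    refine ⟨(-p : ℚ) / q, ?_⟩
    have hq' : (q : ℝ) ≠ 0 := by exact_mod_cast hq
    push_cast
    rw [div_eq_iff hq']
    linarith

private theorem pl_o1 (a : ℤ × ℤ) (h : o1 a = 0) : a = 0 := by
  have h1 : ((2 * a.1 + a.2 : ℤ) : ℝ) + (a.2 : ℤ) * Real.sqrt 5 = 0 := by
    simp only [o1, eps] at h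
    push_cast
    linarith
  obtain ⟨h2, h3⟩ := pl_irr _ _ h1
  ext
  · show a.1 = 0
    omega
  · exact h3

private theorem pl_o2 (a : ℤ × ℤ) (h : o2 a = 0) : a = 0 := by
  have h1 : ((2 * a.1 + a.2 : ℤ) : ℝ) + ((-a.2 : ℤ) : ℝ) * Real.sqrt 5 = 0 := by
    simp only [o2, epc] at h
    push_cast
    linarith
  obtain ⟨h2, h3⟩ := pl_irr _ _ h1
  ext
  · show a.1 = 0
    omega
  · show a.2 = 0
    omega

private theorem pl_ind {z : ℂ} (hz : 0 < z.im) (x y : ℝ) (h : (x : ℂ) + y * z = 0) : x = 0 ∧ y = 0 := by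
  have h1 := congrArg Complex.im h
  rw [Complex.add_im, Complex.ofReal_im, Complex.im_ofReal_mul, Complex.zero_im, zero_add] at h1
  have hy : y = 0 := (mul_eq_zero.1 h1).resolve_right hz.ne'
  have h2 := congrArg Complex.re h
  rw [Complex.add_re, Complex.ofReal_re, Complex.re_ofReal_mul, Complex.zero_re, hy, zero_mul, add_zero] at h2
  exact ⟨h2, hy⟩

theorem lat_zero (a b : ℤ × ℤ) (h : l1 a b = 0 ∨ l2 a b = 0) : a = 0 ∧ b = 0 := by
  rcases h with h | h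
  · obtain ⟨h1, h2⟩ := pl_ind pl_z1_im _ _ h
    exact ⟨pl_o1 a h1, pl_o1 b h2⟩
  · obtain ⟨h1, h2⟩ := pl_ind pl_z2_im _ _ h
    exact ⟨pl_o2 a h1, pl_o2 b h2⟩

end Pool.Agent.RO5
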