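import Pool.Agent.RO5.PZs
import Pool.Agent.RO5.PLat

/-!
RO5-PGp. The closed group of translations of `Zs f`.

`Gz f = {x | ∀ p ∈ Zs f, p + x ∈ Zs f ∧ p - x ∈ Zs f}`: additive subgroup, closed, stable under `x ↦ (ζ x1, ζ² x2)` (as `p + ζx = ζ (ζ⁴ p + x)`, `ζ⁵ = 1`, `zs_sym`), contains
`ω = (C1 π, C2 π)` (`zs_om`) and `(v1 l1 a b, v2 l2 a b)` (`zs_per` with `(a,b)` and `(-a,-b)`); by `lat_gen` it is stable under `x ↦ (l1 a b x1, l2 a b x2)`; `Gz f ⊆ Zs f` (`zs_zero`).
-/

set_option autoImplicit false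

namespace Pool.Agent.RO5

open Complex Finset Pool.Agent.ROH

theorem exists_group {f : ℂ → ℂ → ℂ} {b : ℂ} (h : NFT f b) {v1 v2 : ℂ}
    (hq : QP5 1 (fun u1 u2 => f (v1 * u1) (v2 * u2))) (hv1 : v1 ≠ 0) (hv2 : v2 ≠ 0) :
    ∃ M : AddSubgroup (ℂ × ℂ), IsClosed (M : Set (ℂ × ℂ)) ∧ (∀ x ∈ M, x ∈ Zs f) ∧
      ((C1 Real.pi : ℂ), (C2 Real.pi : ℂ)) ∈ M ∧ (∀ a b : ℤ × ℤ, (v1 * l1 a b, v2 * l2 a b) ∈ M) ∧
      ∀ x ∈ M, ∀ a b : ℤ × ℤ, (l1 a b * x.1, l2 a b * x.2) ∈ M := by
  classical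
  have hcl : IsClosed (Zs f) := zs_closed h.ent
  -- the group
  let M : AddSubgroup (ℂ × ℂ) :=
    { carrier := {x | ∀ p ∈ Zs f, p + x ∈ Zs f ∧ p - x ∈ Zs f}
      zero_mem' := by
        intro p hp
        simpa using hp
      add_mem' := by
        intro x y hx hy p hp
        refine ⟨?_, ?_⟩
        · rw [← add_assoc]
          exact (hy _ (hx p hp).1).1
        · rw [sub_add_eq_sub_sub]
          exact (hy _ (hx p hp).2).2
      neg_mem' := by
        intro x hx p hp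
        refine ⟨?_, ?_⟩
        · rw [← sub_eq_add_neg]
          exact (hx p hp).2
        · rw [sub_neg_eq_add]
          exact (hx p hp).1 }
  have hmem : ∀ x, x ∈ M ↔ ∀ p ∈ Zs f, p + x ∈ Zs f ∧ p - x ∈ Zs f := fun x => Iff.rfl
  have hMc : IsClosed (M : Set (ℂ × ℂ)) := by
    have : (M : Set (ℂ × ℂ)) = ⋂ p ∈ Zs f, ({x | p + x ∈ Zs f} ∩ {x | p - x ∈ Zs f}) := by
      ext x
      simp only [Set.mem_iInter, Set.mem_inter_iff, Set.mem_setOf_eq]
      exact hmem x
    rw [this]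
    refine isClosed_biInter fun p _ => IsClosed.inter ?_ ?_
    · exact hcl.preimage (continuous_const.add continuous_id)
    · exact hcl.preimage (continuous_const.sub continuous_id)
  -- zeta stability
  have hz5 : z1 ^ 5 = 1 := by
    unfold z1
    rw [← Complex.exp_nat_mul]
    have : ((5 : ℕ) : ℂ) * (2 * Real.pi * I / 5) = 2 * Real.pi * I := by
      push_cast
      ring
    rw [this, Complex.exp_two_pi_mul_I]
  have hz25 : z2 ^ 5 = 1 := by
    unfold z2
    rw [← pow_mul, mul_comm, pow_mul, hz5, one_pow]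
  have hsymk : ∀ (k : ℕ) (p : ℂ × ℂ), p ∈ Zs f → (z1 ^ k * p.1, z2 ^ k * p.2) ∈ Zs f := by
    intro k
    induction k with
    | zero =>
      intro p hp
      simpa using hp
    | succ k ih =>
      intro p hp
      have := zs_sym h (ih p hp)
      simp only at this
      rw [← mul_assoc, ← mul_assoc, ← pow_succ', ← pow_succ'] at this
      exact this
  have hzeta : ∀ x ∈ M, (z1 * x.1, z2 * x.2) ∈ M := by
    intro x hx
    rw [hmem] at hx ⊢
    intro p hp
    have h4 := hx _ (hsymk 4 p hp)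
    have ha := zs_sym h h4.1
    have hb := zs_sym h h4.2
    have e1 : z1 * z1 ^ 4 = 1 := by rw [← pow_succ']; exact hz5
    have e2 : z2 * z2 ^ 4 = 1 := by rw [← pow_succ']; exact hz25
    refine ⟨?_, ?_⟩
    · have : p + (z1 * x.1, z2 * x.2) = (z1 * ((z1 ^ 4 * p.1, z2 ^ 4 * p.2) + x).1,
          z2 * ((z1 ^ 4 * p.1, z2 ^ 4 * p.2) + x).2) := by
        refine Prod.ext ?_ ?_
        · simp only [Prod.fst_add]
          rw [mul_add, ← mul_assoc, e1, one_mul]
        · simp only [Prod.snd_add]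
          rw [mul_add, ← mul_assoc, e2, one_mul]
      rw [this]
      exact ha
    · have : p - (z1 * x.1, z2 * x.2) = (z1 * ((z1 ^ 4 * p.1, z2 ^ 4 * p.2) - x).1,
          z2 * ((z1 ^ 4 * p.1, z2 ^ 4 * p.2) - x).2) := by
        refine Prod.ext ?_ ?_
        · simp only [Prod.fst_sub]
          rw [mul_sub, ← mul_assoc, e1, one_mul]
        · simp only [Prod.snd_sub]
          rw [mul_sub, ← mul_assoc, e2, one_mul]
      rw [this]
      exact hb
  have hzk : ∀ (k : ℕ) (x : ℂ × ℂ), x ∈ M → (z1 ^ k * x.1, z2 ^ k * x.2) ∈ M := by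
    intro k
    induction k with
    | zero =>
      intro x hx
      simpa using hx
    | succ k ih =>
      intro x hx
      have := hzeta _ (ih x hx)
      simp only at this
      rw [← mul_assoc, ← mul_assoc, ← pow_succ', ← pow_succ'] at this
      exact this
  refine ⟨M, hMc, ?_, ?_, ?_, ?_⟩
  · intro x hx
    have := ((hmem x).1 hx _ (zs_zero h)).1
    have e : ((0 : ℂ), (0 : ℂ)) + x = x := by
      have : ((0 : ℂ), (0 : ℂ)) = 0 := rfl
      rw [this, zero_add]
    rwa [e] at this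
  · rw [hmem]
    intro p hp
    exact zs_om hp
  · intro a c
    rw [hmem]
    intro p hp
    refine ⟨zs_per hq hv1 hv2 hp a c, ?_⟩
    have h2 := zs_per hq hv1 hv2 hp (-a) (-c)
    have en : l1 (-a) (-c) = -l1 a c ∧ l2 (-a) (-c) = -l2 a c := by
      constructor
      · simp only [l1, o1, Prod.fst_neg, Prod.snd_neg]
        push_cast
        ring
      · simp only [l2, o2, Prod.fst_neg, Prod.snd_neg]
        push_cast
        ring
    rw [en.1, en.2] at h2
    have : p - (v1 * l1 a c, v2 * l2 a c) = (p.1 + v1 * -l1 a c, p.2 + v2 * -l2 a c) := by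
      refine Prod.ext ?_ ?_
      · simp only [Prod.fst_sub]
        ring
      · simp only [Prod.snd_sub]
        ring
    rw [this]
    exact h2
  · intro x hx a c
    obtain ⟨n, e1, e2⟩ := lat_gen a c
    have : (l1 a c * x.1, l2 a c * x.2) = ∑ k : Fin 5, n k • (z1 ^ (k : ℕ) * x.1, z2 ^ (k : ℕ) * x.2) := by
      rw [e1, e2]
      refine Prod.ext ?_ ?_
      · rw [Prod.fst_sum]
        change (∑ k : Fin 5, (n k : ℂ) * z1 ^ (k : ℕ)) * x.1 = _
        rw [Finset.sum_mul]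
        refine Finset.sum_congr rfl fun k _ => ?_
        have e : (n k • ((z1 ^ (k : ℕ) * x.1, z2 ^ (k : ℕ) * x.2) : ℂ × ℂ)).1 =
            n k • (z1 ^ (k : ℕ) * x.1) := rfl
        rw [e, zsmul_eq_mul]
        ring
      · rw [Prod.snd_sum]
        change (∑ k : Fin 5, (n k : ℂ) * z2 ^ (k : ℕ)) * x.2 = _
        rw [Finset.sum_mul]
        refine Finset.sum_congr rfl fun k _ => ?_
        have e : (n k • ((z1 ^ (k : ℕ) * x.1, z2 ^ (k : ℕ) * x.2) : ℂ × ℂ)).2 =
            n k • (z2 ^ (k : ℕ) * x.2) := rfl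
        rw [e, zsmul_eq_mul]
        ring
    rw [this]
    exact AddSubgroup.sum_mem _ fun k _ => AddSubgroup.zsmul_mem _ (hzk k x hx) _

end Pool.Agent.RO5
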