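import Pool.Agent.RO5.PDefs
import Pool.Agent.RO5.CalC

/-!
RO5-PQ. Algebra on the zero set of `f`.

Notation `Pij = Dn i j f u1 u2`. From `hir_eq` (expand the sums):
`h40 = 2 f P40 - 2 P10 P30 + P20²`, `h31 = 2 f P31 - 2 P10 P21 + 2 P20 P11 - 2 P30 P01`, `h22 = 2 f P22 - 2 P10 P12 - 2 P01 P21 + P11² + 2 P20 P02`,
`h13 = 2 f P13 - 2 P01 P12 + 2 P02 P11 - 2 P03 P10`, `h04 = 2 f P04 - 2 P01 P03 + P02²`, `h20 = 2 f P20 - P10²`, `h11 = 2 f P11 - 2 P10 P01`, `h02 = 2 f P02 - P01²`, `h00 = f²`.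
If `f = 0` and `P01 = - q P10` at the point: `q⁴ h40 + q³ h31 + q² h22 + q h13 + h04 = (P20 q² + P11 q + P02)²` (ring), and by `NF`
it is `q⁴ h02 + q³ (b/3) h00 + 0 - (2/3) q h20 + (1/6) h11 = - q⁶ P10² + (2/3) q P10² + (1/3) q P10² = P10² (q - q⁶)`.
-/

set_option autoImplicit false

namespace Pool.Agent.RO5

open Complex Finset Pool.Agent.ROH

theorem sq_identity {f : ℂ → ℂ → ℂ} {b : ℂ} (h : NF f b) {u1 u2 q : ℂ} (h0 : f u1 u2 = 0)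
    (hq : Dn 0 1 f u1 u2 = -(q * Dn 1 0 f u1 u2)) :
    (Dn 2 0 f u1 u2 * q ^ 2 + Dn 1 1 f u1 u2 * q + Dn 0 2 f u1 u2) ^ 2 =
      Dn 1 0 f u1 u2 ^ 2 * (q - q ^ 6) := by
  have h00 : Dn 0 0 f u1 u2 = 0 := by
    simp [Dn, D, h0]
  have E40 := h.e40 u1 u2
  have E31 := h.e31 u1 u2
  have E22 := h.e22 u1 u2
  have E13 := h.e13 u1 u2
  have E04 := h.e04 u1 u2
  rw [hir_eq h.ent, hir_eq h.ent] at E40 E31 E13 E04
  rw [hir_eq h.ent] at E22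
  simp only [Finset.sum_range_succ, Finset.sum_range_zero, zero_add, Nat.sub_zero, Nat.sub_self,
    Nat.reduceAdd, Nat.reduceSub, pow_zero, one_mul, add_zero, h00, hq, zero_mul, mul_zero]
    at E40 E31 E22 E13 E04
  generalize Dn 1 0 f u1 u2 = P10 at *
  generalize Dn 2 0 f u1 u2 = P20 at *
  generalize Dn 3 0 f u1 u2 = P30 at *
  generalize Dn 4 0 f u1 u2 = P40 at *
  generalize Dn 1 1 f u1 u2 = P11 at *
  generalize Dn 2 1 f u1 u2 = P21 at *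
  generalize Dn 3 1 f u1 u2 = P31 at *
  generalize Dn 0 2 f u1 u2 = P02 at *
  generalize Dn 1 2 f u1 u2 = P12 at *
  generalize Dn 2 2 f u1 u2 = P22 at *
  generalize Dn 0 3 f u1 u2 = P03 at *
  generalize Dn 1 3 f u1 u2 = P13 at *
  generalize Dn 0 4 f u1 u2 = P04 at *
  linear_combination q ^ 4 * E40 + q ^ 3 * E31 + q ^ 2 * E22 + q * E13 + E04

end Pool.Agent.RO5
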