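import Pool.Agent.RO5.PGp

/-!
RO5-PZ. The period.

`M` as in `exists_group`. Since `x ∈ M ⊆ Zs f` gives `f x1 x2 = 0` (parameter `s = 0`, `C1_zero`, `C2_zero`) and `f` is not identically zero on any line:
(i) if `(c, 0) ∈ M` with `c ≠ 0` then `(l1 a b c, 0) ∈ M` for all `a, b`, dense (`lat_dense1`, closed), so `f z 0 = 0` for all `z`, contradiction to `line2 0`; same for `(0, c)` with `line1 0`.
(ii) Suppose `n ω ∉ {(v1 l1 a b, v2 l2 a b)}` for all `n ≥ 1`. For `e > 0` `lat_pigeon (ω1/v1) (ω2/v2) e` gives `x = n ω - (v1 l1, v2 l2) ∈ M`, `x ≠ 0`, `|x_j| ≤ e |v_j|`; by (i) both `x_j ≠ 0`.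
For any `p ∈ ℂ²`: `lat_cover (p1/x1) (p2/x2)`: `|p_j - l_j a b x_j| ≤ R |x_j| ≤ R e |v_j|`; as `e → 0` and `M` is closed: `p ∈ M ⊆ Zs f`, `f p = 0` for all `p`: contradiction.
-/

set_option autoImplicit false

namespace Pool.Agent.RO5

open Complex Finset Pool.Agent.ROH

theorem period {f : ℂ → ℂ → ℂ} {b : ℂ} (h : NFT f b) {v1 v2 : ℂ}
    (hq : QP5 1 (fun u1 u2 => f (v1 * u1) (v2 * u2))) (hv1 : v1 ≠ 0) (hv2 : v2 ≠ 0) :
    ∃ (n : ℕ) (a c : ℤ × ℤ), 0 < n ∧ (n : ℂ) * C1 Real.pi = v1 * l1 a c ∧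
      (n : ℂ) * C2 Real.pi = v2 * l2 a c := by
  obtain ⟨M, hcl, hZ, hω, hl, hs⟩ := exists_group h hq hv1 hv2
  have hf0 : ∀ x ∈ M, f x.1 x.2 = 0 := by
    intro x hx
    have h1 := hZ x hx 0
    rw [C1_zero, C2_zero, ofReal_zero, add_zero, add_zero] at h1
    exact h1
  have hmem : ∀ p : ℂ × ℂ, (∀ e > 0, ∃ x ∈ M, ‖p.1 - x.1‖ < e ∧ ‖p.2 - x.2‖ < e) → p ∈ M := by
    intro p hp
    have h1 : p ∈ closure (M : Set (ℂ × ℂ)) := by
      rw [Metric.mem_closure_iff]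
      intro e he
      obtain ⟨x, hx, h1, h2⟩ := hp e he
      refine ⟨x, hx, ?_⟩
      rw [Prod.dist_eq, dist_eq_norm, dist_eq_norm]
      exact max_lt h1 h2
    rwa [hcl.closure_eq] at h1
  -- step (i)
  have hi1 : ∀ c : ℂ, c ≠ 0 → ((c, 0) : ℂ × ℂ) ∉ M := by
    intro c hc hcM
    obtain ⟨z, hz⟩ := h.line2 0
    apply hz
    refine hf0 (z, 0) (hmem _ fun e he => ?_)
    obtain ⟨a, b', hab⟩ := lat_dense1 (z / c) (e / ‖c‖) (div_pos he (norm_pos_iff.2 hc))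
    refine ⟨_, hs _ hcM a b', ?_, ?_⟩
    · show ‖z - l1 a b' * c‖ < e
      have h1 : z - l1 a b' * c = (z / c - l1 a b') * c := by
        rw [sub_mul, div_mul_cancel₀ _ hc]
      rw [h1, norm_mul]
      exact (lt_div_iff₀ (norm_pos_iff.2 hc)).1 hab
    · show ‖(0 : ℂ) - l2 a b' * 0‖ < e
      simpa using he
  have hi2 : ∀ c : ℂ, c ≠ 0 → ((0, c) : ℂ × ℂ) ∉ M := by
    intro c hc hcM
    obtain ⟨z, hz⟩ := h.line1 0
    apply hz
    refine hf0 (0, z) (hmem _ fun e he => ?_)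
    obtain ⟨a, b', hab⟩ := lat_dense2 (z / c) (e / ‖c‖) (div_pos he (norm_pos_iff.2 hc))
    refine ⟨_, hs _ hcM a b', ?_, ?_⟩
    · show ‖(0 : ℂ) - l1 a b' * 0‖ < e
      simpa using he
    · show ‖z - l2 a b' * c‖ < e
      have h1 : z - l2 a b' * c = (z / c - l2 a b') * c := by
        rw [sub_mul, div_mul_cancel₀ _ hc]
      rw [h1, norm_mul]
      exact (lt_div_iff₀ (norm_pos_iff.2 hc)).1 hab
  -- step (ii)
  by_contra hcon
  push Not at hcon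
  obtain ⟨R, hR, hcov⟩ := lat_cover
  obtain ⟨z, hz⟩ := h.line1 0
  apply hz
  refine hf0 (0, z) (hmem _ fun e he => ?_)
  set p : ℂ × ℂ := (0, z)
  have hV : 0 < R * (‖v1‖ + ‖v2‖) := by
    have := norm_pos_iff.2 hv1
    have := norm_nonneg v2
    positivity
  obtain ⟨n, a, c, hn, hn1, hn2⟩ := lat_pigeon (C1 Real.pi / v1) (C2 Real.pi / v2)
    (e / (R * (‖v1‖ + ‖v2‖))) (div_pos he hV)
  have hx : ((n * C1 Real.pi - v1 * l1 a c, n * C2 Real.pi - v2 * l2 a c) : ℂ × ℂ) ∈ M := by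
    have h1 := M.sub_mem (M.nsmul_mem hω n) (hl a c)
    simpa [nsmul_eq_mul] using h1
  set x1 : ℂ := n * C1 Real.pi - v1 * l1 a c with hx1
  set x2 : ℂ := n * C2 Real.pi - v2 * l2 a c with hx2
  have hb1 : ‖x1‖ * (R * (‖v1‖ + ‖v2‖)) < e * ‖v1‖ := by
    have h1 : x1 = v1 * (n * (C1 Real.pi / v1) - l1 a c) := by
      rw [hx1, mul_sub]
      congr 1
      field_simp
    rw [lt_div_iff₀ hV] at hn1
    rw [h1, norm_mul, mul_assoc, mul_comm e]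
    exact mul_lt_mul_of_pos_left hn1 (norm_pos_iff.2 hv1)
  have hb2 : ‖x2‖ * (R * (‖v1‖ + ‖v2‖)) < e * ‖v2‖ := by
    have h1 : x2 = v2 * (n * (C2 Real.pi / v2) - l2 a c) := by
      rw [hx2, mul_sub]
      congr 1
      field_simp
    rw [lt_div_iff₀ hV] at hn2
    rw [h1, norm_mul, mul_assoc, mul_comm e]
    exact mul_lt_mul_of_pos_left hn2 (norm_pos_iff.2 hv2)
  have hne : ¬(x1 = 0 ∧ x2 = 0) := by
    rintro ⟨h1, h2⟩
    exact hcon n a c hn (sub_eq_zero.1 h1) (sub_eq_zero.1 h2)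
  have hx1' : x1 ≠ 0 := by
    intro h1
    by_cases h2 : x2 = 0
    · exact hne ⟨h1, h2⟩
    · rw [h1] at hx
      exact hi2 x2 h2 hx
  have hx2' : x2 ≠ 0 := by
    intro h1
    rw [h1] at hx
    exact hi1 x1 hx1' hx
  obtain ⟨a', c', h1, h2⟩ := hcov (p.1 / x1) (p.2 / x2)
  refine ⟨_, hs _ hx a' c', ?_, ?_⟩
  · show ‖p.1 - l1 a' c' * x1‖ < e
    have h3 : p.1 - l1 a' c' * x1 = (p.1 / x1 - l1 a' c') * x1 := by
      rw [sub_mul, div_mul_cancel₀ _ hx1']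
    rw [h3, norm_mul]
    have h4 : ‖p.1 / x1 - l1 a' c'‖ * ‖x1‖ ≤ R * ‖x1‖ := mul_le_mul_of_nonneg_right h1 (norm_nonneg _)
    have h5 : R * ‖x1‖ < e := by
      have hv := norm_pos_iff.2 hv1
      have hv' := norm_nonneg v2
      have h6 : ‖x1‖ * R * (‖v1‖ + ‖v2‖) < e * (‖v1‖ + ‖v2‖) := by nlinarith
      have h7 := lt_of_mul_lt_mul_right h6 (by positivity)
      linarith
    linarith
  · show ‖p.2 - l2 a' c' * x2‖ < e
    have h3 : p.2 - l2 a' c' * x2 = (p.2 / x2 - l2 a' c') * x2 := by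
      rw [sub_mul, div_mul_cancel₀ _ hx2']
    rw [h3, norm_mul]
    have h4 : ‖p.2 / x2 - l2 a' c'‖ * ‖x2‖ ≤ R * ‖x2‖ := mul_le_mul_of_nonneg_right h2 (norm_nonneg _)
    have h5 : R * ‖x2‖ < e := by
      have hv := norm_pos_iff.2 hv2
      have hv' := norm_nonneg v1
      have h6 : ‖x2‖ * R * (‖v1‖ + ‖v2‖) < e * (‖v1‖ + ‖v2‖) := by nlinarith
      have h7 := lt_of_mul_lt_mul_right h6 (by positivity)
      linarith
    linarith

end Pool.Agent.RO5
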