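import Pool.Agent.RO5.PA

/-!
RO5-PZs. Stability of the set `Zs f`.

`zs_closed`: intersection of closed sets (`f` continuous). `zs_zero`: `exists_graph`, `graph_ode`, `zs_iff` with `p = 0`.
(`f 0 0 = 0` by `odd`; `D 1 0 f 0 0 = J f 1 0 = 1`.) `zs_om`: `C (s ± π) = C s ± C π`. `zs_sym`: with `G` as in `graph_ode` and `graph_sym`: for small `z`,
`f (ζ p1 + G z) (ζ² p2 + z) = f (ζ (p1 + G w)) (ζ² (p2 + w)) = ζ f (p1 + G w) (p2 + w)` where `z = ζ² w`, `G (ζ² w) = ζ G w`. `zs_per`: quasi-periodicity (`mf ≠ 0`).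
-/

set_option autoImplicit false

namespace Pool.Agent.RO5

open Complex Finset Pool.Agent.ROH

theorem zs_closed {f : ℂ → ℂ → ℂ} (hf : Ent2 f) : IsClosed (Zs f) := by
  have e : Zs f = ⋂ s : ℝ, {p : ℂ × ℂ | f (p.1 + C1 s) (p.2 + C2 s) = 0} := by
    ext p
    rw [Set.mem_iInter]
    rfl
  rw [e]
  refine isClosed_iInter fun s => ?_
  have hcont : Continuous fun z : ℂ × ℂ => f z.1 z.2 := hf.continuous
  have h1 : Continuous fun p : ℂ × ℂ => ((p.1 + C1 s, p.2 + C2 s) : ℂ × ℂ) := by fun_prop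
  have h2 : Continuous fun p : ℂ × ℂ => f (p.1 + C1 s) (p.2 + C2 s) := hcont.comp h1
  exact isClosed_eq h2 continuous_const

private theorem pzs_graph {f : ℂ → ℂ → ℂ} {b : ℂ} (h : NFT f b) :
    ∃ (G : ℂ → ℂ) (δ η r : ℝ), Gr f G δ η ∧ r ≤ δ ∧ GrOde G r := by
  have h0 : f 0 0 = 0 := by
    have h1 := h.odd 0 0
    rw [neg_zero] at h1
    exact self_eq_neg.1 h1
  have h1 : D 1 0 f 0 0 ≠ 0 := by
    have h2 := h.J10
    unfold J at h2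
    have h3 : D 1 0 f 0 0 = iteratedDeriv 1 (fun l => iteratedDeriv 0 (f l) 0) 0 := rfl
    rw [Nat.factorial_one, Nat.factorial_zero, Nat.cast_one, mul_one, div_one] at h2
    rw [h3, h2]
    exact one_ne_zero
  obtain ⟨G, δ, η, hG⟩ := exists_graph h.toNF.ent h0 h1
  obtain ⟨r, hr, hO⟩ := graph_ode h hG
  exact ⟨G, δ, η, r, hG, hr, hO⟩

theorem zs_zero {f : ℂ → ℂ → ℂ} {b : ℂ} (h : NFT f b) : ((0 : ℂ), (0 : ℂ)) ∈ Zs f := by
  obtain ⟨G, δ, η, r, hG, hr, hO⟩ := pzs_graph h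
  rw [zs_iff h.toNF.ent hO _ hO.hδ le_rfl]
  intro z hz
  simp only [zero_add]
  exact hG.zero z (lt_of_lt_of_le hz hr)

theorem zs_om {f : ℂ → ℂ → ℂ} {p : ℂ × ℂ} (hp : p ∈ Zs f) :
    (p.1 + C1 Real.pi, p.2 + C2 Real.pi) ∈ Zs f ∧ (p.1 - C1 Real.pi, p.2 - C2 Real.pi) ∈ Zs f := by
  constructor
  · intro s
    have h1 := hp (s + Real.pi)
    rw [C1_add_pi, C2_add_pi] at h1
    push_cast at h1
    have e1 : p.1 + (C1 Real.pi : ℂ) + (C1 s : ℂ) = p.1 + ((C1 s : ℂ) + (C1 Real.pi : ℂ)) := by ring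
    have e2 : p.2 + (C2 Real.pi : ℂ) + (C2 s : ℂ) = p.2 + ((C2 s : ℂ) + (C2 Real.pi : ℂ)) := by ring
    simp only
    rw [e1, e2]
    exact h1
  · intro s
    have h1 := hp (s - Real.pi)
    rw [C1_sub_pi, C2_sub_pi] at h1
    push_cast at h1
    have e1 : p.1 - (C1 Real.pi : ℂ) + (C1 s : ℂ) = p.1 + ((C1 s : ℂ) - (C1 Real.pi : ℂ)) := by ring
    have e2 : p.2 - (C2 Real.pi : ℂ) + (C2 s : ℂ) = p.2 + ((C2 s : ℂ) - (C2 Real.pi : ℂ)) := by ring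
    simp only
    rw [e1, e2]
    exact h1

private theorem norm_z2 : ‖z2‖ = 1 := by
  have h1 : ‖z1‖ = 1 := by
    unfold z1
    have e : (2 * Real.pi * I / 5 : ℂ) = ((2 * Real.pi / 5 : ℝ) : ℂ) * I := by
      push_cast
      ring
    rw [e, Complex.norm_exp_ofReal_mul_I]
  unfold z2
  rw [norm_pow, h1, one_pow]

theorem zs_sym {f : ℂ → ℂ → ℂ} {b : ℂ} (h : NFT f b) {p : ℂ × ℂ} (hp : p ∈ Zs f) :
    (z1 * p.1, z2 * p.2) ∈ Zs f := by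
  obtain ⟨G, δ, η, r, hG, hr, hO⟩ := pzs_graph h
  obtain ⟨r2, hr2, _, hsy⟩ := graph_sym hG h.sym
  have hm : 0 < min r r2 := lt_min hO.hδ hr2
  rw [zs_iff h.toNF.ent hO _ hm (min_le_left _ _)] at hp ⊢
  have hz2 : z2 ≠ 0 := by
    rw [← norm_pos_iff, norm_z2]
    exact one_pos
  intro z hz
  have hw : ‖z2⁻¹ * z‖ < min r r2 := by
    rw [norm_mul, norm_inv, norm_z2, inv_one, one_mul]
    exact hz
  have e : z2 * (z2⁻¹ * z) = z := by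
    rw [← mul_assoc, mul_inv_cancel₀ hz2, one_mul]
  have h1 := hsy _ (lt_of_lt_of_le hw (min_le_right _ _))
  rw [e] at h1
  have h2 := hp _ hw
  have h3 := h.sym (p.1 + G (z2⁻¹ * z)) (p.2 + z2⁻¹ * z)
  rw [h2, mul_zero, mul_add, mul_add, e, ← h1] at h3
  exact h3

theorem zs_per {f : ℂ → ℂ → ℂ} {v1 v2 : ℂ} (hq : QP5 1 (fun u1 u2 => f (v1 * u1) (v2 * u2)))
    (hv1 : v1 ≠ 0) (hv2 : v2 ≠ 0) {p : ℂ × ℂ} (hp : p ∈ Zs f) (a b : ℤ × ℤ) :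
    (p.1 + v1 * l1 a b, p.2 + v2 * l2 a b) ∈ Zs f := by
  intro s
  have h1 := hq.2 a b (v1⁻¹ * (p.1 + C1 s)) (v2⁻¹ * (p.2 + C2 s))
  simp only [mul_add v1, mul_add v2, mul_inv_cancel_left₀ hv1, mul_inv_cancel_left₀ hv2] at h1
  rw [hp s, mul_zero] at h1
  have e1 : p.1 + v1 * l1 a b + (C1 s : ℂ) = p.1 + (C1 s : ℂ) + v1 * l1 a b := by ring
  have e2 : p.2 + v2 * l2 a b + (C2 s : ℂ) = p.2 + (C2 s : ℂ) + v2 * l2 a b := by ring
  simp only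
  rw [e1, e2]
  exact h1

end Pool.Agent.RO5
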