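import Mathlib

/-!
Project ROH5, block R (Taylor coefficients at the origin are rational): definitions.

`S x y` stands for `x! y! J f x y`. `kc i x α` is the coefficient of `Y^x` in `(Y-1)^i (Y+1)^α`.
`HH S i j α β = α! β! i! j! (Taylor coefficient at (α, β) of hir f i j)`.
-/

set_option autoImplicit false

namespace Pool.Agent.RO5

open Finset

/-- coefficient of `Y^x` in `(Y-1)^i (Y+1)^α` -/
noncomputable def kc (i x α : ℕ) : ℤ :=
  ((Polynomial.X - 1) ^ i * (Polynomial.X + 1) ^ α : Polynomial ℤ).coeff x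

/-- bilinear form of the Hirota operator `D1^i D2^j` on exponential Taylor coefficients -/
noncomputable def HH (S : ℕ → ℕ → ℂ) (i j α β : ℕ) : ℂ :=
  ∑ x ∈ range (α + i + 1), ∑ y ∈ range (β + j + 1),
    (kc i x α : ℂ) * (kc j y β : ℂ) * (S x y * S (α + i - x) (β + j - y))

/-- the part of `HH` in which both factors have weight `≥ 13` -/
noncomputable def HR (S : ℕ → ℕ → ℂ) (i j α β : ℕ) : ℂ :=
  ∑ x ∈ range (α + i + 1), ∑ y ∈ range (β + j + 1),
    if 13 ≤ 3 * x + y ∧ 13 ≤ 3 * (α + i - x) + (β + j - y) then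
      (kc i x α : ℂ) * (kc j y β : ℂ) * (S x y * S (α + i - x) (β + j - y)) else 0

/-- the algebraic system satisfied by `S x y = x! y! J f x y` -/
structure Sys (S : ℕ → ℕ → ℂ) : Prop where
  supp : ∀ x y, S x y ≠ 0 → (3 * x + y) % 10 = 3
  s10 : S 1 0 = 1
  s03 : S 0 3 = -2
  s41 : S 4 1 = 8
  h13 : ∀ α β, HH S 1 3 α β = -2 * HH S 2 0 α β
  h22 : ∀ α β, HH S 2 2 α β = 0
  h31 : ∀ α β, HH S 3 1 α β = -8 * HH S 0 0 α β
  h40 : ∀ α β, HH S 4 0 α β = 12 * HH S 0 2 α β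

/-- `2^e x` is an integer -/
def ZZ (e : ℕ) (x : ℂ) : Prop := ∃ n : ℤ, (2 : ℂ) ^ e * x = n

end Pool.Agent.RO5
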