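import Pool.Agent.RO5.RDefs

/-!
RO5-RKc (Mathlib only). The coefficients `kc i x α` of `(Y-1)^i (Y+1)^α`.
-/

set_option autoImplicit false

namespace Pool.Agent.RO5

open Finset

theorem kc_sum (i x α : ℕ) : kc i x α =
    ∑ p ∈ antidiagonal x, ((-1) ^ (i - p.1) * (i.choose p.1 : ℤ)) * (α.choose p.2 : ℤ) := by
  unfold kc
  rw [Polynomial.coeff_mul]
  refine Finset.sum_congr rfl fun p _ => ?_
  have h1 : ((Polynomial.X - 1 : Polynomial ℤ) ^ i).coeff p.1 = (-1) ^ (i - p.1) * (i.choose p.1 : ℤ) := by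
    rw [show (Polynomial.X - 1 : Polynomial ℤ) = Polynomial.X + Polynomial.C (-1) by
      rw [Polynomial.C_neg, Polynomial.C_1]; ring, Polynomial.coeff_X_add_C_pow]
  rw [h1, Polynomial.coeff_X_add_one_pow]

private theorem rkc_zero_succ (i α : ℕ) : kc i 0 (α + 1) = kc i 0 α := by
  unfold kc
  rw [pow_succ, ← mul_assoc, mul_add, mul_one, Polynomial.coeff_add, Polynomial.mul_coeff_zero, Polynomial.coeff_X_zero,
    mul_zero, zero_add]

private theorem rkc_succ (i x α : ℕ) : kc i (x + 1) (α + 1) = kc i x α + kc i (x + 1) α := by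
  unfold kc
  rw [pow_succ, ← mul_assoc, mul_add, mul_one, Polynomial.coeff_add, Polynomial.coeff_mul_X]

private theorem rkc_eq_zero {i x α : ℕ} (h : α + i < x) : kc i x α = 0 := by
  rw [kc_sum]
  refine Finset.sum_eq_zero fun p hp => ?_
  have h1 : p.1 + p.2 = x := Finset.HasAntidiagonal.mem_antidiagonal.1 hp
  rcases lt_or_ge i p.1 with h2 | h2
  · rw [Nat.choose_eq_zero_of_lt h2]
    simp
  · rw [Nat.choose_eq_zero_of_lt (show α < p.2 by omega)]
    simp

private theorem rkc_symm (i α : ℕ) : ∀ x y : ℕ, x + y = α + i → kc i x α = (-1) ^ i * kc i y α := by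
  induction α with
  | zero =>
    intro x y h
    have key : ∀ z ≤ i, kc i z 0 = (-1) ^ (i - z) * (i.choose z : ℤ) := by
      intro z _
      unfold kc
      rw [pow_zero, mul_one, show (Polynomial.X - 1 : Polynomial ℤ) = Polynomial.X + Polynomial.C (-1) by
        rw [Polynomial.C_neg, Polynomial.C_1]; ring, Polynomial.coeff_X_add_C_pow]
    rw [key x (by omega), key y (by omega), show i - x = y by omega, show i - y = x by omega,
      ← Nat.choose_symm_of_eq_add (show i = x + y by omega), show i = x + y by omega, ← mul_assoc, ← pow_add,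
      show x + y + x = y + 2 * x by ring, pow_add, pow_mul]
    norm_num
  | succ α ih =>
    intro x y h
    rcases x with _ | x
    · have hy : y = α + i + 1 := by omega
      subst hy
      rw [rkc_zero_succ, rkc_succ, rkc_eq_zero (show α + i < α + i + 1 by omega), add_zero]
      exact ih 0 (α + i) (by omega)
    · rcases y with _ | y
      · have hx : x = α + i := by omega
        subst hx
        rw [rkc_zero_succ, rkc_succ, rkc_eq_zero (show α + i < α + i + 1 by omega), add_zero]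
        exact ih (α + i) 0 (by omega)
      · rw [rkc_succ, rkc_succ, ih x (y + 1) (by omega), ih (x + 1) y (by omega)]
        ring

theorem kc_symm {i x α : ℕ} (h : x ≤ α + i) : kc i (α + i - x) α = (-1) ^ i * kc i x α := by
  exact rkc_symm i α _ _ (by omega)

theorem kc_zero (i α : ℕ) : kc i 0 α = (-1) ^ i := by
  rw [kc_sum, Finset.Nat.antidiagonal_zero, Finset.sum_singleton]
  simp

theorem kc_one (i α : ℕ) : kc i 1 α = (-1) ^ i * ((α : ℤ) - i) := by
  rw [kc_sum, Finset.Nat.sum_antidiagonal_succ, Finset.Nat.antidiagonal_zero, Finset.sum_singleton]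
  rcases i with _ | i
  · simp
  · simp [pow_succ]
    ring

/-- degree -/
theorem kc_eq_zero {i x α : ℕ} (h : α + i < x) : kc i x α = 0 := by
  exact rkc_eq_zero h

private theorem rkc3 (i β : ℕ) : kc i 3 β = ((-1) ^ i * (i.choose 0 : ℤ)) * (β.choose 3 : ℤ) +
    ((-1) ^ (i - 1) * (i.choose 1 : ℤ)) * (β.choose 2 : ℤ) + ((-1) ^ (i - 2) * (i.choose 2 : ℤ)) * (β.choose 1 : ℤ) +
    ((-1) ^ (i - 3) * (i.choose 3 : ℤ)) * (β.choose 0 : ℤ) := by
  rw [kc_sum, Finset.Nat.sum_antidiagonal_succ, Finset.Nat.sum_antidiagonal_succ, Finset.Nat.sum_antidiagonal_succ,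
    Finset.Nat.antidiagonal_zero, Finset.sum_singleton]
  simp only [zero_add, Nat.sub_zero]
  ring

theorem kc3_0 (β : ℕ) : kc 0 3 β = (β.choose 3 : ℤ) := by
  rw [rkc3]
  simp

theorem kc3_1 (β : ℕ) : kc 1 3 β = -(β.choose 3 : ℤ) + β.choose 2 := by
  rw [rkc3]
  simp [Nat.choose_eq_zero_of_lt]

theorem kc3_2 (β : ℕ) : kc 2 3 β = (β.choose 3 : ℤ) - 2 * β.choose 2 + β := by
  rw [rkc3]
  simp
  ring

theorem kc3_3 (β : ℕ) : kc 3 3 β = -(β.choose 3 : ℤ) + 3 * β.choose 2 - 3 * β + 1 := by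
  rw [rkc3]
  simp
  ring

end Pool.Agent.RO5
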