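import Pool.Agent.RO5.CalC
import Pool.Agent.RO5.RKc

/-!
RO5-RHir. Taylor coefficients of the Hirota derivatives in terms of the Taylor coefficients of `f`.

The Leibniz formulas `hir_eq`, `J_mul`, `J_Dn` and the expansion of `kc`.
-/

set_option autoImplicit false

namespace Pool.Agent.RO5

open Complex Finset Pool.Agent.ROH

private lemma rhir_kc (i x α : ℕ) : kc i x α = ∑ a ∈ range (i + 1), ∑ p ∈ range (α + 1),
    if x = a + p then (-1) ^ (i - a) * (i.choose a : ℤ) * (α.choose p : ℤ) else 0 := by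
  have h1 : (Polynomial.X - 1 : Polynomial ℤ) ^ i =
      ∑ a ∈ range (i + 1), Polynomial.C ((-1) ^ (i - a) * (i.choose a : ℤ)) * Polynomial.X ^ a := by
    rw [sub_eq_add_neg, add_pow]
    refine Finset.sum_congr rfl fun a _ => ?_
    simp only [map_mul, map_pow, map_neg, map_one, map_natCast]
    ring
  have h2 : (Polynomial.X + 1 : Polynomial ℤ) ^ α =
      ∑ p ∈ range (α + 1), Polynomial.C (α.choose p : ℤ) * Polynomial.X ^ p := by
    rw [add_pow]
    refine Finset.sum_congr rfl fun p _ => ?_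
    simp only [one_pow, mul_one, map_natCast]
    ring
  unfold kc
  rw [h1, h2, Finset.sum_mul_sum, Polynomial.finsetSum_coeff]
  refine Finset.sum_congr rfl fun a _ => ?_
  rw [Polynomial.finsetSum_coeff]
  refine Finset.sum_congr rfl fun p _ => ?_
  have h3 : (Polynomial.C ((-1) ^ (i - a) * (i.choose a : ℤ)) * Polynomial.X ^ a *
      (Polynomial.C (α.choose p : ℤ) * Polynomial.X ^ p) : Polynomial ℤ) =
      Polynomial.C ((-1) ^ (i - a) * (i.choose a : ℤ) * (α.choose p : ℤ)) *
        Polynomial.X ^ (a + p) := by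
    rw [map_mul Polynomial.C ((-1) ^ (i - a) * (i.choose a : ℤ)), pow_add]
    ring
  rw [h3, Polynomial.coeff_C_mul_X_pow]

private lemma rhir_sum (i α : ℕ) (F : ℕ → ℂ) : ∑ x ∈ range (α + i + 1), (kc i x α : ℂ) * F x =
    ∑ a ∈ range (i + 1), ∑ p ∈ range (α + 1),
      ((-1) ^ (i - a) * (i.choose a : ℂ) * (α.choose p : ℂ)) * F (a + p) := by
  have h1 : ∀ x, (kc i x α : ℂ) * F x = ∑ a ∈ range (i + 1), ∑ p ∈ range (α + 1),
      if x = a + p then ((-1) ^ (i - a) * (i.choose a : ℂ) * (α.choose p : ℂ)) * F (a + p)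
        else 0 := by
    intro x
    rw [rhir_kc, Int.cast_sum, Finset.sum_mul]
    refine Finset.sum_congr rfl fun a _ => ?_
    rw [Int.cast_sum, Finset.sum_mul]
    refine Finset.sum_congr rfl fun p _ => ?_
    by_cases hx : x = a + p
    · rw [if_pos hx, if_pos hx, hx]
      push_cast
      ring
    · rw [if_neg hx, if_neg hx, Int.cast_zero, zero_mul]
  rw [Finset.sum_congr rfl fun x _ => h1 x, Finset.sum_comm]
  refine Finset.sum_congr rfl fun a ha => ?_
  rw [Finset.sum_comm]
  refine Finset.sum_congr rfl fun p hp => ?_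
  rw [Finset.sum_ite_eq' (range (α + i + 1)) (a + p)
    (fun _ => ((-1) ^ (i - a) * (i.choose a : ℂ) * (α.choose p : ℂ)) * F (a + p)), if_pos]
  rw [Finset.mem_range] at ha hp ⊢
  omega

private lemma rhir_J_sum {ι : Type*} (s : Finset ι) (F : ι → ℂ → ℂ → ℂ)
    (hF : ∀ k, Ent2 (F k)) (n i : ℕ) :
    J (fun x y => ∑ k ∈ s, F k x y) n i = ∑ k ∈ s, J (F k) n i := by
  unfold J
  have h1 : (fun l => iteratedDeriv i (fun y => ∑ k ∈ s, F k l y) 0) =
      fun l => ∑ k ∈ s, iteratedDeriv i (F k l) 0 := by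
    funext l
    exact iteratedDeriv_fun_sum fun k _ => ((ent2_right (hF k) l).contDiff (n := i)).contDiffAt
  rw [← Finset.sum_div]
  refine congrArg (· / _) ?_
  refine (congrArg (fun g => iteratedDeriv n g 0) h1).trans ?_
  exact iteratedDeriv_fun_sum fun k _ =>
    ((ent2_iteratedDeriv (hF k) i).contDiff (n := n)).contDiffAt

private lemma rhir_J_const {g : ℂ → ℂ → ℂ} (c : ℂ) (n i : ℕ) :
    J (fun x y => c * g x y) n i = c * J g n i := by
  unfold J
  have h1 : (fun l => iteratedDeriv i (fun y => c * g l y) 0) =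
      fun l => c * iteratedDeriv i (g l) 0 := by
    funext l
    exact iteratedDeriv_const_mul_field _ _
  have h2 := (congrArg (fun g => iteratedDeriv n g 0) h1).trans
    (iteratedDeriv_const_mul_field (n := n) (x := (0 : ℂ)) c (fun l => iteratedDeriv i (g l) 0))
  rw [mul_div_assoc']
  exact congrArg (· / _) h2

private lemma rhir_ent {g : ℂ → ℂ → ℂ} (hg : Ent2 g) (a b : ℕ) : Ent2 (Dn a b g) := by
  have h1 : Differentiable ℂ (fun z : ℂ × ℂ => D a b g z.1 z.2) := ent2_D hg a b
  have h2 := h1.mul_const (((a.factorial : ℂ) * (b.factorial : ℂ))⁻¹)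
  exact h2

private lemma rhir_fac (a i' p α' : ℕ) :
    ((p + α').factorial : ℂ) * (a + i').factorial * ((p + a).choose a * (α' + i').choose i') =
      ((a + i').choose a : ℂ) * (p + α').choose p * ((a + p).factorial * (α' + i').factorial) := by
  have h1 : ((p + a).choose a : ℂ) = (a + p).factorial / (a.factorial * p.factorial) := by
    rw [add_comm p a, Nat.cast_add_choose]
  have h2 : ((α' + i').choose i' : ℂ) = (α' + i').factorial / (i'.factorial * α'.factorial) := by
    rw [add_comm α' i', Nat.cast_add_choose]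
  rw [h1, h2, Nat.cast_add_choose, Nat.cast_add_choose]
  have k1 : (a.factorial : ℂ) ≠ 0 := Nat.cast_ne_zero.2 a.factorial_ne_zero
  have k2 : (p.factorial : ℂ) ≠ 0 := Nat.cast_ne_zero.2 p.factorial_ne_zero
  have k3 : (i'.factorial : ℂ) ≠ 0 := Nat.cast_ne_zero.2 i'.factorial_ne_zero
  have k4 : (α'.factorial : ℂ) ≠ 0 := Nat.cast_ne_zero.2 α'.factorial_ne_zero
  field_simp

theorem hir_coeff {f : ℂ → ℂ → ℂ} (hf : Ent2 f) (i j α β : ℕ) :
    ((α.factorial : ℂ) * β.factorial * ((i.factorial : ℂ) * j.factorial)) * J (hir f i j) α β =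
      HH (fun x y => (x.factorial : ℂ) * y.factorial * J f x y) i j α β := by
  have hJ : J (hir f i j) α β = ∑ a ∈ range (i + 1), ∑ b ∈ range (j + 1),
      ∑ p ∈ range (α + 1), ∑ q ∈ range (β + 1), (-1) ^ ((i - a) + (j - b)) *
        ((((p + a).choose a : ℂ) * ((q + b).choose b : ℂ) * J f (p + a) (q + b)) *
        (((α - p + (i - a)).choose (i - a) : ℂ) * ((β - q + (j - b)).choose (j - b) : ℂ) *
          J f (α - p + (i - a)) (β - q + (j - b)))) := by
    have h1 : hir f i j = fun u1 u2 => ∑ a ∈ range (i + 1), ∑ b ∈ range (j + 1),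
        (-1) ^ ((i - a) + (j - b)) * (Dn a b f u1 u2 * Dn (i - a) (j - b) f u1 u2) := by
      funext u1 u2
      rw [hir_eq hf]
      refine Finset.sum_congr rfl fun a _ => Finset.sum_congr rfl fun b _ => ?_
      ring
    have h2 : ∀ a b, Ent2 (fun u1 u2 => (-1 : ℂ) ^ ((i - a) + (j - b)) *
        (Dn a b f u1 u2 * Dn (i - a) (j - b) f u1 u2)) := by
      intro a b
      exact Differentiable.const_mul (𝔸 := ℂ) (Ent2.mul (rhir_ent hf a b)
        (rhir_ent hf (i - a) (j - b))) _
    have h3 : ∀ a, Ent2 (fun u1 u2 => ∑ b ∈ range (j + 1), (-1 : ℂ) ^ ((i - a) + (j - b)) *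
        (Dn a b f u1 u2 * Dn (i - a) (j - b) f u1 u2)) := by
      intro a
      exact Differentiable.fun_sum fun b _ => h2 a b
    rw [h1, rhir_J_sum _ (fun a u1 u2 => ∑ b ∈ range (j + 1), (-1 : ℂ) ^ ((i - a) + (j - b)) *
        (Dn a b f u1 u2 * Dn (i - a) (j - b) f u1 u2)) h3]
    refine Finset.sum_congr rfl fun a _ => ?_
    rw [rhir_J_sum _ (fun b u1 u2 => (-1 : ℂ) ^ ((i - a) + (j - b)) *
        (Dn a b f u1 u2 * Dn (i - a) (j - b) f u1 u2)) (h2 a)]
    refine Finset.sum_congr rfl fun b _ => ?_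
    rw [rhir_J_const (g := fun u1 u2 => Dn a b f u1 u2 * Dn (i - a) (j - b) f u1 u2),
      J_mul (rhir_ent hf a b) (rhir_ent hf (i - a) (j - b)), Finset.mul_sum]
    refine Finset.sum_congr rfl fun p _ => ?_
    rw [Finset.mul_sum]
    refine Finset.sum_congr rfl fun q _ => ?_
    rw [J_Dn hf, J_Dn hf]
  have hH : HH (fun x y => (x.factorial : ℂ) * y.factorial * J f x y) i j α β =
      ∑ a ∈ range (i + 1), ∑ p ∈ range (α + 1), ∑ b ∈ range (j + 1), ∑ q ∈ range (β + 1),
        ((-1) ^ (i - a) * (i.choose a : ℂ) * (α.choose p : ℂ)) *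
        (((-1) ^ (j - b) * (j.choose b : ℂ) * (β.choose q : ℂ)) *
          ((((a + p).factorial : ℂ) * (b + q).factorial * J f (a + p) (b + q)) *
            (((α + i - (a + p)).factorial : ℂ) * (β + j - (b + q)).factorial *
              J f (α + i - (a + p)) (β + j - (b + q))))) := by
    unfold HH
    have h1 : ∀ x, ∑ y ∈ range (β + j + 1), (kc i x α : ℂ) * (kc j y β : ℂ) *
        (((x.factorial : ℂ) * y.factorial * J f x y) * (((α + i - x).factorial : ℂ) *
          (β + j - y).factorial * J f (α + i - x) (β + j - y))) =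
        (kc i x α : ℂ) * ∑ b ∈ range (j + 1), ∑ q ∈ range (β + 1),
          ((-1) ^ (j - b) * (j.choose b : ℂ) * (β.choose q : ℂ)) *
          (((x.factorial : ℂ) * (b + q).factorial * J f x (b + q)) *
            (((α + i - x).factorial : ℂ) * (β + j - (b + q)).factorial *
              J f (α + i - x) (β + j - (b + q)))) := by
      intro x
      rw [← rhir_sum j β (fun y => ((x.factorial : ℂ) * y.factorial * J f x y) *
        (((α + i - x).factorial : ℂ) * (β + j - y).factorial * J f (α + i - x) (β + j - y))),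
        Finset.mul_sum]
      exact Finset.sum_congr rfl fun y _ => by ring
    rw [Finset.sum_congr rfl fun x _ => h1 x]
    rw [rhir_sum i α (fun x => ∑ b ∈ range (j + 1), ∑ q ∈ range (β + 1),
          ((-1) ^ (j - b) * (j.choose b : ℂ) * (β.choose q : ℂ)) *
          (((x.factorial : ℂ) * (b + q).factorial * J f x (b + q)) *
            (((α + i - x).factorial : ℂ) * (β + j - (b + q)).factorial *
              J f (α + i - x) (β + j - (b + q)))))]
    refine Finset.sum_congr rfl fun a _ => Finset.sum_congr rfl fun p _ => ?_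
    rw [Finset.mul_sum]
    refine Finset.sum_congr rfl fun b _ => ?_
    rw [Finset.mul_sum]
  rw [hJ, hH, Finset.mul_sum]
  refine Finset.sum_congr rfl fun a ha => ?_
  rw [Finset.sum_comm, Finset.mul_sum]
  refine Finset.sum_congr rfl fun p hp => ?_
  rw [Finset.mul_sum]
  refine Finset.sum_congr rfl fun b hb => ?_
  rw [Finset.mul_sum]
  refine Finset.sum_congr rfl fun q hq => ?_
  rw [Finset.mem_range, Nat.lt_succ_iff] at ha hp hb hq
  obtain ⟨i', rfl⟩ := Nat.exists_eq_add_of_le ha
  obtain ⟨α', rfl⟩ := Nat.exists_eq_add_of_le hp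
  obtain ⟨j', rfl⟩ := Nat.exists_eq_add_of_le hb
  obtain ⟨β', rfl⟩ := Nat.exists_eq_add_of_le hq
  have e1 : a + i' - a = i' := by omega
  have e2 : p + α' - p = α' := by omega
  have e3 : b + j' - b = j' := by omega
  have e4 : q + β' - q = β' := by omega
  have e5 : p + α' + (a + i') - (a + p) = α' + i' := by omega
  have e6 : q + β' + (b + j') - (b + q) = β' + j' := by omega
  rw [e1, e2, e3, e4, e5, e6]
  have f1 := rhir_fac a i' p α'
  have f2 := rhir_fac b j' q β'
  rw [add_comm a p, add_comm b q] at *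
  generalize J f (p + a) (q + b) = J1
  generalize J f (α' + i') (β' + j') = J2
  rw [pow_add]
  linear_combination ((-1) ^ i' * (-1) ^ j' * J1 * J2) *
    (((q + β').factorial : ℂ) * (b + j').factorial * ((q + b).choose b * (β' + j').choose j')) * f1 +
    ((-1) ^ i' * (-1) ^ j' * J1 * J2) *
    (((a + i').choose a : ℂ) * (p + α').choose p * ((p + a).factorial * (α' + i').factorial)) * f2

end Pool.Agent.RO5
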