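import Pool.Agent.RO5.RKc

/-!
RO5-RSplit. Splitting off the two base coefficients `S 1 0 = 1`, `S 0 3 = -2` from `HH`.

By `supp` a nonzero `S x y` has weight `3x+y = 3` (then `(x,y) = (1,0)` or `(0,3)`) or `≥ 13`. The total weight of the two factors of a term
of `HH S i j α β` is `W = 3(α+i) + (β+j) ≥ 16`; so the terms of `HH` which are not in `HR` and not zero are exactly those with
`(x,y) ∈ {(1,0), (0,3), (α+i-1, β+j), (α+i, β+j-3)}` (four different indices, because the partner of a base index has weight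
`W - 3 ≥ 13`). Their contributions: (1,0): `kc i 1 α kc j 0 β = (-1)^i (α-i) (-1)^j = α - i`; partner of (1,0): `kc i (α+i-1) α kc j (β+j) β = α - i`
(`kc_symm`); (0,3): `kc i 0 α kc j 3 β = (-1)^i kc j 3 β` times `-2`; partner: the same because `(-1)^j = (-1)^i`.
If `α + i = 0` the index `(1,0)` is not in the range and the first term of the statement is `0` since `α - i = 0`; if `β + j < 3` the index `(0,3)` is
not in the range and `kc j 3 β = 0` (`kc_eq_zero`).
-/

set_option autoImplicit false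

namespace Pool.Agent.RO5

open Finset

private theorem rs_sum (F : ℕ → ℕ → ℂ) (n m a b : ℕ) (ha : a ≤ n) (hb : b ≤ m) :
    ∑ x ∈ range (n + 1), ∑ y ∈ range (m + 1), (if x = a ∧ y = b then F x y else 0) = F a b := by
  rw [Finset.sum_eq_single a]
  · rw [Finset.sum_eq_single b]
    · simp
    · intro y _ hy
      rw [if_neg (fun h => hy h.2)]
    · intro h
      exact absurd (Finset.mem_range.2 (by omega)) h
  · intro x _ hx
    refine Finset.sum_eq_zero fun y _ => ?_
    rw [if_neg (fun h => hx h.1)]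
  · intro h
    exact absurd (Finset.mem_range.2 (by omega)) h

private theorem rs_sum0 (F : ℕ → ℕ → ℂ) (n m a b : ℕ) (h : n < a ∨ m < b) :
    ∑ x ∈ range (n + 1), ∑ y ∈ range (m + 1), (if x = a ∧ y = b then F x y else 0) = 0 := by
  refine Finset.sum_eq_zero fun x hx => Finset.sum_eq_zero fun y hy => ?_
  rw [Finset.mem_range] at hx hy
  rw [if_neg]
  rintro ⟨rfl, rfl⟩
  omega

private theorem rs_sgn (i : ℕ) : ((-1 : ℂ)) ^ i * (-1) ^ i = 1 := by
  rw [← mul_pow]
  simp

private theorem rs_w {x y : ℕ} (h : (3 * x + y) % 10 = 3) :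
    (x = 1 ∧ y = 0) ∨ (x = 0 ∧ y = 3) ∨ 13 ≤ 3 * x + y := by
  have h1 : 3 * x + y = 3 ∨ 13 ≤ 3 * x + y := by omega
  rcases h1 with h1 | h1
  · have h2 : x = 0 ∨ x = 1 := by omega
    rcases h2 with h2 | h2
    · right; left; omega
    · left; omega
  · exact Or.inr (Or.inr h1)

theorem HH_split {S : ℕ → ℕ → ℂ} (hs : ∀ x y, S x y ≠ 0 → (3 * x + y) % 10 = 3) (h10 : S 1 0 = 1)
    (h03 : S 0 3 = -2) {i j : ℕ} (hij : Even (i + j)) (α β : ℕ) (hW : 16 ≤ 3 * (α + i) + (β + j)) :
    HH S i j α β = 2 * ((α : ℂ) - i) * S (α + i - 1) (β + j) -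
      4 * (-1) ^ i * (kc j 3 β : ℂ) * S (α + i) (β + j - 3) + HR S i j α β := by
  obtain ⟨F, hF⟩ : ∃ F : ℕ → ℕ → ℂ, ∀ x y, F x y =
      (kc i x α : ℂ) * (kc j y β : ℂ) * (S x y * S (α + i - x) (β + j - y)) := ⟨_, fun _ _ => rfl⟩
  have hj : ((-1 : ℂ)) ^ j = (-1) ^ i := by
    have h1 : ((-1 : ℂ)) ^ i * (-1) ^ j = 1 := by
      rw [← pow_add]
      exact hij.neg_one_pow
    calc ((-1 : ℂ)) ^ j = ((-1) ^ i * (-1) ^ i) * (-1) ^ j := by rw [rs_sgn, one_mul]
      _ = (-1) ^ i * ((-1) ^ i * (-1) ^ j) := by ring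
      _ = (-1) ^ i := by rw [h1, mul_one]
  have hHH : HH S i j α β = ∑ x ∈ range (α + i + 1), ∑ y ∈ range (β + j + 1), F x y := by
    unfold HH
    refine Finset.sum_congr rfl fun x _ => Finset.sum_congr rfl fun y _ => ?_
    rw [hF]
  have hHR : HR S i j α β = ∑ x ∈ range (α + i + 1), ∑ y ∈ range (β + j + 1),
      if 13 ≤ 3 * x + y ∧ 13 ≤ 3 * (α + i - x) + (β + j - y) then F x y else 0 := by
    unfold HR
    refine Finset.sum_congr rfl fun x _ => Finset.sum_congr rfl fun y _ => ?_
    rw [hF]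
  -- the pointwise decomposition
  have key : ∀ x ∈ range (α + i + 1), ∀ y ∈ range (β + j + 1), F x y =
      (if x = 1 ∧ y = 0 then F x y else 0) +
      ((if x + 1 = α + i ∧ y = β + j then F x y else 0) +
      ((if x = 0 ∧ y = 3 then F x y else 0) +
      ((if x = α + i ∧ y + 3 = β + j then F x y else 0) +
      (if 13 ≤ 3 * x + y ∧ 13 ≤ 3 * (α + i - x) + (β + j - y) then F x y else 0)))) := by
    intro x hx y hy
    rw [Finset.mem_range] at hx hy
    by_cases h0 : F x y = 0
    · simp [h0]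
    · have h1 : S x y ≠ 0 := by
        intro h
        apply h0
        rw [hF, h]
        ring
      have h2 : S (α + i - x) (β + j - y) ≠ 0 := by
        intro h
        apply h0
        rw [hF, h]
        ring
      have h3 := hs _ _ h1
      have h4 := hs _ _ h2
      have h5 := rs_w h3
      have h6 : (x + 1 = α + i ∧ y = β + j) ∨ (x = α + i ∧ y + 3 = β + j) ∨
          13 ≤ 3 * (α + i - x) + (β + j - y) := by
        obtain ⟨a, ha⟩ : ∃ a, α + i = x + a := ⟨α + i - x, by omega⟩
        obtain ⟨b, hb⟩ : ∃ b, β + j = y + b := ⟨β + j - y, by omega⟩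
        rw [ha, hb, Nat.add_sub_cancel_left, Nat.add_sub_cancel_left] at h4
        rw [ha, hb, Nat.add_sub_cancel_left, Nat.add_sub_cancel_left]
        rcases rs_w h4 with h7 | h7 | h7
        · left; omega
        · right; left; omega
        · exact Or.inr (Or.inr h7)
      rcases h5 with h5 | h5 | h5 <;> rcases h6 with h6 | h6 | h6 <;>
        first | (exfalso; omega) | (split_ifs <;> first | (exfalso; omega) | simp)
  rw [hHH, hHR]
  rw [Finset.sum_congr rfl fun x hx => Finset.sum_congr rfl fun y hy => key x hx y hy]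
  simp only [Finset.sum_add_distrib]
  -- the four base terms
  have e1 : (∑ x ∈ range (α + i + 1), ∑ y ∈ range (β + j + 1),
      (if x = 1 ∧ y = 0 then F x y else 0)) = ((α : ℂ) - i) * S (α + i - 1) (β + j) := by
    rcases Nat.eq_zero_or_pos (α + i) with h | h
    · rw [rs_sum0 F _ _ _ _ (Or.inl (by omega))]
      have ha : α = 0 := by omega
      have hi : i = 0 := by omega
      rw [ha, hi]
      simp
    · rw [rs_sum F _ _ _ _ h (Nat.zero_le _), hF, h10, kc_one, kc_zero]
      push_cast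
      rw [hj, Nat.sub_zero]
      linear_combination (((α : ℂ) - i) * S (α + i - 1) (β + j)) * rs_sgn i
  have e2 : (∑ x ∈ range (α + i + 1), ∑ y ∈ range (β + j + 1),
      (if x + 1 = α + i ∧ y = β + j then F x y else 0)) = ((α : ℂ) - i) * S (α + i - 1) (β + j) := by
    rcases Nat.eq_zero_or_pos (α + i) with h | h
    · have ha : α = 0 := by omega
      have hi : i = 0 := by omega
      rw [Finset.sum_eq_zero fun x _ => Finset.sum_eq_zero fun y _ => if_neg (by omega), ha, hi]
      simp
    · have h5 : ∀ x y : ℕ, (x + 1 = α + i ∧ y = β + j) ↔ (x = α + i - 1 ∧ y = β + j) := by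
        intro x y
        constructor <;> rintro ⟨h6, h7⟩ <;> constructor <;> omega
      simp only [h5]
      rw [rs_sum F _ _ _ _ (Nat.sub_le _ _) le_rfl, hF, kc_symm h, kc_one]
      have h6 : kc j (β + j) β = (-1) ^ j * (-1) ^ j := by
        have h7 := kc_symm (i := j) (x := 0) (α := β) (Nat.zero_le _)
        rw [Nat.sub_zero, kc_zero] at h7
        exact h7
      have h8 : α + i - (α + i - 1) = 1 := by omega
      rw [h6, h8, Nat.sub_self, h10]
      push_cast
      linear_combination (((α : ℂ) - i) * S (α + i - 1) (β + j)) * (rs_sgn i) +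
        ((-1 : ℂ) ^ i * (-1) ^ i * ((α : ℂ) - i) * S (α + i - 1) (β + j)) * (rs_sgn j)
  have e3 : (∑ x ∈ range (α + i + 1), ∑ y ∈ range (β + j + 1),
      (if x = 0 ∧ y = 3 then F x y else 0)) =
      -2 * (-1) ^ i * (kc j 3 β : ℂ) * S (α + i) (β + j - 3) := by
    rcases Nat.lt_or_ge (β + j) 3 with h | h
    · rw [rs_sum0 F _ _ _ _ (Or.inr h), kc_eq_zero h]
      simp
    · rw [rs_sum F _ _ _ _ (Nat.zero_le _) h, hF, h03, kc_zero, Nat.sub_zero]
      push_cast
      ring
  have e4 : (∑ x ∈ range (α + i + 1), ∑ y ∈ range (β + j + 1),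
      (if x = α + i ∧ y + 3 = β + j then F x y else 0)) =
      -2 * (-1) ^ i * (kc j 3 β : ℂ) * S (α + i) (β + j - 3) := by
    rcases Nat.lt_or_ge (β + j) 3 with h | h
    · rw [Finset.sum_eq_zero fun x _ => Finset.sum_eq_zero fun y _ => if_neg (by omega),
        kc_eq_zero h]
      simp
    · have h5 : ∀ x y : ℕ, (x = α + i ∧ y + 3 = β + j) ↔ (x = α + i ∧ y = β + j - 3) := by
        intro x y
        constructor <;> rintro ⟨h6, h7⟩ <;> constructor <;> omega
      simp only [h5]
      rw [rs_sum F _ _ _ _ le_rfl (Nat.sub_le _ _), hF, kc_symm h]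
      have h6 : kc i (α + i) α = (-1) ^ i * (-1) ^ i := by
        have h7 := kc_symm (i := i) (x := 0) (α := α) (Nat.zero_le _)
        rw [Nat.sub_zero, kc_zero] at h7
        exact h7
      have h8 : β + j - (β + j - 3) = 3 := by omega
      rw [h6, h8, Nat.sub_self, h03]
      push_cast
      rw [hj]
      linear_combination (-2 * (-1) ^ i * (kc j 3 β : ℂ) * S (α + i) (β + j - 3)) * rs_sgn i
  rw [e1, e2, e3, e4]
  ring

end Pool.Agent.RO5
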