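import Pool.Agent.RO5.CalD

/-!
RO5-RSup. Support of the Taylor coefficients.

`sym`: `f (ζ u1) (ζ² u2) = ζ f u1 u2` and `J_scale`, `J_smul`: `ζ^(i+2j) J f i j = ζ J f i j`, `ζ = exp(2πi/5)` is a primitive 5th root of unity
(`Complex.isPrimitiveRoot_exp`), so `J f i j ≠ 0` gives `i + 2j ≡ 1 mod 5`. `odd`: `(-1)^(i+j) J f i j = - J f i j`, so `i + j` is odd. Together `3i + j ≡ 3 mod 10`.
-/

set_option autoImplicit false

namespace Pool.Agent.RO5

open Complex Finset Pool.Agent.ROH

theorem z1_prim : IsPrimitiveRoot z1 5 := by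
  have h := Complex.isPrimitiveRoot_exp 5 (by norm_num)
  have e : z1 = cexp (2 * Real.pi * I / ((5 : ℕ) : ℂ)) := by
    unfold z1
    norm_num
  rw [e]
  exact h

theorem supp_J {f : ℂ → ℂ → ℂ} {b : ℂ} (h : NFT f b) (i j : ℕ) (hij : J f i j ≠ 0) :
    (3 * i + j) % 10 = 3 := by
  have hE : Ent2 f := h.ent
  have h1 : z1 ^ (i + 2 * j) = z1 ^ 1 := by
    have e : (fun x y => f (z1 * x) (z2 * y)) = fun x y => z1 * f x y := by
      funext x y
      exact h.sym x y
    have e1 := J_scale hE z1 z2 i j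
    rw [e, J_smul hE] at e1
    have e2 := mul_right_cancel₀ hij e1
    rw [pow_add, pow_mul, pow_one]
    exact e2.symm
  have h2 : 5 ∣ i + 2 * j + 4 := by
    apply z1_prim.dvd_of_pow_eq_one
    rw [pow_add, h1, ← pow_add]
    exact z1_prim.pow_eq_one
  have h3 : (-1 : ℂ) ^ (i + j) = -1 := by
    have e : (fun x y => f ((-1) * x) ((-1) * y)) = fun x y => (-1) * f x y := by
      funext x y
      have := h.odd x y
      rw [neg_one_mul, neg_one_mul, neg_one_mul]
      exact this
    have e1 := J_scale hE (-1) (-1) i j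
    rw [e, J_smul hE] at e1
    have e2 := mul_right_cancel₀ hij e1
    rw [pow_add]
    exact e2.symm
  have h4 : Odd (i + j) := by
    rw [← Nat.not_even_iff_odd]
    intro he
    rw [he.neg_one_pow] at h3
    norm_num at h3
  obtain ⟨k, hk⟩ := h4
  omega

end Pool.Agent.RO5
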