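import Pool.Agent.RO5.RHir
import Pool.Agent.RO5.RSplit
import Pool.Agent.RO5.RSup

/-!
RO5-RSys. The numbers `S x y = x! y! J f x y` satisfy the system `Sys`, and `b = -4`.

`hir_coeff` turns each identity `hir f i j = c * hir f k l` (of functions) into `HH S i j α β = (c i! j!/(k! l!)) HH S k l α β`:
`e40`: `24/2 = 12`; `e31`: `6 (b/3) = 2 b`; `e22`: `0`; `e13`: `6 (-2/3)/2 = -2`. (`J` of `fun u1 u2 => c * hir ..`: `J_smul`; `hir f k l` is `Ent2`: from `hir_eq` and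
`ent2_D`, or use that `hir` is a finite sum.) `S 1 0 = 1`, `S 0 3 = 6 (-1/3) = -2`.
`s41`: `HH_split` (with `supp_J`) for `HH S 4 0 1 1` (weight 16): `= 2 (1-4) S 4 1 + 0 + HR` with `HR = 0` (total weight `16 < 26`), `kc 0 3 1 = 0`; `HH S 0 2 1 1`: total `(1,3)`, the only nonzero
products are `S 1 0 S 0 3` (twice), coefficients `kc 0 1 1 kc 2 0 1 = 1`, `kc 0 0 1 kc 2 3 1 = 1`: value `-4`. So `-6 S 4 1 = 12 (-4)`.
`b`: `HH S 3 1 2 0 = 2 (2-3) S 4 1 = -16` and `HH S 0 0 2 0 = kc 0 1 2 = 2`: `-16 = 2 b * 2`.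
-/

set_option autoImplicit false

namespace Pool.Agent.RO5

open Complex Finset Pool.Agent.ROH

private theorem ent2_hir {f : ℂ → ℂ → ℂ} (hf : Ent2 f) (i j : ℕ) : Ent2 (hir f i j) := by
  have hD : ∀ a b : ℕ, Differentiable ℂ (fun z : ℂ × ℂ => Dn a b f z.1 z.2) := by
    intro a b
    have h1 : Differentiable ℂ (fun z : ℂ × ℂ => D a b f z.1 z.2) := ent2_D hf a b
    have h2 : (fun z : ℂ × ℂ => Dn a b f z.1 z.2) =
        fun z : ℂ × ℂ => D a b f z.1 z.2 * ((a.factorial : ℂ) * (b.factorial : ℂ))⁻¹ := by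
      funext z
      rw [Dn, div_eq_mul_inv]
    rw [h2]
    exact h1.mul_const _
  have h2 : Differentiable ℂ (fun z : ℂ × ℂ => ∑ a ∈ range (i + 1), ∑ b ∈ range (j + 1),
      Dn a b f z.1 z.2 * ((-1) ^ ((i - a) + (j - b)) * Dn (i - a) (j - b) f z.1 z.2)) := by
    refine Differentiable.fun_sum fun a _ => Differentiable.fun_sum fun b _ => ?_
    exact (hD a b).mul ((hD (i - a) (j - b)).const_mul _)
  have h3 : (fun z : ℂ × ℂ => hir f i j z.1 z.2) =
      (fun z : ℂ × ℂ => ∑ a ∈ range (i + 1), ∑ b ∈ range (j + 1),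
      Dn a b f z.1 z.2 * ((-1) ^ ((i - a) + (j - b)) * Dn (i - a) (j - b) f z.1 z.2)) := by
    funext z
    exact hir_eq hf i j z.1 z.2
  change Differentiable ℂ (fun z : ℂ × ℂ => hir f i j z.1 z.2)
  rw [h3]
  exact h2

/-- the factorial normalisation -/
private noncomputable def SS (f : ℂ → ℂ → ℂ) : ℕ → ℕ → ℂ :=
  fun x y => (x.factorial : ℂ) * y.factorial * J f x y

private theorem HH_rel {f : ℂ → ℂ → ℂ} (hf : Ent2 f) {i j k l : ℕ} {c C : ℂ}
    (h : ∀ u1 u2, hir f i j u1 u2 = c * hir f k l u1 u2)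
    (hC : ((i.factorial : ℂ) * j.factorial) * c = C * ((k.factorial : ℂ) * l.factorial))
    (α β : ℕ) : HH (SS f) i j α β = C * HH (SS f) k l α β := by
  have h1 := hir_coeff hf i j α β
  have h2 := hir_coeff hf k l α β
  have h3 : hir f i j = fun u1 u2 => c * hir f k l u1 u2 := by
    funext u1 u2
    exact h u1 u2
  have h4 : J (hir f i j) α β = c * J (hir f k l) α β := by
    rw [h3]
    exact J_smul (ent2_hir hf k l) c α β
  change HH (fun x y => (x.factorial : ℂ) * y.factorial * J f x y) i j α β =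
    C * HH (fun x y => (x.factorial : ℂ) * y.factorial * J f x y) k l α β
  rw [← h1, ← h2, h4]
  linear_combination ((α.factorial : ℂ) * β.factorial * J (hir f k l) α β) * hC

private theorem SS_supp {f : ℂ → ℂ → ℂ} {b : ℂ} (h : NFT f b) (x y : ℕ) (hxy : SS f x y ≠ 0) :
    (3 * x + y) % 10 = 3 := by
  apply supp_J h
  intro h0
  apply hxy
  simp only [SS, h0, mul_zero]

private theorem SS_zero {f : ℂ → ℂ → ℂ} {b : ℂ} (h : NFT f b) (x y : ℕ)
    (hxy : (3 * x + y) % 10 ≠ 3) : SS f x y = 0 := by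
  by_contra h0
  exact hxy (SS_supp h x y h0)

private theorem SS10 {f : ℂ → ℂ → ℂ} {b : ℂ} (h : NFT f b) : SS f 1 0 = 1 := by
  simp [SS, h.J10]

private theorem SS03 {f : ℂ → ℂ → ℂ} {b : ℂ} (h : NFT f b) : SS f 0 3 = -2 := by
  simp only [SS, h.J03]
  norm_num [Nat.factorial]

private theorem HR_small (S : ℕ → ℕ → ℂ) (i j α β : ℕ) (h : 3 * (α + i) + (β + j) < 26) :
    HR S i j α β = 0 := by
  unfold HR
  refine sum_eq_zero fun x hx => sum_eq_zero fun y hy => ?_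
  rw [if_neg]
  rw [mem_range] at hx hy
  omega

private theorem h40' {f : ℂ → ℂ → ℂ} {b : ℂ} (h : NFT f b) (α β : ℕ) :
    HH (SS f) 4 0 α β = 12 * HH (SS f) 0 2 α β := by
  refine HH_rel h.ent (c := 1) (fun u1 u2 => ?_) ?_ α β
  · rw [one_mul]
    exact h.e40 u1 u2
  · norm_num [Nat.factorial]

private theorem h31' {f : ℂ → ℂ → ℂ} {b : ℂ} (h : NFT f b) (α β : ℕ) :
    HH (SS f) 3 1 α β = (2 * b) * HH (SS f) 0 0 α β := by
  refine HH_rel h.ent (c := b / 3) h.e31 ?_ α β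
  norm_num [Nat.factorial]
  ring

private theorem h13' {f : ℂ → ℂ → ℂ} {b : ℂ} (h : NFT f b) (α β : ℕ) :
    HH (SS f) 1 3 α β = -2 * HH (SS f) 2 0 α β := by
  refine HH_rel h.ent (c := -(2 / 3)) h.e13 ?_ α β
  norm_num [Nat.factorial]

private theorem h22' {f : ℂ → ℂ → ℂ} {b : ℂ} (h : NFT f b) (α β : ℕ) :
    HH (SS f) 2 2 α β = 0 := by
  have h1 := HH_rel (k := 0) (l := 0) h.ent (c := 0) (C := 0) (i := 2) (j := 2)
    (fun u1 u2 => by rw [h.e22 u1 u2, zero_mul]) (by simp) α β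
  rw [h1, zero_mul]

private theorem s41' {f : ℂ → ℂ → ℂ} {b : ℂ} (h : NFT f b) : SS f 4 1 = 8 := by
  have h1 := HH_split (SS_supp h) (SS10 h) (SS03 h) (i := 4) (j := 0) (by decide) 1 1 (by norm_num)
  rw [HR_small _ _ _ _ _ (by norm_num), kc3_0] at h1
  have h2 := h40' h 1 1
  have h3 : HH (SS f) 0 2 1 1 = -4 := by
    have a1 : kc 0 0 1 = 1 := by rw [kc_sum]; decide
    have a2 : kc 2 3 1 = 1 := by rw [kc_sum]; decide
    have a3 : kc 0 1 1 = 1 := by rw [kc_sum]; decide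
    have a4 : kc 2 0 1 = 1 := by rw [kc_sum]; decide
    unfold HH
    simp only [sum_range_succ, sum_range_zero, zero_add, add_zero, Nat.reduceAdd, Nat.reduceSub,
      Nat.sub_zero, Nat.sub_self]
    rw [SS_zero h 0 0 (by decide), SS_zero h 0 1 (by decide), SS_zero h 0 2 (by decide),
      SS_zero h 1 1 (by decide), SS_zero h 1 2 (by decide), SS_zero h 1 3 (by decide),
      SS10 h, SS03 h, a1, a2, a3, a4]
    norm_num
  rw [h2, h3] at h1
  norm_num at h1
  linear_combination (-1 / 6 : ℂ) * h1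

theorem nft_b {f : ℂ → ℂ → ℂ} {b : ℂ} (h : NFT f b) : b = -4 := by
  have h1 := HH_split (SS_supp h) (SS10 h) (SS03 h) (i := 3) (j := 1) (by decide) 2 0 (by norm_num)
  rw [HR_small _ _ _ _ _ (by norm_num), kc_eq_zero (show 0 + 1 < 3 by norm_num)] at h1
  have h2 := h31' h 2 0
  have h3 : HH (SS f) 0 0 2 0 = 2 := by
    have a1 : kc 0 1 2 = 2 := by rw [kc_sum]; decide
    have a2 : kc 0 0 0 = 1 := by rw [kc_sum]; decide
    unfold HH
    simp only [sum_range_succ, sum_range_zero, zero_add, add_zero, Nat.reduceAdd, Nat.reduceSub,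
      Nat.sub_zero, Nat.sub_self]
    rw [SS_zero h 0 0 (by decide), SS_zero h 2 0 (by decide), SS10 h, a1, a2]
    norm_num
  rw [h2, h3] at h1
  norm_num at h1
  rw [s41' h] at h1
  linear_combination (1 / 4 : ℂ) * h1

theorem nft_sys {f : ℂ → ℂ → ℂ} {b : ℂ} (h : NFT f b) :
    Sys (fun x y => (x.factorial : ℂ) * y.factorial * J f x y) := by
  have hb := nft_b h
  refine ⟨SS_supp h, SS10 h, SS03 h, s41' h, h13' h, h22' h, fun α β => ?_, h40' h⟩
  have h1 := h31' h α β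
  rw [hb] at h1
  have h2 : (2 * (-4) : ℂ) = -8 := by norm_num
  rw [h2] at h1
  exact h1

end Pool.Agent.RO5
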