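import Pool.Agent.RO5.TPer
import Pool.Agent.RO5.FourB

/-!
RO5-TNe. The theta function is not identically zero.

Plan. `tw 1 T u = exp(-πi (k1 u1 + k2 u2)) th u = Σ_b chi b exp(πi[k1 (1/2+o1 b)² z1 + k2 (1/2+o2 b)² z2])
exp(2πi (k1 o1 b u1 + k2 o2 b u2))`. On real `u = (x + y ε, x + y ε')` the last exponential is
`e^{2πi((p+q)x + (p+2q)y)}` (`tr_one`, `tr_eps`), so integrating the normally convergent series
(`summable_th` at `u = 0`: the norms of the terms do not depend on real `x, y`;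
`intervalIntegral.hasSum_integral_of_summable_norm` or `MeasureTheory.integral_tsum` twice)
gives `FC 0 0 (tw 1 T) = exp(πi/4 (k1 z1 + k2 z2))`, only `b = 0` contributes
(`p+q = 0 = p+2q` iff `p = q = 0`). This is `≠ 0`, so `T` is not identically zero.
-/

set_option autoImplicit false

namespace Pool.Agent.RO5

open Complex ComplexConjugate Finset Pool.Agent.ROH

/-- integral of a character -/
theorem int_char_one (n : ℤ) :
    ∫ x in (0 : ℝ)..1, cexp (2 * Real.pi * I * (n * x)) = if n = 0 then 1 else 0 := by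
  by_cases hn : n = 0
  · subst hn; simp
  · rw [if_neg hn]
    have hn' : (n : ℂ) ≠ 0 := by exact_mod_cast hn
    have hc : (2 * Real.pi * I * n : ℂ) ≠ 0 :=
      mul_ne_zero Complex.two_pi_I_ne_zero hn'
    have h := integral_exp_mul_complex (a := 0) (b := 1) hc
    have e : ∀ x : ℝ, cexp (2 * Real.pi * I * (n * x)) = cexp (2 * Real.pi * I * n * x) := by
      intro x; congr 1; ring
    simp_rw [e]
    rw [h]
    have h1 : cexp (2 * Real.pi * I * n * (1 : ℝ)) = 1 := by
      rw [show (2 * Real.pi * I * n * (1 : ℝ) : ℂ) = n * (2 * Real.pi * I) by push_cast; ring]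
      exact Complex.exp_int_mul_two_pi_mul_I n
    rw [h1]; simp

/-- integration of a normally convergent series -/
theorem int_series {ι : Type*} [Countable ι] (A : ι → ℂ) (hA : Summable fun i => ‖A i‖)
    (f : ι → ℝ → ℂ) (hf : ∀ i, Continuous (f i)) (hn : ∀ i x, ‖f i x‖ ≤ 1) :
    ∫ x in (0 : ℝ)..1, ∑' i, A i * f i x = ∑' i, A i * ∫ x in (0 : ℝ)..1, f i x := by
  have hb : ∀ i x, ‖A i * f i x‖ ≤ ‖A i‖ := by
    intro i x
    rw [norm_mul]
    exact mul_le_of_le_one_right (norm_nonneg _) (hn i x)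
  have h := intervalIntegral.hasSum_integral_of_dominated_convergence
    (μ := MeasureTheory.volume) (a := 0) (b := 1) (F := fun i x => A i * f i x)
    (f := fun x => ∑' i, A i * f i x) (fun i _ => ‖A i‖)
    (fun i => ((continuous_const.mul (hf i)).aestronglyMeasurable))
    (fun i => Filter.Eventually.of_forall fun x _ => hb i x)
    (Filter.Eventually.of_forall fun x _ => hA)
    (by simp)
    (Filter.Eventually.of_forall fun x _ => (Summable.of_norm_bounded hA (fun i => hb i x)).hasSum)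
  rw [← h.tsum_eq]
  congr 1
  ext i
  rw [intervalIntegral.integral_const_mul]

/-- coefficient of the Fourier expansion -/
noncomputable def Ab (b : ℤ × ℤ) : ℂ :=
  chi b * cexp (Real.pi * I * (k1 * (1 / 2 + o1 b) ^ 2 * z1 + k2 * (1 / 2 + o2 b) ^ 2 * z2))

theorem summable_Ab : Summable fun b => ‖Ab b‖ := by
  have h := summable_th 0 0
  refine h.congr fun b => ?_
  simp [Ab, tex]

theorem char_norm (n : ℤ) (x : ℝ) : ‖cexp (2 * Real.pi * I * (n * x))‖ = 1 := by
  rw [show (2 * Real.pi * I * (n * x) : ℂ) = ((2 * Real.pi * (n * x) : ℝ) : ℂ) * I by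
    push_cast; ring]
  exact Complex.norm_exp_ofReal_mul_I _

theorem tw_T_real (x y : ℝ) : tw 1 T (x + y * eps) (x + y * epc) =
    ∑' b : ℤ × ℤ, Ab b * cexp (2 * Real.pi * I * ((b.1 + b.2 : ℤ) * x)) *
      cexp (2 * Real.pi * I * ((b.1 + 2 * b.2 : ℤ) * y)) := by
  have h1 : tw 1 T (x + y * eps) (x + y * epc) = th (x + y * eps) (x + y * epc) *
      cexp (-(Real.pi * I * (k1 * (x + y * eps) + k2 * (x + y * epc)))) := by
    unfold tw T
    rw [mul_comm (cexp _) (th _ _), mul_assoc, ← Complex.exp_add]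
    congr 2
    push_cast
    ring
  rw [h1, th, ← tsum_mul_right]
  congr 1
  ext b
  have e1 : (k1 * o1 b + k2 * o2 b : ℂ) = (b.1 + b.2 : ℤ) := by
    have := tr_one b
    have h2 := congrArg (fun t : ℝ => (t : ℂ)) this
    push_cast at h2 ⊢
    exact h2
  have e2 : (k1 * (o1 b * eps) + k2 * (o2 b * epc) : ℂ) = (b.1 + 2 * b.2 : ℤ) := by
    have := tr_eps b
    have h2 := congrArg (fun t : ℝ => (t : ℂ)) this
    push_cast at h2 ⊢
    exact h2
  rw [← e1, ← e2]
  unfold Ab tex
  simp only [mul_assoc, ← Complex.exp_add]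
  congr 2
  ring

theorem FC_T : FC 0 0 (tw 1 T) = cexp (Real.pi * I * (k1 * (1 / 2) ^ 2 * z1 + k2 * (1 / 2) ^ 2 * z2)) := by
  have hin : ∀ x : ℝ, ∫ y in (0 : ℝ)..1, tw 1 T (x + y * eps) (x + y * epc) *
      cexp (-(2 * Real.pi * I * ((0 : ℤ) * x + (0 : ℤ) * y))) =
      ∑' b : ℤ × ℤ, Ab b * (cexp (2 * Real.pi * I * ((b.1 + b.2 : ℤ) * x)) *
        if b.1 + 2 * b.2 = 0 then 1 else 0) := by
    intro x
    have h1 : ∀ y : ℝ, tw 1 T (x + y * eps) (x + y * epc) *
        cexp (-(2 * Real.pi * I * ((0 : ℤ) * x + (0 : ℤ) * y))) =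
        ∑' b : ℤ × ℤ, Ab b * cexp (2 * Real.pi * I * ((b.1 + b.2 : ℤ) * x)) *
      cexp (2 * Real.pi * I * ((b.1 + 2 * b.2 : ℤ) * y)) := by
      intro y
      rw [tw_T_real]; simp
    simp_rw [h1]
    rw [int_series (fun b : ℤ × ℤ => Ab b * cexp (2 * Real.pi * I * ((b.1 + b.2 : ℤ) * x)))
      (by
        refine summable_Ab.congr fun b => ?_
        rw [norm_mul, char_norm, mul_one])
      (fun b y => cexp (2 * Real.pi * I * ((b.1 + 2 * b.2 : ℤ) * y)))
      (fun b => by fun_prop) (fun b y => (char_norm _ _).le)]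
    congr 1
    ext b
    rw [int_char_one, mul_assoc]
  unfold FC
  simp_rw [hin]
  rw [int_series Ab summable_Ab (fun b x => cexp (2 * Real.pi * I * ((b.1 + b.2 : ℤ) * x)) *
        if b.1 + 2 * b.2 = 0 then 1 else 0) (fun b => by fun_prop) (fun b x => by
          rw [norm_mul, char_norm, one_mul]
          split_ifs <;> simp)]
  rw [tsum_eq_single (0 : ℤ × ℤ)]
  · rw [intervalIntegral.integral_mul_const, int_char_one]
    simp [Ab, chi, o1, o2]
  · intro b hb
    rw [intervalIntegral.integral_mul_const, int_char_one]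
    by_cases h1 : b.1 + b.2 = 0
    · by_cases h2 : b.1 + 2 * b.2 = 0
      · exfalso
        apply hb
        ext
        · simp; omega
        · simp; omega
      · simp [h2]
    · simp [h1]

theorem T_ne : ∃ u1 u2, T u1 u2 ≠ 0 := by
  by_contra hc
  push Not at hc
  have h := FC_T
  have h0 : FC 0 0 (tw 1 T) = 0 := by
    unfold FC tw
    simp [hc]
  rw [h0] at h
  exact Complex.exp_ne_zero _ h.symm

end Pool.Agent.RO5
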