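import Pool.Agent.RO5.Num

/-!
RO5-TSum. Convergence of the theta series and holomorphy.

Plan. `‖chi b * exp (tex b u)‖ = exp(-π (k1 im z1 (1/2+o1 b)² + k2 im z2 (1/2+o2 b)²)
 - 2π (k1 (1/2+o1 b) im u1 + k2 (1/2+o2 b) im u2))`. With `κ = min (k1 im z1) (k2 im z2) > 0`,
`(o1 b)² + (o2 b)² = 2 p² + 2 p q + 3 q² ≥ p² + q²` (`b = (p,q)`, `eps + epc = 1`, `eps² + epc² = 3`),
`(1/2+x)² ≥ x²/2 - 1/4`, and `|o_j b| ≤ 2 (|p|+|q|)`, the norm is
`≤ C_R exp(-2 (|p|+|q|))` for `‖u1‖, ‖u2‖ ≤ R`: summable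
(product of two geometric series over `ℤ`). The Fréchet derivative of a term is
`2πi (k1 (1/2+o1 b) du1 + k2 (1/2+o2 b) du2)` times the term, bounded by `C (1+|p|+|q|)` times the
term: `hasFDerivAt_tsum_of_isPreconnected` on a ball gives differentiability of `th` on `ℂ × ℂ`.
-/

set_option autoImplicit false

namespace Pool.Agent.RO5

open Complex ComplexConjugate Finset Pool.Agent.ROH

private noncomputable def tsS (b : ℤ × ℤ) : ℝ := |(b.1 : ℝ)| + |(b.2 : ℝ)|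

private theorem tsS_nonneg (b : ℤ × ℤ) : 0 ≤ tsS b := by unfold tsS; positivity

private theorem ts_summable : Summable fun b : ℤ × ℤ => Real.exp (-tsS b) := by
  have h1 : Summable fun n : ℤ => Real.exp (-|(n : ℝ)|) := by
    refine Summable.of_nat_of_neg ?_ ?_
    · simpa using Real.summable_exp_neg_nat
    · simpa using Real.summable_exp_neg_nat
  have h2 := h1.mul_of_nonneg h1 (fun n => (Real.exp_pos _).le) (fun n => (Real.exp_pos _).le)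
  refine h2.congr fun b => ?_
  unfold tsS
  rw [← Real.exp_add]
  congr 1
  ring

private theorem norm_chi (b : ℤ × ℤ) : ‖chi b‖ = 1 := by
  unfold chi
  rw [norm_zpow, norm_neg, norm_one, one_zpow]

private theorem re_tex (b : ℤ × ℤ) (u1 u2 : ℂ) : (tex b u1 u2).re =
    -(Real.pi * (k1 * z1.im * (1 / 2 + o1 b) ^ 2 + k2 * z2.im * (1 / 2 + o2 b) ^ 2)) -
      2 * Real.pi * (k1 * (1 / 2 + o1 b) * u1.im + k2 * (1 / 2 + o2 b) * u2.im) := by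
  unfold tex
  have h1 : (Real.pi * I * (k1 * (1 / 2 + o1 b) ^ 2 * z1 + k2 * (1 / 2 + o2 b) ^ 2 * z2) +
    2 * Real.pi * I * (k1 * (1 / 2 + o1 b) * u1 + k2 * (1 / 2 + o2 b) * u2) : ℂ) =
    I * (((Real.pi * k1 * (1 / 2 + o1 b) ^ 2 : ℝ) : ℂ) * z1 +
      ((Real.pi * k2 * (1 / 2 + o2 b) ^ 2 : ℝ) : ℂ) * z2 +
      ((2 * Real.pi * k1 * (1 / 2 + o1 b) : ℝ) : ℂ) * u1 +
      ((2 * Real.pi * k2 * (1 / 2 + o2 b) : ℝ) : ℂ) * u2) := by
    push_cast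
    ring
  rw [h1, I_mul_re]
  simp only [add_im, im_ofReal_mul]
  ring

private theorem ts_quad (b : ℤ × ℤ) :
    tsS b ^ 2 / 4 - 1 / 2 ≤ (1 / 2 + o1 b) ^ 2 + (1 / 2 + o2 b) ^ 2 := by
  have e1 : o1 b ^ 2 + o2 b ^ 2 = 2 * (b.1 : ℝ) ^ 2 + 2 * b.1 * b.2 + 3 * (b.2 : ℝ) ^ 2 := by
    unfold o1 o2
    have h1 := eps_sq
    have h2 := epc_sq
    have h3 := eps_add
    have h4 : epc = 1 - eps := by linarith
    have h5 : epc ^ 2 = 2 - eps := by rw [h2]; linarith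
    have : ((b.1 : ℝ) + b.2 * eps) ^ 2 + ((b.1 : ℝ) + b.2 * epc) ^ 2 =
      2 * (b.1 : ℝ) ^ 2 + 2 * b.1 * b.2 * (eps + epc) + (b.2 : ℝ) ^ 2 * (eps ^ 2 + epc ^ 2) := by ring
    rw [this, h1, h3, h5]
    ring
  have e2 : tsS b ^ 2 ≤ 2 * ((b.1 : ℝ) ^ 2 + (b.2 : ℝ) ^ 2) := by
    unfold tsS
    have a1 := sq_abs (b.1 : ℝ)
    have a2 := sq_abs (b.2 : ℝ)
    nlinarith [sq_nonneg (|(b.1 : ℝ)| - |(b.2 : ℝ)|)]
  nlinarith [sq_nonneg (o1 b + 1), sq_nonneg (o2 b + 1), sq_nonneg ((b.1 : ℝ) + b.2),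
    sq_nonneg (b.2 : ℝ)]

private theorem ts_abs (b : ℤ × ℤ) : |1 / 2 + o1 b| ≤ 1 + 2 * tsS b ∧ |1 / 2 + o2 b| ≤ 1 + 2 * tsS b := by
  have g1 := eps_gt
  have g2 := epc_neg
  have g3 := epc_gt
  have g4 := eps_add
  have a1 := abs_nonneg (b.1 : ℝ)
  have a2 := abs_nonneg (b.2 : ℝ)
  constructor
  · unfold o1 tsS
    have h1 : |(b.2 : ℝ) * eps| ≤ 2 * |(b.2 : ℝ)| := by
      rw [abs_mul, abs_of_pos (by linarith : (0 : ℝ) < eps)]
      nlinarith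
    calc |1 / 2 + ((b.1 : ℝ) + b.2 * eps)| ≤ |(1 / 2 : ℝ)| + |(b.1 : ℝ) + b.2 * eps| := abs_add_le _ _
      _ ≤ |(1 / 2 : ℝ)| + (|(b.1 : ℝ)| + |(b.2 : ℝ) * eps|) := by
          gcongr
          exact abs_add_le _ _
      _ ≤ 1 + 2 * (|(b.1 : ℝ)| + |(b.2 : ℝ)|) := by
          rw [abs_of_pos (by norm_num : (0 : ℝ) < 1 / 2)]
          linarith
  · unfold o2 tsS
    have h1 : |(b.2 : ℝ) * epc| ≤ 2 * |(b.2 : ℝ)| := by
      rw [abs_mul, abs_of_neg g2]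
      nlinarith
    calc |1 / 2 + ((b.1 : ℝ) + b.2 * epc)| ≤ |(1 / 2 : ℝ)| + |(b.1 : ℝ) + b.2 * epc| := abs_add_le _ _
      _ ≤ |(1 / 2 : ℝ)| + (|(b.1 : ℝ)| + |(b.2 : ℝ) * epc|) := by
          gcongr
          exact abs_add_le _ _
      _ ≤ 1 + 2 * (|(b.1 : ℝ)| + |(b.2 : ℝ)|) := by
          rw [abs_of_pos (by norm_num : (0 : ℝ) < 1 / 2)]
          linarith

private theorem ts_bound (R : ℝ) (hR : 0 ≤ R) : ∃ C : ℝ, 0 < C ∧ ∀ b u1 u2, ‖u1‖ ≤ R → ‖u2‖ ≤ R →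
    ‖chi b * cexp (tex b u1 u2)‖ ≤ C * Real.exp (-(2 * tsS b)) := by
  obtain ⟨κ, hκ, hκ1, hκ2⟩ : ∃ κ : ℝ, 0 < κ ∧ κ ≤ k1 * z1.im ∧ κ ≤ k2 * z2.im :=
    ⟨min (k1 * z1.im) (k2 * z2.im), lt_min (mul_pos k1_pos z1_im) (mul_pos k2_pos z2_im),
      min_le_left _ _, min_le_right _ _⟩
  have hk1 := k1_pos
  have hk2 := k2_pos
  have hpi := Real.pi_pos
  set K : ℝ := k1 + k2 with hK
  set a : ℝ := Real.pi * κ / 4 with ha
  have ha0 : 0 < a := by positivity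
  set B : ℝ := 4 * Real.pi * K * R + 2 with hB
  refine ⟨Real.exp (Real.pi * κ / 2 + 2 * Real.pi * K * R + B ^ 2 / (4 * a)), Real.exp_pos _,
    fun b u1 u2 h1 h2 => ?_⟩
  rw [norm_mul, norm_chi, one_mul, Complex.norm_exp, ← Real.exp_add]
  apply Real.exp_le_exp.mpr
  rw [re_tex]
  have q1 := ts_quad b
  obtain ⟨q2, q3⟩ := ts_abs b
  have hS := tsS_nonneg b
  have i1 : |u1.im| ≤ R := le_trans (abs_im_le_norm u1) h1
  have i2 : |u2.im| ≤ R := le_trans (abs_im_le_norm u2) h2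
  have j1 : -(k1 * (1 / 2 + o1 b) * u1.im) ≤ k1 * ((1 + 2 * tsS b) * R) := by
    have : |k1 * (1 / 2 + o1 b) * u1.im| ≤ k1 * ((1 + 2 * tsS b) * R) := by
      rw [abs_mul, abs_mul, abs_of_pos hk1, mul_assoc]
      exact mul_le_mul_of_nonneg_left (mul_le_mul q2 i1 (abs_nonneg _) (by linarith)) hk1.le
    exact le_trans (neg_le_abs _) this
  have j2 : -(k2 * (1 / 2 + o2 b) * u2.im) ≤ k2 * ((1 + 2 * tsS b) * R) := by
    have : |k2 * (1 / 2 + o2 b) * u2.im| ≤ k2 * ((1 + 2 * tsS b) * R) := by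
      rw [abs_mul, abs_mul, abs_of_pos hk2, mul_assoc]
      exact mul_le_mul_of_nonneg_left (mul_le_mul q3 i2 (abs_nonneg _) (by linarith)) hk2.le
    exact le_trans (neg_le_abs _) this
  have j3 : κ * (tsS b ^ 2 / 4 - 1 / 2) ≤
      k1 * z1.im * (1 / 2 + o1 b) ^ 2 + k2 * z2.im * (1 / 2 + o2 b) ^ 2 := by
    calc κ * (tsS b ^ 2 / 4 - 1 / 2) ≤ κ * ((1 / 2 + o1 b) ^ 2 + (1 / 2 + o2 b) ^ 2) :=
          mul_le_mul_of_nonneg_left q1 hκ.le
      _ = κ * (1 / 2 + o1 b) ^ 2 + κ * (1 / 2 + o2 b) ^ 2 := by ring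
      _ ≤ _ := add_le_add (mul_le_mul_of_nonneg_right hκ1 (sq_nonneg _))
          (mul_le_mul_of_nonneg_right hκ2 (sq_nonneg _))
  have j4 : B * tsS b - a * tsS b ^ 2 ≤ B ^ 2 / (4 * a) := by
    rw [le_div_iff₀ (by positivity)]
    nlinarith [sq_nonneg (B - 2 * a * tsS b)]
  have j5 : Real.pi * (κ * (tsS b ^ 2 / 4 - 1 / 2)) ≤ Real.pi *
      (k1 * z1.im * (1 / 2 + o1 b) ^ 2 + k2 * z2.im * (1 / 2 + o2 b) ^ 2) :=
    mul_le_mul_of_nonneg_left j3 hpi.le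
  have j6 : 2 * Real.pi * (-(k1 * (1 / 2 + o1 b) * u1.im) + -(k2 * (1 / 2 + o2 b) * u2.im)) ≤
      2 * Real.pi * (k1 * ((1 + 2 * tsS b) * R) + k2 * ((1 + 2 * tsS b) * R)) :=
    mul_le_mul_of_nonneg_left (add_le_add j1 j2) (by positivity)
  have j7 : 2 * Real.pi * (k1 * ((1 + 2 * tsS b) * R) + k2 * ((1 + 2 * tsS b) * R)) =
      2 * Real.pi * K * R + (B - 2) * tsS b := by
    rw [hB, hK]
    ring
  have j8 : Real.pi * (κ * (tsS b ^ 2 / 4 - 1 / 2)) = a * tsS b ^ 2 - Real.pi * κ / 2 := by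
    rw [ha]
    ring
  nlinarith [j4, j5, j6, j7, j8]

/-- uniform bound on bounded sets -/
theorem bound_th (R : ℝ) : ∃ B : ℤ × ℤ → ℝ, Summable B ∧ ∀ b u1 u2, ‖u1‖ ≤ R → ‖u2‖ ≤ R →
    ‖chi b * cexp (tex b u1 u2)‖ ≤ B b := by
  by_cases hR : 0 ≤ R
  · obtain ⟨C, hC, h⟩ := ts_bound R hR
    refine ⟨fun b => C * Real.exp (-tsS b), ts_summable.mul_left C, fun b u1 u2 h1 h2 => ?_⟩
    refine le_trans (h b u1 u2 h1 h2) ?_
    refine mul_le_mul_of_nonneg_left (Real.exp_le_exp.mpr ?_) hC.le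
    have := tsS_nonneg b
    linarith
  · exact ⟨fun _ => 0, summable_zero, fun b u1 u2 h1 _ => absurd (le_trans (norm_nonneg _) h1) hR⟩

theorem summable_th (u1 u2 : ℂ) : Summable fun b : ℤ × ℤ => ‖chi b * cexp (tex b u1 u2)‖ := by
  obtain ⟨B, hB, h⟩ := bound_th (max ‖u1‖ ‖u2‖)
  exact Summable.of_nonneg_of_le (fun _ => norm_nonneg _)
    (fun b => h b u1 u2 (le_max_left _ _) (le_max_right _ _)) hB

private noncomputable def tsL (b : ℤ × ℤ) : ℂ × ℂ →L[ℂ] ℂ :=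
  (2 * Real.pi * I * (k1 * (1 / 2 + o1 b)) : ℂ) • ContinuousLinearMap.fst ℂ ℂ ℂ +
    (2 * Real.pi * I * (k2 * (1 / 2 + o2 b)) : ℂ) • ContinuousLinearMap.snd ℂ ℂ ℂ

private theorem ts_hasFDeriv (b : ℤ × ℤ) (z : ℂ × ℂ) :
    HasFDerivAt (fun z : ℂ × ℂ => chi b * cexp (tex b z.1 z.2))
      ((chi b * cexp (tex b z.1 z.2)) • tsL b) z := by
  have h1 : HasFDerivAt (fun z : ℂ × ℂ => tex b z.1 z.2) (tsL b) z := by
    have h2 : (fun z : ℂ × ℂ => tex b z.1 z.2) = fun z : ℂ × ℂ => (tsL b) z +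
        Real.pi * I * (k1 * (1 / 2 + o1 b) ^ 2 * z1 + k2 * (1 / 2 + o2 b) ^ 2 * z2) := by
      funext z
      unfold tsL tex
      simp only [add_apply, smul_apply,
        ContinuousLinearMap.coe_fst', ContinuousLinearMap.coe_snd', smul_eq_mul]
      ring
    rw [h2]
    exact (tsL b).hasFDerivAt.add_const _
  have h3 := (h1.cexp).const_mul (chi b)
  rw [smul_smul] at h3
  exact h3

private theorem ts_normL (b : ℤ × ℤ) : ‖tsL b‖ ≤ 4 * Real.pi * (k1 + k2) * (1 + tsS b) := by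
  have hk1 := k1_pos
  have hk2 := k2_pos
  have hpi := Real.pi_pos
  have hS := tsS_nonneg b
  obtain ⟨q2, q3⟩ := ts_abs b
  unfold tsL
  have n1 : ‖(2 * Real.pi * I * (k1 * (1 / 2 + o1 b)) : ℂ)‖ ≤ 2 * Real.pi * (k1 * (1 + 2 * tsS b)) := by
    have : (2 * Real.pi * I * (k1 * (1 / 2 + o1 b)) : ℂ) =
        ((2 * Real.pi * (k1 * (1 / 2 + o1 b)) : ℝ) : ℂ) * I := by push_cast; ring
    rw [this, norm_mul, Complex.norm_I, mul_one, Complex.norm_real, Real.norm_eq_abs, abs_mul,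
      abs_of_pos (by positivity : (0 : ℝ) < 2 * Real.pi), abs_mul, abs_of_pos hk1]
    gcongr
  have n2 : ‖(2 * Real.pi * I * (k2 * (1 / 2 + o2 b)) : ℂ)‖ ≤ 2 * Real.pi * (k2 * (1 + 2 * tsS b)) := by
    have : (2 * Real.pi * I * (k2 * (1 / 2 + o2 b)) : ℂ) =
        ((2 * Real.pi * (k2 * (1 / 2 + o2 b)) : ℝ) : ℂ) * I := by push_cast; ring
    rw [this, norm_mul, Complex.norm_I, mul_one, Complex.norm_real, Real.norm_eq_abs, abs_mul,
      abs_of_pos (by positivity : (0 : ℝ) < 2 * Real.pi), abs_mul, abs_of_pos hk2]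
    gcongr
  refine le_trans (norm_add_le _ _) ?_
  rw [norm_smul, norm_smul]
  have m1 : ‖ContinuousLinearMap.fst ℂ ℂ ℂ‖ ≤ 1 := ContinuousLinearMap.norm_fst_le _ _ _
  have m2 : ‖ContinuousLinearMap.snd ℂ ℂ ℂ‖ ≤ 1 := ContinuousLinearMap.norm_snd_le _ _ _
  calc _ ≤ 2 * Real.pi * (k1 * (1 + 2 * tsS b)) * 1 + 2 * Real.pi * (k2 * (1 + 2 * tsS b)) * 1 := by
        gcongr
    _ ≤ 4 * Real.pi * (k1 + k2) * (1 + tsS b) := by
        have : 0 ≤ 2 * Real.pi * (k1 + k2) := by positivity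
        nlinarith

theorem ent_th : Ent2 th := by
  unfold Ent2 th
  intro z
  obtain ⟨R, hR⟩ : ∃ R : ℝ, R = ‖z‖ + 1 := ⟨_, rfl⟩
  have hR0 : 0 ≤ R := by rw [hR]; positivity
  obtain ⟨C, hC, h⟩ := ts_bound R hR0
  have hsum : Summable fun b : ℤ × ℤ => C * (4 * Real.pi * (k1 + k2)) * Real.exp (-tsS b) :=
    ts_summable.mul_left _
  have hk1 := k1_pos
  have hk2 := k2_pos
  have hpi := Real.pi_pos
  have hz : z ∈ Metric.ball (0 : ℂ × ℂ) R := by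
    rw [mem_ball_zero_iff, hR]
    linarith
  refine HasFDerivAt.differentiableAt (𝕜 := ℂ) (f' := ∑' b : ℤ × ℤ, (chi b * cexp (tex b z.1 z.2)) • tsL b)
    (hasFDerivAt_tsum_of_isPreconnected (𝕜 := ℂ)
    (f := fun (b : ℤ × ℤ) (z : ℂ × ℂ) => chi b * cexp (tex b z.1 z.2))
    (f' := fun (b : ℤ × ℤ) (z : ℂ × ℂ) => (chi b * cexp (tex b z.1 z.2)) • tsL b)
    hsum (Metric.isOpen_ball (x := (0 : ℂ × ℂ)) (ε := R))
    (convex_ball (0 : ℂ × ℂ) R).isPreconnected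
    (fun b y _ => ts_hasFDeriv b y) (fun b y hy => ?_) hz ?_ hz)
  · have hy' : ‖y‖ ≤ R := by
      rw [mem_ball_zero_iff] at hy
      exact hy.le
    have y1 : ‖y.1‖ ≤ R := le_trans (norm_fst_le y) hy'
    have y2 : ‖y.2‖ ≤ R := le_trans (norm_snd_le y) hy'
    have hS := tsS_nonneg b
    rw [norm_smul]
    calc ‖chi b * cexp (tex b y.1 y.2)‖ * ‖tsL b‖
        ≤ (C * Real.exp (-(2 * tsS b))) * (4 * Real.pi * (k1 + k2) * (1 + tsS b)) :=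
          mul_le_mul (h b y.1 y.2 y1 y2) (ts_normL b) (norm_nonneg _) (by positivity)
      _ = C * (4 * Real.pi * (k1 + k2)) * (Real.exp (-(2 * tsS b)) * (1 + tsS b)) := by ring
      _ ≤ C * (4 * Real.pi * (k1 + k2)) * Real.exp (-tsS b) := by
          refine mul_le_mul_of_nonneg_left ?_ (by positivity)
          have e1 : Real.exp (-(2 * tsS b)) = Real.exp (-tsS b) * Real.exp (-tsS b) := by
            rw [← Real.exp_add]
            congr 1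
            ring
          have e2 : Real.exp (-tsS b) * (1 + tsS b) ≤ 1 := by
            rw [Real.exp_neg, inv_mul_le_iff₀ (Real.exp_pos _), mul_one]
            have := Real.add_one_le_exp (tsS b)
            linarith
          rw [e1, mul_assoc]
          exact mul_le_of_le_one_right (Real.exp_pos _).le e2
  · exact (summable_th z.1 z.2).of_norm

theorem ent_T : Ent2 T := by
  have h := ent_th
  unfold Ent2 at h ⊢
  unfold T
  refine Differentiable.mul ?_ h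
  refine Differentiable.cexp ?_
  fun_prop

end Pool.Agent.RO5
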