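import Pool.Agent.RO5.JDefs

/-!
RO5-XiG. Arithmetic of the Taylor coefficients of the auxiliary function, generic form of ROH/LineC + ROH/RepXi
(copy these files and ROH8/GRX; `rep_jet` is replaced by the hypotheses `h1`, `h2`).

Plan. `line_gen`: `pc r1 r2 θ .. N k j = r1^k r2^j q k j`, `q k j = Σ_{d<n^8} N k j d θ^d`, so by `hF`, `hH` on the line
`c.f = Σ q k j * iteratedDeriv k (g1 a b e l) 0 * iteratedDeriv j (g2 a b e l) 0`; Leibniz rule in `l`: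
`iteratedDeriv ν / ν! = Σ_{k,j} q k j Σ_{i≤ν} (k! J g1 i k) (j! J g2 (ν-i) j)`.
`rep_xiG`: multiply by `D1 D2` (from `h1`, `h2` for `N = n^12`) and `D0(θ)^(ν+p+q)`; `k! ≤ (n^12)^(n^12) ≤ exp(C n^13)`
(`k! ≤ exp(N log²(N+2))`), the rest as in ROH/RepXi.
-/

set_option autoImplicit false

namespace Pool.Agent.RO5

open Complex Finset Polynomial Pool.Agent.ROH Pool.Agent.GP

private theorem log_bd (n : ℕ) (hn : 1 ≤ n) :
    Real.log (((n ^ 12 : ℕ) : ℝ) + 2) ^ 2 ≤ 1728 * n := by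
  have hn' : (1 : ℝ) ≤ n := by exact_mod_cast hn
  have hn0 : (0 : ℝ) < 3 * (n : ℝ) := by linarith
  have hc : (0 : ℝ) ≤ ((n ^ 12 : ℕ) : ℝ) := Nat.cast_nonneg _
  have h1 : ((n ^ 12 : ℕ) : ℝ) + 2 ≤ (3 * (n : ℝ)) ^ 12 := by
    push_cast
    have h : (1 : ℝ) ≤ (n : ℝ) ^ 12 := one_le_pow₀ hn'
    rw [mul_pow]
    have h3 : (3 : ℝ) ^ 12 = 531441 := by norm_num
    rw [h3]
    linarith
  have h0 : 0 ≤ Real.log (((n ^ 12 : ℕ) : ℝ) + 2) := Real.log_nonneg (by linarith)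
  have h2 : Real.log (((n ^ 12 : ℕ) : ℝ) + 2) ≤ 12 * Real.log (3 * (n : ℝ)) := by
    calc Real.log (((n ^ 12 : ℕ) : ℝ) + 2) ≤ Real.log ((3 * (n : ℝ)) ^ 12) :=
          Real.log_le_log (by linarith) h1
      _ = 12 * Real.log (3 * (n : ℝ)) := by
          rw [Real.log_pow]
          norm_num
  have h3 : Real.log (3 * (n : ℝ)) ≤ 2 * Real.sqrt (3 * (n : ℝ)) := by
    have h : Real.log (3 * (n : ℝ)) = 2 * Real.log (Real.sqrt (3 * (n : ℝ))) := by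
      rw [Real.log_sqrt hn0.le]
      ring
    rw [h]
    have h' := Real.log_le_sub_one_of_pos (Real.sqrt_pos.2 hn0)
    linarith
  have h4 : Real.log (((n ^ 12 : ℕ) : ℝ) + 2) ≤ 24 * Real.sqrt (3 * (n : ℝ)) := by linarith
  calc Real.log (((n ^ 12 : ℕ) : ℝ) + 2) ^ 2 ≤ (24 * Real.sqrt (3 * (n : ℝ))) ^ 2 :=
        pow_le_pow_left₀ h0 h4 2
    _ = 1728 * n := by
        rw [mul_pow, Real.sq_sqrt hn0.le]
        ring

private theorem exp_bd (C : ℝ) (hC : 1 ≤ C) (n : ℕ) (hn : 1 ≤ n) :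
    Real.exp (C * ((n ^ 12 : ℕ) : ℝ) * Real.log (((n ^ 12 : ℕ) : ℝ) + 2) ^ 2) ≤
      Real.exp (1728 * C * (n : ℝ) ^ 13) := by
  refine Real.exp_le_exp.2 ?_
  have h := log_bd n hn
  have hc : (0 : ℝ) ≤ C * ((n ^ 12 : ℕ) : ℝ) := mul_nonneg (by linarith) (Nat.cast_nonneg _)
  calc C * ((n ^ 12 : ℕ) : ℝ) * Real.log (((n ^ 12 : ℕ) : ℝ) + 2) ^ 2 ≤
      C * ((n ^ 12 : ℕ) : ℝ) * (1728 * n) := mul_le_mul_of_nonneg_left h hc
    _ = 1728 * C * (n : ℝ) ^ 13 := by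
        push_cast
        ring

/-- the coefficients -/
private theorem rep_q {δ : ℕ} (ω : Fin δ → ℂ) (θ : ℂ) (M : ℕ) (N : ℕ → ℤ) (B : ℝ)
    (hN : ∀ d, |(N d : ℝ)| ≤ B) :
    Rep δ ω θ (∑ d ∈ range M, (N d : ℂ) * θ ^ d) M (M * B) := by
  have h : ∀ d ∈ range M, Rep δ ω θ ((N d : ℂ) * θ ^ d) M B := by
    intro d hd
    have h1 := Rep.poly ω θ (monomial d (N d))
    rw [aeval_monomial] at h1
    have h2 : GP.l1 (monomial d (N d)) ≤ B := by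
      rw [l1_eq_sum (monomial d (N d)) (s := {d}) (support_monomial_subset _ _)]
      rw [Finset.sum_singleton, coeff_monomial_same]
      exact hN d
    have h3 : (monomial d (N d) : ℤ[X]).natDegree ≤ M :=
      (natDegree_monomial_le _).trans (Finset.mem_range.1 hd).le
    have h4 := h1.mono h3 h2
    have h5 : (algebraMap ℤ ℂ) (N d) * θ ^ d = (N d : ℂ) * θ ^ d := by
      rw [eq_intCast]
    rwa [h5] at h4
  have h6 := Rep.sum (range M) h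
  rwa [Finset.sum_const, Finset.card_range, nsmul_eq_mul] at h6

/-- Leibniz rule for Taylor coefficients -/
private theorem leib {D E : ℂ → ℂ} (hD : Differentiable ℂ D) (hE : Differentiable ℂ E) (n : ℕ) :
    iteratedDeriv n (fun l => D l * E l) 0 / (n.factorial : ℂ) =
      ∑ i ∈ range (n + 1), (iteratedDeriv i D 0 / (i.factorial : ℂ)) *
        (iteratedDeriv (n - i) E 0 / ((n - i).factorial : ℂ)) := by
  rw [iteratedDeriv_fun_mul hD.contDiff.contDiffAt hE.contDiff.contDiffAt, Finset.sum_div]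
  refine Finset.sum_congr rfl fun i hi => ?_
  have hin : i ≤ n := Nat.lt_succ_iff.1 (Finset.mem_range.1 hi)
  have h1 : ((n.choose i : ℕ) : ℂ) * ((i.factorial : ℕ) : ℂ) * (((n - i).factorial : ℕ) : ℂ) =
      ((n.factorial : ℕ) : ℂ) := by
    rw [← Nat.choose_mul_factorial_mul_factorial hin]
    push_cast
    ring
  have hn0 : ((n.factorial : ℕ) : ℂ) ≠ 0 := by exact_mod_cast n.factorial_ne_zero
  have hi0 : ((i.factorial : ℕ) : ℂ) ≠ 0 := by exact_mod_cast i.factorial_ne_zero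
  have hni0 : (((n - i).factorial : ℕ) : ℂ) ≠ 0 := by exact_mod_cast (n - i).factorial_ne_zero
  rw [div_mul_div_comm, div_eq_div_iff hn0 (mul_ne_zero hi0 hni0), ← h1]
  ring

/-- `k! J` is represented -/
private theorem repF_fac {δ : ℕ} {ω : Fin (δ + 1) → ℂ} {θ : ℂ} {D0 : ℤ[X]} {E p : ℕ}
    {g : ℕ → ℕ → ℕ → ℂ → ℂ → ℂ} (h : RepF δ ω θ D0 E p g) :
    ∃ C : ℝ, 1 ≤ C ∧ ∀ N : ℕ, 1 ≤ N → ∃ D : ℕ, 0 < D ∧
      (D : ℝ) ≤ Real.exp (C * N * Real.log (N + 2) ^ 2) ∧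
      ∀ n ≤ N, ∀ i ≤ N, ∀ a ≤ N, ∀ b ≤ N, ∀ e ≤ N,
        Rep (δ + 1) ω θ (D * aeval θ D0 ^ (n + p) * ((i.factorial : ℂ) * J (g a b e) n i))
          ((n + p) * E) (Real.exp (C * N * Real.log (N + 2) ^ 2)) := by
  obtain ⟨C, hC, H⟩ := h.2
  refine ⟨C + 1 + ((δ : ℝ) + 1), by
    have : (0 : ℝ) ≤ (δ : ℝ) := Nat.cast_nonneg δ
    linarith, ?_⟩
  intro N hN
  obtain ⟨D, hD, hDb, R⟩ := H N hN
  have hNr : (1 : ℝ) ≤ N := by exact_mod_cast hN
  have hlog : 1 ≤ Real.log ((N : ℝ) + 2) := by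
    rw [Real.le_log_iff_exp_le (by linarith)]
    have := Real.exp_one_lt_d9
    linarith
  have hlog2 : Real.log ((N : ℝ) + 2) ≤ Real.log ((N : ℝ) + 2) ^ 2 := by nlinarith
  have hL1 : 1 ≤ Real.log ((N : ℝ) + 2) ^ 2 := hlog.trans hlog2
  have hNL : 1 ≤ (N : ℝ) * Real.log ((N : ℝ) + 2) ^ 2 := by nlinarith
  have hmono : Real.exp (C * N * Real.log (N + 2) ^ 2) ≤
      Real.exp ((C + 1 + ((δ : ℝ) + 1)) * N * Real.log (N + 2) ^ 2) := by
    refine Real.exp_le_exp.2 ?_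
    have h0 : (0 : ℝ) ≤ (1 + ((δ : ℝ) + 1)) * ((N : ℝ) * Real.log ((N : ℝ) + 2) ^ 2) := by
      positivity
    nlinarith
  refine ⟨D, hD, hDb.trans hmono, ?_⟩
  intro n hn i hi a ha b hb e he
  have h1 := (Rep.int ω θ (i.factorial : ℤ)).mul (R n hn i hi a ha b hb e he) (Nat.succ_pos δ)
  have heq : (D * aeval θ D0 ^ (n + p) * ((i.factorial : ℂ) * J (g a b e) n i)) =
      (((i.factorial : ℤ) : ℂ)) * (D * aeval θ D0 ^ (n + p) * J (g a b e) n i) := by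
    push_cast
    ring
  rw [heq]
  refine h1.mono (le_of_eq (zero_add _)) ?_
  have hfac : |(((i.factorial : ℤ)) : ℝ)| ≤ Real.exp ((N : ℝ) * Real.log ((N : ℝ) + 2) ^ 2) := by
    rw [abs_of_nonneg (by positivity)]
    have h2 : (i.factorial : ℝ) ≤ ((N : ℝ) + 2) ^ N := by
      have h3 : i.factorial ≤ N ^ N := (Nat.factorial_le hi).trans (Nat.factorial_le_pow N)
      have h4 : N ^ N ≤ (N + 2) ^ N := Nat.pow_le_pow_left (by omega) N
      exact_mod_cast h3.trans h4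
    have h5 : ((N : ℝ) + 2) ^ N = Real.exp ((N : ℝ) * Real.log ((N : ℝ) + 2)) := by
      rw [← Real.exp_log (by linarith : (0 : ℝ) < (N : ℝ) + 2), ← Real.exp_nat_mul,
        Real.log_exp]
    push_cast
    calc (i.factorial : ℝ) ≤ ((N : ℝ) + 2) ^ N := h2
      _ = Real.exp ((N : ℝ) * Real.log ((N : ℝ) + 2)) := h5
      _ ≤ _ := Real.exp_le_exp.2 (mul_le_mul_of_nonneg_left hlog2 (by linarith))
  have hδ : ((δ + 1 : ℕ) : ℝ) ≤ Real.exp (((δ : ℝ) + 1) * ((N : ℝ) * Real.log ((N : ℝ) + 2) ^ 2)) := by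
    have h6 := Real.add_one_le_exp (((δ : ℝ) + 1) * ((N : ℝ) * Real.log ((N : ℝ) + 2) ^ 2))
    push_cast
    have h7 : (δ : ℝ) + 1 ≤ ((δ : ℝ) + 1) * ((N : ℝ) * Real.log ((N : ℝ) + 2) ^ 2) := by
      have h8 : (0 : ℝ) ≤ (δ : ℝ) + 1 := by positivity
      nlinarith
    linarith
  calc ((δ + 1 : ℕ) : ℝ) * |(((i.factorial : ℤ)) : ℝ)| * Real.exp (C * N * Real.log (N + 2) ^ 2)
      ≤ Real.exp (((δ : ℝ) + 1) * ((N : ℝ) * Real.log ((N : ℝ) + 2) ^ 2)) *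
        Real.exp ((N : ℝ) * Real.log ((N : ℝ) + 2) ^ 2) *
        Real.exp (C * N * Real.log (N + 2) ^ 2) := by
        refine mul_le_mul_of_nonneg_right ?_ (Real.exp_pos _).le
        exact mul_le_mul hδ hfac (abs_nonneg _) (Real.exp_pos _).le
    _ = _ := by
        rw [← Real.exp_add, ← Real.exp_add]
        congr 1
        ring

private theorem line_gen (c : Core) {r1 r2 μ : ℂ} {g1 g2 : ℕ → ℕ → ℕ → ℂ → ℂ → ℂ}
    (he1 : ∀ a b e, Ent2 (g1 a b e)) (he2 : ∀ a b e, Ent2 (g2 a b e))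
    (hF : ∀ (k a b e : ℕ) (l : ℂ), r1 ^ k * c.F k (l * (a * μ)) (l * (b * μ)) (l * (e * μ)) =
      iteratedDeriv k (g1 a b e l) 0)
    (hH : ∀ (j a b e : ℕ) (l : ℂ), r2 ^ j * c.H j (l * (a * μ)) (l * (b * μ)) (l * (e * μ)) =
      iteratedDeriv j (g2 a b e l) 0) (K : ℕ) (q : ℕ → ℕ → ℂ) (a b e n : ℕ) :
    iteratedDeriv n (fun t : ℂ => c.f K (fun k j => r1 ^ k * r2 ^ j * q k j)
        (t * (a * μ)) (t * (b * μ)) (t * (e * μ))) 0 / (n.factorial : ℂ) =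
      ∑ k ∈ range K, ∑ j ∈ range K, q k j * ∑ i ∈ range (n + 1),
        ((k.factorial : ℂ) * J (g1 a b e) i k) *
        ((j.factorial : ℂ) * J (g2 a b e) (n - i) j) := by
  set D : ℕ → ℂ → ℂ := fun k l => iteratedDeriv k (g1 a b e l) 0 with hD
  set E : ℕ → ℂ → ℂ := fun j l => iteratedDeriv j (g2 a b e l) 0 with hE
  have hDd : ∀ k, Differentiable ℂ (D k) := fun k => ent2_iteratedDeriv (he1 a b e) k
  have hEd : ∀ j, Differentiable ℂ (E j) := fun j => ent2_iteratedDeriv (he2 a b e) j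
  have hfun : (fun t : ℂ => c.f K (fun k j => r1 ^ k * r2 ^ j * q k j)
        (t * (a * μ)) (t * (b * μ)) (t * (e * μ))) =
      fun t => ∑ k ∈ range K, ∑ j ∈ range K, q k j * (D k t * E j t) := by
    funext t
    unfold Core.f
    refine Finset.sum_congr rfl fun k _ => Finset.sum_congr rfl fun j _ => ?_
    simp only [hD, hE]
    rw [← hF k a b e t, ← hH j a b e t]
    ring
  rw [hfun]
  have hterm : ∀ k j, ContDiffAt ℂ n (fun t => q k j * (D k t * E j t)) 0 := fun k j =>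
    (((hDd k).mul (hEd j)).const_mul (q k j)).contDiff.contDiffAt
  have hinner : ∀ k, ContDiffAt ℂ n (fun t => ∑ j ∈ range K, q k j * (D k t * E j t)) 0 :=
    fun k => ContDiffAt.sum fun j _ => hterm k j
  rw [iteratedDeriv_fun_sum (fun k _ => hinner k), Finset.sum_div]
  refine Finset.sum_congr rfl fun k _ => ?_
  rw [iteratedDeriv_fun_sum (fun j _ => hterm k j), Finset.sum_div]
  refine Finset.sum_congr rfl fun j _ => ?_
  rw [iteratedDeriv_const_mul_field, mul_div_assoc, leib (hDd k) (hEd j) n]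
  congr 1
  refine Finset.sum_congr rfl fun i _ => ?_
  have hk0 : ((k.factorial : ℕ) : ℂ) ≠ 0 := by exact_mod_cast k.factorial_ne_zero
  have hj0 : ((j.factorial : ℕ) : ℂ) ≠ 0 := by exact_mod_cast j.factorial_ne_zero
  have hi0 : ((i.factorial : ℕ) : ℂ) ≠ 0 := by exact_mod_cast i.factorial_ne_zero
  have hni0 : (((n - i).factorial : ℕ) : ℂ) ≠ 0 := by exact_mod_cast (n - i).factorial_ne_zero
  have f1 : (k.factorial : ℂ) * J (g1 a b e) i k = iteratedDeriv i (D k) 0 / (i.factorial : ℂ) := by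
    unfold J
    rw [hD]
    field_simp
  have f2 : (j.factorial : ℂ) * J (g2 a b e) (n - i) j =
      iteratedDeriv (n - i) (E j) 0 / ((n - i).factorial : ℂ) := by
    unfold J
    rw [hE]
    field_simp
  rw [f1, f2]

theorem rep_xiG {δ : ℕ} {ω : Fin (δ + 1) → ℂ} {θ : ℂ} {D0 : ℤ[X]} {E p q : ℕ} (c : Core)
    {r1 r2 μ : ℂ} {g1 g2 : ℕ → ℕ → ℕ → ℂ → ℂ → ℂ} (h1 : RepF δ ω θ D0 E p g1)
    (h2 : RepF δ ω θ D0 E q g2)
    (hF : ∀ (k a b e : ℕ) (l : ℂ), r1 ^ k * c.F k (l * (a * μ)) (l * (b * μ)) (l * (e * μ)) =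
      iteratedDeriv k (g1 a b e l) 0)
    (hH : ∀ (j a b e : ℕ) (l : ℂ), r2 ^ j * c.H j (l * (a * μ)) (l * (b * μ)) (l * (e * μ)) =
      iteratedDeriv j (g2 a b e l) 0) (C0 : ℕ) :
    ∃ C n0 : ℕ, ∀ n : ℕ, n0 ≤ n → ∀ N : ℕ → ℕ → ℕ → ℤ,
      (∀ k j d, |(N k j d : ℝ)| ≤ Real.exp ((n : ℝ) ^ 13)) →
      ∀ ν : ℕ, ν ≤ C0 * n ^ 8 → ∀ a b e : ℕ, a ≤ ν → b ≤ ν → e ≤ ν →
      ∃ D : ℕ, 0 < D ∧ (D : ℝ) ≤ Real.exp (C * (n : ℝ) ^ 13) ∧
        Rep (δ + 1) ω θ (D * aeval θ D0 ^ (ν + (p + q)) *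
          (iteratedDeriv ν (fun t : ℂ => c.f (n ^ 12) (pc r1 r2 θ (n ^ 8) N)
            (t * (a * μ)) (t * (b * μ)) (t * (e * μ))) 0 / (ν.factorial : ℂ)))
          (C * n ^ 8) (Real.exp (C * (n : ℝ) ^ 13)) := by
  obtain ⟨C1, hC1, H1⟩ := repF_fac h1
  obtain ⟨C2, hC2, H2⟩ := repF_fac h2
  have hC1n := Nat.le_ceil (1728 * C1)
  have hC2n := Nat.le_ceil (1728 * C2)
  set c1 : ℕ := ⌈1728 * C1⌉₊ with hc1
  set c2 : ℕ := ⌈1728 * C2⌉₊ with hc2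
  refine ⟨(1 + (C0 + (p + q)) * E) + ((C0 + 5) + (δ + 1) ^ 2) + c1 + c2, C0 + 1, ?_⟩
  intro n hn N hN ν hν a b e ha hb he
  have hn1 : 1 ≤ n := by omega
  have hnC : C0 ≤ n := by omega
  have hnr : (1 : ℝ) ≤ n := by exact_mod_cast hn1
  have hn13 : (1 : ℝ) ≤ (n : ℝ) ^ 13 := one_le_pow₀ hnr
  have hK1 : 1 ≤ n ^ 12 := Nat.one_le_pow _ _ hn1
  obtain ⟨D1, hD1, hD1b, R1⟩ := H1 (n ^ 12) hK1
  obtain ⟨D2, hD2, hD2b, R2⟩ := H2 (n ^ 12) hK1
  have hνK : ν ≤ n ^ 12 := by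
    have h1 : C0 ≤ n ^ 4 := hnC.trans (Nat.le_self_pow (by norm_num) n)
    calc ν ≤ C0 * n ^ 8 := hν
      _ ≤ n ^ 4 * n ^ 8 := Nat.mul_le_mul_right _ h1
      _ = n ^ 12 := by ring
  have L1 := exp_bd C1 hC1 n hn1
  have L2 := exp_bd C2 hC2 n hn1
  have L1' : Real.exp (1728 * C1 * (n : ℝ) ^ 13) ≤ Real.exp (c1 * (n : ℝ) ^ 13) :=
    Real.exp_le_exp.2 (mul_le_mul_of_nonneg_right hC1n (by linarith))
  have L2' : Real.exp (1728 * C2 * (n : ℝ) ^ 13) ≤ Real.exp (c2 * (n : ℝ) ^ 13) :=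
    Real.exp_le_exp.2 (mul_le_mul_of_nonneg_right hC2n (by linarith))
  have L1f := L1.trans L1'
  have L2f := L2.trans L2'
  refine ⟨D1 * D2, Nat.mul_pos hD1 hD2, ?_, ?_⟩
  · push_cast
    calc (D1 : ℝ) * D2 ≤ Real.exp (c1 * (n : ℝ) ^ 13) * Real.exp (c2 * (n : ℝ) ^ 13) :=
          mul_le_mul (hD1b.trans L1f) (hD2b.trans L2f) (Nat.cast_nonneg _) (Real.exp_pos _).le
      _ = Real.exp (c1 * (n : ℝ) ^ 13 + c2 * (n : ℝ) ^ 13) := (Real.exp_add _ _).symm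
      _ ≤ _ := by
          refine Real.exp_le_exp.2 ?_
          have h0 : (0 : ℝ) ≤ ((1 + ((C0 : ℝ) + (p + q)) * E) + (((C0 : ℝ) + 5) + ((δ : ℝ) + 1) ^ 2)) :=
            by positivity
          have h1 := mul_nonneg h0 (by linarith : (0 : ℝ) ≤ (n : ℝ) ^ 13)
          nlinarith
  -- the Taylor coefficient
  have hlc := line_gen c h1.1 h2.1 hF hH (n ^ 12)
    (fun k j => ∑ d ∈ range (n ^ 8), (N k j d : ℂ) * θ ^ d) a b e ν
  have hfun : (fun t : ℂ => c.f (n ^ 12) (pc r1 r2 θ (n ^ 8) N)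
      (t * (a * μ)) (t * (b * μ)) (t * (e * μ))) =
      (fun t : ℂ => c.f (n ^ 12) (fun k j => r1 ^ k * r2 ^ j *
        ∑ d ∈ range (n ^ 8), (N k j d : ℂ) * θ ^ d)
        (t * (a * μ)) (t * (b * μ)) (t * (e * μ))) := rfl
  rw [hfun, hlc]
  have haK : a ≤ n ^ 12 := ha.trans hνK
  have hbK : b ≤ n ^ 12 := hb.trans hνK
  have heK : e ≤ n ^ 12 := he.trans hνK
  -- the representation of each term
  have hterm : ∀ k ∈ range (n ^ 12), ∀ j ∈ range (n ^ 12), ∀ i ∈ range (ν + 1),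
      Rep (δ + 1) ω θ ((∑ d ∈ range (n ^ 8), (N k j d : ℂ) * θ ^ d) *
        ((D1 * aeval θ D0 ^ (i + p) * ((k.factorial : ℂ) *
          J (g1 a b e) i k)) *
        (D2 * aeval θ D0 ^ (ν - i + q) * ((j.factorial : ℂ) *
          J (g2 a b e) (ν - i) j))))
        (n ^ 8 + ((i + p) * E + (ν - i + q) * E))
        (((δ + 1 : ℕ) : ℝ) * (((n ^ 8 : ℕ) : ℝ) * Real.exp ((n : ℝ) ^ 13)) *
          (((δ + 1 : ℕ) : ℝ) * Real.exp (C1 * ((n ^ 12 : ℕ) : ℝ) *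
            Real.log (((n ^ 12 : ℕ) : ℝ) + 2) ^ 2) * Real.exp (C2 * ((n ^ 12 : ℕ) : ℝ) *
            Real.log (((n ^ 12 : ℕ) : ℝ) + 2) ^ 2))) := by
    intro k hk j hj i hi
    have hi' : i ≤ n ^ 12 := by
      have := Finset.mem_range.1 hi
      omega
    have hi2 : ν - i ≤ n ^ 12 := by omega
    exact (rep_q ω θ (n ^ 8) (fun d => N k j d) (Real.exp ((n : ℝ) ^ 13))
      (fun d => hN k j d)).mul
      ((R1 i hi' k (Finset.mem_range.1 hk).le a haK b hbK e heK).mul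
        (R2 (ν - i) hi2 j (Finset.mem_range.1 hj).le a haK b hbK e heK) (Nat.succ_pos δ))
          (Nat.succ_pos δ)
  have hsum := Rep.sum (range (n ^ 12)) fun k hk => Rep.sum (range (n ^ 12)) fun j hj =>
    Rep.sum (range (ν + 1)) fun i hi => (hterm k hk j hj i hi).mono
      (E' := n ^ 8 + (ν + (p + q)) * E) (by
        have hi' := Finset.mem_range.1 hi
        have h : (i + p) * E + (ν - i + q) * E = (ν + (p + q)) * E := by
          rw [← add_mul]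
          congr 1
          omega
        rw [h]) (le_refl _)
  rw [Finset.sum_const, Finset.sum_const, Finset.sum_const, Finset.card_range,
    Finset.card_range, nsmul_eq_mul, nsmul_eq_mul, nsmul_eq_mul] at hsum
  have hid : ((D1 * D2 : ℕ) : ℂ) * aeval θ D0 ^ (ν + (p + q)) *
      (∑ k ∈ range (n ^ 12), ∑ j ∈ range (n ^ 12),
        (∑ d ∈ range (n ^ 8), (N k j d : ℂ) * θ ^ d) * ∑ i ∈ range (ν + 1),
        ((k.factorial : ℂ) *
          J (g1 a b e) i k) *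
        ((j.factorial : ℂ) *
          J (g2 a b e) (ν - i) j)) =
      ∑ k ∈ range (n ^ 12), ∑ j ∈ range (n ^ 12), ∑ i ∈ range (ν + 1),
      ((∑ d ∈ range (n ^ 8), (N k j d : ℂ) * θ ^ d) *
        ((D1 * aeval θ D0 ^ (i + p) * ((k.factorial : ℂ) *
          J (g1 a b e) i k)) *
        (D2 * aeval θ D0 ^ (ν - i + q) * ((j.factorial : ℂ) *
          J (g2 a b e) (ν - i) j)))) := by
    rw [Finset.mul_sum]
    refine Finset.sum_congr rfl fun k _ => ?_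
    rw [Finset.mul_sum]
    refine Finset.sum_congr rfl fun j _ => ?_
    rw [Finset.mul_sum, Finset.mul_sum]
    refine Finset.sum_congr rfl fun i hi => ?_
    have hi' := Finset.mem_range.1 hi
    have hp : (aeval θ D0 : ℂ) ^ (ν + (p + q)) = aeval θ D0 ^ (i + p) * aeval θ D0 ^ (ν - i + q) := by
      rw [← pow_add]
      congr 1
      omega
    rw [hp]
    push_cast
    ring
  rw [← hid] at hsum
  refine hsum.mono ?_ ?_
  · -- degrees
    have h8 : 1 ≤ n ^ 8 := Nat.one_le_pow _ _ hn1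
    calc n ^ 8 + (ν + (p + q)) * E ≤ n ^ 8 + (C0 * n ^ 8 + (p + q) * n ^ 8) * E := by
          refine Nat.add_le_add_left (Nat.mul_le_mul_right _ ?_) _
          exact Nat.add_le_add hν (Nat.le_mul_of_pos_right _ h8)
      _ = (1 + (C0 + (p + q)) * E) * n ^ 8 := by ring
      _ ≤ _ := Nat.mul_le_mul_right _ (by omega)
  · -- lengths
    have hx : ∀ x : ℝ, x ≤ Real.exp x := fun x => by
      have := Real.add_one_le_exp x
      linarith
    have hpos : (0 : ℝ) ≤ (n : ℝ) ^ 13 := by linarith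
    have e1 : ((n ^ 12 : ℕ) : ℝ) ≤ Real.exp ((n : ℝ) ^ 13) := by
      refine le_trans ?_ (hx _)
      push_cast
      exact pow_le_pow_right₀ hnr (by norm_num)
    have e8 : ((n ^ 8 : ℕ) : ℝ) ≤ Real.exp ((n : ℝ) ^ 13) := by
      refine le_trans ?_ (hx _)
      push_cast
      exact pow_le_pow_right₀ hnr (by norm_num)
    have e8' : (n : ℝ) ^ 8 ≤ (n : ℝ) ^ 13 := pow_le_pow_right₀ hnr (by norm_num)
    have eν : ((ν + 1 : ℕ) : ℝ) ≤ Real.exp (((C0 : ℝ) + 1) * (n : ℝ) ^ 13) := by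
      refine le_trans ?_ (hx _)
      have h1 : (ν : ℝ) ≤ C0 * (n : ℝ) ^ 8 := by exact_mod_cast hν
      have h2 : (C0 : ℝ) * (n : ℝ) ^ 8 ≤ C0 * (n : ℝ) ^ 13 :=
        mul_le_mul_of_nonneg_left e8' (Nat.cast_nonneg _)
      push_cast
      linarith
    have eδ : (((δ + 1 : ℕ) : ℝ)) * (((δ + 1 : ℕ) : ℝ)) ≤
        Real.exp (((δ : ℝ) + 1) ^ 2 * (n : ℝ) ^ 13) := by
      refine le_trans ?_ (hx _)
      push_cast
      have h0 : (0 : ℝ) ≤ ((δ : ℝ) + 1) ^ 2 := by positivity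
      nlinarith
    have step : ((n ^ 12 : ℕ) : ℝ) * (((n ^ 12 : ℕ) : ℝ) * (((ν + 1 : ℕ) : ℝ) *
        (((δ + 1 : ℕ) : ℝ) * (((n ^ 8 : ℕ) : ℝ) * Real.exp ((n : ℝ) ^ 13)) *
          (((δ + 1 : ℕ) : ℝ) * Real.exp (C1 * ((n ^ 12 : ℕ) : ℝ) *
            Real.log (((n ^ 12 : ℕ) : ℝ) + 2) ^ 2) * Real.exp (C2 * ((n ^ 12 : ℕ) : ℝ) *
            Real.log (((n ^ 12 : ℕ) : ℝ) + 2) ^ 2))))) ≤
        Real.exp ((n : ℝ) ^ 13) * (Real.exp ((n : ℝ) ^ 13) *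
          (Real.exp (((C0 : ℝ) + 1) * (n : ℝ) ^ 13) *
          (Real.exp (((δ : ℝ) + 1) ^ 2 * (n : ℝ) ^ 13) *
            ((Real.exp ((n : ℝ) ^ 13) * Real.exp ((n : ℝ) ^ 13)) *
              (Real.exp (c1 * (n : ℝ) ^ 13) * Real.exp (c2 * (n : ℝ) ^ 13)))))) := by
      have hin : (((δ + 1 : ℕ) : ℝ) * (((n ^ 8 : ℕ) : ℝ) * Real.exp ((n : ℝ) ^ 13)) *
          (((δ + 1 : ℕ) : ℝ) * Real.exp (C1 * ((n ^ 12 : ℕ) : ℝ) *
            Real.log (((n ^ 12 : ℕ) : ℝ) + 2) ^ 2) * Real.exp (C2 * ((n ^ 12 : ℕ) : ℝ) *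
            Real.log (((n ^ 12 : ℕ) : ℝ) + 2) ^ 2))) =
          (((δ + 1 : ℕ) : ℝ) * ((δ + 1 : ℕ) : ℝ)) *
            ((((n ^ 8 : ℕ) : ℝ) * Real.exp ((n : ℝ) ^ 13)) *
            (Real.exp (C1 * ((n ^ 12 : ℕ) : ℝ) *
            Real.log (((n ^ 12 : ℕ) : ℝ) + 2) ^ 2) * Real.exp (C2 * ((n ^ 12 : ℕ) : ℝ) *
            Real.log (((n ^ 12 : ℕ) : ℝ) + 2) ^ 2))) := by ring
      rw [hin]
      refine mul_le_mul e1 ?_ (by positivity) (Real.exp_pos _).le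
      refine mul_le_mul e1 ?_ (by positivity) (Real.exp_pos _).le
      refine mul_le_mul eν ?_ (by positivity) (Real.exp_pos _).le
      refine mul_le_mul eδ ?_ (by positivity) (Real.exp_pos _).le
      refine mul_le_mul (mul_le_mul e8 (le_refl _) (Real.exp_pos _).le (Real.exp_pos _).le) ?_
        (by positivity) (by positivity)
      exact mul_le_mul L1f L2f (Real.exp_pos _).le (Real.exp_pos _).le
    refine le_trans step ?_
    rw [← Real.exp_add, ← Real.exp_add, ← Real.exp_add, ← Real.exp_add, ← Real.exp_add,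
      ← Real.exp_add, ← Real.exp_add]
    refine Real.exp_le_exp.2 ?_
    push_cast
    have h0 : (0 : ℝ) ≤ (1 + ((C0 : ℝ) + (p + q)) * E) := by positivity
    have h1 := mul_nonneg h0 hpos
    nlinarith

end Pool.Agent.RO5
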