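import Pool.Agent.RO5.Fin5
import Pool.Agent.RHK.FLine

/-!
RO5-Z5. The levels 5, 8, 10, 12: two of the numbers `Γ(j/D)/√π` are algebraically independent.
-/

set_option autoImplicit false

namespace Pool.Agent.RO5

open Complex Finset IntermediateField Pool.Agent.ROH Pool.Agent.ROH8 Pool.Agent.GP.DedM
open Pool.Agent.RHK (Ind)

/-- a pair of algebraically independent gamma values of level `D` -/
theorem ind_pair {D i j : ℕ} (hD : 2 < D) (hi : 0 < i ∧ i < D) (hj : 0 < j ∧ j < D) (hij : i ≠ j)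
    (h : AlgebraicIndependent ℚ
      ![Real.Gamma ((i : ℝ) / D) / Real.sqrt Real.pi, Real.Gamma ((j : ℝ) / D) / Real.sqrt Real.pi]) :
    Ind D {i, j} := by
  refine ⟨hD, ?_, ?_⟩
  · intro k hk
    rw [mem_insert, mem_singleton] at hk
    rcases hk with rfl | rfl
    · exact hi
    · exact hj
  · -- reindex by the map `{i, j} → Fin 2`
    have hinj : Function.Injective
        (fun k : (({i, j} : Finset ℕ) : Finset ℕ) => (if (k : ℕ) = i then 0 else 1 : Fin 2)) := by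
      rintro ⟨k, hk⟩ ⟨l, hl⟩ hkl
      rw [mem_insert, mem_singleton] at hk hl
      simp only [Subtype.mk.injEq]
      rcases hk with rfl | rfl <;> rcases hl with rfl | rfl
      · rfl
      · simp [hij.symm] at hkl
      · simp [hij.symm] at hkl
      · rfl
    have h1 := h.comp _ hinj
    have e : (fun k : (({i, j} : Finset ℕ) : Finset ℕ) =>
        Real.Gamma ((k : ℕ) / D) / Real.sqrt Real.pi) =
        (![Real.Gamma ((i : ℝ) / D) / Real.sqrt Real.pi,
          Real.Gamma ((j : ℝ) / D) / Real.sqrt Real.pi] : Fin 2 → ℝ) ∘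
          (fun k : (({i, j} : Finset ℕ) : Finset ℕ) => (if (k : ℕ) = i then 0 else 1 : Fin 2)) := by
      funext ⟨k, hk⟩
      rw [mem_insert, mem_singleton] at hk
      rcases hk with rfl | rfl
      · simp
      · simp [hij.symm]
    rw [e]
    exact h1

theorem ind_D5 : Ind 5 {1, 2} := by
  refine ind_pair (by norm_num) (by norm_num) (by norm_num) (by norm_num) ?_
  have h := ind5
  push_cast
  exact h

theorem ind_D10 : Ind 10 {2, 4} := by
  refine ind_pair (by norm_num) (by norm_num) (by norm_num) (by norm_num) ?_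
  have h := ind5
  have e1 : (((2 : ℕ) : ℝ) / ((10 : ℕ) : ℝ)) = 1 / 5 := by norm_num
  have e2 : (((4 : ℕ) : ℝ) / ((10 : ℕ) : ℝ)) = 2 / 5 := by norm_num
  rw [e1, e2]
  exact h

theorem ind_D12 : Ind 12 {3, 4} := by
  refine ind_pair (by norm_num) (by norm_num) (by norm_num) (by norm_num) ?_
  have h := ind13
  have e1 : (((3 : ℕ) : ℝ) / ((12 : ℕ) : ℝ)) = 1 / 4 := by norm_num
  have e2 : (((4 : ℕ) : ℝ) / ((12 : ℕ) : ℝ)) = 1 / 3 := by norm_num
  rw [e1, e2]
  exact h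

/-- `Γ(3/8)` is an algebraic multiple of `√π Γ(1/8) / Γ(1/4)` -/
theorem gamma38 : ∃ α : ℝ, IsAlgebraic ℚ α ∧
    Real.Gamma (3 / 8) = α * (Real.sqrt Real.pi * Real.Gamma (1 / 8) / Real.Gamma (1 / 4)) := by
  have hpi := Real.pi_pos
  have hsp : 0 < Real.sqrt Real.pi := Real.sqrt_pos.2 hpi
  have h1 := Real.Gamma_mul_Gamma_add_half (3 / 8)
  have h2 := Real.Gamma_mul_Gamma_one_sub (1 / 8)
  have h3 := Real.Gamma_mul_Gamma_one_sub (1 / 4)
  have e1 : (3 / 8 : ℝ) + 1 / 2 = 7 / 8 := by norm_num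
  have e2 : (1 : ℝ) - 1 / 8 = 7 / 8 := by norm_num
  have e3 : (1 : ℝ) - 1 / 4 = 3 / 4 := by norm_num
  have e4 : 2 * (3 / 8 : ℝ) = 3 / 4 := by norm_num
  have e5 : (1 : ℝ) - 3 / 4 = 1 / 4 := by norm_num
  rw [e1, e4, e5] at h1
  rw [e2] at h2
  rw [e3] at h3
  have g1 : 0 < Real.Gamma (1 / 8) := Real.Gamma_pos_of_pos (by norm_num)
  have g4 : 0 < Real.Gamma (1 / 4) := Real.Gamma_pos_of_pos (by norm_num)
  have g7 : 0 < Real.Gamma (7 / 8) := Real.Gamma_pos_of_pos (by norm_num)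
  have s1 : 0 < Real.sin (Real.pi * (1 / 8)) :=
    Real.sin_pos_of_pos_of_lt_pi (by positivity) (by nlinarith)
  have s2 : 0 < Real.sin (Real.pi * (1 / 4)) :=
    Real.sin_pos_of_pos_of_lt_pi (by positivity) (by nlinarith)
  have a1 : IsAlgebraic ℚ (Real.sin (Real.pi * (1 / 8))) := by
    have h := (IsFractionRing.isAlgebraic_iff ℤ ℚ ℝ).1 (Real.isAlgebraic_sin_rat_mul_pi (1 / 8))
    have e : ((1 / 8 : ℚ) : ℝ) * Real.pi = Real.pi * (1 / 8) := by push_cast; ring
    rwa [e] at h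
  have a2 : IsAlgebraic ℚ (Real.sin (Real.pi * (1 / 4))) := by
    have h := (IsFractionRing.isAlgebraic_iff ℤ ℚ ℝ).1 (Real.isAlgebraic_sin_rat_mul_pi (1 / 4))
    have e : ((1 / 4 : ℚ) : ℝ) * Real.pi = Real.pi * (1 / 4) := by push_cast; ring
    rwa [e] at h
  have a3 : IsAlgebraic ℚ ((2 : ℝ) ^ (1 / 4 : ℝ)) := by
    refine IsAlgebraic.of_pow (n := 4) (by norm_num) ?_
    rw [← Real.rpow_natCast, ← Real.rpow_mul (by norm_num)]
    norm_num
    exact_mod_cast isAlgebraic_natCast (R := ℚ) (A := ℝ) 2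
  refine ⟨(2 : ℝ) ^ (1 / 4 : ℝ) * Real.sin (Real.pi * (1 / 8)) *
    (Real.sin (Real.pi * (1 / 4)))⁻¹, (a3.mul a1).mul a2.inv, ?_⟩
  have f7 : Real.Gamma (7 / 8) = Real.pi / Real.sin (Real.pi * (1 / 8)) / Real.Gamma (1 / 8) := by
    rw [eq_div_iff g1.ne', mul_comm]
    exact h2
  have f3 : Real.Gamma (3 / 4) = Real.pi / Real.sin (Real.pi * (1 / 4)) / Real.Gamma (1 / 4) := by
    rw [eq_div_iff g4.ne', mul_comm]
    exact h3
  have f1 : Real.Gamma (3 / 8) = Real.Gamma (3 / 4) * 2 ^ (1 / 4 : ℝ) * Real.sqrt Real.pi /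
      Real.Gamma (7 / 8) := by
    rw [eq_div_iff g7.ne']
    exact h1
  rw [f1, f7, f3]
  field_simp

theorem ind_D8 : Ind 8 {2, 1} := by
  refine ind_pair (by norm_num) (by norm_num) (by norm_num) (by norm_num) ?_
  have e1 : (((2 : ℕ) : ℝ) / ((8 : ℕ) : ℝ)) = 1 / 4 := by norm_num
  have e2 : (((1 : ℕ) : ℝ) / ((8 : ℕ) : ℝ)) = 1 / 8 := by norm_num
  rw [e1, e2]
  have hpi := Real.pi_pos
  have hsp : 0 < Real.sqrt Real.pi := Real.sqrt_pos.2 hpi
  have hs2 : Real.sqrt Real.pi ^ 2 = Real.pi := Real.sq_sqrt hpi.le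
  have g1 : 0 < Real.Gamma (1 / 8) := Real.Gamma_pos_of_pos (by norm_num)
  have g4 : 0 < Real.Gamma (1 / 4) := Real.Gamma_pos_of_pos (by norm_num)
  set x := Real.Gamma (1 / 4) / Real.sqrt Real.pi with hx
  set u := Real.Gamma (1 / 8) / Real.sqrt Real.pi with hu
  have hxT : Transcendental ℚ x := by
    have h := ind12.transcendental 0
    exact h
  have hxself := self_alg (x : ℂ)
  have h2 := not_both ind12 hxself
  apply algInd2 hxT
  intro hua
  apply h2
  obtain ⟨α, hα, e⟩ := gamma38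
  have e3 : Real.Gamma (1 / 8) * Real.Gamma (3 / 8) / Real.pi = α * (u ^ 2 * x⁻¹) := by
    have e4 : Real.Gamma (1 / 8) = u * Real.sqrt Real.pi := by
      rw [hu]; field_simp
    have e5 : Real.Gamma (1 / 4) = x * Real.sqrt Real.pi := by
      rw [hx]; field_simp
    have hx0 : 0 < x := div_pos g4 hsp
    rw [e, e4, e5, div_eq_iff hpi.ne']
    have h5 : Real.sqrt Real.pi * (u * Real.sqrt Real.pi) / (x * Real.sqrt Real.pi) =
        u * Real.sqrt Real.pi * x⁻¹ := by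
      field_simp
    rw [h5]
    linear_combination (u ^ 2 * α * x⁻¹) * hs2
  rw [e3]
  push_cast
  exact (alg_up hα).mul ((hua.pow 2).mul hxself.inv)

end Pool.Agent.RO5
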